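import Pool.Agent.Lib.MP_607584_al.Bridge2

/-! Blocks of transvections. -/

namespace Pool.Agent.Lib.MP_607584_al

open Subgroup

variable {G : Type*} [Group G]

/-- elements centralising `u` modulo `Y` -/
def C1 (u : G) (Y : Subgroup G) : Subgroup G where
  carrier := {g | g ∈ normalizer (Y : Set G) ∧ g * u * g⁻¹ * u⁻¹ ∈ Y}
  one_mem' := ⟨one_mem _, by simp⟩
  mul_mem' := by
    rintro a b ⟨ha, ha'⟩ ⟨hb, hb'⟩
    refine ⟨mul_mem ha hb, ?_⟩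
    have : a * b * u * (a * b)⁻¹ * u⁻¹ =
        a * (b * u * b⁻¹ * u⁻¹) * a⁻¹ * (a * u * a⁻¹ * u⁻¹) := by group
    rw [this]
    exact mul_mem (nz_conj ha hb') ha'
  inv_mem' := by
    rintro a ⟨ha, ha'⟩
    refine ⟨inv_mem ha, ?_⟩
    have : a⁻¹ * u * a⁻¹⁻¹ * u⁻¹ = a⁻¹ * (a * u * a⁻¹ * u⁻¹)⁻¹ * a := by group
    rw [this]
    exact nz_conj' ha (inv_mem ha')

/-- elements of an abelian group whose commutator with `a` lies in `X` -/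
def C2 {U : Subgroup G} (hU : U ≤ Cn U) {a : G} (ha : a ∈ normalizer (U : Set G))
    (X : Subgroup G) : Subgroup G where
  carrier := {u | u ∈ U ∧ a * u * a⁻¹ * u⁻¹ ∈ X}
  one_mem' := ⟨one_mem _, by simp⟩
  mul_mem' := by
    rintro u v ⟨hu, hu'⟩ ⟨hv, hv'⟩
    refine ⟨mul_mem hu hv, ?_⟩
    have h1 := mem_Cn.1 (hU (U.mul_mem (nz_conj ha hv) (U.inv_mem hv))) u hu
    have : a * (u * v) * a⁻¹ * (u * v)⁻¹ = a * u * a⁻¹ * u⁻¹ * (a * v * a⁻¹ * v⁻¹) := by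
      calc a * (u * v) * a⁻¹ * (u * v)⁻¹
          = a * u * a⁻¹ * u⁻¹ * (u * (a * v * a⁻¹ * v⁻¹)) * u⁻¹ := by group
        _ = _ := by rw [h1]; group
    rw [this]
    exact mul_mem hu' hv'
  inv_mem' := by
    rintro u ⟨hu, hu'⟩
    refine ⟨inv_mem hu, ?_⟩
    have h1 := mem_Cn.1 (hU (nz_conj ha (U.inv_mem hu))) u hu
    have : a * u⁻¹ * a⁻¹ * u⁻¹⁻¹ = (a * u * a⁻¹ * u⁻¹)⁻¹ := by
      rw [inv_inv, ← h1]; group
    rw [this]
    exact inv_mem hu'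

theorem comm_congr {U : Subgroup G} {a b z : G} (h : b⁻¹ * a ∈ Cn U) (hz : z ∈ U) :
    a * z * a⁻¹ * z⁻¹ = b * z * b⁻¹ * z⁻¹ := by
  have h1 := mem_Cn.1 h z hz
  calc a * z * a⁻¹ * z⁻¹ = b * (b⁻¹ * a * z) * a⁻¹ * z⁻¹ := by group
    _ = _ := by rw [← h1]; group

theorem TrS.congr {U Y : Subgroup G} {a b w : G} (h : TrS U Y a w) (hb : b⁻¹ * a ∈ Cn U) :
    TrS U Y b w :=
  ⟨h.mem, h.ne, fun z hz => comm_congr hb hz ▸ h.app z hz,
    h.ex.elim fun z ⟨h1, h2⟩ => ⟨z, h1, comm_congr hb h1 ▸ h2⟩⟩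

/-- the relation between transvections -/
def Ar (U Y R P : Subgroup G) (a b : G) : Prop :=
  a ∈ P ∧ (∃ w, TrS U Y a w) ∧ b ∈ P ∧ ∃ w, TrS U Y b w ∧ ∃ r ∈ R, ¬ Commute a (r * w * r⁻¹)

/-- the blocks -/
def Rc (U Y R P : Subgroup G) : G → G → Prop := Relation.ReflTransGen (Ar U Y R P)

/-- the commutator subgroup of a block -/
def Mc (U Y R P : Subgroup G) (a : G) : Subgroup G :=
  closure {k | ∃ b z, Rc U Y R P a b ∧ z ∈ U ∧ k = b * z * b⁻¹ * z⁻¹}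

/-- membership modulo the centraliser -/
def Md (U X : Subgroup G) (a : G) : Prop := ∃ ξ ∈ X, ξ⁻¹ * a ∈ Cn U

variable {p : ℕ} {U Y A R D P B X : Subgroup G} {a b w : G}

theorem Ar.conj (h : Ar U Y R P a b) (g : G) :
    Ar (cj g U) (cj g Y) (cj g R) (cj g P) (g * a * g⁻¹) (g * b * g⁻¹) := by
  obtain ⟨h1, ⟨w, h2⟩, h3, w', h4, r, hr, h5⟩ := h
  refine ⟨conj_mem_cj h1, ⟨_, h2.conj g⟩, conj_mem_cj h3, _, h4.conj g, _, conj_mem_cj hr,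
    fun h6 => h5 ?_⟩
  simpa [mul_assoc] using commute_conj g⁻¹ h6

theorem Rc.conj (h : Rc U Y R P a b) (g : G) :
    Rc (cj g U) (cj g Y) (cj g R) (cj g P) (g * a * g⁻¹) (g * b * g⁻¹) := by
  induction h with
  | refl => exact Relation.ReflTransGen.refl
  | tail _ h ih => exact Relation.ReflTransGen.tail ih (h.conj g)

theorem cj_Mc (g : G) (U Y R P : Subgroup G) (a : G) :
    cj g (Mc U Y R P a) = Mc (cj g U) (cj g Y) (cj g R) (cj g P) (g * a * g⁻¹) := by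
  refine cj_closure g _ _ fun k => ?_
  constructor
  · rintro ⟨b, z, h1, h2, rfl⟩
    have h3 := h1.conj g⁻¹
    simp only [cj_inv_cj] at h3
    exact ⟨g⁻¹ * b * g, g⁻¹ * z * g, by simpa [mul_assoc] using h3, mem_cj.1 h2, by group⟩
  · rintro ⟨b, z, h1, h2, e⟩
    refine ⟨_, _, h1.conj g, conj_mem_cj h2, ?_⟩
    calc k = g * (g⁻¹ * k * g) * g⁻¹ := by group
      _ = _ := by rw [e]; group

theorem Rc.tv (h : Rc U Y R P a b) (ha : a ∈ P) (hw : ∃ w, TrS U Y a w) :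
    b ∈ P ∧ ∃ w, TrS U Y b w := by
  induction h with
  | refl => exact ⟨ha, hw⟩
  | tail _ h _ => exact ⟨h.2.2.1, h.2.2.2.imp fun _ h => h.1⟩

/-- the standing hypotheses -/
structure Blk (p : ℕ) (U Y A R D P B : Subgroup G) : Prop extends PrS p U Y A R D P where
  finA : Finite A
  hBA : B ≤ A
  hBP : B ≤ normalizer (P : Set G)
  hAR : A ≤ normalizer (R : Set G)
  dec : ∀ g ∈ A, ∃ b ∈ B, ∃ r ∈ R, g = b * r
  min : ∀ W ≤ U, A ≤ normalizer (W : Set G) → ∀ w ∈ W, w ∉ Y → U ≤ W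
  hRY : Y ≤ Cn R
  crit : ∃ X, Ex p U P X ∧ ¬ X ≤ Cn U

theorem PrS.same (H : PrS p U Y A R D P) (h : TrS U Y a w) (ha : a ∈ P) {w' : G}
    (h' : TrS U Y b w') (hb : b ∈ P) (hw : w ∈ zpowers w' ⊔ Y) :
    ∃ j : ℕ, (a ^ j)⁻¹ * b ∈ Cn U := by
  rcases H.dich h ha h' hb with h1 | h1
  · exact h1.2
  exfalso
  have h2 : TrS U Y b w := ⟨h.mem, h.ne, fun z hz => (sup_le (zpowers_le.2
    (H.line_symm h'.mem hw h.ne)) le_sup_right : _ ≤ zpowers w ⊔ Y) (h'.app z hz), h'.ex⟩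
  obtain ⟨r, hr, h3⟩ := H.exists_r h2 hb
  exact h3 (h1 r hr)

theorem PrS.recentre (H : PrS p U Y A R D P) (h : TrS U Y a w) {u : G} (hu : u ∈ zpowers w ⊔ Y)
    (hu' : u ∉ Y) : TrS U Y a u :=
  ⟨(sup_le (zpowers_le.2 h.mem) H.le) hu, hu', fun z hz => (sup_le (zpowers_le.2
    (H.line_symm h.mem hu hu')) le_sup_right : _ ≤ zpowers u ⊔ Y) (h.app z hz), h.ex⟩

theorem PrS.exists_tv (H : PrS p U Y A R D P) (hX : Ex p U P X) (h : ¬ X ≤ Cn U) :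
    ∃ a ∈ X, ∃ w, TrS U Y a w := by
  by_contra hcon
  exact h (H.genX hX (fun t ht hw => absurd ⟨t, ht, hw⟩ hcon) inf_le_right)

theorem PrS.fwd0 (H : PrS p U Y A R D P) (hX : Ex p U P X) (h : TrS U Y a w) (ha : a ∈ P)
    (hm : ¬ Md U X a) {r : G} (hr : r ∈ R) : r * w * r⁻¹ ∈ Cn X := by
  have hu := nz_conj (H.hU (H.hRA hr)) h.mem
  refine H.cent hX hu fun ξ hξ => (H.genX hX (L := C1 (r * w * r⁻¹) Y) ?_ ?_ hξ).2
  · rintro t ht ⟨w', h'⟩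
    refine ⟨H.hY (H.hPA (hX.le ht)), ?_⟩
    rcases H.dich h ha h' (hX.le ht) with h1 | h1
    · obtain ⟨j, hj⟩ := H.same h' (hX.le ht) h ha h1.1
      exact absurd ⟨_, X.pow_mem ht j, hj⟩ hm
    · exact h1 r hr
  · exact fun g hg => ⟨H.hY (H.hPA (hX.le hg.1)), (Cn_le_Cs H.le hg.2).2 _ hu⟩

theorem PrS.fwd (H : PrS p U Y A R D P) (hX : Ex p U P X) (hm : Md U X a) (h : Rc U Y R P a b) :
    Md U X b := by
  induction h with
  | refl => exact hm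
  | tail _ h ih =>
    by_contra hcon
    obtain ⟨-, -, h3, w, h4, r, hr, h5⟩ := h
    obtain ⟨ξ, hξ, h6⟩ := ih
    have hu := nz_conj (H.hU (H.hRA hr)) h4.mem
    refine h5 (of_comm_one ?_)
    rw [comm_congr h6 hu]
    exact comm_one (mem_Cn.1 (H.fwd0 hX h4 h3 hcon hr) ξ hξ)

namespace Blk

variable (H : Blk p U Y A R D P B)
include H

theorem gen_w (hw : w ∈ U) (hw' : w ∉ Y) {L : Subgroup G}
    (hL : ∀ b ∈ B, ∀ r ∈ R, r * (b * w * b⁻¹) * r⁻¹ ∈ L) : U ≤ L := by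
  refine (H.min (closure {k | ∃ g ∈ A, k = g * w * g⁻¹}) ((closure_le _).2 ?_)
    (fun a ha => mem_nz.2 (cj_closure a _ _ fun k => ?_)) w
    (subset_closure ⟨1, one_mem _, by group⟩) hw').trans ((closure_le _).2 ?_)
  · rintro _ ⟨g, hg, rfl⟩
    exact nz_conj (H.hU hg) hw
  · constructor
    · rintro ⟨g, hg, rfl⟩
      exact ⟨a⁻¹ * g, A.mul_mem (A.inv_mem ha) hg, by group⟩
    · rintro ⟨g, hg, h1⟩
      refine ⟨a * g, A.mul_mem ha hg, ?_⟩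
      calc k = a * (a⁻¹ * k * a) * a⁻¹ := by group
        _ = _ := by rw [h1]; group
  · rintro _ ⟨g, hg, rfl⟩
    obtain ⟨b, hb, r, hr, rfl⟩ := H.dec g hg
    have := hL b hb _ (nz_conj (H.hAR (H.hBA hb)) hr)
    rw [SetLike.mem_coe]
    convert this using 1
    group

theorem trB (h : TrS U Y a w) {g : G} (hg : g ∈ A) : TrS U Y (g * a * g⁻¹) (g * w * g⁻¹) := by
  have := h.conj g
  rwa [mem_nz.1 (H.hU hg), mem_nz.1 (H.hY hg)] at this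

theorem arB (h : Ar U Y R P a b) {g : G} (hg : g ∈ B) : Ar U Y R P (g * a * g⁻¹) (g * b * g⁻¹) := by
  have := h.conj g
  rwa [mem_nz.1 (H.hU (H.hBA hg)), mem_nz.1 (H.hY (H.hBA hg)), mem_nz.1 (H.hAR (H.hBA hg)),
    mem_nz.1 (H.hBP hg)] at this

theorem trans (h : TrS U Y a w) (ha : a ∈ P) {w' : G} (h' : TrS U Y b w') (hb : b ∈ P) :
    ∃ g ∈ B, w' ∈ zpowers (g * w * g⁻¹) ⊔ Y ∧ ∃ j : ℕ, ((g * a * g⁻¹) ^ j)⁻¹ * b ∈ Cn U := by
  by_contra hcon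
  obtain ⟨z, hz, h1⟩ := h'.ex
  refine h1 (H.gen_w h.mem h.ne (L := C2 H.ab (H.hU (H.hPA hb)) Y) (fun g hg r hr => ?_) hz).2
  have h2 := H.trB h (H.hBA hg)
  refine ⟨nz_conj (H.hU (H.hRA hr)) h2.mem, ?_⟩
  rcases H.dich h2 (nz_conj (H.hBP hg) ha) h' hb with h3 | h3
  · exact absurd ⟨g, hg, h3⟩ hcon
  · exact h3 r hr

theorem centY (h : TrS U Y a w) (ha : a ∈ P) : a ∈ Cn Y := by
  obtain ⟨X, hX, h1⟩ := H.crit
  obtain ⟨a0, h2, w0, h3⟩ := H.exists_tv hX h1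
  obtain ⟨g, hg, -, j, hj⟩ := H.trans h3 (hX.le h2) h ha
  have h4 : a0 ∈ Cn Y := mem_Cn.2 fun y hy => (mem_Cn.1 (H.cent hX (H.le hy) fun ξ hξ =>
    Y.mul_mem (nz_conj (H.hY (H.hPA (hX.le hξ))) hy) (Y.inv_mem hy)) a0 h2).symm
  have h5 := (Cn Y).pow_mem (nz_conj (nz_Cn (H.hY (H.hBA hg))) h4) j
  have h6 : ((g * a0 * g⁻¹) ^ j)⁻¹ * a ∈ Cn Y := mem_Cn.2 fun y hy => mem_Cn.1 hj y (H.le hy)
  have h7 := (Cn Y).mul_mem h5 h6
  rwa [mul_inv_cancel_left] at h7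

theorem cen_line (ha : a ∈ Cn Y) {r u : G} (hr : r ∈ R) (h : Commute a (r * w * r⁻¹))
    (hu : u ∈ zpowers w ⊔ Y) : Commute a (r * u * r⁻¹) := by
  have : zpowers w ⊔ Y ≤ cj r⁻¹ (centralizer {a}) := by
    refine sup_le (zpowers_le.2 ?_) fun y hy => ?_
    · rw [mem_cj, inv_inv, mem_centralizer_singleton_iff]; exact h.eq.symm
    · rw [mem_cj, inv_inv, mem_centralizer_singleton_iff]
      exact mem_Cn.1 ha _ (nz_conj (H.hY (H.hRA hr)) hy)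
  have h1 := this hu
  rw [mem_cj, inv_inv, mem_centralizer_singleton_iff] at h1
  exact h1.symm

theorem ar_of_line (h : TrS U Y a w) (ha : a ∈ P) {w' : G} (h' : TrS U Y b w') (hb : b ∈ P)
    (hw : w ∈ zpowers w' ⊔ Y) : Ar U Y R P a b := by
  obtain ⟨r, hr, h1⟩ := H.exists_r h ha
  refine ⟨ha, ⟨w, h⟩, hb, w', h', r, hr, fun h2 => h1 ?_⟩
  rw [comm_one (H.cen_line (H.centY h ha) hr h2 hw)]
  exact Y.one_mem

theorem ar_symm (h : Ar U Y R P a b) : Rc U Y R P b a := by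
  obtain ⟨h1, ⟨w, h2⟩, h3, w', h4, r, hr, h5⟩ := h
  obtain ⟨g, hg, h6, -⟩ := H.trans h2 h1 h4 h3
  have h7 := H.trB h2 (H.hBA hg)
  have h8 := nz_conj (H.hBP hg) h1
  have a1 : Ar U Y R P b (g * a * g⁻¹) := H.ar_of_line h4 h3 h7 h8 h6
  have a2 : Ar U Y R P a (g * a * g⁻¹) :=
    ⟨h1, ⟨w, h2⟩, h8, _, h7, r, hr, fun h9 => h5 (H.cen_line (H.centY h2 h1) hr h9 h6)⟩
  have key : ∀ k : ℕ, Rc U Y R P b (g ^ (k + 1) * a * (g ^ (k + 1))⁻¹) := by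
    intro k
    induction k with
    | zero => rw [zero_add, pow_one]; exact Relation.ReflTransGen.single a1
    | succ k ih =>
      refine Relation.ReflTransGen.tail ih ?_
      have := H.arB a2 (B.pow_mem hg (k + 1))
      convert this using 1
      rw [pow_succ g (k + 1)]; group
  have := H.finA
  have hfo : IsOfFinOrder g :=
    A.subtype.isOfFinOrder (isOfFinOrder_of_finite (⟨g, H.hBA hg⟩ : A))
  have h9 := key (orderOf g - 1)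
  rw [Nat.sub_add_cancel hfo.orderOf_pos, pow_orderOf_eq_one] at h9
  simpa using h9

theorem rc_symm (h : Rc U Y R P a b) : Rc U Y R P b a := by
  induction h with
  | refl => exact Relation.ReflTransGen.refl
  | tail _ h ih => exact Relation.ReflTransGen.trans (H.ar_symm h) ih

theorem Mc_eq (h : Rc U Y R P a b) : Mc U Y R P a = Mc U Y R P b := by
  unfold Mc
  congr 1
  ext k
  exact ⟨fun ⟨c, z, h1, h2⟩ => ⟨c, z, Relation.ReflTransGen.trans (H.rc_symm h) h1, h2⟩,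
    fun ⟨c, z, h1, h2⟩ => ⟨c, z, Relation.ReflTransGen.trans h h1, h2⟩⟩

theorem Mc_le (ha : a ∈ P) (hw : ∃ w, TrS U Y a w) : Mc U Y R P a ≤ U := by
  refine (closure_le _).2 ?_
  rintro _ ⟨b, z, h1, hz, rfl⟩
  exact U.mul_mem (nz_conj (H.hU (H.hPA (h1.tv ha hw).1)) hz) (U.inv_mem hz)

theorem Mc_le_X (hX : Ex p U P X) (hn : U ≤ normalizer (X : Set G)) (hm : Md U X a) :
    Mc U Y R P a ≤ X := by
  refine (closure_le _).2 ?_
  rintro _ ⟨b, z, h1, hz, rfl⟩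
  obtain ⟨ξ, hξ, h2⟩ := H.fwd hX hm h1
  have : ξ * z * ξ⁻¹ * z⁻¹ = ξ * (z * ξ⁻¹ * z⁻¹) := by group
  rw [SetLike.mem_coe, comm_congr h2 hz, this]
  exact X.mul_mem hξ (nz_conj (hn hz) (X.inv_mem hξ))

theorem Mc_cent (h : TrS U Y a w) (ha : a ∈ P) (hb : b ∈ P) (hw : ∃ w, TrS U Y b w)
    (hn : ¬ Rc U Y R P a b) {r : G} (hr : r ∈ R) :
    Mc U Y R P b ≤ centralizer {r * a * r⁻¹} := by
  refine (closure_le _).2 ?_
  rintro _ ⟨c, z, h1, hz, rfl⟩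
  obtain ⟨hc, w', h2⟩ := h1.tv hb hw
  have h3 : Commute a (r⁻¹ * w' * r⁻¹⁻¹) := by
    by_contra h4
    exact hn (Relation.ReflTransGen.head ⟨ha, ⟨w, h⟩, hc, w', h2, _, R.inv_mem hr, h4⟩
      (H.rc_symm h1))
  have h5 := commute_conj r (H.cen_line (H.centY h ha) (R.inv_mem hr) h3 (h2.app z hz))
  rw [SetLike.mem_coe, mem_centralizer_singleton_iff]
  have e : r * (r⁻¹ * (c * z * c⁻¹ * z⁻¹) * r⁻¹⁻¹) * r⁻¹ = c * z * c⁻¹ * z⁻¹ := by group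
  rw [e] at h5
  exact h5.eq.symm

end Blk

end Pool.Agent.Lib.MP_607584_al
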