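import Pool.Agent.Lib.MP_607584_al.Tv2

-- part Pool.Agent.Lib.MP_607584_al.Bridge
section

/-! Elementary abelian subgroups as modules: the group-theoretic form of the linear lemmas. -/

namespace Pool.Agent.Lib.MP_607584_al

open Subgroup

universe u

variable {G : Type u} [Group G]

/-- an elementary abelian subgroup seen as a module for its normaliser -/
structure ERep (p : ℕ) (Z : Subgroup G) where
  V : Type u
  [i1 : AddCommGroup V]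
  [i2 : Module (ZMod p) V]
  [i3 : Finite V]
  ι : V → G
  inj : Function.Injective ι
  add : ∀ u v, ι (u + v) = ι u * ι v
  mem : ∀ g, g ∈ Z ↔ ∃ v, ι v = g
  ρ : normalizer (Z : Set G) →* (V ≃ₗ[ZMod p] V)
  act : ∀ g v, ι (ρ g v) = g * ι v * (g : G)⁻¹

attribute [instance] ERep.i1 ERep.i2 ERep.i3

theorem exists_rep (p : ℕ) (Z : Subgroup G) [Finite Z] (h1 : Z ≤ Cn Z) (h2 : ∀ z ∈ Z, z ^ p = 1) :
    Nonempty (ERep p Z) := by
  let _i1 : CommGroup Z :=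
    { (inferInstance : Group Z) with
      mul_comm := fun a b => Subtype.ext (mem_Cn.1 (h1 b.2) a a.2) }
  let _i2 : Module (ZMod p) (Additive Z) := AddCommGroup.zmodModule fun x => by
    apply Additive.toMul.injective
    rw [toMul_nsmul]
    exact Subtype.ext (h2 _ x.toMul.2)
  let f : normalizer (Z : Set G) → Additive Z ≃+ Additive Z := fun g =>
    MulEquiv.toAdditive (Z.normalizerMonoidHom g)
  exact ⟨{
    V := Additive Z
    ι := fun v => (v.toMul : G)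
    inj := fun a b h => Additive.toMul.injective (Subtype.ext h)
    add := fun _ _ => rfl
    mem := fun g => ⟨fun h => ⟨Additive.ofMul ⟨g, h⟩, rfl⟩, fun ⟨v, hv⟩ => hv ▸ v.toMul.2⟩
    ρ :=
      { toFun := fun g => { f g with map_smul' := fun c x => ZMod.map_smul (f g) c x }
        map_one' := by
          ext v
          show ((1 : normalizer (Z : Set G)) : G) * v.toMul * ((1 : normalizer (Z : Set G)) : G)⁻¹
            = v.toMul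
          simp
        map_mul' := fun a b => by
          ext v
          show ((a * b : normalizer (Z : Set G)) : G) * v.toMul *
            ((a * b : normalizer (Z : Set G)) : G)⁻¹ = a * (b * v.toMul * (b : G)⁻¹) * (a : G)⁻¹
          simp [mul_assoc] }
    act := fun _ _ => rfl }⟩

/-- `a` acts on `Z` as a transvection with centre `w` -/
structure TrG (Z : Subgroup G) (a w : G) : Prop where
  mem : w ∈ Z
  ne : w ≠ 1
  app : ∀ z ∈ Z, a * z * a⁻¹ * z⁻¹ ∈ zpowers w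
  ex : ∃ z ∈ Z, ¬ Commute a z

variable {p : ℕ} {Z : Subgroup G}

namespace ERep

variable (E : ERep p Z)

theorem zero : E.ι 0 = 1 := by
  have := E.add 0 0
  rw [add_zero] at this
  exact (mul_eq_left.1 this.symm)

theorem neg (v : E.V) : E.ι (-v) = (E.ι v)⁻¹ := by
  rw [eq_inv_iff_mul_eq_one, ← E.add, neg_add_cancel, E.zero]

theorem nsmul (n : ℕ) (v : E.V) : E.ι (n • v) = E.ι v ^ n := by
  induction n with
  | zero => rw [zero_nsmul, pow_zero, E.zero]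
  | succ n ih => rw [succ_nsmul, E.add, ih, pow_succ]

theorem zsmul (n : ℤ) (v : E.V) : E.ι (n • v) = E.ι v ^ n := by
  cases n with
  | ofNat n => simpa using E.nsmul n v
  | negSucc n => rw [negSucc_zsmul, E.neg, E.nsmul, zpow_negSucc]

theorem line (u w : E.V) : E.ι u ∈ zpowers (E.ι w) ↔ ∃ c : ZMod p, u = c • w := by
  constructor
  · rintro ⟨i, hi⟩
    exact ⟨i, E.inj (by rw [Int.cast_smul_eq_zsmul, E.zsmul]; exact hi.symm)⟩
  · rintro ⟨c, rfl⟩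
    rw [← ZMod.intCast_zmod_cast c, Int.cast_smul_eq_zsmul, E.zsmul]
    exact ⟨_, rfl⟩

theorem fix_iff (g : normalizer (Z : Set G)) (v : E.V) :
    E.ρ g v = v ↔ Commute (g : G) (E.ι v) := by
  rw [← E.inj.eq_iff, E.act, mul_inv_eq_iff_eq_mul]; rfl

theorem line' (g : normalizer (Z : Set G)) (v w : E.V) :
    (g : G) * E.ι v * (g : G)⁻¹ * (E.ι v)⁻¹ ∈ zpowers (E.ι w) ↔
      ∃ c : ZMod p, E.ρ g v = v + c • w := by
  rw [← E.act, ← E.neg, ← E.add, E.line]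
  exact exists_congr fun c => by rw [← sub_eq_add_neg, sub_eq_iff_eq_add']

theorem ker_iff (g : normalizer (Z : Set G)) : E.ρ g = 1 ↔ (g : G) ∈ Cn Z := by
  rw [mem_Cn, LinearEquiv.ext_iff]
  constructor
  · intro h k hk
    obtain ⟨v, rfl⟩ := (E.mem k).1 hk
    exact ((E.fix_iff g v).1 (h v)).eq.symm
  · intro h v
    exact (E.fix_iff g v).2 (h _ ((E.mem _).2 ⟨v, rfl⟩)).symm

/-- image of a subgroup -/
def Im (X : Subgroup G) : Subgroup (E.V ≃ₗ[ZMod p] E.V) :=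
  (X.subgroupOf (normalizer (Z : Set G))).map E.ρ

theorem mem_Im {X : Subgroup G} {γ : E.V ≃ₗ[ZMod p] E.V} :
    γ ∈ E.Im X ↔ ∃ g : normalizer (Z : Set G), (g : G) ∈ X ∧ E.ρ g = γ := Iff.rfl

theorem card_V : Nat.card E.V = Nat.card Z :=
  Nat.card_congr (Equiv.ofBijective (fun v => ⟨E.ι v, (E.mem _).2 ⟨v, rfl⟩⟩)
    ⟨fun _ _ h => E.inj (congrArg Subtype.val h),
      fun z => ((E.mem z).1 z.2).imp fun _ h => Subtype.ext h⟩)

theorem card_Im {A : Subgroup G} (hA : A ≤ normalizer (Z : Set G)) :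
    Nat.card A = Nat.card (A ⊓ Cn Z : Subgroup G) * Nat.card (E.Im A) := by
  have h1 := (E.ρ.comp (inclusion hA)).ker.card_mul_index
  rw [index_ker] at h1
  have h2 : (E.ρ.comp (inclusion hA)).range = E.Im A := by
    ext γ
    rw [mem_Im]
    constructor
    · rintro ⟨a, rfl⟩; exact ⟨_, a.2, rfl⟩
    · rintro ⟨g, hg, rfl⟩; exact ⟨⟨g, hg⟩, rfl⟩
  rw [← h1, h2]
  congr 1
  refine Nat.card_congr (Equiv.ofBijective
    (fun a => ⟨a.1.1, a.1.2, (E.ker_iff ⟨_, hA a.1.2⟩).1 a.2⟩) ⟨fun a b h => ?_, fun z => ?_⟩)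
  · exact Subtype.ext (Subtype.ext (congrArg (fun z : (A ⊓ Cn Z : Subgroup G) => (z : G)) h))
  · exact ⟨⟨⟨z.1, z.2.1⟩, (E.ker_iff ⟨_, hA z.2.1⟩).2 z.2.2⟩, rfl⟩

variable [hp : Fact p.Prime]

theorem card_Fx {A : Subgroup G} (hA : A ≤ normalizer (Z : Set G)) :
    Nat.card (Fx (E.Im A)) = Nat.card (Z ⊓ Cn A : Subgroup G) := by
  refine Nat.card_congr (Equiv.ofBijective (fun v => ⟨E.ι v, (E.mem _).2 ⟨v, rfl⟩,
    mem_Cn.2 fun k hk => ((E.fix_iff ⟨k, hA hk⟩ v).1 (v.2 _ ⟨_, hk, rfl⟩)).eq⟩)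
    ⟨fun a b h => Subtype.ext (E.inj (congrArg Subtype.val h)), fun z => ?_⟩)
  obtain ⟨v, hv⟩ := (E.mem z).1 z.2.1
  refine ⟨⟨v, ?_⟩, Subtype.ext hv⟩
  rintro _ ⟨g, hg, rfl⟩
  rw [E.fix_iff, hv]
  exact mem_Cn.1 z.2.2 g hg

theorem tvF {a : normalizer (Z : Set G)} {k : ℕ} (ha : (a : G) ^ p ^ k = 1) {w : E.V}
    (h : TrG Z a (E.ι w)) : ∃ φ, TvF (E.ρ a) φ w := by
  refine exists_TvF (k := k) (by rw [← map_pow, ← E.ρ.map_one]; congr 1; exact Subtype.ext ha)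
    (fun h0 => h.ne (by rw [h0, E.zero])) (fun v => ?_) ?_
  · exact (E.line' a v w).1 (h.app _ ((E.mem _).2 ⟨v, rfl⟩))
  · obtain ⟨z, hz, hc⟩ := h.ex
    obtain ⟨v, rfl⟩ := (E.mem z).1 hz
    exact ⟨v, fun h0 => hc ((E.fix_iff a v).1 h0)⟩

theorem trG {a : normalizer (Z : Set G)} {w : E.V} {φ : E.V →ₗ[ZMod p] ZMod p}
    (h : TvF (E.ρ a) φ w) : TrG Z a (E.ι w) := by
  refine ⟨(E.mem _).2 ⟨w, rfl⟩, fun h0 => h.ne (E.inj (by rw [h0, E.zero])), fun z hz => ?_, ?_⟩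
  · obtain ⟨v, rfl⟩ := (E.mem z).1 hz
    exact (E.line' a v w).2 ⟨_, h.app v⟩
  · obtain ⟨v, hv⟩ := h.ex
    refine ⟨E.ι v, (E.mem _).2 ⟨v, rfl⟩, fun hc => ?_⟩
    have := (E.fix_iff a v).2 hc
    rw [h.app, add_eq_left, smul_eq_zero] at this
    exact this.elim hv h.ne

end ERep

/-- the standing hypotheses in group form -/
structure PrG (p : ℕ) (Z R P : Subgroup G) : Prop where
  prime : p.Prime
  fin : Finite Z
  ab : Z ≤ Cn Z
  ex : ∀ z ∈ Z, z ^ p = 1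
  hRZ : R ≤ normalizer (Z : Set G)
  hPZ : P ≤ normalizer (Z : Set G)
  hPR : P ≤ normalizer (R : Set G)
  hP : IsPGroup p P
  hR : ∀ r ∈ R, ∃ m : ℕ, m.Coprime p ∧ r ^ m ∈ Cn Z
  hF : ∀ a ∈ P, a ∉ Cn Z → ∃ r ∈ R, a * r * a⁻¹ * r⁻¹ ∉ Cn Z

variable {R P : Subgroup G}

theorem PrG.rep (H : PrG p Z R P) : Nonempty (ERep p Z) :=
  have := H.fin
  exists_rep p Z H.ab H.ex

theorem ERep.nz (E : ERep p Z) {g : normalizer (Z : Set G)} (hg : (g : G) ∈ normalizer (R : Set G)) :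
    E.ρ g ∈ normalizer (E.Im R : Set _) := by
  rw [Subgroup.mem_normalizer_iff]
  intro γ
  constructor
  · rintro ⟨r, hr, rfl⟩
    exact ⟨g * r * g⁻¹, nz_conj (X := R) hg hr, by simp⟩
  · rintro ⟨r, hr, h⟩
    refine ⟨g⁻¹ * r * g, nz_conj' (X := R) hg hr, ?_⟩
    rw [map_mul, map_mul, h, map_inv]; group

theorem PrG.pr [Fact p.Prime] (H : PrG p Z R P) (E : ERep p Z) : Pr (E.Im R) (E.Im P) := by
  refine ⟨?_, ?_, ?_, ?_⟩
  · rintro _ ⟨r, hr, rfl⟩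
    obtain ⟨m, hm, h⟩ := H.hR r hr
    exact ⟨m, hm, by rw [← map_pow]; exact (E.ker_iff _).2 h⟩
  · exact (H.hP.comap_subtype).map _
  · rintro _ ⟨a, ha, rfl⟩
    exact E.nz (H.hPR ha)
  · rintro _ ⟨a, ha, rfl⟩ h1
    obtain ⟨r, hr, h⟩ := H.hF a ha (fun h0 => h1 ((E.ker_iff a).2 h0))
    refine ⟨E.ρ ⟨r, H.hRZ hr⟩, ⟨_, hr, rfl⟩, fun hc => h ?_⟩
    refine (E.ker_iff (a * ⟨r, H.hRZ hr⟩ * a⁻¹ * (⟨r, H.hRZ hr⟩)⁻¹)).1 ?_
    rw [map_mul, map_mul, map_mul, map_inv, map_inv, hc.eq]; group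

theorem PrG.im_ab [Fact p.Prime] (E : ERep p Z) {A : Subgroup G} (hAc : A ≤ Cn A)
    (hAp : ∀ a ∈ A, a ^ p = 1) :
    (∀ a ∈ E.Im A, ∀ b ∈ E.Im A, Commute a b) ∧ ∀ a ∈ E.Im A, a ^ p = 1 := by
  constructor
  · rintro _ ⟨a, ha, rfl⟩ _ ⟨b, hb, rfl⟩
    exact Commute.map (Subtype.ext (mem_Cn.1 (hAc hb) a ha) : Commute a b) E.ρ
  · rintro _ ⟨a, ha, rfl⟩
    rw [← map_pow, ← E.ρ.map_one]; congr 1; exact Subtype.ext (hAp a ha)

theorem PrG.ineq (H : PrG p Z R P) {A : Subgroup G} (hA : A ≤ P) (hAc : A ≤ Cn A)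
    (hAp : ∀ a ∈ A, a ^ p = 1) : Nat.card A * Nat.card (Z ⊓ Cn A : Subgroup G) ≤
      Nat.card Z * Nat.card (A ⊓ Cn Z : Subgroup G) := by
  have := Fact.mk H.prime
  obtain ⟨E⟩ := H.rep
  obtain ⟨h1, h2⟩ := PrG.im_ab E hAc hAp
  have h3 := (H.pr E).ineq _ (E.Im A) rfl (map_mono (comap_mono hA)) h1 h2
  rw [E.card_Fx (hA.trans H.hPZ), E.card_V] at h3
  rw [E.card_Im (hA.trans H.hPZ), mul_assoc, mul_comm (Nat.card Z)]
  exact Nat.mul_le_mul_left _ h3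

theorem PrG.gen (H : PrG p Z R P) {A : Subgroup G} [Finite A] (hA : A ≤ P) (hAc : A ≤ Cn A)
    (hAp : ∀ a ∈ A, a ^ p = 1) (hle : Nat.card Z * Nat.card (A ⊓ Cn Z : Subgroup G) ≤
      Nat.card A * Nat.card (Z ⊓ Cn A : Subgroup G)) {L : Subgroup G}
    (hL : ∀ t ∈ A, (∃ w, TrG Z t w) → t ∈ L) (hL' : A ⊓ Cn Z ≤ L) : A ≤ L := by
  have := Fact.mk H.prime
  obtain ⟨E⟩ := H.rep
  obtain ⟨h1, h2⟩ := PrG.im_ab E hAc hAp
  have hfin : Finite (A ⊓ Cn Z : Subgroup G) :=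
    Finite.of_injective _ (Subgroup.inclusion_injective inf_le_left)
  have h3 := (H.pr E).gen (E.Im (A ⊓ L)) _ (E.Im A) rfl (map_mono (comap_mono hA)) h1 h2 (by
    rw [E.card_Fx (hA.trans H.hPZ), E.card_V]
    rw [E.card_Im (hA.trans H.hPZ), mul_assoc, mul_comm (Nat.card Z)] at hle
    exact Nat.le_of_mul_le_mul_left hle Nat.card_pos) (by
    rintro _ ⟨t, ht, rfl⟩ ⟨φ, w, h⟩
    exact ⟨t, ⟨ht, hL t ht ⟨_, E.trG h⟩⟩, rfl⟩)
  intro a ha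
  obtain ⟨l, hl, h4⟩ := h3 (⟨⟨a, H.hPZ (hA ha)⟩, ha, rfl⟩ : E.ρ ⟨a, H.hPZ (hA ha)⟩ ∈ E.Im A)
  have h5 : (l : G)⁻¹ * a ∈ Cn Z :=
    (E.ker_iff (l⁻¹ * ⟨a, H.hPZ (hA ha)⟩)).1 (by rw [map_mul, map_inv, h4, inv_mul_cancel])
  have h6 := L.mul_mem hl.2 (hL' ⟨A.mul_mem (A.inv_mem hl.1) ha, h5⟩)
  simpa using h6

variable {a w g r : G}

theorem PrG.exists_r (H : PrG p Z R P) (h : TrG Z a w) (ha : a ∈ P) :
    ∃ r ∈ R, ¬ Commute a (r * w * r⁻¹) := by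
  have := Fact.mk H.prime
  obtain ⟨E⟩ := H.rep
  obtain ⟨w, rfl⟩ := (E.mem w).1 h.mem
  obtain ⟨k, hk⟩ := pg_pow H.hP ha
  obtain ⟨φ, hφ⟩ := E.tvF (a := ⟨a, H.hPZ ha⟩) hk h
  have m : E.ρ ⟨a, H.hPZ ha⟩ ∈ E.Im P := ⟨_, ha, rfl⟩
  obtain ⟨_, ⟨r, hr, rfl⟩, h0⟩ := hφ.exists_r (H.pr E).hR ((H.pr E).hn m)
    ((H.pr E).hF _ m hφ.ne_one)
  refine ⟨r, hr, fun hc => ?_⟩
  rw [← E.act] at hc
  have := (E.fix_iff ⟨a, H.hPZ ha⟩ _).2 hc
  rw [hφ.app, add_eq_left, smul_eq_zero] at this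
  exact this.elim h0 hφ.ne

theorem PrG.pelt (H : PrG p Z R P) (h : TrG Z a w) (ha : a ∈ P) (hg : g ∈ P) (hc : Commute g w)
    (hr : r ∈ R) : g * (r * w * r⁻¹) * g⁻¹ * (r * w * r⁻¹)⁻¹ ∈ zpowers w := by
  have := Fact.mk H.prime
  obtain ⟨E⟩ := H.rep
  obtain ⟨w, rfl⟩ := (E.mem w).1 h.mem
  obtain ⟨k, hk⟩ := pg_pow H.hP ha
  obtain ⟨φ, hφ⟩ := E.tvF (a := ⟨a, H.hPZ ha⟩) hk h
  have m : E.ρ ⟨a, H.hPZ ha⟩ ∈ E.Im P := ⟨_, ha, rfl⟩
  have m' : E.ρ ⟨g, H.hPZ hg⟩ ∈ E.Im P := ⟨_, hg, rfl⟩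
  obtain ⟨l, hl⟩ := pg_pow (H.pr E).hP m'
  have h1 := hφ.pelt (H.pr E).hR ((H.pr E).hn m) ((H.pr E).hn m') hl
    ((E.fix_iff ⟨g, H.hPZ hg⟩ w).2 hc) (⟨_, hr, rfl⟩ : E.ρ ⟨r, H.hRZ hr⟩ ∈ E.Im R)
  have h2 := (E.line' ⟨g, H.hPZ hg⟩ _ w).2 h1
  rwa [E.act] at h2

theorem PrG.fix (H : PrG p Z R P) (h : TrG Z a w) (ha : a ∈ P) {a' w' : G} (h' : TrG Z a' w')
    (ha' : a' ∈ P) (hw : w' ∉ zpowers w) (hr : r ∈ R) : Commute a' (r * w * r⁻¹) := by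
  have := Fact.mk H.prime
  obtain ⟨E⟩ := H.rep
  obtain ⟨w, rfl⟩ := (E.mem w).1 h.mem
  obtain ⟨w', rfl⟩ := (E.mem w').1 h'.mem
  obtain ⟨k, hk⟩ := pg_pow H.hP ha
  obtain ⟨φ, hφ⟩ := E.tvF (a := ⟨a, H.hPZ ha⟩) hk h
  obtain ⟨k', hk'⟩ := pg_pow H.hP ha'
  obtain ⟨φ', hφ'⟩ := E.tvF (a := ⟨a', H.hPZ ha'⟩) hk' h'
  have h1 := (H.pr E).fix hφ hφ' ⟨_, ha, rfl⟩ ⟨_, ha', rfl⟩ (fun h0 => hw ((E.line _ _).2 h0))
    (⟨_, hr, rfl⟩ : E.ρ ⟨r, H.hRZ hr⟩ ∈ E.Im R)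
  have h2 := (E.fix_iff _ _).1 h1
  rwa [E.act] at h2

theorem PrG.conj (H : PrG p Z R P) (h : TrG Z a w) (ha : a ∈ P) (hg : g ∈ normalizer (Z : Set G))
    (hm : a⁻¹ * (g * a * g⁻¹) ∈ R) (hc : Commute a (g * w * g⁻¹)) : g * w * g⁻¹ ∈ zpowers w := by
  have := Fact.mk H.prime
  obtain ⟨E⟩ := H.rep
  obtain ⟨w, rfl⟩ := (E.mem w).1 h.mem
  obtain ⟨k, hk⟩ := pg_pow H.hP ha
  obtain ⟨φ, hφ⟩ := E.tvF (a := ⟨a, H.hPZ ha⟩) hk h
  have e : E.ι (E.ρ ⟨g, hg⟩ w) = g * E.ι w * g⁻¹ := E.act _ _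
  rw [← e] at hc ⊢
  have h1 := (E.fix_iff ⟨a, H.hPZ ha⟩ _).2 hc
  rw [hφ.app, add_eq_left, smul_eq_zero] at h1
  refine (E.line _ _).2 (hφ.conj_eq (H.pr E).hR ?_ (h1.resolve_right hφ.ne)).2
  exact ⟨(⟨a, H.hPZ ha⟩)⁻¹ * (⟨g, hg⟩ * ⟨a, H.hPZ ha⟩ * (⟨g, hg⟩)⁻¹), hm, by
    simp only [map_mul, map_inv]⟩

theorem comm_of_norm (hp : p.Prime) (hw : w ^ p = 1) {k : ℕ} (hk : g ^ p ^ k = 1)
    (h : g * w * g⁻¹ ∈ zpowers w) : Commute g w := by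
  have := Fact.mk hp
  obtain ⟨i, hi⟩ := h
  have hi' : w ^ i = g * w * g⁻¹ := hi
  have key : ∀ n : ℕ, g ^ n * w * (g ^ n)⁻¹ = w ^ i ^ n := by
    intro n
    induction n with
    | zero => simp
    | succ n ih =>
      calc g ^ (n + 1) * w * (g ^ (n + 1))⁻¹ = g * (g ^ n * w * (g ^ n)⁻¹) * g⁻¹ := by
            rw [pow_succ']; group
        _ = w ^ i ^ (n + 1) := by rw [ih, ← conj_zpow, ← hi', ← zpow_mul, pow_succ']
  have h1 := key (p ^ k)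
  have h2 : i ^ p ^ k ≡ i [ZMOD p] := by
    rw [← ZMod.intCast_eq_intCast_iff]
    push_cast
    exact ZMod.pow_card_pow _
  have h3 : w ^ i ^ p ^ k = w ^ i := by
    rw [zpow_eq_zpow_iff_modEq]
    exact h2.of_dvd (by exact_mod_cast orderOf_dvd_of_pow_eq_one hw)
  rw [hk, h3, hi'] at h1
  simp only [one_mul, inv_one, mul_one] at h1
  exact (mul_inv_eq_iff_eq_mul.1 h1.symm)

/-- a nontrivial element of a group of prime order generates it -/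
theorem gen_of_prime (hp : p.Prime) {w u : G} (hw : w ^ p = 1) (hu : u ∈ zpowers w) (h1 : u ≠ 1) :
    zpowers u = zpowers w := by
  have := Fact.mk hp
  have hw1 : w ≠ 1 := by
    rintro rfl
    rw [zpowers_one_eq_bot, mem_bot] at hu
    exact h1 hu
  have hc : Nat.card (zpowers w) = p := by rw [Nat.card_zpowers, orderOf_eq_prime hw hw1]
  refine le_antisymm (zpowers_le.2 hu) (zpowers_le.2 ?_)
  have h2 := mem_zpowers_of_prime_card hc (g := (⟨u, hu⟩ : zpowers w))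
    (g' := ⟨w, mem_zpowers w⟩) (fun h => h1 (congrArg Subtype.val h))
  obtain ⟨i, hi⟩ := h2
  exact ⟨i, by simpa using congrArg Subtype.val hi⟩

theorem TrG.centre_mem (hp : p.Prime) (h : TrG Z a w) (hw : w ^ p = 1) {X : Subgroup G}
    (hX : ∀ z ∈ Z, a * z * a⁻¹ * z⁻¹ ∈ X) : w ∈ X := by
  obtain ⟨z, hz, hc⟩ := h.ex
  have h1 := gen_of_prime hp hw (h.app z hz) fun h0 => hc (by
    show a * z = z * a
    calc a * z = a * z * a⁻¹ * z⁻¹ * (z * a) := by group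
      _ = z * a := by rw [h0, one_mul])
  exact (zpowers_le.2 (hX z hz)) (h1 ▸ mem_zpowers w)

theorem conj_mem_zpowers (g : G) {u w : G} (h : u ∈ zpowers w) :
    g * u * g⁻¹ ∈ zpowers (g * w * g⁻¹) := by
  obtain ⟨i, rfl⟩ := h
  exact ⟨i, conj_zpow⟩

theorem commute_conj (g : G) {a b : G} (h : Commute a b) :
    Commute (g * a * g⁻¹) (g * b * g⁻¹) := by
  show g * a * g⁻¹ * (g * b * g⁻¹) = g * b * g⁻¹ * (g * a * g⁻¹)
  calc g * a * g⁻¹ * (g * b * g⁻¹) = g * (a * b) * g⁻¹ := by group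
    _ = _ := by rw [h.eq]; group

theorem commute_zpowers {a u w : G} (h : Commute a w) (hu : u ∈ zpowers w) : Commute a u := by
  obtain ⟨i, rfl⟩ := hu
  exact h.zpow_right i

theorem TrG.conj (h : TrG Z a w) (g : G) : TrG (cj g Z) (g * a * g⁻¹) (g * w * g⁻¹) := by
  refine ⟨conj_mem_cj h.mem, fun h0 => h.ne (by simpa using h0), fun z hz => ?_, ?_⟩
  · have := conj_mem_zpowers g (h.app _ (mem_cj.1 hz))
    convert this using 1
    group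
  · obtain ⟨z, hz, hc⟩ := h.ex
    refine ⟨_, conj_mem_cj hz, fun h0 => hc ?_⟩
    simpa [mul_assoc] using commute_conj g⁻¹ h0

end Pool.Agent.Lib.MP_607584_al
end

-- part Pool.Agent.Lib.MP_607584_al.Sub
section

/-! Nilpotent groups and subnormal subgroups. -/

namespace Pool.Agent.Lib.MP_607584_al

open Subgroup

variable {G : Type*} [Group G] {p : ℕ}

theorem nil_bot (hp : p.Prime) {H X : Subgroup G} [Finite H] (hH : IsPGroup p H) (h1 : X ≤ H)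
    (h2 : X ≤ ⁅X, H⁆) : X = ⊥ := by
  have := Fact.mk hp
  obtain ⟨n, hn⟩ := (isNilpotent_iff_lowerCentralSeries H).1 hH.isNilpotent
  have key : ∀ n, X ≤ H.lowerCentralSeries n := by
    intro n
    induction n with
    | zero => exact h1
    | succ n ih => exact h2.trans (commutator_mono ih le_rfl)
  exact eq_bot_iff.2 (hn ▸ key n)

theorem zpowers_pgroup {g : G} {k : ℕ} (h : g ^ p ^ k = 1) : IsPGroup p (zpowers g) := by
  rintro ⟨_, i, rfl⟩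
  refine ⟨k, Subtype.ext ?_⟩
  show (g ^ i) ^ p ^ k = 1
  rw [← zpow_natCast, ← zpow_mul, mul_comm, zpow_mul, zpow_natCast, h, one_zpow]

theorem pel_mul (hp : p.Prime) {T : Subgroup G} [Finite T]
    (hT : (∀ a ∈ T, ∃ k, ∀ b ∈ T, Commute (a ^ p ^ k) b) ∨
      ∀ a ∈ T, ∀ b ∈ T, ∀ c ∈ T, Commute (a * b * a⁻¹ * b⁻¹) c) {a b : G} (ha : a ∈ T) (hb : b ∈ T)
    {k l : ℕ} (h1 : a ^ p ^ k = 1) (h2 : b ^ p ^ l = 1) : ∃ m, (a * b) ^ p ^ m = 1 := by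
  have := Fact.mk hp
  have : Group.IsNilpotent T := by
    rcases hT with hT | hT
    · have hq : IsPGroup p (T ⧸ center T) := by
        intro x
        obtain ⟨y, rfl⟩ := QuotientGroup.mk_surjective x
        obtain ⟨k, hk⟩ := hT y y.2
        refine ⟨k, ?_⟩
        rw [← QuotientGroup.mk_pow, QuotientGroup.eq_one_iff, mem_center_iff]
        exact fun g => Subtype.ext (hk g g.2).eq.symm
      exact Group.of_quotient_center_nilpotent hq.isNilpotent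
    · refine (isNilpotent_iff_lowerCentralSeries T).2 ⟨2, ?_⟩
      show ⁅⁅T, T⁆, T⁆ = ⊥
      rw [commutator_eq_bot_iff_le_centralizer, commutator_le]
      exact fun a ha b hb c hc => (hT a ha b hb c hc).eq.symm
  obtain ⟨P, hP⟩ := (zpowers_pgroup (g := (⟨a, ha⟩ : T)) (Subtype.ext h1)).exists_le_sylow
  obtain ⟨P', hP'⟩ := (zpowers_pgroup (g := (⟨b, hb⟩ : T)) (Subtype.ext h2)).exists_le_sylow
  have := P.unique_of_normal inferInstance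
  rw [Subsingleton.elim P' P] at hP'
  obtain ⟨m, hm⟩ := P.isPGroup' ⟨_, P.mul_mem (hP (mem_zpowers _)) (hP' (mem_zpowers _))⟩
  exact ⟨m, congrArg (fun z : P => ((z : T) : G)) hm⟩

theorem pow_mul_mem {D : Subgroup G} {d q : G} (hd : d ∈ D) (hq : q ∈ normalizer (D : Set G))
    (n : ℕ) : (d * q) ^ n * (q ^ n)⁻¹ ∈ D := by
  induction n with
  | zero => simp
  | succ n ih =>
    have : (d * q) ^ (n + 1) * (q ^ (n + 1))⁻¹ =
        d * (q * ((d * q) ^ n * (q ^ n)⁻¹) * q⁻¹) := by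
      rw [pow_succ', pow_succ']; group
    rw [this]
    exact D.mul_mem hd (nz_conj hq ih)

theorem minimal_cj {P P' : Subgroup G → Prop} (g : G) (h1 : ∀ X, P X → P' (cj g X))
    (h2 : ∀ X, P' X → P (cj g⁻¹ X)) {R : Subgroup G} (h : Minimal P R) : Minimal P' (cj g R) := by
  refine ⟨h1 R h.prop, fun X hX hle => ?_⟩
  have h3 := cj_mono g⁻¹ hle
  rw [cj_cj, inv_mul_cancel, cj_one] at h3
  have h4 := cj_mono g (h.le_of_le (h2 X hX) h3)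
  rwa [cj_cj g g⁻¹, mul_inv_cancel, cj_one] at h4

/-- subnormal subgroups -/
inductive SubN (S : Subgroup G) : Subgroup G → Prop
  | refl : SubN S S
  | step {H1 H : Subgroup G} : SubN S H1 → H1 ≤ H → H ≤ normalizer (H1 : Set G) → SubN S H

theorem SubN.le {S H : Subgroup G} (h : SubN S H) : S ≤ H := by
  induction h with
  | refl => exact le_rfl
  | step _ h1 _ ih => exact ih.trans h1

theorem SubN.sup {S H C : Subgroup G} (h : SubN S H) (hC : H ≤ normalizer (C : Set G)) :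
    SubN (S ⊔ C) (H ⊔ C) := by
  induction h with
  | refl => exact SubN.refl
  | @step H1 H _ h1 h2 ih =>
    exact SubN.step (ih (h1.trans hC)) (sup_le_sup_right h1 C)
      (sup_le (fun g hg => nz_sup (h2 hg) (hC hg)) (le_sup_right.trans le_normalizer))

/-- minimal among the normal subgroups of `H` properly containing `C` -/
def MinO (C H M : Subgroup G) : Prop :=
  C < M ∧ M ≤ H ∧ H ≤ normalizer (M : Set G) ∧
    ∀ N : Subgroup G, C < N → N ≤ M → H ≤ normalizer (N : Set G) → M ≤ N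

theorem exists_MinO {C H N : Subgroup G} [Finite H] (h0 : C < N) (h1 : N ≤ H)
    (h2 : H ≤ normalizer (N : Set G)) : ∃ M, MinO C H M ∧ M ≤ N := by
  have hfin : {M : Subgroup G | C < M ∧ M ≤ N ∧ H ≤ normalizer (M : Set G)}.Finite :=
    (finite_subgroups H).subset fun M hM => hM.2.1.trans h1
  obtain ⟨M, hM⟩ := hfin.exists_minimal ⟨N, h0, le_rfl, h2⟩
  exact ⟨M, ⟨hM.prop.1, hM.prop.2.1.trans h1, hM.prop.2.2, fun N' a b c =>
    hM.le_of_le ⟨a, b.trans hM.prop.2.1, c⟩ b⟩, hM.prop.2.1⟩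

theorem cj_inv_cj (g : G) (X : Subgroup G) : cj g⁻¹ (cj g X) = X := by
  rw [cj_cj, inv_mul_cancel, cj_one]

theorem cj_cj_inv (g : G) (X : Subgroup G) : cj g (cj g⁻¹ X) = X := by
  rw [cj_cj, mul_inv_cancel, cj_one]

theorem cj_lt_iff (g : G) {X Y : Subgroup G} : cj g X < cj g Y ↔ X < Y := by
  rw [lt_iff_le_not_ge, lt_iff_le_not_ge, cj_le_iff, cj_le_iff]

theorem MinO.conj {C H M : Subgroup G} (hM : MinO C H M) {g : G}
    (hC : g ∈ normalizer (C : Set G)) (hH : g ∈ normalizer (H : Set G)) : MinO C H (cj g M) := by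
  have eC := mem_nz.1 hC
  have eH := mem_nz.1 hH
  refine ⟨eC ▸ (cj_lt_iff g).2 hM.1, eH ▸ cj_mono g hM.2.1, ?_, fun N a b c => ?_⟩
  · rw [← cj_nz, ← eH]; exact cj_mono g hM.2.2.1
  · rw [← cj_le_iff g⁻¹, cj_inv_cj]
    refine hM.2.2.2 _ ?_ ?_ ?_
    · rw [← cj_lt_iff g, cj_cj_inv, eC]; exact a
    · rw [← cj_le_iff g, cj_cj_inv]; exact b
    · rw [← cj_nz, ← cj_le_iff g, cj_cj_inv, eH]; exact c

/-- Wielandt: minimal normal subgroups normalise subnormal subgroups -/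
theorem SubN.wielandt {S H C : Subgroup G} (h : SubN S H) (hCS : C ≤ S) : Finite H →
    H ≤ normalizer (C : Set G) → ∀ M, MinO C H M → M ≤ normalizer (S : Set G) := by
  induction h with
  | refl => exact fun _ _ M hM => hM.2.1.trans le_normalizer
  | @step H1 H hS h1 h2 ih =>
    intro hfin hC M hM
    have hfin1 : Finite H1 := Finite.of_injective _ (Subgroup.inclusion_injective h1)
    have hn : H ≤ normalizer ((M ⊓ H1 : Subgroup G) : Set G) :=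
      fun g hg => nz_inf (hM.2.2.1 hg) (h2 hg)
    have hle : C ≤ M ⊓ H1 := le_inf hM.1.le (hCS.trans hS.le)
    rcases hle.lt_or_eq with hlt | heq
    · have hMH : M ≤ H1 := (hM.2.2.2 _ hlt inf_le_left hn).trans inf_le_right
      obtain ⟨M1, hM1, hM1M⟩ := exists_MinO hM.1 hMH (h1.trans hM.2.2.1)
      let J : Subgroup G := closure {k | ∃ g ∈ H, k ∈ cj g M1}
      have j1 : M1 ≤ J := fun k hk => subset_closure ⟨1, H.one_mem, by rwa [cj_one]⟩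
      have j2 : J ≤ M := (closure_le _).2 (by
        rintro k ⟨g, hg, hk⟩
        exact (mem_nz.1 (hM.2.2.1 hg)) ▸ cj_mono g hM1M hk)
      have j3 : H ≤ normalizer (J : Set G) := fun a ha => mem_nz.2 (cj_closure a _ _ fun k => by
        constructor
        · rintro ⟨g, hg, hk⟩
          refine ⟨a⁻¹ * g, H.mul_mem (H.inv_mem ha) hg, ?_⟩
          rw [← cj_cj, ← mem_cj, cj_cj_inv]; exact hk
        · rintro ⟨g, hg, hk⟩
          refine ⟨a * g, H.mul_mem ha hg, ?_⟩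
          rw [← cj_cj, mem_cj]; exact hk)
      refine (hM.2.2.2 J (hM1.1.trans_le j1) j2 j3).trans ((closure_le _).2 ?_)
      rintro k ⟨g, hg, hk⟩
      exact ih hfin1 (h1.trans hC) _ (hM1.conj (hC hg) (h2 hg)) hk
    · refine le_nz fun m hm s hs => ?_
      have h3 : m * s * m⁻¹ * s⁻¹ ∈ M ⊓ H1 := by
        refine ⟨?_, H1.mul_mem (nz_conj (h2 (hM.2.1 hm)) (hS.le hs)) (H1.inv_mem (hS.le hs))⟩
        have : m * s * m⁻¹ * s⁻¹ = m * (s * m⁻¹ * s⁻¹) := by group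
        rw [this]
        exact M.mul_mem hm (nz_conj (hM.2.2.1 (h1 (hS.le hs))) (M.inv_mem hm))
      rw [← heq] at h3
      simpa using S.mul_mem (hCS h3) hs

/-- a proper subgroup containing a subnormal subgroup can be enlarged so as to contain its
normal closure -/
theorem SubN.closure_le {S A N : Subgroup G} [Finite A] (h : SubN S A) (h1 : S ≤ N) (h2 : N ≤ A)
    (h3 : ¬ A ≤ N) : ∃ N', N ≤ N' ∧ ¬ A ≤ N' ∧ ∀ g ∈ A, ∀ s ∈ S, g * s * g⁻¹ ∈ N' := by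
  have hfin : {C : Subgroup G | C ≤ A ∧ A ≤ normalizer (C : Set G) ∧ ¬ A ≤ N ⊔ C}.Finite :=
    (finite_subgroups A).subset fun M hM => hM.1
  obtain ⟨C, hC⟩ := hfin.exists_maximal ⟨⊥, bot_le, le_nz (by simp), by rwa [sup_bot_eq]⟩
  obtain ⟨c1, c2, c3⟩ := hC.prop
  have hlt : C < A := lt_of_le_of_ne c1 fun e => c3 (e ▸ le_sup_right)
  obtain ⟨M, hM, -⟩ := exists_MinO hlt le_rfl le_normalizer
  have hA : A ≤ N ⊔ M := by
    by_contra h4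
    exact hM.1.not_ge (hC.le_of_ge ⟨hM.2.1, hM.2.2.1, h4⟩ hM.1.le)
  have h5 := h.sup c2
  rw [sup_eq_left.2 c1] at h5
  have h6 := h5.wielandt le_sup_right inferInstance c2 M hM
  refine ⟨N ⊔ C, le_sup_left, c3, fun g hg s hs => ?_⟩
  have hg' : g ∈ ((N ⊔ M : Subgroup G) : Set G) := hA hg
  rw [Subgroup.coe_mul_of_left_le_normalizer_right N M (h2.trans hM.2.2.1)] at hg'
  obtain ⟨n, hn, m, hm, rfl⟩ := hg'
  have h7 := sup_le_sup_right h1 C (nz_conj (h6 hm) (mem_sup_left hs))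
  have : n * m * s * (n * m)⁻¹ = n * (m * s * m⁻¹) * n⁻¹ := by group
  show n * m * s * (n * m)⁻¹ ∈ _
  rw [this]
  exact mul_mem (mul_mem (mem_sup_left hn) h7) (inv_mem (mem_sup_left hn))

theorem idx_le {A1 A2 B C E : Subgroup G} [Finite B] (h1 : A1 ≤ B) (h2 : A2 ≤ B) (h3 : C ≤ E)
    (h4 : A1 ≤ E) : E.relIndex A2 * C.relIndex A1 ≤ C.relIndex B := by
  have e := relIndex_inf_mul_relIndex C E B
  rw [inf_eq_left.2 h3] at e
  have n0 : ∀ X Y : Subgroup G, Y ≤ B → X.relIndex Y ≠ 0 := fun X Y hY =>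
    have : Finite Y := Finite.of_injective _ (Subgroup.inclusion_injective hY)
    index_ne_zero_of_finite
  rw [← e, mul_comm]
  exact Nat.mul_le_mul (relIndex_le_of_le_right (le_inf h4 h1) (n0 _ _ inf_le_right))
    (relIndex_le_of_le_right h2 (n0 _ _ le_rfl))

end Pool.Agent.Lib.MP_607584_al
end

-- part Pool.Agent.Lib.MP_607584_al.Bridge2
section

/-! Sections of elementary abelian subgroups as modules. -/

namespace Pool.Agent.Lib.MP_607584_al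

open Subgroup

universe u

variable {G : Type u} [Group G]

/-- the centraliser of the section `U / Y` -/
def Cs (U Y : Subgroup G) : Subgroup G where
  carrier := {g | g ∈ normalizer (Y : Set G) ∧ ∀ u ∈ U, g * u * g⁻¹ * u⁻¹ ∈ Y}
  one_mem' := ⟨one_mem _, fun k _ => by simp⟩
  mul_mem' := by
    rintro a b ⟨ha, ha'⟩ ⟨hb, hb'⟩
    refine ⟨mul_mem ha hb, fun k hk => ?_⟩
    have : a * b * k * (a * b)⁻¹ * k⁻¹ =
        a * (b * k * b⁻¹ * k⁻¹) * a⁻¹ * (a * k * a⁻¹ * k⁻¹) := by group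
    rw [this]
    exact mul_mem (nz_conj ha (hb' k hk)) (ha' k hk)
  inv_mem' := by
    rintro a ⟨ha, ha'⟩
    refine ⟨inv_mem ha, fun k hk => ?_⟩
    have : a⁻¹ * k * a⁻¹⁻¹ * k⁻¹ = a⁻¹ * (a * k * a⁻¹ * k⁻¹)⁻¹ * a := by group
    rw [this]
    exact nz_conj' ha (inv_mem (ha' k hk))

theorem nz_Cs {U Y : Subgroup G} {g : G} (hU : g ∈ normalizer (U : Set G))
    (hY : g ∈ normalizer (Y : Set G)) {a : G} (ha : a ∈ Cs U Y) : g * a * g⁻¹ ∈ Cs U Y := by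
  refine ⟨mul_mem (mul_mem hY ha.1) (inv_mem hY), fun k hk => ?_⟩
  have : g * a * g⁻¹ * k * (g * a * g⁻¹)⁻¹ * k⁻¹ =
      g * (a * (g⁻¹ * k * g) * a⁻¹ * (g⁻¹ * k * g)⁻¹) * g⁻¹ := by group
  rw [this]
  exact nz_conj hY (ha.2 _ (nz_conj' hU hk))

theorem comm_one {a u : G} (h : Commute a u) : a * u * a⁻¹ * u⁻¹ = 1 := by
  rw [h.eq]; group

theorem of_comm_one {a u : G} (h : a * u * a⁻¹ * u⁻¹ = 1) : Commute a u := by
  show a * u = u * a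
  calc a * u = a * u * a⁻¹ * u⁻¹ * (u * a) := by group
    _ = u * a := by rw [h, one_mul]

theorem Cn_le_Cs {U Y : Subgroup G} (h : Y ≤ U) : Cn U ≤ Cs U Y := fun g hg =>
  ⟨Cn_le_nz h hg, fun u hu => by
    rw [comm_one (mem_Cn.1 hg u hu).symm]; exact Y.one_mem⟩

/-- a section of an elementary abelian subgroup seen as a module -/
structure QRep (p : ℕ) (U Y A : Subgroup G) where
  V : Type u
  [i1 : AddCommGroup V]
  [i2 : Module (ZMod p) V]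
  [i3 : Finite V]
  π : G → V
  add : ∀ u ∈ U, ∀ v ∈ U, π (u * v) = π u + π v
  surj : ∀ v, ∃ u ∈ U, π u = v
  ker : ∀ u ∈ U, π u = 0 ↔ u ∈ Y
  ρ : A →* (V ≃ₗ[ZMod p] V)
  act : ∀ g : A, ∀ u ∈ U, π (g * u * (g : G)⁻¹) = ρ g (π u)
  hU : A ≤ normalizer (U : Set G)
  hY : A ≤ normalizer (Y : Set G)
  le : Y ≤ U
  ab : U ≤ Cn U

attribute [instance] QRep.i1 QRep.i2 QRep.i3

theorem exists_qrep (p : ℕ) {U Y A : Subgroup G} [Finite U] (h1 : U ≤ Cn U)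
    (h2 : ∀ z ∈ U, z ^ p = 1) (hle : Y ≤ U) (hU : A ≤ normalizer (U : Set G))
    (hY : A ≤ normalizer (Y : Set G)) : Nonempty (QRep p U Y A) := by
  obtain ⟨E⟩ := exists_rep p U h1 h2
  let W : Submodule (ZMod p) E.V :=
    { carrier := {v | E.ι v ∈ Y}
      zero_mem' := by show E.ι 0 ∈ Y; rw [E.zero]; exact Y.one_mem
      add_mem' := fun {a b} ha hb => by show E.ι (a + b) ∈ Y; rw [E.add]; exact Y.mul_mem ha hb
      smul_mem' := fun c v hv => (zpowers_le.2 hv) ((E.line _ v).2 ⟨c, rfl⟩) }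
  have hW : ∀ v, v ∈ W ↔ E.ι v ∈ Y := fun _ => Iff.rfl
  have hj : ∀ u ∈ U, E.ι (Function.invFun E.ι u) = u := fun u hu =>
    Function.invFun_eq ((E.mem u).1 hu)
  have hmap : ∀ g : A, W.map (E.ρ ⟨g, hU g.2⟩).toLinearMap = W := by
    intro g
    ext v
    constructor
    · rintro ⟨x, hx, rfl⟩
      show E.ι (E.ρ ⟨g, hU g.2⟩ x) ∈ Y
      rw [E.act]
      exact nz_conj (hY g.2) hx
    · intro hv
      refine ⟨(E.ρ ⟨g, hU g.2⟩)⁻¹ v, ?_, LinearEquiv.apply_symm_apply _ _⟩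
      show E.ι ((E.ρ ⟨g, hU g.2⟩)⁻¹ v) ∈ Y
      rw [← map_inv, E.act]
      simpa using nz_conj' (hY g.2) hv
  have hfin : Finite (E.V ⧸ W) := Finite.of_surjective _ W.mkQ_surjective
  exact ⟨{
    V := E.V ⧸ W
    π := fun u => W.mkQ (Function.invFun E.ι u)
    add := fun u hu v hv => by
      rw [← map_add]
      congr 1
      exact E.inj (by rw [E.add, hj u hu, hj v hv, hj _ (U.mul_mem hu hv)])
    surj := fun v => by
      obtain ⟨x, rfl⟩ := W.mkQ_surjective v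
      have hx := (E.mem _).2 ⟨x, rfl⟩
      exact ⟨E.ι x, hx, by rw [E.inj (hj _ hx)]⟩
    ker := fun u hu => by
      rw [Submodule.mkQ_apply, Submodule.Quotient.mk_eq_zero, hW, hj u hu]
    ρ :=
      { toFun := fun g => Submodule.Quotient.equiv W W (E.ρ ⟨g, hU g.2⟩) (hmap g)
        map_one' := by
          refine LinearEquiv.ext fun v => ?_
          obtain ⟨x, rfl⟩ := W.mkQ_surjective v
          show W.mkQ (E.ρ 1 x) = W.mkQ x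
          rw [map_one]; rfl
        map_mul' := fun a b => by
          refine LinearEquiv.ext fun v => ?_
          obtain ⟨x, rfl⟩ := W.mkQ_surjective v
          show W.mkQ (E.ρ (⟨a, hU a.2⟩ * ⟨b, hU b.2⟩) x) =
            W.mkQ (E.ρ ⟨a, hU a.2⟩ (E.ρ ⟨b, hU b.2⟩ x))
          rw [map_mul]; rfl }
    act := fun g u hu => by
      show W.mkQ _ = W.mkQ (E.ρ ⟨g, hU g.2⟩ (Function.invFun E.ι u))
      congr 1
      exact E.inj (by rw [E.act, hj u hu, hj _ (nz_conj (hU g.2) hu)])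
    hU := hU
    hY := hY
    le := hle
    ab := h1 }⟩

/-- `a` acts on `U / Y` as a transvection with centre `w` -/
structure TrS (U Y : Subgroup G) (a w : G) : Prop where
  mem : w ∈ U
  ne : w ∉ Y
  app : ∀ z ∈ U, a * z * a⁻¹ * z⁻¹ ∈ zpowers w ⊔ Y
  ex : ∃ z ∈ U, a * z * a⁻¹ * z⁻¹ ∉ Y

variable {p : ℕ} {U Y A : Subgroup G}

namespace QRep

variable (E : QRep p U Y A)

theorem one : E.π 1 = 0 := (E.ker 1 U.one_mem).2 Y.one_mem

theorem inv {u : G} (hu : u ∈ U) : E.π u⁻¹ = - E.π u := by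
  rw [eq_neg_iff_add_eq_zero, ← E.add _ (U.inv_mem hu) _ hu, inv_mul_cancel, E.one]

/-- the projection as a homomorphism -/
def hom : U →* Multiplicative E.V where
  toFun u := Multiplicative.ofAdd (E.π u)
  map_one' := congrArg Multiplicative.ofAdd E.one
  map_mul' a b := congrArg Multiplicative.ofAdd (E.add a a.2 b b.2)

theorem zpow {u : G} (hu : u ∈ U) (i : ℤ) : E.π (u ^ i) = i • E.π u :=
  congrArg Multiplicative.toAdd (map_zpow E.hom ⟨u, hu⟩ i)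

theorem line {u w : G} (hu : u ∈ U) (hw : w ∈ U) :
    u ∈ zpowers w ⊔ Y ↔ ∃ c : ZMod p, E.π u = c • E.π w := by
  constructor
  · intro h
    have h' : u ∈ ((zpowers w ⊔ Y : Subgroup G) : Set G) := h
    rw [Subgroup.coe_mul_of_left_le_normalizer_right _ Y
      (((zpowers_le.2 hw).trans E.ab).trans (Cn_le_nz E.le))] at h'
    obtain ⟨_, ⟨i, rfl⟩, y, hy, rfl⟩ := h'
    refine ⟨i, ?_⟩
    show E.π (w ^ i * y) = _
    rw [E.add _ (U.zpow_mem hw i) _ (E.le hy), (E.ker y (E.le hy)).2 hy, add_zero, E.zpow hw,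
      Int.cast_smul_eq_zsmul]
  · rintro ⟨c, hc⟩
    rw [← ZMod.intCast_zmod_cast c, Int.cast_smul_eq_zsmul, ← E.zpow hw] at hc
    have h1 : (w ^ (c.cast : ℤ))⁻¹ * u ∈ Y := by
      have h2 := U.zpow_mem hw (c.cast : ℤ)
      rw [← E.ker _ (U.mul_mem (U.inv_mem h2) hu), E.add _ (U.inv_mem h2) _ hu, E.inv h2, hc,
        neg_add_cancel]
    have := mul_mem (mem_sup_left (zpow_mem_zpowers w (c.cast : ℤ))) (mem_sup_right h1)
    simpa using this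

theorem comm (g : A) {u : G} (hu : u ∈ U) :
    E.π (g * u * (g : G)⁻¹ * u⁻¹) = E.ρ g (E.π u) - E.π u := by
  rw [E.add _ (nz_conj (E.hU g.2) hu) _ (U.inv_mem hu), E.act g u hu, E.inv hu, sub_eq_add_neg]

include E in
theorem comm_mem (g : A) {u : G} (hu : u ∈ U) : (g : G) * u * (g : G)⁻¹ * u⁻¹ ∈ U :=
  U.mul_mem (nz_conj (E.hU g.2) hu) (U.inv_mem hu)

theorem fix_iff (g : A) {u : G} (hu : u ∈ U) :
    E.ρ g (E.π u) = E.π u ↔ (g : G) * u * (g : G)⁻¹ * u⁻¹ ∈ Y := by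
  rw [← E.ker _ (E.comm_mem g hu), E.comm g hu, sub_eq_zero]

theorem line' (g : A) {u w : G} (hu : u ∈ U) (hw : w ∈ U) :
    (g : G) * u * (g : G)⁻¹ * u⁻¹ ∈ zpowers w ⊔ Y ↔
      ∃ c : ZMod p, E.ρ g (E.π u) = E.π u + c • E.π w := by
  rw [E.line (E.comm_mem g hu) hw, E.comm g hu]
  exact exists_congr fun c => sub_eq_iff_eq_add'

theorem ker_iff (g : A) : E.ρ g = 1 ↔ (g : G) ∈ Cs U Y := by
  rw [LinearEquiv.ext_iff]
  constructor
  · exact fun h => ⟨E.hY g.2, fun u hu => (E.fix_iff g hu).1 (h _)⟩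
  · intro h v
    obtain ⟨u, hu, rfl⟩ := E.surj v
    exact (E.fix_iff g hu).2 (h.2 u hu)

/-- image of a subgroup -/
def Im (X : Subgroup G) : Subgroup (E.V ≃ₗ[ZMod p] E.V) := (X.subgroupOf A).map E.ρ

theorem card_Im {X : Subgroup G} (hX : X ≤ A) : Nat.card (E.Im X) = (Cs U Y).relIndex X := by
  have h1 := relIndex_ker (X.subgroupOf A) E.ρ
  have h2 : E.ρ.ker = (Cs U Y).subgroupOf A := by
    ext g; exact E.ker_iff g
  rw [h2, relIndex_subgroupOf hX] at h1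
  exact h1.symm

theorem nz {R : Subgroup G} {g : A} (hg : (g : G) ∈ normalizer (R : Set G)) :
    E.ρ g ∈ normalizer (E.Im R : Set _) := by
  rw [Subgroup.mem_normalizer_iff]
  intro γ
  constructor
  · rintro ⟨r, hr, rfl⟩
    exact ⟨g * r * g⁻¹, nz_conj (X := R) hg hr, by simp⟩
  · rintro ⟨r, hr, h⟩
    refine ⟨g⁻¹ * r * g, nz_conj' (X := R) hg hr, ?_⟩
    rw [map_mul, map_mul, h, map_inv]; group

theorem pow_one {a : A} {k : ℕ} (ha : (a : G) ^ k = 1) : E.ρ a ^ k = 1 := by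
  rw [← map_pow, ← E.ρ.map_one]; congr 1; exact Subtype.ext ha

variable [hp : Fact p.Prime]

theorem tvF {a : A} {k : ℕ} (ha : (a : G) ^ p ^ k = 1) {w : G}
    (h : TrS U Y a w) : ∃ φ, TvF (E.ρ a) φ (E.π w) := by
  refine exists_TvF (k := k) (E.pow_one ha) (fun h0 => h.ne ((E.ker w h.mem).1 h0))
    (fun v => ?_) ?_
  · obtain ⟨u, hu, rfl⟩ := E.surj v
    exact (E.line' a hu h.mem).1 (h.app u hu)
  · obtain ⟨z, hz, hc⟩ := h.ex
    exact ⟨_, fun h0 => hc ((E.fix_iff a hz).1 h0)⟩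

theorem trS {a : A} {w : G} (hw : w ∈ U) {φ : E.V →ₗ[ZMod p] ZMod p}
    (h : TvF (E.ρ a) φ (E.π w)) : TrS U Y a w := by
  refine ⟨hw, fun h0 => h.ne ((E.ker w hw).2 h0), fun z hz => (E.line' a hz hw).2 ⟨_, h.app _⟩, ?_⟩
  obtain ⟨v, hv⟩ := h.ex
  obtain ⟨u, hu, rfl⟩ := E.surj v
  refine ⟨u, hu, fun hc => ?_⟩
  have := (E.fix_iff a hu).2 hc
  rw [h.app, add_eq_left, smul_eq_zero] at this
  exact this.elim hv h.ne

/-- preimage of a submodule -/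
def pre (W : Submodule (ZMod p) E.V) : Subgroup U := W.toAddSubgroup.toSubgroup.comap E.hom

theorem mem_pre {W : Submodule (ZMod p) E.V} {u : U} : u ∈ E.pre W ↔ E.π u ∈ W := Iff.rfl

theorem index_pre (W : Submodule (ZMod p) E.V) : Nat.card W * (E.pre W).index = Nat.card E.V := by
  unfold pre
  rw [index_comap_of_surjective _ (fun v => by
    obtain ⟨u, hu, h⟩ := E.surj v.toAdd
    exact ⟨⟨u, hu⟩, congrArg Multiplicative.ofAdd h⟩)]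
  exact W.toAddSubgroup.toSubgroup.card_mul_index

end QRep

/-- the standing hypotheses in group form -/
structure PrS (p : ℕ) (U Y A R D P : Subgroup G) : Prop where
  prime : p.Prime
  fin : Finite U
  ab : U ≤ Cn U
  ex : ∀ z ∈ U, z ^ p = 1
  le : Y ≤ U
  hU : A ≤ normalizer (U : Set G)
  hY : A ≤ normalizer (Y : Set G)
  hPA : P ≤ A
  hRA : R ≤ A
  hDR : D ≤ R
  hAD : A ≤ normalizer (D : Set G)
  hP : IsPGroup p P
  hD : ∀ r ∈ D, ∃ m : ℕ, m.Coprime p ∧ r ^ m ∈ Cs U Y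
  hF : ∀ a ∈ P, a ∉ Cs U Y → ∃ r ∈ D, a * r * a⁻¹ * r⁻¹ ∉ Cs U Y
  hC : P ⊓ Cs U Y ≤ Cn U
  gen : ∀ t ∈ P, t ∉ Cs U Y → R ≤ closure {k | ∃ g ∈ A, k = g * t * g⁻¹}

variable {R D P : Subgroup G}

theorem PrS.rep (H : PrS p U Y A R D P) : Nonempty (QRep p U Y A) :=
  have := H.fin
  exists_qrep p H.ab H.ex H.le H.hU H.hY

theorem PrS.pr [Fact p.Prime] (H : PrS p U Y A R D P) (E : QRep p U Y A) :
    Pr (E.Im D) (E.Im P) := by
  refine ⟨?_, ?_, ?_, ?_⟩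
  · rintro _ ⟨r, hr, rfl⟩
    obtain ⟨m, hm, h⟩ := H.hD r hr
    exact ⟨m, hm, by rw [← map_pow]; exact (E.ker_iff _).2 h⟩
  · exact (H.hP.comap_subtype).map _
  · rintro _ ⟨a, -, rfl⟩
    exact E.nz (H.hAD a.2)
  · rintro _ ⟨a, ha, rfl⟩ h1
    obtain ⟨r, hr, h⟩ := H.hF a ha (fun h0 => h1 ((E.ker_iff a).2 h0))
    have hrA := H.hRA (H.hDR hr)
    refine ⟨E.ρ ⟨r, hrA⟩, ⟨_, hr, rfl⟩, fun hc => h ?_⟩
    refine (E.ker_iff (a * ⟨r, hrA⟩ * a⁻¹ * (⟨r, hrA⟩)⁻¹)).1 ?_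
    rw [map_mul, map_mul, map_mul, map_inv, map_inv, hc.eq]; group

theorem QRep.im_ab (E : QRep p U Y A) {X : Subgroup G} (hAc : X ≤ Cn X)
    (hAp : ∀ a ∈ X, a ^ p = 1) :
    (∀ a ∈ E.Im X, ∀ b ∈ E.Im X, Commute a b) ∧ ∀ a ∈ E.Im X, a ^ p = 1 := by
  constructor
  · rintro _ ⟨a, ha, rfl⟩ _ ⟨b, hb, rfl⟩
    exact Commute.map (Subtype.ext (mem_Cn.1 (hAc hb) a ha) : Commute a b) E.ρ
  · rintro _ ⟨a, ha, rfl⟩
    exact E.pow_one (hAp a ha)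

theorem PrS.idx (H : PrS p U Y A R D P) {X : Subgroup G} (hX : X ≤ P) :
    (Cs U Y).relIndex X = (Cn U).relIndex X := by
  rw [← inf_relIndex_right (Cs U Y), ← inf_relIndex_right (Cn U)]
  congr 1
  exact le_antisymm (fun g hg => ⟨H.hC ⟨hX hg.2, hg.1⟩, hg.2⟩)
    (inf_le_inf_right _ (Cn_le_Cs H.le))

theorem QRep.cn_le [Fact p.Prime] (E : QRep p U Y A) (X : Subgroup G) :
    (Cn X).subgroupOf U ≤ E.pre (Fx (E.Im X)) := by
  rintro u hu _ ⟨g, hg, rfl⟩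
  refine (E.fix_iff g u.2).2 ?_
  rw [comm_one (a := (g : G)) (u := (u : G)) (mem_Cn.1 hu g hg)]
  exact Y.one_mem

theorem PrS.ineq0 [Fact p.Prime] (H : PrS p U Y A R D P) (E : QRep p U Y A) {X : Subgroup G}
    (hX : X ≤ P) (hXc : X ≤ Cn X) (hXp : ∀ a ∈ X, a ^ p = 1) :
    (Cn U).relIndex X ≤ (E.pre (Fx (E.Im X))).index ∧
      (E.pre (Fx (E.Im X))).index ≤ (Cn X).relIndex U := by
  have := H.fin
  obtain ⟨h1, h2⟩ := E.im_ab hXc hXp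
  have h3 := (H.pr E).ineq _ (E.Im X) rfl (map_mono (comap_mono hX)) h1 h2
  rw [← E.index_pre (Fx (E.Im X)), mul_comm, E.card_Im (hX.trans H.hPA), H.idx hX] at h3
  exact ⟨Nat.le_of_mul_le_mul_left h3 Nat.card_pos, index_antitone (E.cn_le X)⟩

theorem PrS.ineq (H : PrS p U Y A R D P) {X : Subgroup G} (hX : X ≤ P) (hXc : X ≤ Cn X)
    (hXp : ∀ a ∈ X, a ^ p = 1) : (Cn U).relIndex X ≤ (Cn X).relIndex U := by
  have := Fact.mk H.prime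
  obtain ⟨E⟩ := H.rep
  exact (H.ineq0 E hX hXc hXp).1.trans (H.ineq0 E hX hXc hXp).2

/-- an elementary abelian subgroup of `P` for which the inequality is an equality -/
structure Ex (p : ℕ) (U P X : Subgroup G) : Prop where
  le : X ≤ P
  ab : X ≤ Cn X
  ex : ∀ a ∈ X, a ^ p = 1
  eq : (Cn X).relIndex U ≤ (Cn U).relIndex X

theorem PrS.cent (H : PrS p U Y A R D P) {X : Subgroup G} (hX : Ex p U P X) {u : G} (hu : u ∈ U)
    (h : ∀ a ∈ X, a * u * a⁻¹ * u⁻¹ ∈ Y) : u ∈ Cn X := by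
  have := Fact.mk H.prime
  have := H.fin
  obtain ⟨E⟩ := H.rep
  obtain ⟨h1, h2⟩ := H.ineq0 E hX.le hX.ab hX.ex
  have h3 := relIndex_mul_index (E.cn_le X)
  have h4 : ((Cn X).subgroupOf U).index = (E.pre (Fx (E.Im X))).index :=
    le_antisymm (hX.eq.trans h1) h2
  rw [h4, mul_eq_right₀ index_ne_zero_of_finite, relIndex_eq_one] at h3
  refine h3 (x := ⟨u, hu⟩) ?_
  rintro _ ⟨g, hg, rfl⟩
  exact (E.fix_iff g hu).2 (h g hg)

theorem PrS.genX (H : PrS p U Y A R D P) {X : Subgroup G} (hX : Ex p U P X) {L : Subgroup G}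
    (hL : ∀ t ∈ X, (∃ w, TrS U Y t w) → t ∈ L) (hL' : X ⊓ Cn U ≤ L) : X ≤ L := by
  have := Fact.mk H.prime
  obtain ⟨E⟩ := H.rep
  obtain ⟨h1, h2⟩ := E.im_ab hX.ab hX.ex
  have hXA := hX.le.trans H.hPA
  have h3 := (H.pr E).gen (E.Im (X ⊓ L)) _ (E.Im X) rfl (map_mono (comap_mono hX.le)) h1 h2 (by
    rw [← E.index_pre (Fx (E.Im X)), mul_comm, E.card_Im hXA, H.idx hX.le]
    exact Nat.mul_le_mul_right _ ((H.ineq0 E hX.le hX.ab hX.ex).2.trans hX.eq)) (by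
    rintro _ ⟨t, ht, rfl⟩ ⟨φ, w, h⟩
    obtain ⟨u, hu, rfl⟩ := E.surj w
    exact ⟨t, ⟨ht, hL t ht ⟨_, E.trS hu h⟩⟩, rfl⟩)
  intro a ha
  obtain ⟨l, hl, h4⟩ := h3 (⟨⟨a, hXA ha⟩, ha, rfl⟩ : E.ρ ⟨a, hXA ha⟩ ∈ E.Im X)
  have h5 : (l : G)⁻¹ * a ∈ Cs U Y :=
    (E.ker_iff (l⁻¹ * ⟨a, hXA ha⟩)).1 (by rw [map_mul, map_inv, h4, inv_mul_cancel])
  have h7 := X.mul_mem (X.inv_mem hl.1) ha
  have h6 := L.mul_mem hl.2 (hL' ⟨h7, H.hC ⟨hX.le h7, h5⟩⟩)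
  simpa using h6

variable {a w g r : G}

theorem PrS.tv [Fact p.Prime] (H : PrS p U Y A R D P) (E : QRep p U Y A) (h : TrS U Y a w)
    (ha : a ∈ P) : ∃ φ, TvF (E.ρ ⟨a, H.hPA ha⟩) φ (E.π w) := by
  obtain ⟨k, hk⟩ := pg_pow H.hP ha
  exact E.tvF (a := ⟨a, H.hPA ha⟩) hk h

theorem PrS.exists_r (H : PrS p U Y A R D P) (h : TrS U Y a w) (ha : a ∈ P) :
    ∃ r ∈ R, a * (r * w * r⁻¹) * a⁻¹ * (r * w * r⁻¹)⁻¹ ∉ Y := by
  have := Fact.mk H.prime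
  obtain ⟨E⟩ := H.rep
  obtain ⟨φ, hφ⟩ := H.tv E h ha
  have m : E.ρ ⟨a, H.hPA ha⟩ ∈ E.Im P := ⟨_, ha, rfl⟩
  obtain ⟨_, ⟨r, hr, rfl⟩, h0⟩ := hφ.exists_r (H.pr E).hR ((H.pr E).hn m)
    ((H.pr E).hF _ m hφ.ne_one)
  refine ⟨r, H.hDR hr, fun hc => ?_⟩
  have := (E.fix_iff ⟨a, H.hPA ha⟩ (nz_conj (H.hU r.2) h.mem)).2 hc
  rw [E.act r w h.mem, hφ.app, add_eq_left, smul_eq_zero] at this
  exact this.elim h0 hφ.ne

theorem PrS.keep [Fact p.Prime] (H : PrS p U Y A R D P) (E : QRep p U Y A) (h : TrS U Y a w)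
    (ha : a ∈ P) (hr : r ∈ R) {v : E.V} (hv : v ∈ Wsp (E.Im D) (E.π w)) :
    E.ρ ⟨r, H.hRA hr⟩ v ∈ Wsp (E.Im D) (E.π w) := by
  obtain ⟨φ, hφ⟩ := H.tv E h ha
  have m : E.ρ ⟨a, H.hPA ha⟩ ∈ E.Im P := ⟨_, ha, rfl⟩
  have h1 := H.gen a ha (fun h0 => hφ.ne_one ((E.ker_iff ⟨a, H.hPA ha⟩).2 h0)) hr
  have key : ∀ k ∈ closure {k | ∃ g ∈ A, k = g * a * g⁻¹}, ∃ hk : k ∈ A,
      (∀ v ∈ Wsp (E.Im D) (E.π w), E.ρ ⟨k, hk⟩ v ∈ Wsp (E.Im D) (E.π w)) ∧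
      ∀ v ∈ Wsp (E.Im D) (E.π w), (E.ρ ⟨k, hk⟩)⁻¹ v ∈ Wsp (E.Im D) (E.π w) := by
    intro k hk
    induction hk using closure_induction with
    | mem x hx =>
      obtain ⟨g, hg, rfl⟩ := hx
      have hk := A.mul_mem (A.mul_mem hg (H.hPA ha)) (A.inv_mem hg)
      have e : E.ρ ⟨_, hk⟩ = E.ρ ⟨g, hg⟩ * E.ρ ⟨a, H.hPA ha⟩ * (E.ρ ⟨g, hg⟩)⁻¹ := by
        rw [← map_inv, ← map_mul, ← map_mul]; rfl
      have h2 := hφ.conj (E.ρ ⟨g, hg⟩)
      rw [← e] at h2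
      have h3 : ∀ v ∈ Wsp (E.Im D) (E.π w), E.ρ ⟨_, hk⟩ v ∈ Wsp (E.Im D) (E.π w) := fun v hv =>
        hφ.keeps (H.pr E).hR ((H.pr E).hn m) ((H.pr E).hF _ m hφ.ne_one) h2
          (E.nz (H.hAD hk)) hv
      refine ⟨hk, h3, fun v hv => ?_⟩
      have h4 := h3 v hv
      rw [h2.app] at h4
      rw [h2.inv_apply]
      exact sub_mem hv ((Submodule.add_mem_iff_right _ hv).1 h4)
    | one => exact ⟨A.one_mem, fun v hv => by
        rw [show (⟨1, A.one_mem⟩ : A) = 1 from rfl, map_one]; exact hv, fun v hv => by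
        rw [show (⟨1, A.one_mem⟩ : A) = 1 from rfl, map_one, inv_one]; exact hv⟩
    | mul x y _ _ hx hy =>
      obtain ⟨hx, x1, x2⟩ := hx
      obtain ⟨hy, y1, y2⟩ := hy
      have e : E.ρ ⟨_, A.mul_mem hx hy⟩ = E.ρ ⟨x, hx⟩ * E.ρ ⟨y, hy⟩ := by
        rw [← map_mul]; rfl
      exact ⟨A.mul_mem hx hy, fun v hv => by rw [e]; exact x1 _ (y1 v hv),
        fun v hv => by rw [e, mul_inv_rev]; exact y2 _ (x2 v hv)⟩
    | inv x _ hx =>
      obtain ⟨hx, x1, x2⟩ := hx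
      have e : E.ρ ⟨_, A.inv_mem hx⟩ = (E.ρ ⟨x, hx⟩)⁻¹ := by
        rw [← map_inv]; rfl
      exact ⟨A.inv_mem hx, fun v hv => by rw [e]; exact x2 v hv,
        fun v hv => by rw [e, inv_inv]; exact x1 v hv⟩
  obtain ⟨_, h5, -⟩ := key r h1
  exact h5 v hv

theorem PrS.dich (H : PrS p U Y A R D P) (h : TrS U Y a w) (ha : a ∈ P) {a' w' : G}
    (h' : TrS U Y a' w') (ha' : a' ∈ P) :
    (w' ∈ zpowers w ⊔ Y ∧ ∃ j : ℕ, (a ^ j)⁻¹ * a' ∈ Cn U) ∨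
      ∀ r ∈ R, a' * (r * w * r⁻¹) * a'⁻¹ * (r * w * r⁻¹)⁻¹ ∈ Y := by
  have := Fact.mk H.prime
  obtain ⟨E⟩ := H.rep
  obtain ⟨φ, hφ⟩ := H.tv E h ha
  obtain ⟨φ', hφ'⟩ := H.tv E h' ha'
  by_cases hw : ∃ c : ZMod p, E.π w' = c • E.π w
  · refine Or.inl ⟨(E.line h'.mem h.mem).2 hw, ?_⟩
    obtain ⟨c, hc⟩ := hw
    obtain ⟨j, hj⟩ := (H.pr E).same hφ hφ' ⟨_, ha, rfl⟩ ⟨_, ha', rfl⟩ hc
    refine ⟨j, H.hC ⟨P.mul_mem (P.inv_mem (P.pow_mem ha j)) ha', ?_⟩⟩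
    refine (E.ker_iff ((⟨a, H.hPA ha⟩ ^ j)⁻¹ * ⟨a', H.hPA ha'⟩)).1 ?_
    rw [map_mul, map_inv, map_pow, hj, inv_mul_cancel]
  · refine Or.inr fun r hr => ?_
    have h1 := fix_Wsp (fun s hs => (H.pr E).fix hφ hφ' ⟨_, ha, rfl⟩ ⟨_, ha', rfl⟩ hw hs)
      (H.keep E h ha hr (self_mem_Wsp _))
    rw [← E.act _ w h.mem] at h1
    exact (E.fix_iff ⟨a', H.hPA ha'⟩ (nz_conj (H.hU (H.hRA hr)) h.mem)).1 h1

theorem PrS.plane (H : PrS p U Y A R D P) (h : TrS U Y a w) (ha : a ∈ P) :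
    ∃ W : Subgroup G, w ∈ W ∧ R ⊔ zpowers a ≤ normalizer (W : Set G) ∧
      ∀ u ∈ W, a * u * a⁻¹ * u⁻¹ ∈ Y → u ∈ zpowers w ⊔ Y := by
  have := Fact.mk H.prime
  have := H.fin
  obtain ⟨E⟩ := H.rep
  obtain ⟨φ, hφ⟩ := H.tv E h ha
  have m : E.ρ ⟨a, H.hPA ha⟩ ∈ E.Im P := ⟨_, ha, rfl⟩
  let W : Subgroup G := (E.pre (Wsp (E.Im D) (E.π w))).map U.subtype
  have hfin : Finite W := Finite.of_injective _ (inclusion_injective (map_subtype_le _))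
  refine ⟨W, ⟨⟨w, h.mem⟩, self_mem_Wsp _, rfl⟩, sup_le (le_nz ?_) (zpowers_le.2 ?_), ?_⟩
  · rintro r hr _ ⟨u, hu, rfl⟩
    refine ⟨⟨_, nz_conj (H.hU (H.hRA hr)) u.2⟩, ?_, rfl⟩
    have := H.keep E h ha hr (E.mem_pre.1 hu)
    rw [← E.act _ _ u.2] at this
    exact E.mem_pre.2 this
  · refine mem_normalizer_fintype ?_
    rintro _ ⟨u, hu, rfl⟩
    refine ⟨⟨_, nz_conj (H.hU (H.hPA ha)) u.2⟩, ?_, rfl⟩
    have h1 := E.act ⟨a, H.hPA ha⟩ _ u.2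
    rw [hφ.app] at h1
    refine E.mem_pre.2 ?_
    show E.π (a * u * a⁻¹) ∈ _
    rw [h1]
    exact add_mem (E.mem_pre.1 hu) (Submodule.smul_mem _ _ (self_mem_Wsp _))
  · rintro _ ⟨u, hu, rfl⟩ hc
    exact (E.line u.2 h.mem).2 (hφ.line_of (H.pr E).hR ((H.pr E).hn m)
      ((H.pr E).hF _ m hφ.ne_one) hu ((E.fix_iff ⟨a, H.hPA ha⟩ u.2).2 hc))

theorem PrS.scalar (H : PrS p U Y A R D P) (hw : w ∈ U) (hg : g ∈ A) {k : ℕ}
    (hk : g ^ p ^ k = 1) (h : g * w * g⁻¹ ∈ zpowers w ⊔ Y) : g * w * g⁻¹ * w⁻¹ ∈ Y := by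
  have := Fact.mk H.prime
  obtain ⟨E⟩ := H.rep
  obtain ⟨c, hc⟩ := (E.line (nz_conj (H.hU hg) hw) hw).1 h
  rw [E.act ⟨g, hg⟩ w hw] at hc
  exact (E.fix_iff ⟨g, hg⟩ hw).1 (lin_scalar (E.pow_one (a := ⟨g, hg⟩) hk) hc)

theorem PrS.line_symm (H : PrS p U Y A R D P) (hw : w ∈ U) {u : G} (h : u ∈ zpowers w ⊔ Y)
    (h1 : u ∉ Y) : w ∈ zpowers u ⊔ Y := by
  have := Fact.mk H.prime
  obtain ⟨E⟩ := H.rep
  have hu : u ∈ U := (sup_le (zpowers_le.2 hw) H.le) h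
  obtain ⟨c, hc⟩ := (E.line hu hw).1 h
  have hc0 : c ≠ 0 := fun h0 => h1 ((E.ker u hu).1 (by rw [hc, h0, zero_smul]))
  exact (E.line hw hu).2 ⟨c⁻¹, by rw [hc, smul_smul, inv_mul_cancel₀ hc0, one_smul]⟩

theorem PrS.commute (H : PrS p U Y A R D P) (h : TrS U Y a w) (ha : a ∈ P) {a' w' : G}
    (h' : TrS U Y a' w') (ha' : a' ∈ P) : a * a' * a⁻¹ * a'⁻¹ ∈ Cs U Y := by
  have := Fact.mk H.prime
  obtain ⟨E⟩ := H.rep
  obtain ⟨φ, hφ⟩ := H.tv E h ha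
  obtain ⟨φ', hφ'⟩ := H.tv E h' ha'
  have hc := (H.pr E).commute hφ hφ' ⟨_, ha, rfl⟩ ⟨_, ha', rfl⟩
  refine (E.ker_iff (⟨a, H.hPA ha⟩ * ⟨a', H.hPA ha'⟩ * (⟨a, H.hPA ha⟩)⁻¹ *
    (⟨a', H.hPA ha'⟩)⁻¹)).1 ?_
  rw [map_mul, map_mul, map_mul, map_inv, map_inv, hc.eq]; group

theorem cj_zpowers (g w : G) : cj g (zpowers w) = zpowers (g * w * g⁻¹) := by
  unfold cj
  rw [MonoidHom.map_zpowers]; rfl

theorem TrS.conj (h : TrS U Y a w) (g : G) :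
    TrS (cj g U) (cj g Y) (g * a * g⁻¹) (g * w * g⁻¹) := by
  refine ⟨conj_mem_cj h.mem, fun h0 => h.ne (by simpa [mem_cj, mul_assoc] using h0),
    fun z hz => ?_, ?_⟩
  · have := conj_mem_cj (g := g) (h.app _ (mem_cj.1 hz))
    rw [cj_sup, cj_zpowers] at this
    convert this using 1
    group
  · obtain ⟨z, hz, hc⟩ := h.ex
    refine ⟨_, conj_mem_cj hz, fun h0 => hc ?_⟩
    rw [mem_cj] at h0
    convert h0 using 1
    group

/-- a normal subgroup acting as a `p`-group on an irreducible section acts trivially -/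
theorem fixed_sec (hp : p.Prime) [Finite U] (h1 : U ≤ Cn U)
    (h2 : ∀ z ∈ U, z ^ p = 1) (hle : Y ≤ U) (hU : A ≤ normalizer (U : Set G))
    (hY : A ≤ normalizer (Y : Set G)) (hne : ¬ U ≤ Y) {S : Subgroup G}
    (hS : ∀ s ∈ S, ∃ k, s ^ p ^ k ∈ Cs U Y) (hSA : S ≤ A) :
    ∃ u ∈ U, u ∉ Y ∧ ∀ s ∈ S, s * u * s⁻¹ * u⁻¹ ∈ Y := by
  have := Fact.mk hp
  obtain ⟨E⟩ := exists_qrep p h1 h2 hle hU hY
  obtain ⟨x, hx, hxY⟩ := SetLike.not_le_iff_exists.1 hne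
  have hP : IsPGroup p (E.Im S) := by
    rintro ⟨_, s, hs, rfl⟩
    obtain ⟨k, hk⟩ := hS s hs
    exact ⟨k, Subtype.ext (by
      show E.ρ s ^ p ^ k = 1
      rw [← map_pow]; exact (E.ker_iff _).2 hk)⟩
  obtain ⟨v, -, hv0, hv⟩ := fixed_vec hP ⊤ (fun _ _ _ _ => trivial) (x := E.π x) trivial
    fun h0 => hxY ((E.ker x hx).1 h0)
  obtain ⟨u, hu, rfl⟩ := E.surj v
  exact ⟨u, hu, fun h0 => hv0 ((E.ker u hu).2 h0),
    fun s hs => (E.fix_iff ⟨s, hSA hs⟩ hu).1 (hv _ ⟨_, hs, rfl⟩)⟩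

theorem pel_sec (hp : p.Prime) [Finite U] (h1 : U ≤ Cn U)
    (h2 : ∀ z ∈ U, z ^ p = 1) (hle : Y ≤ U) (hU : A ≤ normalizer (U : Set G))
    (hY : A ≤ normalizer (Y : Set G)) {T : Subgroup G} (hTA : T ≤ A)
    (hT : (∀ a ∈ T, ∃ k, ∀ b ∈ T, a ^ p ^ k * b * (a ^ p ^ k)⁻¹ * b⁻¹ ∈ Cs U Y) ∨
      ∀ a ∈ T, ∀ b ∈ T, ∀ c ∈ T,
        a * b * a⁻¹ * b⁻¹ * c * (a * b * a⁻¹ * b⁻¹)⁻¹ * c⁻¹ ∈ Cs U Y) {a b : G}
    (ha : a ∈ T) (hb : b ∈ T) {k l : ℕ} (k1 : a ^ p ^ k ∈ Cs U Y) (k2 : b ^ p ^ l ∈ Cs U Y) :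
    ∃ m, (a * b) ^ p ^ m ∈ Cs U Y := by
  have := Fact.mk hp
  obtain ⟨E⟩ := exists_qrep p h1 h2 hle hU hY
  have := finite_GL (p := p) (V := E.V)
  obtain ⟨m, hm⟩ := pel_mul hp (T := E.Im T) (by
    refine hT.imp (fun hT => ?_) fun hT => ?_
    · rintro _ ⟨a, ha, rfl⟩
      obtain ⟨k, hk⟩ := hT a ha
      refine ⟨k, ?_⟩
      rintro _ ⟨b, hb, rfl⟩
      have := (E.ker_iff (a ^ p ^ k * b * (a ^ p ^ k)⁻¹ * b⁻¹)).2 (hk b hb)
      rw [map_mul, map_mul, map_mul, map_inv, map_inv, map_pow] at this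
      exact of_comm_one this
    · rintro _ ⟨a, ha, rfl⟩ _ ⟨b, hb, rfl⟩ _ ⟨c, hc, rfl⟩
      have := (E.ker_iff (a * b * a⁻¹ * b⁻¹ * c * (a * b * a⁻¹ * b⁻¹)⁻¹ * c⁻¹)).2
        (hT a ha b hb c hc)
      simp only [map_mul, map_inv] at this
      exact of_comm_one this) (a := E.ρ ⟨a, hTA ha⟩) (b := E.ρ ⟨b, hTA hb⟩) ⟨_, ha, rfl⟩
    ⟨_, hb, rfl⟩ (k := k) (l := l) (by rw [← map_pow]; exact (E.ker_iff _).2 k1)
    (by rw [← map_pow]; exact (E.ker_iff _).2 k2)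
  rw [← map_mul, ← map_pow] at hm
  exact ⟨m, (E.ker_iff _).1 hm⟩

theorem comm_sec (hp : p.Prime) [Finite U] (h1 : U ≤ Cn U) (h2 : ∀ z ∈ U, z ^ p = 1)
    (hU : A ≤ normalizer (U : Set G)) (hRA : R ≤ A) (hPA : P ≤ A)
    (hAR : A ≤ normalizer (R : Set G)) (hP : IsPGroup p P) (hR : R ≤ ⁅R, P⁆)
    (h : R ≤ Cs U (U ⊓ Cn R)) : R ≤ Cn U := by
  have := Fact.mk hp
  obtain ⟨E⟩ := exists_qrep p h1 h2 bot_le hU (le_nz (by simp))
  have := finite_GL (p := p) (V := E.V)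
  have hb : ∀ g, g ∈ Cs U ⊥ → g ∈ Cn U := fun g hg =>
    mem_Cn.2 fun u hu => (of_comm_one (mem_bot.1 (hg.2 u hu))).eq.symm
  have a1 : IsPGroup p (E.Im R) := by
    rintro ⟨_, r, hr, rfl⟩
    refine ⟨1, Subtype.ext ?_⟩
    show E.ρ r ^ p ^ 1 = 1
    rw [← map_pow, E.ker_iff]
    refine Cn_le_Cs bot_le (mem_Cn.2 fun u hu => ?_)
    have hy := (h hr).2 u hu
    set y := (r : G) * u * (r : G)⁻¹ * u⁻¹ with hyd
    have c1 : Commute (r : G) y := mem_Cn.1 hy.2 r hr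
    have key : ∀ n : ℕ, (r : G) ^ n * u * ((r : G) ^ n)⁻¹ = y ^ n * u := by
      intro n
      induction n with
      | zero => simp
      | succ n ih =>
        calc (r : G) ^ (n + 1) * u * ((r : G) ^ (n + 1))⁻¹
            = r * ((r : G) ^ n * u * ((r : G) ^ n)⁻¹) * (r : G)⁻¹ := by rw [pow_succ']; group
          _ = (r * y ^ n) * u * (r : G)⁻¹ := by rw [ih]; group
          _ = y ^ (n + 1) * u := by rw [(c1.pow_right n).eq, pow_succ, hyd]; group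
    have h3 := key p
    rw [h2 y hy.1, one_mul] at h3
    rw [pow_one]
    exact (mul_inv_eq_iff_eq_mul.1 h3).symm
  have a2 : IsPGroup p (E.Im P) := (hP.comap_subtype).map _
  have a3 : E.Im P ≤ normalizer (E.Im R : Set _) := by
    rintro _ ⟨a, -, rfl⟩
    exact E.nz (hAR a.2)
  have a4 : E.Im R ≤ ⁅E.Im R, E.Im R ⊔ E.Im P⁆ := by
    refine le_trans ?_ (commutator_mono le_rfl le_sup_right)
    unfold QRep.Im
    rw [← map_commutator]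
    refine map_mono fun r hr => ?_
    have h3 : (r : G) ∈ ⁅R, P⁆ := hR hr
    rw [← map_subgroupOf_eq_of_le hRA, ← map_subgroupOf_eq_of_le hPA, ← map_commutator] at h3
    obtain ⟨s, hs, e⟩ := h3
    rwa [← Subtype.ext e]
  have a5 := nil_bot hp (a1.to_sup_of_normal_left' a2 a3) le_sup_left a4
  intro r hr
  have : E.ρ ⟨r, hRA hr⟩ ∈ E.Im R := ⟨_, hr, rfl⟩
  rw [a5, mem_bot] at this
  exact hb r ((E.ker_iff _).1 this)

end Pool.Agent.Lib.MP_607584_al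
end
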