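import Pool.Agent.Lib.MP_607584_al.Tv2

-- part Pool.Agent.Lib.MP_607584_al.Amalgam
section

/-! Arc-transitive actions with semiprimitive local action: basic lemmas and the
Thompson-Wielandt theorem. -/

namespace Pool.Agent.Lib.MP_607584_al

open Subgroup

/-- walks of a given length -/
inductive Wk {V : Type*} (adj : V → V → Prop) : ℕ → V → V → Prop
  | zero (x : V) : Wk adj 0 x x
  | succ {n : ℕ} {x y z : V} : Wk adj n x y → adj y z → Wk adj (n + 1) x z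

theorem Wk.cons {V : Type*} {adj : V → V → Prop} {n : ℕ} {x y z : V} (h : adj x y)
    (w : Wk adj n y z) : Wk adj (n + 1) x z := by
  induction w with
  | zero y => exact (Wk.zero x).succ h
  | succ _ h2 ih => exact (ih h).succ h2

theorem Wk.last {V : Type*} {adj : V → V → Prop} {n : ℕ} {x z : V} (w : Wk adj (n + 1) x z) :
    ∃ y, Wk adj n x y ∧ adj y z := by
  cases w with
  | succ w h => exact ⟨_, w, h⟩

theorem Wk.eq_of_zero {V : Type*} {adj : V → V → Prop} {x z : V} (w : Wk adj 0 x z) : x = z := by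
  cases w; rfl

theorem Wk.one {V : Type*} {adj : V → V → Prop} {x y : V} (h : adj x y) : Wk adj 1 x y :=
  (Wk.zero x).succ h

/-- the standing hypotheses -/
structure Setup (G V : Type*) [Group G] [MulAction G V] where
  adj : V → V → Prop
  symm : ∀ {x y}, adj x y → adj y x
  inv : ∀ (g : G) {x y}, adj x y → adj (g • x) (g • y)
  conn : ∀ x y, ∃ n, Wk adj n x y
  faithful : ∀ g : G, (∀ v : V, g • v = v) → g = 1
  fin : ∀ x : V, Finite (MulAction.stabilizer G x)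
  arc : ∀ {x y x' y'}, adj x y → adj x' y' → ∃ g : G, g • x = x' ∧ g • y = y'
  sp : ∀ (x : V) (N : Subgroup G), N ≤ MulAction.stabilizer G x →
    MulAction.stabilizer G x ≤ normalizer (N : Set G) → ∀ g ∈ N, ∀ c, adj x c → g • c = c →
    (¬ ∀ y, adj x y → g • y = y) → ∀ y y', adj x y → adj x y' → ∃ n ∈ N, n • y = y'

namespace Setup

variable {G V : Type*} [Group G] [MulAction G V] (S : Setup G V)

/-- vertex stabiliser -/
def A (_S : Setup G V) (x : V) : Subgroup G := MulAction.stabilizer G x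

/-- arc stabiliser -/
def B (x y : V) : Subgroup G := S.A x ⊓ S.A y

/-- kernel of the local action -/
def K (x : V) : Subgroup G where
  carrier := {g | g • x = x ∧ ∀ y, S.adj x y → g • y = y}
  one_mem' := ⟨one_smul _ _, fun _ _ => one_smul _ _⟩
  mul_mem' := by
    rintro a b ⟨ha, ha'⟩ ⟨hb, hb'⟩
    exact ⟨by rw [mul_smul, hb, ha], fun y hy => by rw [mul_smul, hb' y hy, ha' y hy]⟩
  inv_mem' := by
    rintro a ⟨ha, ha'⟩
    exact ⟨inv_smul_eq_iff.2 ha.symm, fun y hy => inv_smul_eq_iff.2 (ha' y hy).symm⟩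

variable {S}

theorem mem_A {x : V} {g : G} : g ∈ S.A x ↔ g • x = x := Iff.rfl

theorem mem_B {x y : V} {g : G} : g ∈ S.B x y ↔ g • x = x ∧ g • y = y := Iff.rfl

theorem mem_K {x : V} {g : G} : g ∈ S.K x ↔ g • x = x ∧ ∀ y, S.adj x y → g • y = y := Iff.rfl

theorem B_comm (x y : V) : S.B x y = S.B y x := inf_comm _ _

theorem B_le_left (x y : V) : S.B x y ≤ S.A x := inf_le_left

theorem B_le_right (x y : V) : S.B x y ≤ S.A y := inf_le_right

theorem K_le_A (x : V) : S.K x ≤ S.A x := fun _ h => h.1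

theorem K_le_B {x y : V} (h : S.adj x y) : S.K x ≤ S.B x y := fun _ hg => ⟨hg.1, hg.2 y h⟩

theorem K_le_B' {x y : V} (h : S.adj x y) : S.K y ≤ S.B x y :=
  fun _ hg => ⟨hg.2 x (S.symm h), hg.1⟩

theorem fin_of_le {x : V} {X : Subgroup G} (h : X ≤ S.A x) : Finite X :=
  have : Finite (S.A x) := S.fin x
  Finite.of_injective _ (Subgroup.inclusion_injective h)

instance (x : V) : Finite (S.K x) := fin_of_le (K_le_A x)

theorem conj_smul_iff (g k : G) (y : V) : (g⁻¹ * k * g) • y = y ↔ k • g • y = g • y := by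
  rw [mul_smul, mul_smul, inv_smul_eq_iff]

theorem cj_A (g : G) (x : V) : cj g (S.A x) = S.A (g • x) := by
  ext k; rw [mem_cj, mem_A, mem_A, conj_smul_iff]

theorem cj_B (g : G) (x y : V) : cj g (S.B x y) = S.B (g • x) (g • y) := by
  unfold B; rw [cj_inf, cj_A, cj_A]

theorem cj_K (g : G) (x : V) : cj g (S.K x) = S.K (g • x) := by
  ext k
  rw [mem_cj, mem_K, mem_K, conj_smul_iff]
  refine and_congr_right fun _ => ⟨fun h y hy => ?_, fun h y hy => ?_⟩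
  · have h1 := S.inv g⁻¹ hy
    rw [inv_smul_smul] at h1
    have := (conj_smul_iff g k _).1 (h _ h1)
    rwa [smul_inv_smul] at this
  · exact (conj_smul_iff g k _).2 (h _ (S.inv g hy))

theorem A_le_nz_K (x : V) : S.A x ≤ normalizer (S.K x : Set G) := fun g hg => by
  rw [mem_nz, cj_K, mem_A.1 hg]

theorem wk_symm {n : ℕ} {x y : V} (w : Wk S.adj n x y) : Wk S.adj n y x := by
  induction w with
  | zero x => exact Wk.zero x
  | succ _ h ih => exact Wk.cons (S.symm h) ih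

theorem wk_first {n : ℕ} {x z : V} (w : Wk S.adj (n + 1) x z) :
    ∃ y, S.adj x y ∧ Wk S.adj n y z := by
  obtain ⟨y, h1, h2⟩ := (wk_symm w).last
  exact ⟨y, S.symm h2, wk_symm h1⟩

theorem wk_smul (g : G) {n : ℕ} {x y : V} (w : Wk S.adj n x y) : Wk S.adj n (g • x) (g • y) := by
  induction w with
  | zero x => exact Wk.zero _
  | succ _ h ih => exact ih.succ (S.inv g h)

theorem exists_adj {x y : V} (h : S.adj x y) (v : V) : ∃ w, S.adj v w := by
  obtain ⟨n, w⟩ := S.conn x v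
  cases w with
  | zero => exact ⟨y, h⟩
  | succ _ h2 => exact ⟨_, S.symm h2⟩

/-- a subgroup of an arc stabiliser whose normaliser is locally transitive is trivial -/
theorem lemmaN {X : Subgroup G} {x y : V} (hxy : S.adj x y) (hX : X ≤ S.B x y)
    (h1 : ∀ y', S.adj x y' → ∃ g ∈ normalizer (X : Set G), g • x = x ∧ g • y = y')
    (h2 : ∀ x', S.adj y x' → ∃ g ∈ normalizer (X : Set G), g • y = y ∧ g • x = x') : X = ⊥ := by
  let P : V → V → Prop := fun u v => S.adj u v ∧ X ≤ S.B u v ∧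
    (∀ v', S.adj u v' → ∃ g ∈ normalizer (X : Set G), g • u = u ∧ g • v = v') ∧
    (∀ u', S.adj v u' → ∃ g ∈ normalizer (X : Set G), g • v = v ∧ g • u = u')
  have Psymm : ∀ u v, P u v → P v u := fun u v h =>
    ⟨S.symm h.1, h.2.1.trans (B_comm u v).le, h.2.2.2, h.2.2.1⟩
  have Pstep : ∀ u v v', P u v → S.adj u v' → P u v' := by
    rintro u v v' ⟨ha, hb, hc, hd⟩ hv'
    obtain ⟨g, hg, hgu, hgv⟩ := hc v' hv'
    refine ⟨hv', ?_, fun v'' hv'' => ?_, fun u' hu' => ?_⟩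
    · have := cj_mono g hb
      rwa [cj_B, mem_nz.1 hg, hgu, hgv] at this
    · obtain ⟨g', hg', hgu', hgv'⟩ := hc v'' hv''
      refine ⟨g' * g⁻¹, mul_mem hg' (inv_mem hg), ?_, ?_⟩
      · rw [mul_smul, inv_smul_eq_iff.2 hgu.symm, hgu']
      · rw [mul_smul, ← hgv, inv_smul_smul, hgv']
    · have h3 : S.adj v (g⁻¹ • u') := by
        have := S.inv g⁻¹ hu'
        rwa [← hgv, inv_smul_smul] at this
      obtain ⟨k, hk, hkv, hku⟩ := hd _ h3
      refine ⟨g * k * g⁻¹, mul_mem (mul_mem hg hk) (inv_mem hg), ?_, ?_⟩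
      · rw [mul_smul, mul_smul, ← hgv, inv_smul_smul, hkv]
      · rw [mul_smul, mul_smul, inv_smul_eq_iff.2 hgu.symm, hku, smul_inv_smul]
  have all : ∀ n u w, Wk S.adj n u w → (∃ v, P u v) → ∃ v, P w v := by
    intro n u w hw
    induction hw with
    | zero => exact id
    | succ _ h ih =>
      intro hu
      obtain ⟨v, hv⟩ := ih hu
      exact ⟨_, Psymm _ _ (Pstep _ _ _ hv h)⟩
  rw [eq_bot_iff]
  intro g hg
  rw [Subgroup.mem_bot]
  refine S.faithful g fun w => ?_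
  obtain ⟨n, hw⟩ := S.conn x w
  obtain ⟨v, hv⟩ := all n x w hw ⟨y, hxy, hX, h1, h2⟩
  exact (hv.2.1 hg).1

theorem lemmaN1 {X : Subgroup G} {x y : V} (hxy : S.adj x y) (hX : X ≤ S.B x y)
    (h1 : S.A x ≤ normalizer (X : Set G)) (h2 : S.A y ≤ normalizer (X : Set G)) : X = ⊥ := by
  refine lemmaN hxy hX (fun y' hy' => ?_) (fun x' hx' => ?_)
  · obtain ⟨g, hg1, hg2⟩ := S.arc hxy hy'
    exact ⟨g, h1 hg1, hg1, hg2⟩
  · obtain ⟨g, hg1, hg2⟩ := S.arc (S.symm hxy) hx'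
    exact ⟨g, h2 hg1, hg1, hg2⟩

theorem lemmaN2 {X : Subgroup G} {x y : V} (hxy : S.adj x y) (hX : X ≤ S.B x y)
    (h1 : S.A x ≤ normalizer (X : Set G))
    (h2 : ∀ g : G, g • x = y → g • y = x → cj g X = X) : X = ⊥ := by
  refine lemmaN1 hxy hX h1 ?_
  obtain ⟨g, hg1, hg2⟩ := S.arc hxy (S.symm hxy)
  rw [← hg1, ← cj_A, ← h2 g hg1 hg2, ← cj_nz]
  exact cj_mono g h1

/-- semiprimitivity in the form used below -/
theorem sph {x y c : V} {N H : Subgroup G} {g : G} (hN : N ≤ S.A x)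
    (hn : S.A x ≤ normalizer (N : Set G)) (hg : g ∈ N) (hc : S.adj x c) (hgc : g • c = c)
    (hgK : g ∉ S.K x) (hy : S.adj x y) (hNH : N ≤ H) (hBH : S.B x y ≤ H) : S.A x ≤ H := by
  intro a ha
  have h1 : S.adj x (a • y) := by
    have := S.inv a hy
    rwa [mem_A.1 ha] at this
  obtain ⟨n, hn1, hn2⟩ := S.sp x N hN hn g hg c hc hgc (fun h => hgK ⟨hN hg, h⟩) y _ hy h1
  have h2 : n⁻¹ * a ∈ S.B x y :=
    ⟨(S.A x).mul_mem ((S.A x).inv_mem (hN hn1)) ha, by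
      show (n⁻¹ * a) • y = y
      rw [mul_smul, ← hn2, inv_smul_smul]⟩
  have : a = n * (n⁻¹ * a) := by group
  rw [this]
  exact mul_mem (hNH hn1) (hBH h2)

variable (S) in
/-- the largest normal `p`-subgroup of the kernel -/
def Q (p : ℕ) (x : V) : Subgroup G := Op p (S.K x)

theorem cj_Q (p : ℕ) (g : G) (x : V) : cj g (S.Q p x) = S.Q p (g • x) := by
  unfold Q; rw [cj_Op, cj_K]

theorem Q_le_K (p : ℕ) (x : V) : S.Q p x ≤ S.K x := Op_le _ _

theorem A_le_nz_Q (p : ℕ) (x : V) : S.A x ≤ normalizer (S.Q p x : Set G) := fun g hg => by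
  rw [mem_nz, cj_Q, mem_A.1 hg]

theorem Q_pgroup (p : ℕ) (x : V) : IsPGroup p (S.Q p x) := (Op_spec p (S.K x)).2

theorem inf_le_Q {p : ℕ} {x y : V} (h : S.adj x y) : S.Q p x ⊓ S.K y ≤ S.Q p y :=
  le_Op inf_le_right (fun _ hg => nz_inf (A_le_nz_Q p x (K_le_B' h hg).1) (le_normalizer hg))
    (Q_pgroup p x).to_inf_left

theorem Q_not_le {p : ℕ} {x y : V} (h : S.adj x y) (hQ : S.Q p x ≠ ⊥) : ¬ S.Q p x ≤ S.K y := by
  intro hle
  have h1 : S.Q p x ≤ S.Q p y := (le_inf le_rfl hle).trans (inf_le_Q h)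
  obtain ⟨g, hg1, hg2⟩ := S.arc h (S.symm h)
  have h2 := cj_mono g h1
  rw [cj_Q, cj_Q, hg1, hg2] at h2
  have h3 : S.Q p x = S.Q p y := le_antisymm h1 h2
  exact hQ (lemmaN1 h ((Q_le_K p x).trans (K_le_B h)) (A_le_nz_Q p x) (h3 ▸ A_le_nz_Q p y))

theorem B_le_nz_D (x y : V) : S.B x y ≤ normalizer ((S.K x ⊓ S.K y : Subgroup G) : Set G) :=
  fun _ hg => nz_inf (A_le_nz_K x hg.1) (A_le_nz_K y hg.2)

theorem cj_D {x y : V} {g : G} (h1 : g • x = y) (h2 : g • y = x) :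
    cj g (S.K x ⊓ S.K y) = S.K x ⊓ S.K y := by
  rw [cj_inf, cj_K, cj_K, h1, h2, inf_comm]

theorem D_pgroup {p : ℕ} (hp : p.Prime) {x y : V} (h : S.adj y x) (hQ : S.Q p x ≠ ⊥) :
    IsPGroup p (S.K y ⊓ S.K x : Subgroup G) := by
  obtain ⟨r, hr, hrK⟩ := SetLike.not_le_iff_exists.1 (Q_not_le (S.symm h) hQ)
  let C : Subgroup G :=
    { carrier := {g | g ∈ S.A y ∧ ∀ k ∈ S.K y, g * k * g⁻¹ * k⁻¹ ∈ S.Q p y}
      one_mem' := ⟨one_mem _, fun k _ => by simp⟩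
      mul_mem' := by
        rintro a b ⟨ha, ha'⟩ ⟨hb, hb'⟩
        refine ⟨mul_mem ha hb, fun k hk => ?_⟩
        have : a * b * k * (a * b)⁻¹ * k⁻¹ =
            a * (b * k * b⁻¹ * k⁻¹) * a⁻¹ * (a * k * a⁻¹ * k⁻¹) := by group
        rw [this]
        exact mul_mem (nz_conj (A_le_nz_Q p y ha) (hb' k hk)) (ha' k hk)
      inv_mem' := by
        rintro a ⟨ha, ha'⟩
        refine ⟨inv_mem ha, fun k hk => ?_⟩
        have : a⁻¹ * k * a⁻¹⁻¹ * k⁻¹ = a⁻¹ * (a * k * a⁻¹ * k⁻¹)⁻¹ * a := by group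
        rw [this]
        exact nz_conj' (A_le_nz_Q p y ha) (inv_mem (ha' k hk)) }
  have hCA : C ≤ S.A y := fun g hg => hg.1
  have hCn : S.A y ≤ normalizer (C : Set G) := by
    refine le_nz fun a ha g hg => ⟨mul_mem (mul_mem ha hg.1) (inv_mem ha), fun k hk => ?_⟩
    have : a * g * a⁻¹ * k * (a * g * a⁻¹)⁻¹ * k⁻¹ =
        a * (g * (a⁻¹ * k * a) * g⁻¹ * (a⁻¹ * k * a)⁻¹) * a⁻¹ := by group
    rw [this]
    exact nz_conj (A_le_nz_Q p y ha) (hg.2 _ (nz_conj' (A_le_nz_K y ha) hk))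
  have hrB : r ∈ S.B y x := K_le_B' h (Q_le_K p x hr)
  have hrC : r ∈ C := by
    refine ⟨hrB.1, fun k hk => inf_le_Q (S.symm h) ⟨?_, ?_⟩⟩
    · have : r * k * r⁻¹ * k⁻¹ = r * (k * r⁻¹ * k⁻¹) := by group
      rw [this]
      exact mul_mem hr (nz_conj (A_le_nz_Q p x (K_le_B h hk).2) (inv_mem hr))
    · exact (S.K y).mul_mem (nz_conj (A_le_nz_K y hrB.1) hk) ((S.K y).inv_mem hk)
  set D : Subgroup G := S.K y ⊓ S.K x with hD
  have hYK : D ⊔ S.Q p y ≤ S.K y := sup_le inf_le_left (Q_le_K p y)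
  have hA : S.A y ≤ normalizer ((D ⊔ S.Q p y : Subgroup G) : Set G) := by
    refine sph hCA hCn hrC h hrB.2 hrK h (le_nz fun g hg k hk => ?_)
      (fun g hg => nz_sup (B_le_nz_D y x hg) (A_le_nz_Q p y hg.1))
    have : g * k * g⁻¹ = g * k * g⁻¹ * k⁻¹ * k := by group
    rw [this]
    exact mul_mem (mem_sup_right (hg.2 k (hYK hk))) hk
  have hfin : Finite (D ⊔ S.Q p y : Subgroup G) := fin_of_le (hYK.trans (K_le_A y))
  have hfin2 : Finite D := fin_of_le (inf_le_left.trans (K_le_A y))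
  have hPP : PP p (D ⊔ S.Q p y) = PP p D :=
    PP_sup (Q_pgroup p y) (((Q_le_K p y).trans (K_le_B h)).trans (B_le_nz_D y x))
  refine isPGroup_of_PP hp D (lemmaN2 h ((PP_le p D).trans (inf_le_left.trans (K_le_B h))) ?_ ?_)
  · intro g hg
    rw [mem_nz, ← hPP, cj_PP, mem_nz.1 (hA hg)]
  · intro g h1 h2
    rw [cj_PP, cj_D h1 h2]

theorem D_bot_of_cent {x y : V} (h : S.adj y x) {t : G} (ht : t ∈ S.K x) (htK : t ∉ S.K y)
    (hc : t ∈ Cn (S.K y)) : S.K y ⊓ S.K x = ⊥ := by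
  refine lemmaN2 h (inf_le_left.trans (K_le_B h)) ?_ (fun g h1 h2 => cj_D h1 h2)
  exact sph (N := S.A y ⊓ Cn (S.K y)) inf_le_left
    (fun g hg => nz_inf (le_normalizer hg) (nz_Cn (A_le_nz_K y hg))) ⟨(K_le_B' h ht).1, hc⟩ h
    (K_le_B' h ht).2 htK h (inf_le_right.trans (Cn_le_nz inf_le_left)) (B_le_nz_D y x)

theorem cent_D_bot {x y : V} (h : S.adj y x) (hO : ∀ p : ℕ, p.Prime → S.Q p x = ⊥)
    (hD : S.K y ⊓ S.K x ≠ ⊥) : S.K x ⊓ Cn (S.K y ⊓ S.K x) = ⊥ := by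
  set D : Subgroup G := S.K y ⊓ S.K x with hDdef
  have hBT : S.B y x ≤ normalizer ((S.K x ⊓ Cn D : Subgroup G) : Set G) :=
    fun g hg => nz_inf (A_le_nz_K x hg.2) (nz_Cn (B_le_nz_D y x hg))
  have h1 : (S.K x ⊓ Cn D) ⊓ S.K y = ⊥ := by
    refine abelian_normal_eq_bot (H := S.K x) hO (inf_le_left.trans inf_le_left)
      (fun g hg => nz_inf (hBT (K_le_B' h hg)) (A_le_nz_K y (K_le_B' h hg).1)) ?_
    intro a ha
    rw [mem_Cn]
    intro k hk
    exact mem_Cn.1 ha.1.2 k ⟨hk.2, hk.1.1⟩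
  have h2 : S.K x ⊓ Cn D ≤ Cn (S.K y) :=
    comm_of_inf_bot (fun g hg => A_le_nz_K y (K_le_B' h hg.1).1) ((K_le_B h).trans hBT) h1
  by_contra hne
  obtain ⟨t, ht, ht1⟩ := (Subgroup.ne_bot_iff_exists_ne_one.1 hne : ∃ a : ↥(S.K x ⊓ Cn D), a ≠ 1)
    |>.elim fun a ha => (⟨a.1, a.2, fun h0 => ha (Subtype.ext h0)⟩ : ∃ t ∈ S.K x ⊓ Cn D, t ≠ 1)
  refine hD (D_bot_of_cent h ht.1 (fun htK => ht1 ?_) (h2 ht))
  have : t ∈ (S.K x ⊓ Cn D) ⊓ S.K y := ⟨ht, htK⟩
  rwa [h1, Subgroup.mem_bot] at this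

theorem nz_Soc {x : V} : S.A x ≤ normalizer (Soc (S.K x) : Set G) := fun g hg => by
  rw [mem_nz, cj_Soc, cj_K, mem_A.1 hg]

theorem Soc_le_K {x y : V} (h : S.adj y x) (hO : ∀ p : ℕ, p.Prime → S.Q p x = ⊥)
    (hD : S.K y ⊓ S.K x ≠ ⊥) : Soc (S.K x) ≤ S.K y := by
  refine sSup_le fun M hM => ?_
  rcases MinN.le_or_comm hM (N := S.K y ⊓ S.K x) inf_le_right
    ((K_le_B' h).trans (B_le_nz_D y x)) with h1 | h1
  · exact h1.trans inf_le_left
  · exact absurd (eq_bot_iff.2 ((le_inf hM.1 h1).trans (cent_D_bot h hO hD).le)) hM.2.2.1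

theorem D_bot {x y : V} (h : S.adj x y) (hO : ∀ p : ℕ, p.Prime → ∀ v, S.Q p v = ⊥) :
    S.K x ⊓ S.K y = ⊥ := by
  by_contra hD
  have key : ∀ u v, S.adj u v → S.K u ⊓ S.K v ≠ ⊥ → Soc (S.K u) ≤ Soc (S.K v) := by
    intro u v huv hD
    have h1 : Soc (S.K v) ≤ S.K u := Soc_le_K huv (fun p hp => hO p hp v) hD
    have h2 : Soc (S.K u) ≤ S.K v :=
      Soc_le_K (S.symm huv) (fun p hp => hO p hp u) (by rwa [inf_comm])
    refine sSup_le fun M hM => ?_
    rcases MinN.le_or_comm hM h1 (fun g hg => nz_Soc (K_le_B huv hg).2) with h3 | h3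
    · exact h3
    · exfalso
      have h4 : S.K v ⊓ Cn (Soc (S.K v)) ≠ ⊥ := fun h0 =>
        hM.2.2.1 (eq_bot_iff.2 ((le_inf ((le_sSup hM).trans h2) h3).trans h0.le))
      obtain ⟨M', hM', hle⟩ := exists_MinN (S.K v) _ inf_le_left
        (fun g hg => nz_inf (le_normalizer hg) (nz_Cn (nz_Soc hg.1))) h4
      refine hM'.2.2.1 (abelian_normal_eq_bot (fun p hp => hO p hp v) hM'.1 hM'.2.1 ?_)
      intro a ha
      rw [mem_Cn]
      intro k hk
      exact mem_Cn.1 (hle ha).2 k ((le_sSup hM' : M' ≤ Soc (S.K v)) hk)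
  have h5 : Soc (S.K x) = Soc (S.K y) :=
    le_antisymm (key x y h hD) (key y x (S.symm h) (by rwa [inf_comm]))
  have h6 : Soc (S.K x) = ⊥ :=
    lemmaN1 h ((Soc_le _).trans (K_le_B h)) nz_Soc (h5 ▸ nz_Soc)
  have h7 : S.K x ≠ ⊥ := fun h0 => hD (by rw [h0, bot_inf_eq])
  obtain ⟨M, hM, -⟩ := exists_MinN (S.K x) (S.K x) le_rfl le_normalizer h7
  exact hM.2.2.1 (eq_bot_iff.2 ((le_sSup hM : M ≤ Soc (S.K x)).trans h6.le))

/-- Thompson-Wielandt -/
theorem tw {x y : V} (h : S.adj x y) (hD : S.K x ⊓ S.K y ≠ ⊥) :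
    ∃ p : ℕ, p.Prime ∧ ∀ u v, S.adj u v →
      S.K u ⊓ S.K v ≠ ⊥ ∧ IsPGroup p (S.K u ⊓ S.K v : Subgroup G) := by
  by_contra hcon
  refine hD (D_bot h fun p hp v => ?_)
  by_contra hQ
  refine hcon ⟨p, hp, fun u w huw => ⟨?_, D_pgroup hp huw ?_⟩⟩
  · obtain ⟨g, h1, h2⟩ := S.arc h huw
    rw [← h1, ← h2, ← cj_K, ← cj_K, ← cj_inf]
    exact fun h0 => hD (cj_eq_bot.1 h0)
  · obtain ⟨v', hv'⟩ := exists_adj h v
    obtain ⟨g, h1, -⟩ := S.arc hv' (S.symm huw)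
    rw [← h1, ← cj_Q]
    exact fun h0 => hQ (cj_eq_bot.1 h0)

end Setup

end Pool.Agent.Lib.MP_607584_al
end

-- part Pool.Agent.Lib.MP_607584_al.Method
section

/-! The amalgam method when the normal p-subgroups of the point stabiliser have rank one. -/

namespace Pool.Agent.Lib.MP_607584_al

open Subgroup
open scoped commutatorElement

namespace Setup

variable {G V : Type*} [Group G] [MulAction G V] {S : Setup G V} {p : ℕ}

variable (S) in
/-- elements of order dividing `p` in the centre of `Q` -/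
def Z (p : ℕ) (x : V) : Subgroup G := OZ p (S.Q p x)

theorem cj_Z (g : G) (x : V) : cj g (S.Z p x) = S.Z p (g • x) := by
  unfold Z; rw [cj_OZ, cj_Q]

theorem Z_le_Q (x : V) : S.Z p x ≤ S.Q p x := fun _ h => h.1

theorem Z_le_K (x : V) : S.Z p x ≤ S.K x := (Z_le_Q x).trans (Q_le_K p x)

theorem A_le_nz_Z (x : V) : S.A x ≤ normalizer (S.Z p x : Set G) := fun g hg => by
  rw [mem_nz, cj_Z, mem_A.1 hg]

theorem Q_le_Cn (x : V) : S.Q p x ≤ Cn (S.Z p x) := fun g hg => by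
  rw [mem_Cn]; intro k hk; exact (mem_Cn.1 hk.2.1 g hg).symm

variable (S) in
/-- the hypothesis that the two kernels of an edge meet in a nontrivial `p`-group -/
def HD (p : ℕ) : Prop := p.Prime ∧ ∀ u v, S.adj u v →
  S.K u ⊓ S.K v ≠ ⊥ ∧ IsPGroup p (S.K u ⊓ S.K v : Subgroup G)

theorem D_le_Q (hD : S.HD p) {x y : V} (h : S.adj x y) : S.K x ⊓ S.K y ≤ S.Q p x :=
  le_Op inf_le_left ((K_le_B h).trans (B_le_nz_D x y)) (hD.2 x y h).2

theorem ZZ_ne (hD : S.HD p) {x y : V} (h : S.adj x y) : S.Z p x ⊓ S.Z p y ≠ ⊥ := by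
  have hE : S.Q p x ⊔ S.Q p y ≤ S.B x y :=
    sup_le ((Q_le_K p x).trans (K_le_B h)) ((Q_le_K p y).trans (K_le_B' h))
  have hfin : Finite (S.Q p x ⊔ S.Q p y : Subgroup G) := fin_of_le (hE.trans (B_le_left x y))
  have hP : IsPGroup p (S.Q p x ⊔ S.Q p y : Subgroup G) :=
    (Q_pgroup p x).to_sup_of_normal_right' (Q_pgroup p y)
      ((((Q_le_K p x).trans (K_le_B h)).trans (B_le_right x y)).trans (A_le_nz_Q p y))
  obtain ⟨g, hg, hg1, hc, hgp⟩ := exists_central hD.1 hP ((D_le_Q hD h).trans le_sup_left)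
    (hE.trans (B_le_nz_D x y)) (hD.2 x y h).1
  intro h0
  have : g ∈ S.Z p x ⊓ S.Z p y := by
    refine ⟨⟨D_le_Q hD h hg, ?_, hgp⟩, ⟨D_le_Q hD (S.symm h) ⟨hg.2, hg.1⟩, ?_, hgp⟩⟩
    · exact mem_Cn.2 fun k hk => mem_Cn.1 hc k (mem_sup_left hk)
    · exact mem_Cn.2 fun k hk => mem_Cn.1 hc k (mem_sup_right hk)
  rw [h0, Subgroup.mem_bot] at this
  exact hg1 this

theorem CZ (hD : S.HD p) {x y : V} (h : S.adj x y) {g : G} (hg : g ∈ S.B x y)
    (hc : g ∈ Cn (S.Z p x)) : g ∈ S.K x := by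
  by_contra hK
  refine ZZ_ne hD h (lemmaN2 h (inf_le_left.trans ((Z_le_K x).trans (K_le_B h))) ?_ ?_)
  · exact sph (N := S.A x ⊓ Cn (S.Z p x)) inf_le_left
      (fun g hg => nz_inf (le_normalizer hg) (nz_Cn (A_le_nz_Z x hg))) ⟨hg.1, hc⟩ h hg.2 hK h
      (inf_le_right.trans (Cn_le_nz inf_le_left))
      (fun g hg => nz_inf (A_le_nz_Z x hg.1) (A_le_nz_Z y hg.2))
  · intro g h1 h2
    rw [cj_inf, cj_Z, cj_Z, h1, h2, inf_comm]

theorem exists_b (hD : S.HD p) {x y : V} (h : S.adj x y) :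
    ∃ n u v, Wk S.adj n u v ∧ ¬ S.Z p u ≤ S.K v := by
  by_contra hcon
  push Not at hcon
  refine ZZ_ne hD h (eq_bot_iff.2 fun g hg => ?_)
  rw [Subgroup.mem_bot]
  refine S.faithful g fun v => ?_
  obtain ⟨n, w⟩ := S.conn x v
  exact (hcon n x v w hg.1).1

variable (S) in
/-- the rank one hypothesis -/
def R1 (p : ℕ) : Prop := ∀ x c, S.adj x c → ∀ N : Subgroup G, N ≤ S.B x c →
  S.B x c ≤ normalizer (N : Set G) → IsPGroup p N → ∀ g ∈ N, ∀ h ∈ N, g ^ p ∈ S.K x →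
  h ^ p ∈ S.K x → g ∉ S.K x → ∃ i : ℤ, (g ^ i)⁻¹ * h ∈ S.K x

variable (S) in
/-- the commutator subgroup attached to an arc -/
def R (p : ℕ) (x c : V) : Subgroup G := ⁅S.Z p x, Om p (S.Q p c) (S.K x)⁆

theorem cj_R (g : G) (x c : V) : cj g (S.R p x c) = S.R p (g • x) (g • c) := by
  unfold R; rw [cj_comm, cj_Z, cj_Om, cj_Q, cj_K]

theorem B_le_nz_R (x c : V) : S.B x c ≤ normalizer (S.R p x c : Set G) := fun g hg => by
  rw [mem_nz, cj_R, hg.1, hg.2]

theorem comm_le_left {X Y : Subgroup G} (h : Y ≤ normalizer (X : Set G)) : ⁅X, Y⁆ ≤ X := by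
  rw [commutator_le]
  intro a ha b hb
  rw [commutatorElement_def, mul_assoc, mul_assoc, ← mul_assoc b]
  exact X.mul_mem ha (nz_conj (h hb) (X.inv_mem ha))

theorem R_le_Z {x c : V} (h : S.adj x c) : S.R p x c ≤ S.Z p x :=
  comm_le_left ((((Om_le _ _ _).trans (Q_le_K p c)).trans (K_le_B' h)).trans
    ((B_le_left x c).trans (A_le_nz_Z x)))

theorem le_Om {x c : V} {X : Subgroup G} (h1 : X ≤ S.Q p c) (h2 : ∀ g ∈ X, g ^ p = 1) :
    X ≤ Om p (S.Q p c) (S.K x) := fun g hg =>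
  subset_closure ⟨h1 hg, by rw [h2 g hg]; exact one_mem _⟩

theorem R_eq (hr : S.R1 p) {x c : V} (h : S.adj x c) {X : Subgroup G} (h1 : X ≤ S.Q p c)
    (h2 : ∀ g ∈ X, g ^ p = 1) (h3 : ¬ X ≤ S.K x) : S.R p x c = ⁅S.Z p x, X⁆ := by
  refine le_antisymm ?_ (commutator_mono le_rfl (le_Om h1 h2))
  obtain ⟨g, hg, hgK⟩ := SetLike.not_le_iff_exists.1 h3
  have hQB : S.Q p c ≤ S.B x c := (Q_le_K p c).trans (K_le_B' h)
  have hO : Om p (S.Q p c) (S.K x) ≤ X ⊔ S.Q p x := by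
    refine (closure_le _).2 fun k hk => ?_
    obtain ⟨i, hi⟩ := hr x c h _ hQB ((B_le_right x c).trans (A_le_nz_Q p c)) (Q_pgroup p c) g
      (h1 hg) k hk.1 (by rw [h2 g hg]; exact one_mem _) hk.2 hgK
    have h4 : (g ^ i)⁻¹ * k ∈ S.Q p x :=
      inf_le_Q (S.symm h) ⟨(S.Q p c).mul_mem ((S.Q p c).inv_mem ((S.Q p c).zpow_mem (h1 hg) i)) hk.1, hi⟩
    have : k = g ^ i * ((g ^ i)⁻¹ * k) := by group
    rw [SetLike.mem_coe, this]
    exact mul_mem (mem_sup_left (zpow_mem hg i)) (mem_sup_right h4)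
  unfold R
  rw [commutator_le]
  intro z hz w hw
  have hw' : w ∈ ((X ⊔ S.Q p x : Subgroup G) : Set G) := hO hw
  rw [Subgroup.coe_mul_of_left_le_normalizer_right X _
    (((h1.trans hQB).trans (B_le_left x c)).trans (A_le_nz_Q p x))] at hw'
  obtain ⟨a, ha, q, hq, rfl⟩ := hw'
  have hc : z⁻¹ * q = q * z⁻¹ := mem_Cn.1 (Q_le_Cn x hq) _ (inv_mem hz)
  have : ⁅z, a * q⁆ = ⁅z, a⁆ := by
    rw [commutatorElement_def, commutatorElement_def]
    calc z * (a * q) * z⁻¹ * (a * q)⁻¹ = z * a * (q * z⁻¹) * q⁻¹ * a⁻¹ := by group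
      _ = z * a * z⁻¹ * a⁻¹ := by rw [← hc]; group
  show ⁅z, a * q⁆ ∈ _
  rw [this]
  exact commutator_mem_commutator hz ha

variable (S) in
/-- `n + 1` is the critical distance -/
structure Crit (p n : ℕ) : Prop where
  hD : S.HD p
  ex : ∃ u v, Wk S.adj (n + 1) u v ∧ ¬ S.Z p u ≤ S.K v
  lt : ∀ m ≤ n, ∀ u v, Wk S.adj m u v → S.Z p u ≤ S.K v

variable {n : ℕ}

theorem Crit.ZQ (hc : S.Crit p n) : ∀ m ≤ n, ∀ {u v}, Wk S.adj m u v → S.Z p u ≤ S.Q p v := by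
  intro m
  induction m with
  | zero => intro _ u v w; rw [w.eq_of_zero]; exact Z_le_Q v
  | succ m ih =>
    intro hm u v w
    obtain ⟨y, w', hy⟩ := w.last
    exact (le_inf (ih (by omega) w') (hc.lt _ hm u v w)).trans (inf_le_Q hy)

theorem Crit.ZQ' (hc : S.Crit p n) {u v : V} (w : Wk S.adj (n + 1) u v) (h : S.Z p u ≤ S.K v) :
    S.Z p u ≤ S.Q p v := by
  obtain ⟨y, w', hy⟩ := w.last
  exact (le_inf (hc.ZQ n le_rfl w') h).trans (inf_le_Q hy)

theorem Crit.symm (hc : S.Crit p n) {x c x' : V} (h1 : S.adj x c) (w : Wk S.adj n c x')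
    (h : ¬ S.Z p x' ≤ S.K x) : ¬ S.Z p x ≤ S.K x' := by
  intro hle
  refine h fun t ht => CZ hc.hD h1
    (K_le_B' h1 (Q_le_K p c (hc.ZQ n le_rfl (wk_symm w) ht))) (mem_Cn.2 fun k hk => ?_)
  exact (mem_Cn.1 (Q_le_Cn x' (hc.ZQ' (Wk.cons h1 w) hle hk)) t ht).symm

theorem Crit.R_eq (hc : S.Crit p n) (hr : S.R1 p) {x c x' : V} (h1 : S.adj x c)
    (w : Wk S.adj n c x') (h : ¬ S.Z p x' ≤ S.K x) : S.R p x c = ⁅S.Z p x, S.Z p x'⁆ :=
  Setup.R_eq hr h1 (hc.ZQ n le_rfl (wk_symm w)) (fun _ hg => hg.2.2) h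

theorem Crit.R_le (hc : S.Crit p n) (hr : S.R1 p) {x c x' : V} (h1 : S.adj x c)
    (w : Wk S.adj n c x') (h : ¬ S.Z p x ≤ S.K x') : S.R p x c ≤ S.Z p x' := by
  obtain ⟨y', w', h2⟩ := (Wk.cons h1 w).last
  rw [hc.R_eq hr h1 w (hc.symm (S.symm h2) (wk_symm w') h), commutator_comm]
  exact comm_le_left ((((hc.ZQ n le_rfl w').trans (Q_le_K p y')).trans (K_le_B h2)).trans
    ((B_le_right _ _).trans (A_le_nz_Z x')))

theorem Crit.lemmaS (hc : S.Crit p n) (hr : S.R1 p) {x c x' y' y : V} (h1 : S.adj x c)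
    (w : Wk S.adj n c x') (h2 : S.adj y' x') (w' : Wk S.adj n x y') (h : ¬ S.Z p x' ≤ S.K x)
    (hy : S.adj x y) (hZ : S.Z p y ≤ S.K y') :
    S.Z p x' ≤ normalizer ((S.Z p x ⊔ S.Z p y : Subgroup G) : Set G) := by
  have hxA : S.Z p x' ≤ normalizer (S.Z p x : Set G) :=
    (((hc.ZQ n le_rfl (wk_symm w)).trans (Q_le_K p c)).trans (K_le_B' h1)).trans
      ((B_le_left _ _).trans (A_le_nz_Z x))
  have h3 : ⁅S.Z p x', S.Z p y⁆ ≤ S.Z p x := by
    calc ⁅S.Z p x', S.Z p y⁆ ≤ S.R p x' y' :=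
          commutator_mono le_rfl (le_Om (hc.ZQ' (Wk.cons (S.symm hy) w') hZ) fun _ hg => hg.2.2)
      _ = ⁅S.Z p x', S.Z p x⁆ := hc.R_eq hr (S.symm h2) (wk_symm w') (hc.symm h1 w h)
      _ ≤ S.Z p x := by rw [commutator_comm]; exact comm_le_left hxA
  refine le_nz fun t ht k hk => ?_
  have : cj t (S.Z p x ⊔ S.Z p y) ≤ S.Z p x ⊔ S.Z p y := by
    rw [cj_sup, mem_nz.1 (hxA ht)]
    refine sup_le le_sup_left ?_
    rintro _ ⟨z, hz, rfl⟩
    have e : (MulAut.conj t).toMonoidHom z = ⁅t, z⁆ * z := by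
      rw [commutatorElement_def]; simp
    rw [e]
    exact mul_mem (mem_sup_left (h3 (commutator_mem_commutator ht hz))) (mem_sup_right hz)
  exact this (conj_mem_cj hk)

theorem B_le_nz_ZZ (x y : V) :
    S.B x y ≤ normalizer ((S.Z p x ⊔ S.Z p y : Subgroup G) : Set G) :=
  fun _ hg => nz_sup (A_le_nz_Z x hg.1) (A_le_nz_Z y hg.2)

theorem not_nz_ZZ (hD : S.HD p) {x y : V} (h : S.adj x y) :
    ¬ S.A x ≤ normalizer ((S.Z p x ⊔ S.Z p y : Subgroup G) : Set G) := by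
  intro hA
  have := lemmaN2 h (sup_le ((Z_le_K x).trans (K_le_B h)) ((Z_le_K y).trans (K_le_B' h))) hA
    (fun g h1 h2 => by rw [cj_sup, cj_Z, cj_Z, h1, h2, sup_comm])
  exact ZZ_ne hD h (eq_bot_iff.2 ((inf_le_left.trans le_sup_left).trans this.le))

theorem Crit.shift (hc : S.Crit p n) (hr : S.R1 p) {x c x' y' : V} (h1 : S.adj x c)
    (w : Wk S.adj n c x') (h2 : S.adj y' x') (w' : Wk S.adj n x y') (h : ¬ S.Z p x' ≤ S.K x) :
    ∃ y, S.adj x y ∧ ¬ S.Z p y ≤ S.K y' := by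
  by_contra hcon
  push Not at hcon
  obtain ⟨t, ht, htK⟩ := SetLike.not_le_iff_exists.1 h
  have htB : t ∈ S.B x c := K_le_B' h1 (Q_le_K p c (hc.ZQ n le_rfl (wk_symm w) ht))
  let M : Subgroup G := S.A x ⊓
    ⨅ y : {y // S.adj x y}, normalizer ((S.Z p x ⊔ S.Z p y.1 : Subgroup G) : Set G)
  have hM : S.A x ≤ normalizer (M : Set G) := by
    refine le_nz fun g hg m hm => ⟨(S.A x).mul_mem ((S.A x).mul_mem hg hm.1) ((S.A x).inv_mem hg),
      ?_⟩
    refine mem_iInf.2 fun y => ?_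
    have h3 : S.adj x (g⁻¹ • y.1) := by
      have := S.inv g⁻¹ y.2
      rwa [mem_A.1 ((S.A x).inv_mem hg)] at this
    have h4 := conj_mem_cj (g := g) (mem_iInf.1 hm.2 ⟨_, h3⟩)
    rwa [cj_nz, cj_sup, cj_Z, cj_Z, smul_inv_smul, mem_A.1 hg] at h4
  have htM : t ∈ M := ⟨htB.1, mem_iInf.2 fun y => hc.lemmaS hr h1 w h2 w' h y.2 (hcon _ y.2) ht⟩
  exact not_nz_ZZ hc.hD h1 (sph inf_le_left hM htM h1 htB.2 htK h1
    (inf_le_right.trans (iInf_le_of_le ⟨c, h1⟩ le_rfl)) (B_le_nz_ZZ x c))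

variable (S) in
/-- the critical elements at a vertex -/
def T (p n : ℕ) (x : V) : Set G :=
  {t | ∃ c x', S.adj x c ∧ Wk S.adj n c x' ∧ t ∈ S.Z p x' ∧ t ∉ S.K x}

theorem T_conj {x : V} {t : G} (g : G) (ht : t ∈ S.T p n x) : g * t * g⁻¹ ∈ S.T p n (g • x) := by
  obtain ⟨c, x', h1, w, h2, h3⟩ := ht
  refine ⟨g • c, g • x', S.inv g h1, wk_smul g w, cj_Z g x' ▸ conj_mem_cj h2, fun h4 => h3 ?_⟩
  rw [← cj_K, mem_cj] at h4
  simpa [mul_assoc] using h4

theorem T_conj_iff {x : V} {g : G} (hg : g ∈ S.A x) (k : G) :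
    k ∈ S.T p n x ↔ g⁻¹ * k * g ∈ S.T p n x := by
  constructor
  · intro h
    have := T_conj g⁻¹ h
    rwa [inv_inv, mem_A.1 ((S.A x).inv_mem hg)] at this
  · intro h
    have := T_conj g h
    rw [mem_A.1 hg] at this
    simpa [mul_assoc] using this

theorem Crit.T_prop (hc : S.Crit p n) {x : V} {t : G} (ht : t ∈ S.T p n x) :
    ∃ c, S.adj x c ∧ t ∈ S.B x c ∧ t ∉ S.K x := by
  obtain ⟨c, x', h1, w, h2, h3⟩ := ht
  exact ⟨c, h1, K_le_B' h1 (Q_le_K p c (hc.ZQ n le_rfl (wk_symm w) h2)), h3⟩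

theorem Crit.dir (hc : S.Crit p n) {x c : V} (h : S.adj x c) :
    ∃ x', Wk S.adj n c x' ∧ ¬ S.Z p x' ≤ S.K x := by
  obtain ⟨u, v, w, h1⟩ := hc.ex
  obtain ⟨c', h2, w'⟩ := wk_first (wk_symm w)
  obtain ⟨g, h3, h4⟩ := S.arc h2 h
  refine ⟨g • u, h4 ▸ wk_smul g w', ?_⟩
  rw [← h3, ← cj_Z, ← cj_K, cj_le_iff]
  exact h1

theorem Crit.closure_T (hc : S.Crit p n) {x y : V} (h : S.adj x y) :
    closure (S.T p n x) ≤ S.A x ∧ S.A x ≤ normalizer (closure (S.T p n x) : Set G) ∧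
      ∃ t ∈ closure (S.T p n x), t ∈ S.B x y ∧ t ∉ S.K x := by
  refine ⟨(closure_le _).2 fun t ht => ?_, fun g hg => ?_, ?_⟩
  · obtain ⟨c, -, h2, -⟩ := hc.T_prop ht
    exact h2.1
  · exact mem_nz.2 (cj_closure g _ _ (T_conj_iff hg))
  · obtain ⟨x', w, h1⟩ := hc.dir h
    obtain ⟨t, ht, htK⟩ := SetLike.not_le_iff_exists.1 h1
    exact ⟨t, subset_closure ⟨y, x', h, w, ht, htK⟩,
      K_le_B' h (Q_le_K p y (hc.ZQ n le_rfl (wk_symm w) ht)), htK⟩

theorem Crit.gen0 (hc : S.Crit p n) {x y : V} (h : S.adj x y) {H : Subgroup G}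
    (h1 : S.B x y ≤ H) (h2 : ∀ t ∈ S.T p n x, t ∈ H) : S.A x ≤ H := by
  obtain ⟨a1, a2, t, a3, a4, a5⟩ := hc.closure_T h
  exact sph a1 a2 a3 h a4.2 a5 h ((closure_le _).2 h2) h1

theorem Crit.gen (hc : S.Crit p n) {x y : V} (h : S.adj x y) {H1 H2 : Subgroup G}
    (h1 : S.B x y ≤ H1) (h2 : S.B x y ≤ H2) (h3 : ∀ t ∈ S.T p n x, t ∈ H1 ∨ t ∈ H2) :
    S.A x ≤ H1 ∨ S.A x ≤ H2 := by
  by_cases hall : ∀ t ∈ S.T p n x, t ∈ H1
  · exact Or.inl (hc.gen0 h h1 hall)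
  right
  push Not at hall
  obtain ⟨t, ht, htH⟩ := hall
  set D : Subgroup G := closure {t | t ∈ S.T p n x ∧ t ∉ H1} with hD
  have key : ∀ g ∈ S.A x, g ∈ H1 → g ∈ normalizer (D : Set G) := by
    intro g hg hg1
    refine mem_nz.2 (cj_closure g _ _ fun k => and_congr (T_conj_iff hg k) (not_congr ?_))
    constructor
    · intro hk; exact mul_mem (mul_mem (inv_mem hg1) hk) hg1
    · intro hk
      have : k = g * (g⁻¹ * k * g) * g⁻¹ := by group
      rw [this]; exact mul_mem (mul_mem hg1 hk) (inv_mem hg1)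
  have hA : S.A x ≤ normalizer (D : Set G) := by
    refine hc.gen0 h (fun g hg => key g hg.1 (h1 hg)) fun s hs => ?_
    by_cases hs1 : s ∈ H1
    · obtain ⟨c, -, h4, -⟩ := hc.T_prop hs
      exact key s h4.1 hs1
    · exact le_normalizer (subset_closure ⟨hs, hs1⟩)
  obtain ⟨c, h4, h5, h6⟩ := hc.T_prop ht
  refine sph (N := D) ((closure_le _).2 fun s hs => ?_) hA (subset_closure ⟨ht, htH⟩) h4 h5.2 h6 h
    ((closure_le _).2 fun s hs => (h3 s hs.1).resolve_left hs.2) h2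
  obtain ⟨c, -, h4, -⟩ := hc.T_prop hs.1
  exact h4.1

theorem Crit.step2 (hc : S.Crit p n) (hr : S.R1 p) (hn : 1 ≤ n) {x y : V} (h : S.adj x y) :
    S.A x ≤ normalizer (S.R p y x : Set G) := by
  refine (hc.gen h ((B_comm x y).le.trans (B_le_nz_R y x)) (B_le_nz_ZZ x y) ?_).resolve_right
    (not_nz_ZZ hc.hD h)
  rintro t ⟨c, x', h1, w, ht, htK⟩
  obtain ⟨y', w', h2⟩ := (Wk.cons h1 w).last
  by_cases hZ : S.Z p y ≤ S.K y'
  · exact Or.inr (hc.lemmaS hr h1 w h2 w' (fun h0 => htK (h0 ht)) h hZ ht)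
  · exact Or.inl (Cn_le_nz (hc.R_le hr (S.symm h) w' hZ)
      (Q_le_Cn y' (hc.ZQ 1 hn (Wk.one (S.symm h2)) ht)))

theorem Crit.R_ne (hc : S.Crit p n) (hr : S.R1 p) {x y : V} (h : S.adj x y) : S.R p x y ≠ ⊥ := by
  obtain ⟨x', w, h1⟩ := hc.dir h
  rw [hc.R_eq hr h w h1]
  intro h0
  refine h1 fun t ht => CZ hc.hD h (K_le_B' h (Q_le_K p y (hc.ZQ n le_rfl (wk_symm w) ht)))
    (mem_Cn.2 fun k hk => ?_)
  have := commutator_mem_commutator hk ht
  rwa [h0, Subgroup.mem_bot, commutatorElement_eq_one_iff_mul_comm] at this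

theorem Crit.step3 (hc : S.Crit p n) (hr : S.R1 p) {x y : V} (h : S.adj x y) : n ≤ 1 := by
  by_contra hn
  obtain ⟨m, rfl⟩ : ∃ m, n = m + 2 := ⟨n - 2, by omega⟩
  have hA : S.A x ≤ normalizer (S.R p x y : Set G) := by
    refine (hc.gen h (B_le_nz_R x y) (B_le_nz_ZZ x y) ?_).resolve_right (not_nz_ZZ hc.hD h)
    rintro t ⟨c, x', h1, w, ht, htK⟩
    obtain ⟨y', w', h2⟩ := (Wk.cons h1 w).last
    by_cases hZ : S.Z p y ≤ S.K y'
    · exact Or.inr (hc.lemmaS hr h1 w h2 w' (fun h0 => htK (h0 ht)) h hZ ht)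
    left
    obtain ⟨y2, w2, h3⟩ := w'.last
    have w3 : Wk S.adj (m + 2) y y2 := Wk.cons (S.symm h) w2
    obtain ⟨u, hu, hZu⟩ := hc.shift hr (S.symm h) w' h3 w3 (hc.symm (S.symm h3) (wk_symm w3) hZ)
    have h4 : S.R p u y ≤ S.Z p y2 := hc.R_le hr (S.symm hu) w3 hZu
    obtain ⟨g, hg1, hg2⟩ := S.arc hu (S.symm h)
    have h5 : S.R p u y = S.R p x y := by
      rw [← mem_nz.1 (hc.step2 hr (by omega) hu hg1), cj_R, hg1, hg2]
    rw [← h5]
    exact Cn_le_nz h4 (Q_le_Cn y2 (hc.ZQ 2 (by omega)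
      ((Wk.one (S.symm h2)).succ (S.symm h3)) ht))
  exact hc.R_ne hr h (lemmaN1 h (((R_le_Z h).trans (Z_le_K x)).trans (K_le_B h)) hA
    (hc.step2 hr (by omega) (S.symm h)))

variable (S) in
/-- pointwise stabiliser of a ball -/
def Ball (k : ℕ) (x : V) : Subgroup G where
  carrier := {g | ∀ m ≤ k, ∀ v, Wk S.adj m x v → g • v = v}
  one_mem' := fun _ _ _ _ => one_smul _ _
  mul_mem' := fun ha hb m hm v w => by rw [mul_smul, hb m hm v w, ha m hm v w]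
  inv_mem' := fun ha m hm v w => inv_smul_eq_iff.2 (ha m hm v w).symm

theorem Ball_le_D {k m : ℕ} {x u v : V} (w : Wk S.adj m x u) (h : S.adj u v) (hk : m + 2 ≤ k) :
    S.Ball k x ≤ S.K u ⊓ S.K v := fun _ hg =>
  ⟨⟨hg m (by omega) u w, fun y hy => hg (m + 1) (by omega) y (w.succ hy)⟩,
    ⟨hg (m + 1) (by omega) v (w.succ h), fun y hy => hg (m + 2) hk y ((w.succ h).succ hy)⟩⟩

theorem Crit.ball (hc : S.Crit p n) {x y : V} (h : S.adj x y) : S.Ball (n + 4) x = ⊥ := by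
  have key : ∀ u v, S.adj u v → (∀ x', Wk S.adj (n + 1) u x' → ∃ m ≤ n + 2, Wk S.adj m x x') →
      ∀ v', S.adj u v' → ∃ g ∈ normalizer (S.Ball (n + 4) x : Set G), g • u = u ∧ g • v = v' := by
    intro u v huv hw v' hv'
    obtain ⟨a1, a2, t, a3, a4, a5⟩ := hc.closure_T huv
    obtain ⟨g, hg, hgv⟩ := S.sp u _ a1 a2 t a3 v huv a4.2 (fun h0 => a5 ⟨a4.1, h0⟩) v v' huv hv'
    refine ⟨g, (closure_le _).2 ?_ hg, a1 hg, hgv⟩
    rintro s ⟨c, x', h1, w, hs, -⟩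
    obtain ⟨m, hm, w'⟩ := hw x' (Wk.cons h1 w)
    obtain ⟨z, hz⟩ := exists_adj h x'
    refine nz_of_comm fun k hk => ?_
    exact mem_Cn.1 (Q_le_Cn x' (D_le_Q hc.hD hz (Ball_le_D w' hz (by omega) hk))) s hs
  refine lemmaN h (fun g hg => ⟨hg 0 (by omega) x (Wk.zero x), hg 1 (by omega) y (Wk.one h)⟩)
    (key x y h fun x' w => ⟨n + 1, by omega, w⟩)
    (key y x (S.symm h) fun x' w => ⟨n + 2, le_rfl, Wk.cons h w⟩)

theorem exists_crit (hD : S.HD p) {x y : V} (h : S.adj x y) : ∃ n, S.Crit p n := by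
  classical
  have hex := exists_b hD h
  have h0 : Nat.find hex ≠ 0 := by
    intro h0
    obtain ⟨u, v, w, h1⟩ := Nat.find_spec hex
    rw [h0] at w
    exact h1 (w.eq_of_zero ▸ Z_le_K u)
  obtain ⟨n, hn⟩ := Nat.exists_eq_succ_of_ne_zero h0
  refine ⟨n, hD, ?_, fun m hm u v w => ?_⟩
  · have := Nat.find_spec hex
    rwa [hn] at this
  · by_contra h1
    exact Nat.find_min hex (by omega : m < Nat.find hex) ⟨u, v, w, h1⟩

theorem Ball_mono {k l : ℕ} (h : k ≤ l) (x : V) : S.Ball l x ≤ S.Ball k x :=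
  fun _ hg m hm v w => hg m (hm.trans h) v w

/-- the main bound -/
theorem ball_bot (hr : ∀ p : ℕ, p.Prime → S.R1 p) (x : V) : S.Ball 5 x = ⊥ := by
  by_cases hy : ∃ y, S.adj x y
  · obtain ⟨y, h⟩ := hy
    by_cases hD : S.K x ⊓ S.K y = ⊥
    · exact eq_bot_iff.2 ((Ball_le_D (Wk.zero x) h (by omega)).trans hD.le)
    · obtain ⟨p, hp⟩ := tw h hD
      obtain ⟨n, hc⟩ := exists_crit hp h
      have := hc.step3 (hr p hp.1) h
      exact eq_bot_iff.2 ((Ball_mono (by omega) x).trans (hc.ball h).le)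
  · refine eq_bot_iff.2 fun g hg => ?_
    rw [Subgroup.mem_bot]
    refine S.faithful g fun v => ?_
    obtain ⟨n, w⟩ := S.conn x v
    cases n with
    | zero => exact hg 0 (by omega) v w
    | succ n =>
      obtain ⟨y, h, -⟩ := wk_first w
      exact absurd ⟨y, h⟩ hy

end Setup

end Pool.Agent.Lib.MP_607584_al
end

-- part Pool.Agent.Lib.MP_607584_al.Conj
section

/-! Vertex-transitive groups of tree automorphisms in which the pointwise stabiliser of a ball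
of fixed radius is trivial fall into finitely many conjugacy classes. -/

namespace Pool.Agent.Lib.MP_607584_al

variable {V : Type} {T : SimpleGraph V}

theorem parent_unique (hT : T.IsTree) (x : V) {u u' v : V} (h : T.Adj u v) (h' : T.Adj u' v)
    (e : T.dist x v = T.dist x u + 1) (e' : T.dist x v = T.dist x u' + 1) : u = u' := by
  obtain ⟨p, hp⟩ := hT.connected.exists_walk_length_eq_dist x u
  obtain ⟨q, hq⟩ := hT.connected.exists_walk_length_eq_dist x u'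
  have h1 : (p.concat h).IsPath :=
    SimpleGraph.Walk.isPath_of_length_eq_dist _ (by rw [SimpleGraph.Walk.length_concat, hp, e])
  have h2 : (q.concat h').IsPath :=
    SimpleGraph.Walk.isPath_of_length_eq_dist _ (by rw [SimpleGraph.Walk.length_concat, hq, e'])
  have h3 := congrArg Subtype.val ((hT.isAcyclic.subsingleton_path x v).elim ⟨_, h1⟩ ⟨_, h2⟩)
  have h4 := congrArg SimpleGraph.Walk.penultimate h3
  simpa using h4

theorem exists_parent (hT : T.IsTree) (x : V) {v : V} {n : ℕ} (e : T.dist x v = n + 1) :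
    ∃ u, T.Adj u v ∧ T.dist x u = n := by
  obtain ⟨p, hp⟩ := hT.connected.exists_walk_length_eq_dist v x
  cases p with
  | nil => rw [SimpleGraph.dist_self] at e; omega
  | cons h q =>
    rename_i u
    refine ⟨u, h.symm, ?_⟩
    have h1 := SimpleGraph.dist_le q
    rw [SimpleGraph.Walk.length_cons, SimpleGraph.dist_comm, e] at hp
    rw [SimpleGraph.dist_comm] at h1
    rcases hT.dist_eq_dist_add_one_of_adj x h with h2 | h2 <;> omega

theorem wk_map (g : T ≃g T) {n : ℕ} {x y : V} (w : Wk T.Adj n x y) : Wk T.Adj n (g x) (g y) := by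
  induction w with
  | zero x => exact Wk.zero _
  | succ _ h ih => exact ih.succ (g.map_adj_iff.2 h)

/-- the ball of radius `k` -/
def Bl (T : SimpleGraph V) (k : ℕ) (x : V) : Set V := {v | ∃ m ≤ k, Wk T.Adj m x v}

theorem Bl_finite (hfin : ∀ v, (T.neighborSet v).Finite) (x : V) (k : ℕ) : (Bl T k x).Finite := by
  induction k with
  | zero =>
    refine (Set.finite_singleton x).subset ?_
    rintro v ⟨m, hm, w⟩
    obtain rfl : m = 0 := by omega
    exact w.eq_of_zero.symm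
  | succ k ih =>
    refine (ih.union (ih.biUnion fun v _ => hfin v)).subset ?_
    rintro v ⟨m, hm, w⟩
    rcases Nat.lt_or_ge m (k + 1) with h | h
    · exact Or.inl ⟨m, by omega, w⟩
    · obtain rfl : m = k + 1 := by omega
      obtain ⟨y, w', hy⟩ := w.last
      exact Or.inr (Set.mem_biUnion (⟨k, le_rfl, w'⟩ : y ∈ Bl T k x) hy)

/-- moves the base vertex by at most one step -/
def Near (x : V) (s : T ≃g T) : Prop := s x = x ∨ T.Adj x (s x)

theorem Near.map {x : V} {s : T ≃g T} (hs : Near x s) {k : ℕ} {v : V} (hv : v ∈ Bl T k x) :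
    s v ∈ Bl T (k + 1) x := by
  obtain ⟨m, hm, w⟩ := hv
  have := wk_map s w
  rcases hs with h | h
  · exact ⟨m, by omega, h ▸ this⟩
  · exact ⟨m + 1, by omega, Wk.cons h this⟩

theorem Bl_mono {k : ℕ} {x v : V} (hv : v ∈ Bl T k x) : v ∈ Bl T (k + 1) x := by
  obtain ⟨m, hm, w⟩ := hv
  exact ⟨m, by omega, w⟩

theorem self_mem_Bl (k : ℕ) (x : V) : x ∈ Bl T k x := ⟨0, by omega, Wk.zero x⟩

/-- vertex-transitive with trivial ball stabiliser -/
def Good (k : ℕ) (x : V) (H : Subgroup (T ≃g T)) : Prop :=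
  (∀ g ∈ H, (∀ v ∈ Bl T k x, g v = v) → g = 1) ∧ ∀ v, ∃ g ∈ H, g x = v

/-- matching elements of two groups -/
def Rel (k : ℕ) (x : V) (H H' : Subgroup (T ≃g T)) (s s' : T ≃g T) : Prop :=
  s ∈ H ∧ s' ∈ H' ∧ Near x s ∧ ∀ v ∈ Bl T (k + 1) x, s v = s' v

/-- the two groups look the same near the base vertex -/
def Same (k : ℕ) (x : V) (H H' : Subgroup (T ≃g T)) : Prop :=
  (∀ s ∈ H, Near x s → ∃ s', Rel k x H H' s s') ∧ (∀ s' ∈ H', Near x s' → ∃ s, Rel k x H H' s s')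

variable {k : ℕ} {x : V} {H H' : Subgroup (T ≃g T)}

theorem Rel.base {s s' : T ≃g T} (h : Rel k x H H' s s') : s x = s' x :=
  h.2.2.2 x (self_mem_Bl _ _)

theorem Rel.symm {s s' : T ≃g T} (h : Rel k x H H' s s') : Rel k x H' H s' s :=
  ⟨h.2.1, h.1, by have := h.2.2.1; unfold Near at *; rwa [← h.base], fun v hv =>
    (h.2.2.2 v hv).symm⟩

theorem Same.symm (h : Same k x H H') : Same k x H' H :=
  ⟨fun s hs hn => (h.2 s hs hn).imp fun _ h => h.symm,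
    fun s hs hn => (h.1 s hs hn).imp fun _ h => h.symm⟩

theorem iso_mul_apply (a b : T ≃g T) (v : V) : (a * b) v = a (b v) := rfl

theorem iso_inv_apply (a : T ≃g T) (v : V) : a⁻¹ (a v) = v := by
  rw [← iso_mul_apply, inv_mul_cancel]; rfl

theorem iso_apply_inv (a : T ≃g T) (v : V) : a (a⁻¹ v) = v := by
  rw [← iso_mul_apply, mul_inv_cancel]; rfl

theorem Good.ext (hG : Good k x H) {a b : T ≃g T} (ha : a ∈ H) (hb : b ∈ H)
    (h : ∀ v ∈ Bl T k x, a v = b v) : a = b := by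
  have := hG.1 (a⁻¹ * b) (H.mul_mem (H.inv_mem ha) hb) fun v hv => by
    rw [iso_mul_apply, ← h v hv, iso_inv_apply]
  rw [inv_mul_eq_one] at this
  exact this

theorem Rel.mul (hG : Good k x H') (hS : Same k x H H') {s s' t t' : T ≃g T}
    (h1 : Rel k x H H' s s') (h2 : Rel k x H H' t t') (hn : Near x (s * t)) :
    Rel k x H H' (s * t) (s' * t') := by
  obtain ⟨u, hu⟩ := hS.1 _ (H.mul_mem h1.1 h2.1) hn
  have : u = s' * t' := by
    refine hG.ext hu.2.1 (H'.mul_mem h1.2.1 h2.2.1) fun v hv => ?_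
    rw [← hu.2.2.2 v (Bl_mono hv), iso_mul_apply, iso_mul_apply, ← h2.2.2.2 v (Bl_mono hv),
      h1.2.2.2 _ (h2.2.2.1.map hv)]
  rwa [this] at hu

theorem Rel.one : Rel k x H H' 1 1 := ⟨H.one_mem, H'.one_mem, Or.inl rfl, fun _ _ => rfl⟩

theorem Rel.inv (hG : Good k x H') (hS : Same k x H H') {s s' : T ≃g T}
    (h1 : Rel k x H H' s s') : Rel k x H H' s⁻¹ s'⁻¹ := by
  have hn : Near x s⁻¹ := by
    rcases h1.2.2.1 with h | h
    · left
      conv_lhs => rw [← h]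
      exact iso_inv_apply s x
    · right
      have := (s⁻¹).map_adj_iff.2 h
      rw [iso_inv_apply] at this
      exact this.symm
  obtain ⟨u, hu⟩ := hS.1 _ (H.inv_mem h1.1) hn
  have h2 := Rel.mul hG hS h1 hu (by rw [mul_inv_cancel]; exact Or.inl rfl)
  rw [mul_inv_cancel] at h2
  have h3 : s' * u = 1 := hG.ext h2.2.1 H'.one_mem fun v hv => (h2.2.2.2 v (Bl_mono hv)).symm
  rwa [← eq_inv_of_mul_eq_one_right h3]

/-- pairs of products of matching elements -/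
inductive Wd (k : ℕ) (x : V) (H H' : Subgroup (T ≃g T)) : (T ≃g T) → (T ≃g T) → Prop
  | one : Wd k x H H' 1 1
  | step {h h' s s' : T ≃g T} : Wd k x H H' h h' → Rel k x H H' s s' →
      Wd k x H H' (h * s) (h' * s')

/-- geodesic products -/
inductive Geo (k : ℕ) (x : V) (H H' : Subgroup (T ≃g T)) : (T ≃g T) → (T ≃g T) → Prop
  | base {h h' : T ≃g T} : Rel k x H H' h h' → h x = x → Geo k x H H' h h'
  | step {h h' s s' : T ≃g T} : Geo k x H H' h h' → Rel k x H H' s s' →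
      T.dist x ((h * s) x) = T.dist x (h x) + 1 → Geo k x H H' (h * s) (h' * s')

theorem Geo.stab (hG : Good k x H') (hS : Same k x H H') {h h' s s' : T ≃g T}
    (hg : Geo k x H H' h h') (hs : Rel k x H H' s s') (hx : s x = x) :
    Geo k x H H' (h * s) (h' * s') := by
  cases hg with
  | base h1 h2 =>
    have e : (h * s) x = x := by rw [iso_mul_apply, hx, h2]
    exact Geo.base (Rel.mul hG hS h1 hs (Or.inl e)) e
  | step h1 h2 h3 =>
    rename_i a a' t t'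
    rw [mul_assoc, mul_assoc]
    have e : (t * s) x = t x := by rw [iso_mul_apply, hx]
    refine Geo.step h1 (Rel.mul hG hS h2 hs ?_) ?_
    · have := h2.2.2.1
      unfold Near at *
      rwa [e]
    · rw [iso_mul_apply, e]; exact h3

theorem Geo.mul (hT : T.IsTree) (hG : Good k x H') (hS : Same k x H H') {h h' s s' : T ≃g T}
    (hg : Geo k x H H' h h') (hs : Rel k x H H' s s') : Geo k x H H' (h * s) (h' * s') := by
  rcases hs.2.2.1 with hx | hx
  · exact hg.stab hG hS hs hx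
  have hadj : T.Adj (h x) ((h * s) x) := h.map_adj_iff.2 hx
  rcases hT.dist_eq_dist_add_one_of_adj x hadj with e | e
  · cases hg with
    | base h1 h2 => rw [h2, SimpleGraph.dist_self] at e; omega
    | step h1 h2 h3 =>
      rename_i a a' t t'
      have hadj2 : T.Adj (a x) ((a * t) x) := by
        rcases h2.2.2.1 with h4 | h4
        · rw [iso_mul_apply, h4] at h3; omega
        · exact a.map_adj_iff.2 h4
      have e2 := parent_unique hT x hadj.symm hadj2 e h3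
      have e3 : (t * s) x = x := by
        rw [mul_assoc, iso_mul_apply] at e2
        exact a.injective e2
      rw [mul_assoc, mul_assoc]
      exact h1.stab hG hS (Rel.mul hG hS h2 hs (Or.inl e3)) e3
  · exact Geo.step hg hs e

theorem Wd.geo (hT : T.IsTree) (hG : Good k x H') (hS : Same k x H H') {h h' : T ≃g T}
    (hw : Wd k x H H' h h') : Geo k x H H' h h' := by
  induction hw with
  | one => exact Geo.base Rel.one rfl
  | step _ hs ih => exact ih.mul hT hG hS hs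

theorem Wd.rel (hT : T.IsTree) (hG : Good k x H') (hS : Same k x H H') {h h' : T ≃g T}
    (hw : Wd k x H H' h h') (hx : h x = x) : Rel k x H H' h h' := by
  cases hw.geo hT hG hS with
  | base h1 _ => exact h1
  | step h1 h2 h3 => rw [hx, SimpleGraph.dist_self] at h3; omega

theorem Wd.mem {h h' : T ≃g T} (hw : Wd k x H H' h h') : h ∈ H ∧ h' ∈ H' := by
  induction hw with
  | one => exact ⟨H.one_mem, H'.one_mem⟩
  | step _ hs ih => exact ⟨H.mul_mem ih.1 hs.1, H'.mul_mem ih.2 hs.2.1⟩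

theorem Wd.symm {h h' : T ≃g T} (hw : Wd k x H H' h h') : Wd k x H' H h' h := by
  induction hw with
  | one => exact Wd.one
  | step _ hs ih => exact ih.step hs.symm

theorem Wd.mul {a a' b b' : T ≃g T} (ha : Wd k x H H' a a') (hb : Wd k x H H' b b') :
    Wd k x H H' (a * b) (a' * b') := by
  induction hb with
  | one => simpa using ha
  | step _ hs ih => rw [← mul_assoc, ← mul_assoc]; exact ih.step hs

theorem Rel.wd {s s' : T ≃g T} (h : Rel k x H H' s s') : Wd k x H H' s s' := by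
  simpa using Wd.one.step h

theorem Wd.inv (hG : Good k x H') (hS : Same k x H H') {a a' : T ≃g T} (ha : Wd k x H H' a a') :
    Wd k x H H' a⁻¹ a'⁻¹ := by
  induction ha with
  | one => simpa using Wd.one
  | step _ hs ih => rw [mul_inv_rev, mul_inv_rev]; exact (hs.inv hG hS).wd.mul ih

theorem exists_wd (hT : T.IsTree) (hG : Good k x H) (hS : Same k x H H') :
    ∀ n, ∀ h ∈ H, T.dist x (h x) = n → ∃ h', Wd k x H H' h h' := by
  intro n
  induction n with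
  | zero =>
    intro h hh e
    rw [hT.connected.dist_eq_zero_iff] at e
    obtain ⟨h', hr⟩ := hS.1 h hh (Or.inl e.symm)
    exact ⟨h', hr.wd⟩
  | succ n ih =>
    intro h hh e
    obtain ⟨u, hu, e'⟩ := exists_parent hT x e
    obtain ⟨a, ha, rfl⟩ := hG.2 u
    obtain ⟨a', hw⟩ := ih a ha e'
    have hn : Near x (a⁻¹ * h) := by
      right
      have := (a⁻¹).map_adj_iff.2 hu
      rwa [iso_inv_apply] at this
    obtain ⟨s', hs⟩ := hS.1 _ (H.mul_mem (H.inv_mem ha) hh) hn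
    exact ⟨a' * s', by simpa using hw.step hs⟩

theorem Wd.base_eq (hT : T.IsTree) (hG : Good k x H') (hS : Same k x H H') {a a' b b' : T ≃g T}
    (ha : Wd k x H H' a a') (hb : Wd k x H H' b b') (e : a x = b x) : a' x = b' x := by
  have h1 : (a⁻¹ * b) x = x := by rw [iso_mul_apply, ← e, iso_inv_apply]
  have h2 := (((ha.inv hG hS).mul hb).rel hT hG hS h1).base
  rw [h1, iso_mul_apply] at h2
  exact (congrArg a' h2).trans (iso_apply_inv _ _)

theorem Wd.adj (hT : T.IsTree) (hG : Good k x H') (hS : Same k x H H') {a a' b b' : T ≃g T}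
    (ha : Wd k x H H' a a') (hb : Wd k x H H' b b') (e : T.Adj (a x) (b x)) :
    T.Adj (a' x) (b' x) := by
  have h1 : T.Adj x ((a⁻¹ * b) x) := by
    have := (a⁻¹).map_adj_iff.2 e
    rwa [iso_inv_apply] at this
  obtain ⟨s', hs⟩ := hS.1 _ (H.mul_mem (H.inv_mem ha.mem.1) hb.mem.1) (Or.inr h1)
  have h2 : Wd k x H H' b (a' * s') := by simpa using ha.step hs
  rw [hb.base_eq hT hG hS h2 rfl, iso_mul_apply, a'.map_adj_iff, ← hs.base]
  exact h1

theorem conj_of_same (hT : T.IsTree) (hG : Good k x H) (hG' : Good k x H') (hS : Same k x H H') :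
    ∃ τ : T ≃g T, ∀ g : T ≃g T, g ∈ H ↔ τ⁻¹ * g * τ ∈ H' := by
  have ex : ∀ v, ∃ h h', Wd k x H H' h h' ∧ h x = v := fun v => by
    obtain ⟨h, hh, e⟩ := hG.2 v
    obtain ⟨h', hw⟩ := exists_wd hT hG hS _ h hh rfl
    exact ⟨h, h', hw, e⟩
  choose f f' hf hfx using ex
  have spec : ∀ {h h'}, Wd k x H H' h h' → f' (h x) x = h' x := fun hw =>
    (hf _).base_eq hT hG' hS hw (hfx _)
  have hinj : Function.Injective fun v => f' v x := fun u v e => by
    rw [← hfx u, ← hfx v]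
    exact (hf u).symm.base_eq hT hG hS.symm (hf v).symm e
  have hsurj : Function.Surjective fun v => f' v x := fun v => by
    obtain ⟨h', hh, e⟩ := hG'.2 v
    obtain ⟨h, hw⟩ := exists_wd hT hG' hS.symm _ h' hh rfl
    exact ⟨h x, by simp only [spec hw.symm, e]⟩
  let φ : T ≃g T :=
    { toEquiv := Equiv.ofBijective _ ⟨hinj, hsurj⟩
      map_rel_iff' := fun {u v} => by
        constructor
        · intro e
          rw [← hfx u, ← hfx v]
          exact (hf u).symm.adj hT hG hS.symm (hf v).symm e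
        · intro e
          refine (hf u).adj hT hG' hS (hf v) ?_
          rwa [hfx, hfx] }
  have hφ : ∀ v, φ v = f' v x := fun _ => rfl
  have key : ∀ {g g'}, Wd k x H H' g g' → φ * g * φ⁻¹ = g' := by
    intro g g' hw
    rw [mul_inv_eq_iff_eq_mul]
    ext v
    rw [iso_mul_apply, iso_mul_apply, hφ, hφ]
    have := spec (hw.mul (hf v))
    rwa [iso_mul_apply, hfx, iso_mul_apply] at this
  refine ⟨φ⁻¹, fun g => ⟨fun hg => ?_, fun hg => ?_⟩⟩
  · obtain ⟨g', hw⟩ := exists_wd hT hG hS _ g hg rfl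
    rw [inv_inv, key hw]
    exact hw.mem.2
  · rw [inv_inv] at hg
    obtain ⟨g0, hw⟩ := exists_wd hT hG' hS.symm _ _ hg rfl
    have := key hw.symm
    have e : g0 = g := by simpa using this
    exact e ▸ hw.mem.2

/-- the finite invariant -/
def typ (k : ℕ) (x : V) (H : Subgroup (T ≃g T)) : Set (Bl T (k + 1) x → Bl T (k + 2) x) :=
  {f | ∃ s ∈ H, Near x s ∧ ∀ v, (f v : V) = s v}

theorem same_of_typ (e : typ k x H = typ k x H') : Same k x H H' := by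
  have key : ∀ {H H' : Subgroup (T ≃g T)}, typ k x H = typ k x H' →
      ∀ s ∈ H, Near x s → ∃ s', Rel k x H H' s s' := by
    intro H H' e s hs hn
    have : (fun v => ⟨s v, hn.map v.2⟩) ∈ typ k x H := ⟨s, hs, hn, fun _ => rfl⟩
    rw [e] at this
    obtain ⟨s', hs', -, h⟩ := this
    exact ⟨s', hs, hs', hn, fun v hv => h ⟨v, hv⟩⟩
  exact ⟨key e, fun s hs hn => (key e.symm s hs hn).imp fun _ h => h.symm⟩

theorem finite_classes (hT : T.IsTree) (hfin : ∀ v, (T.neighborSet v).Finite) (k : ℕ) (x : V) :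
    ∃ S : Set (Subgroup (T ≃g T)), S.Finite ∧ ∀ H, Good k x H →
      ∃ K ∈ S, ∃ τ : T ≃g T, ∀ g : T ≃g T, g ∈ H ↔ τ⁻¹ * g * τ ∈ K := by
  classical
  have := (Bl_finite hfin x (k + 1)).to_subtype
  have := (Bl_finite hfin x (k + 2)).to_subtype
  let rep : Set (Bl T (k + 1) x → Bl T (k + 2) x) → Subgroup (T ≃g T) := fun t =>
    if h : ∃ H, Good k x H ∧ typ k x H = t then h.choose else ⊥
  refine ⟨Set.range rep, Set.finite_range _, fun H hH => ⟨rep (typ k x H), ⟨_, rfl⟩, ?_⟩⟩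
  have h : ∃ H', Good k x H' ∧ typ k x H' = typ k x H := ⟨H, hH, rfl⟩
  have e : rep (typ k x H) = h.choose := dif_pos h
  rw [e]
  exact conj_of_same hT hH h.choose_spec.1 (same_of_typ h.choose_spec.2.symm)

end Pool.Agent.Lib.MP_607584_al
end

-- part Pool.Agent.Lib.MP_607584_al.Final
section

/-! Translation between the permutation group `F` and the local action. -/

namespace Pool.Agent.Lib.MP_607584_al

open Subgroup

variable {V : Type} {T : SimpleGraph V} {d : ℕ}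

/-- `g` fixes `v` and induces `σ` on the neighbours -/
def Loc (v : V) (e : T.neighborSet v ≃ Fin d) (g : T ≃g T) (σ : Equiv.Perm (Fin d)) : Prop :=
  g v = v ∧ ∀ w : T.neighborSet v, g (w : V) = ((e.symm (σ (e w)) : T.neighborSet v) : V)

variable {v : V} {e : T.neighborSet v ≃ Fin d}

theorem Loc.one : Loc v e 1 1 := ⟨rfl, fun w => by simp⟩

theorem Loc.mul {g h : T ≃g T} {σ τ : Equiv.Perm (Fin d)} (h1 : Loc v e g σ) (h2 : Loc v e h τ) :
    Loc v e (g * h) (σ * τ) :=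
  ⟨by rw [iso_mul_apply, h2.1, h1.1], fun w => by
    rw [iso_mul_apply, h2.2 w, h1.2, Equiv.apply_symm_apply]; rfl⟩

theorem Loc.inv {g : T ≃g T} {σ : Equiv.Perm (Fin d)} (h1 : Loc v e g σ) : Loc v e g⁻¹ σ⁻¹ := by
  refine ⟨by conv_lhs => rw [← h1.1]
             exact iso_inv_apply g v, fun w => ?_⟩
  have := h1.2 (e.symm (σ⁻¹ (e w)))
  rw [Equiv.apply_symm_apply, Equiv.Perm.coe_inv, Equiv.apply_symm_apply,
    Equiv.symm_apply_apply] at this
  rw [← this, iso_inv_apply]; rfl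

theorem Loc.pow {g : T ≃g T} {σ : Equiv.Perm (Fin d)} (h1 : Loc v e g σ) (n : ℕ) :
    Loc v e (g ^ n) (σ ^ n) := by
  induction n with
  | zero => simpa using Loc.one
  | succ n ih => rw [pow_succ, pow_succ]; exact ih.mul h1

theorem Loc.zpow {g : T ≃g T} {σ : Equiv.Perm (Fin d)} (h1 : Loc v e g σ) (n : ℤ) :
    Loc v e (g ^ n) (σ ^ n) := by
  cases n with
  | ofNat n => simpa using h1.pow n
  | negSucc n => rw [zpow_negSucc, zpow_negSucc]; exact (h1.pow _).inv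

theorem Loc.eq_one_iff {g : T ≃g T} {σ : Equiv.Perm (Fin d)} (h1 : Loc v e g σ) :
    σ = 1 ↔ ∀ y, T.Adj v y → g y = y := by
  constructor
  · rintro rfl y hy
    simpa using h1.2 ⟨y, hy⟩
  · intro h
    ext i
    have := h1.2 (e.symm i)
    rw [h _ (e.symm i).2, Equiv.apply_symm_apply] at this
    have h2 := e.symm.injective (Subtype.ext this)
    simp [← h2]

theorem Loc.apply_iff {g : T ≃g T} {σ : Equiv.Perm (Fin d)} (h1 : Loc v e g σ)
    (y z : T.neighborSet v) : σ (e y) = e z ↔ g y = z := by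
  rw [h1.2 y, ← Subtype.ext_iff, Equiv.symm_apply_eq]

theorem exists_Loc (e : T.neighborSet v ≃ Fin d) {g : T ≃g T} (hg : g v = v) :
    ∃ σ, Loc v e g σ := by
  have h1 : ∀ w : T.neighborSet v, T.Adj v (g w) := fun w => by
    have := g.map_adj_iff.2 (w.2 : T.Adj v w)
    rwa [hg] at this
  have hinj : Function.Injective fun i : Fin d => e ⟨g (e.symm i), h1 _⟩ := fun i j hij => by
    have := congrArg Subtype.val (e.injective hij)
    exact e.symm.injective (Subtype.ext (g.injective this))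
  exact ⟨Equiv.ofBijective _ (Finite.injective_iff_bijective.1 hinj), hg, fun w => by simp⟩

/-- the permutation group induced on the neighbours -/
def img (e : T.neighborSet v ≃ Fin d) {H : Subgroup (T ≃g T)} (N : Subgroup H) :
    Subgroup (Equiv.Perm (Fin d)) where
  carrier := {σ | ∃ g ∈ N, Loc v e (g : T ≃g T) σ}
  one_mem' := ⟨1, N.one_mem, Loc.one⟩
  mul_mem' := by
    rintro a b ⟨g, hg, h1⟩ ⟨h, hh, h2⟩
    exact ⟨g * h, N.mul_mem hg hh, h1.mul h2⟩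
  inv_mem' := by
    rintro a ⟨g, hg, h1⟩
    exact ⟨g⁻¹, N.inv_mem hg, h1.inv⟩

/-- action of a group of automorphisms on the vertices -/
@[reducible] def act (H : Subgroup (T ≃g T)) : MulAction H V where
  smul g v := (g : T ≃g T) v
  one_smul _ := rfl
  mul_smul _ _ _ := rfl

theorem wk_of_walk {x y : V} (w : T.Walk x y) : Wk T.Adj w.length x y := by
  induction w with
  | nil => exact Wk.zero _
  | cons h _ ih => exact Wk.cons h ih

theorem good_of (F : Subgroup (Equiv.Perm (Fin d))) (hF1 : ∀ a b : Fin d, ∃ f ∈ F, f a = b)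
    (hF2 : ∀ N : Subgroup (Equiv.Perm (Fin d)), N ≤ F →
      (∀ n ∈ N, ∀ f ∈ F, f * n * f⁻¹ ∈ N) →
      ((∀ a b : Fin d, ∃ n ∈ N, n a = b) ∨ (∀ n ∈ N, ∀ a : Fin d, n a = a → n = 1)))
    (hF3 : ∀ p : ℕ, p.Prime → ∀ (a : Fin d) (N : Subgroup (Equiv.Perm (Fin d))),
      (∀ n ∈ N, n ∈ F ∧ n a = a) → (∀ n ∈ N, ∀ f ∈ F, f a = a → f * n * f⁻¹ ∈ N) →
      IsPGroup p N → ∀ g ∈ N, ∀ h ∈ N, orderOf g = p → orderOf h = p → h ∈ Subgroup.zpowers g)
    (hT : T.Connected) (H : Subgroup (T ≃g T))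
    (h1 : ∀ v : V, Set.Finite {g : T ≃g T | g ∈ H ∧ g v = v})
    (h2 : ∀ u v : V, ∃ g ∈ H, g u = v)
    (h3 : ∀ v : V, ∃ e : T.neighborSet v ≃ Fin d, ∀ σ : Equiv.Perm (Fin d),
      σ ∈ F ↔ ∃ g ∈ H, Loc v e g σ) (x : V) : Good 5 x H := by
  let _inst := act H
  have hs : ∀ (g : H) (v : V), g • v = (g : T ≃g T) v := fun _ _ => rfl
  let S : Setup H V :=
    { adj := T.Adj
      symm := fun h => h.symm
      inv := fun g _ _ h => (g : T ≃g T).map_adj_iff.2 h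
      conn := fun x y => (hT x y).elim fun w => ⟨_, wk_of_walk w⟩
      faithful := fun g hg => Subtype.ext (RelIso.ext hg)
      fin := fun x => by
        have := (h1 x).to_subtype
        exact Finite.of_injective (fun g : MulAction.stabilizer H x =>
          (⟨g.1.1, g.1.2, g.2⟩ : {g : T ≃g T | g ∈ H ∧ g x = x}))
          fun a b hab => Subtype.ext (Subtype.ext (by simpa using hab))
      arc := fun {x y x' y'} ha hb => by
        obtain ⟨g, hg, rfl⟩ := h2 x x'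
        obtain ⟨e, he⟩ := h3 (g x)
        obtain ⟨f, hf, hf'⟩ := hF1 (e ⟨g y, g.map_adj_iff.2 ha⟩) (e ⟨y', hb⟩)
        obtain ⟨k, hk, hl⟩ := (he f).1 hf
        exact ⟨⟨k * g, H.mul_mem hk hg⟩, hl.1,
          (hl.apply_iff ⟨g y, g.map_adj_iff.2 ha⟩ ⟨y', hb⟩).1 hf'⟩
      sp := fun x N hN hn g hg c hc hgc hK y y' hy hy' => by
        obtain ⟨e, he⟩ := h3 x
        have a1 : img e N ≤ F := by
          rintro σ ⟨k, -, hl⟩
          exact (he σ).2 ⟨k, k.2, hl⟩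
        have a2 : ∀ n ∈ img e N, ∀ f ∈ F, f * n * f⁻¹ ∈ img e N := by
          rintro σ ⟨k, hk, hl⟩ f hf
          obtain ⟨a, ha, hl'⟩ := (he f).1 hf
          have a3 : (⟨a, ha⟩ : H) ∈ MulAction.stabilizer H x := hl'.1
          exact ⟨⟨a, ha⟩ * k * ⟨a, ha⟩⁻¹, nz_conj (hn a3) hk, (hl'.mul hl).mul hl'.inv⟩
        rcases hF2 (img e N) a1 a2 with h | h
        · obtain ⟨σ, ⟨k, hk, hl⟩, hσ⟩ := h (e ⟨y, hy⟩) (e ⟨y', hy'⟩)
          exact ⟨k, hk, (hl.apply_iff ⟨y, hy⟩ ⟨y', hy'⟩).1 hσ⟩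
        · have a4 : (g : T ≃g T) x = x := hN hg
          obtain ⟨σ, hl⟩ := exists_Loc e a4
          exact absurd (hl.eq_one_iff.1 (h σ ⟨g, hg, hl⟩ (e ⟨c, hc⟩)
            ((hl.apply_iff ⟨c, hc⟩ ⟨c, hc⟩).2 hgc))) hK }
  have hB : ∀ (x c : V) (g : H), g ∈ S.B x c ↔ (g : T ≃g T) x = x ∧ (g : T ≃g T) c = c :=
    fun _ _ _ => Iff.rfl
  have hK : ∀ (x : V) (g : H), g ∈ S.K x ↔
      (g : T ≃g T) x = x ∧ ∀ y, T.Adj x y → (g : T ≃g T) y = y := fun _ _ => Iff.rfl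
  have hr : ∀ p : ℕ, p.Prime → S.R1 p := by
    intro p hp x c hc0 N hN hn hP g hg h hh hgp hhp hgK
    have hc : T.Adj x c := hc0
    have := Fact.mk hp
    rw [hK] at hgp hhp hgK
    obtain ⟨e, he⟩ := h3 x
    obtain ⟨σ, hσ⟩ := exists_Loc e ((hB _ _ _).1 (hN hg)).1
    obtain ⟨τ, hτ⟩ := exists_Loc e ((hB _ _ _).1 (hN hh)).1
    by_cases hτ1 : τ = 1
    · refine ⟨0, ?_⟩
      rw [hK, zpow_zero, inv_one, one_mul]
      exact ⟨hτ.1, hτ.eq_one_iff.1 hτ1⟩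
    have hσ1 : σ ≠ 1 := fun h0 => hgK ⟨hσ.1, hσ.eq_one_iff.1 h0⟩
    have b1 : ∀ n ∈ img e N, n ∈ F ∧ n (e ⟨c, hc⟩) = e ⟨c, hc⟩ := by
      rintro σ ⟨k, hk, hl⟩
      exact ⟨(he σ).2 ⟨k, k.2, hl⟩,
        (hl.apply_iff ⟨c, hc⟩ ⟨c, hc⟩).2 ((hB _ _ _).1 (hN hk)).2⟩
    have b2 : ∀ n ∈ img e N, ∀ f ∈ F, f (e ⟨c, hc⟩) = e ⟨c, hc⟩ → f * n * f⁻¹ ∈ img e N := by
      rintro σ ⟨k, hk, hl⟩ f hf hfa
      obtain ⟨a, ha, hl'⟩ := (he f).1 hf
      have a3 : (⟨a, ha⟩ : H) ∈ S.B x c :=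
        (hB _ _ _).2 ⟨hl'.1, (hl'.apply_iff ⟨c, hc⟩ ⟨c, hc⟩).1 hfa⟩
      exact ⟨⟨a, ha⟩ * k * ⟨a, ha⟩⁻¹, nz_conj (hn a3) hk, (hl'.mul hl).mul hl'.inv⟩
    have b3 : IsPGroup p (img e N) := by
      rintro ⟨σ, k, hk, hl⟩
      obtain ⟨n, hn⟩ := hP ⟨k, hk⟩
      have hn' : (k : T ≃g T) ^ p ^ n = 1 := by
        simpa using congrArg (fun z : N => ((z : H) : T ≃g T)) hn
      refine ⟨n, Subtype.ext ?_⟩
      have := (hl.pow (p ^ n)).eq_one_iff.2 (fun y _ => by rw [hn']; rfl)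
      simpa using this
    have b4 : σ ^ p = 1 := (hσ.pow p).eq_one_iff.2 (by simpa using hgp.2)
    have b5 : τ ^ p = 1 := (hτ.pow p).eq_one_iff.2 (by simpa using hhp.2)
    have hmem := hF3 p hp (e ⟨c, hc⟩) (img e N) b1 b2 b3 σ ⟨g, hg, hσ⟩ τ ⟨h, hh, hτ⟩
      (orderOf_eq_prime b4 hσ1) (orderOf_eq_prime b5 hτ1)
    obtain ⟨i, hi⟩ := Subgroup.mem_zpowers_iff.1 hmem
    have hl := (hσ.zpow i).inv.mul hτ
    refine ⟨i, (hK _ _).2 ?_⟩
    have hc1 : (((g ^ i)⁻¹ * h : H) : T ≃g T) = ((g : T ≃g T) ^ i)⁻¹ * h := by simp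
    rw [hc1]
    exact ⟨hl.1, hl.eq_one_iff.1 (by rw [hi, inv_mul_cancel])⟩
  refine ⟨fun g hg hfix => ?_, h2 x⟩
  have : (⟨g, hg⟩ : H) ∈ S.Ball 5 x := fun m hm v w => hfix v ⟨m, hm, w⟩
  rw [Setup.ball_bot hr x, Subgroup.mem_bot] at this
  exact congrArg Subtype.val this

end Pool.Agent.Lib.MP_607584_al
end
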