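import Pool.Agent.Lib.MP_607584_al.Bridge2
import Pool.Agent.Lib.MP_607584_al.Final

-- part Pool.Agent.Lib.MP_607584_al.Color
section

/-! The amalgam method when the local action has a transitive normal subgroup of order
prime to `p`. -/

namespace Pool.Agent.Lib.MP_607584_al

open Subgroup

namespace Setup

variable {G V : Type*} [Group G] [MulAction G V] {S : Setup G V} {p n : ℕ}

variable (S) in
/-- a normal subgroup of the vertex stabiliser, transitive on the neighbours, of order prime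
to `p` modulo `X` -/
structure TN (p : ℕ) (x : V) (R X : Subgroup G) : Prop where
  le : R ≤ S.A x
  nz : S.A x ≤ normalizer (R : Set G)
  tr : ∀ y y', S.adj x y → S.adj x y' → ∃ r ∈ R, r • y = y'
  cp : ∀ r ∈ R, ∃ m : ℕ, m.Coprime p ∧ r ^ m ∈ X

theorem adj_smul {x y : V} {g : G} (hg : g ∈ S.A x) (h : S.adj x y) : S.adj x (g • y) := by
  have := S.inv g h
  rwa [mem_A.1 hg] at this

theorem TN.decomp {x y : V} {R X : Subgroup G} (hR : S.TN p x R X) (h : S.adj x y) {g : G}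
    (hg : g ∈ S.A x) : ∃ b ∈ S.B x y, ∃ r ∈ R, g = b * r := by
  obtain ⟨r, hr, h1⟩ := hR.tr _ _ (adj_smul ((S.A x).inv_mem hg) h) h
  refine ⟨g * r⁻¹, ⟨(S.A x).mul_mem hg ((S.A x).inv_mem (hR.le hr)), ?_⟩, r, hr, by group⟩
  show (g * r⁻¹) • y = y
  rw [mul_smul, inv_smul_eq_iff.2 h1.symm, smul_inv_smul]

theorem TN.sph {x y c : V} {R X H : Subgroup G} (hR : S.TN p x R X) {t : G} (hc : S.adj x c)
    (ht : t ∈ S.B x c) (htK : t ∉ S.K x) (h : S.adj x y) (hB : S.B x y ≤ H)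
    (hH : ∀ r ∈ R, r * t * r⁻¹ ∈ H) : S.A x ≤ H := by
  refine Setup.sph (N := closure {k | ∃ g ∈ S.A x, k = g * t * g⁻¹}) ((closure_le _).2 ?_)
    (fun a ha => mem_nz.2 (cj_closure a _ _ fun k => ?_)) (subset_closure ⟨1, one_mem _, by group⟩)
    hc ht.2 htK h ((closure_le _).2 ?_) hB
  · rintro _ ⟨g, hg, rfl⟩
    exact (S.A x).mul_mem ((S.A x).mul_mem hg ht.1) ((S.A x).inv_mem hg)
  · constructor
    · rintro ⟨g, hg, rfl⟩
      exact ⟨a⁻¹ * g, (S.A x).mul_mem ((S.A x).inv_mem ha) hg, by group⟩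
    · rintro ⟨g, hg, h1⟩
      refine ⟨a * g, (S.A x).mul_mem ha hg, ?_⟩
      calc k = a * (a⁻¹ * k * a) * a⁻¹ := by group
        _ = _ := by rw [h1]; group
  · rintro _ ⟨g, hg, rfl⟩
    obtain ⟨b, hb, r, hr, rfl⟩ := hR.decomp h hg
    have : b * r * t * (b * r)⁻¹ = b * (r * t * r⁻¹) * b⁻¹ := by group
    rw [SetLike.mem_coe, this]
    exact H.mul_mem (H.mul_mem (hB hb) (hH r hr)) (H.inv_mem (hB hb))

variable (S) in
/-- the centraliser of `K / Q` -/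
def CK (p : ℕ) (y : V) : Subgroup G where
  carrier := {g | g ∈ S.A y ∧ ∀ k ∈ S.K y, g * k * g⁻¹ * k⁻¹ ∈ S.Q p y}
  one_mem' := ⟨one_mem _, fun k _ => by simp⟩
  mul_mem' := by
    rintro a b ⟨ha, ha'⟩ ⟨hb, hb'⟩
    refine ⟨mul_mem ha hb, fun k hk => ?_⟩
    have : a * b * k * (a * b)⁻¹ * k⁻¹ =
        a * (b * k * b⁻¹ * k⁻¹) * a⁻¹ * (a * k * a⁻¹ * k⁻¹) := by group
    rw [this]
    exact mul_mem (nz_conj (A_le_nz_Q p y ha) (hb' k hk)) (ha' k hk)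
  inv_mem' := by
    rintro a ⟨ha, ha'⟩
    refine ⟨inv_mem ha, fun k hk => ?_⟩
    have : a⁻¹ * k * a⁻¹⁻¹ * k⁻¹ = a⁻¹ * (a * k * a⁻¹ * k⁻¹)⁻¹ * a := by group
    rw [this]
    exact nz_conj' (A_le_nz_Q p y ha) (inv_mem (ha' k hk))

theorem A_le_nz_CK (y : V) : S.A y ≤ normalizer (S.CK p y : Set G) := by
  refine le_nz fun a ha g hg => ⟨mul_mem (mul_mem ha hg.1) (inv_mem ha), fun k hk => ?_⟩
  have : a * g * a⁻¹ * k * (a * g * a⁻¹)⁻¹ * k⁻¹ =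
      a * (g * (a⁻¹ * k * a) * g⁻¹ * (a⁻¹ * k * a)⁻¹) * a⁻¹ := by group
  rw [this]
  exact nz_conj (A_le_nz_Q p y ha) (hg.2 _ (nz_conj' (A_le_nz_K y ha) hk))

theorem Q_le_B {x c : V} (h : S.adj x c) : S.Q p c ≤ S.B x c := (Q_le_K p c).trans (K_le_B' h)

theorem Q_le_CK {y x : V} (h : S.adj y x) : S.Q p x ≤ S.CK p y := by
  intro r hr
  refine ⟨(Q_le_B h hr).1, fun k hk => inf_le_Q (S.symm h) ⟨?_, ?_⟩⟩
  · have : r * k * r⁻¹ * k⁻¹ = r * (k * r⁻¹ * k⁻¹) := by group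
    rw [this]
    exact mul_mem hr (nz_conj (A_le_nz_Q p x (K_le_B h hk).2) (inv_mem hr))
  · exact (S.K y).mul_mem (nz_conj (A_le_nz_K y (Q_le_B h hr).1) hk) ((S.K y).inv_mem hk)

theorem CK_pow (hp : p.Prime) {x : V} {k : G} (h1 : k ∈ S.K x) (h2 : k ∈ S.CK p x) :
    ∃ m : ℕ, m.Coprime p ∧ k ^ m ∈ S.Q p x := by
  have hfin : IsOfFinOrder k := by
    have : IsOfFinOrder (⟨k, h1⟩ : S.K x) := isOfFinOrder_of_finite _
    exact (S.K x).subtype.isOfFinOrder this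
  obtain ⟨a, m, hm, hkm⟩ := Nat.exists_eq_pow_mul_and_not_dvd hfin.orderOf_pos.ne' p hp.ne_one
  refine ⟨m, ((Nat.Prime.coprime_iff_not_dvd hp).2 hm).symm, ?_⟩
  have hQ : S.Q p x ≤ S.CK p x := fun q hq => ⟨K_le_A x (Q_le_K p x hq), fun l hl => by
    have : q * l * q⁻¹ * l⁻¹ = q * (l * q⁻¹ * l⁻¹) := by group
    rw [this]
    exact mul_mem hq (nz_conj (A_le_nz_Q p x (K_le_A x hl)) (inv_mem hq))⟩
  have hX : zpowers (k ^ m) ⊔ S.Q p x ≤ S.CK p x := sup_le (zpowers_le.2 (pow_mem h2 m)) hQ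
  have hle : zpowers (k ^ m) ⊔ S.Q p x ≤ S.Q p x := by
    refine le_Op (sup_le (zpowers_le.2 (pow_mem h1 m)) (Q_le_K p x)) (le_nz fun g hg z hz => ?_) ?_
    · have : g * z * g⁻¹ = (z * g * z⁻¹ * g⁻¹)⁻¹ * z := by group
      rw [this]
      exact mul_mem (mem_sup_right (inv_mem ((hX hz).2 g hg))) hz
    · refine IsPGroup.to_sup_of_normal_right' ?_ (Q_pgroup p x)
        ((zpowers_le.2 (pow_mem (K_le_A x h1) m)).trans (A_le_nz_Q p x))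
      rintro ⟨_, i, rfl⟩
      refine ⟨a, Subtype.ext ?_⟩
      show ((k ^ m) ^ i) ^ p ^ a = 1
      rw [← zpow_natCast, ← zpow_mul, mul_comm, zpow_mul, zpow_natCast, ← pow_mul, mul_comm m,
        ← hkm, pow_orderOf_eq_one, one_zpow]
  exact hle (mem_sup_left (mem_zpowers _))

theorem TN.refine (hD : S.HD p) {x : V} {R : Subgroup G} (hR : S.TN p x R (S.K x)) :
    S.TN p x (R ⊓ S.CK p x) (S.Q p x) := by
  refine ⟨inf_le_left.trans hR.le, fun g hg => nz_inf (hR.nz hg) (A_le_nz_CK x hg),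
    fun c y' hc hy' => ?_, fun r hr => ?_⟩
  · have hQ : S.Q p c ≠ ⊥ := fun h0 => ZZ_ne hD hc
      (eq_bot_iff.2 ((inf_le_right.trans (Z_le_Q c)).trans h0.le))
    obtain ⟨q, hq, hqK⟩ := SetLike.not_le_iff_exists.1 (Q_not_le (S.symm hc) hQ)
    have hn : S.A x ≤ normalizer ((R ⊔ S.Q p c : Subgroup G) : Set G) := by
      intro g hg
      obtain ⟨b, hb, r, hr, rfl⟩ := hR.decomp hc hg
      exact mul_mem (nz_sup (hR.nz hb.1) (A_le_nz_Q p c hb.2)) (le_normalizer (mem_sup_left hr))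
    obtain ⟨g, hg, hgc⟩ := S.sp x ((R ⊔ S.Q p c) ⊓ S.CK p x) (fun g hg => hg.2.1)
      (fun g hg => nz_inf (hn hg) (A_le_nz_CK x hg)) q ⟨mem_sup_right hq, Q_le_CK hc hq⟩ c hc
      (Q_le_B hc hq).2 (fun h0 => hqK ⟨(Q_le_B hc hq).1, h0⟩) c y' hc hy'
    have hg' : g ∈ ((R ⊔ S.Q p c : Subgroup G) : Set G) := hg.1
    rw [Subgroup.coe_mul_of_right_le_normalizer_left R _
      (((Q_le_B hc).trans (B_le_left x c)).trans hR.nz)] at hg'
    obtain ⟨r, hr, s, hs, rfl⟩ := hg'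
    refine ⟨r, ⟨hr, ?_⟩, ?_⟩
    · have := (S.CK p x).mul_mem hg.2 ((S.CK p x).inv_mem (Q_le_CK hc hs))
      simpa using this
    · rw [← hgc]
      show r • c = (r * s) • c
      rw [mul_smul, (Q_le_B hc hs).2]
  · obtain ⟨m, hm, h1⟩ := hR.cp r hr.1
    obtain ⟨m', hm', h2⟩ := CK_pow hD.1 h1 (pow_mem hr.2 m)
    exact ⟨m * m', Nat.Coprime.mul_left hm hm', by rwa [pow_mul]⟩

theorem Z_le_Cn (x : V) : S.Z p x ≤ Cn (S.Z p x) := (Z_le_Q x).trans (Q_le_Cn x)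

theorem Z_pow {x : V} {z : G} (hz : z ∈ S.Z p x) : z ^ p = 1 := hz.2.2

theorem fin_Z (x : V) : Finite (S.Z p x) := fin_of_le ((Z_le_K x).trans (K_le_A x))

theorem QZ_comm {x : V} {q z : G} (hq : q ∈ S.Q p x) (hz : z ∈ S.Z p x) : Commute q z :=
  (mem_Cn.1 (Q_le_Cn x hq) z hz).symm

theorem TN.prG (hD : S.HD p) {x c : V} {R : Subgroup G} (hR : S.TN p x R (S.Q p x))
    (hc : S.adj x c) : PrG p (S.Z p x) R (S.Q p c) := by
  have hQA : S.Q p c ≤ S.A x := (Q_le_B hc).trans (B_le_left x c)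
  refine ⟨hD.1, fin_Z x, Z_le_Cn x, fun z hz => Z_pow hz, hR.le.trans (A_le_nz_Z x),
    hQA.trans (A_le_nz_Z x), hQA.trans hR.nz, Q_pgroup p c, fun r hr => ?_, fun a ha haC => ?_⟩
  · obtain ⟨m, hm, h⟩ := hR.cp r hr
    exact ⟨m, hm, Q_le_Cn x h⟩
  by_contra hcon
  push Not at hcon
  have hB : S.B x c ≤ normalizer ((S.Z p x ⊓ S.Z p c : Subgroup G) : Set G) :=
    fun g hg => nz_inf (A_le_nz_Z x hg.1) (A_le_nz_Z c hg.2)
  refine ZZ_ne hD hc (lemmaN2 hc (inf_le_left.trans ((Z_le_K x).trans (K_le_B hc))) ?_ ?_)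
  · refine hR.sph hc (Q_le_B hc ha) (fun h0 => haC (Q_le_Cn x (inf_le_Q (S.symm hc) ⟨ha, h0⟩)))
      hc hB fun r hr => ?_
    have : r * a * r⁻¹ = (a * r * a⁻¹ * r⁻¹)⁻¹ * a := by group
    rw [this]
    exact mul_mem (inv_mem (Cn_le_nz inf_le_left (hcon r hr))) (hB (Q_le_B hc ha))
  · intro g h1 h2
    rw [cj_inf, cj_Z, cj_Z, h1, h2, inf_comm]

variable (S) in
/-- the standing hypothesis -/
def HR (p : ℕ) : Prop := ∀ x, ∃ R, S.TN p x R (S.Q p x)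

variable (S) in
/-- two opposite arcs at distance `n + 1` -/
structure Wp (n : ℕ) (x c x' y' : V) : Prop where
  a1 : S.adj x c
  w1 : Wk S.adj n c x'
  a2 : S.adj y' x'
  w2 : Wk S.adj n x y'

theorem Wp.symm {x c x' y' : V} (h : S.Wp n x c x' y') : S.Wp n x' y' x c :=
  ⟨S.symm h.a2, wk_symm h.w2, S.symm h.a1, wk_symm h.w1⟩

theorem exists_Wp {x c x' : V} (h : S.adj x c) (w : Wk S.adj n c x') : ∃ y', S.Wp n x c x' y' := by
  obtain ⟨y', w', h2⟩ := (Wk.cons h w).last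
  exact ⟨y', h, w, h2, w'⟩

theorem Crit.genZ (hc : S.Crit p n) (hr : S.HR p) {x c x' y' : V} (h : S.Wp n x c x' y')
    {L : Subgroup G} (hL : ∀ t ∈ S.Z p x', (∃ w, TrG (S.Z p x) t w) → t ∈ L)
    (hL' : S.Z p x' ⊓ Cn (S.Z p x) ≤ L) : S.Z p x' ≤ L := by
  obtain ⟨R, hR⟩ := hr x
  obtain ⟨R', hR'⟩ := hr x'
  have := fin_Z (S := S) (p := p) x'
  exact (hR.prG hc.hD h.a1).gen (hc.ZQ n le_rfl (wk_symm h.w1)) (Z_le_Cn x') (fun _ => Z_pow)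
    ((hR'.prG hc.hD (S.symm h.a2)).ineq (hc.ZQ n le_rfl h.w2) (Z_le_Cn x) fun _ => Z_pow) hL hL'

variable (S) in
/-- good configurations -/
structure Gd (p n : ℕ) (x c x' y' : V) (t w : G) : Prop where
  wp : S.Wp n x c x' y'
  ht : t ∈ S.Z p x'
  hw : w ∈ S.Z p x'
  tr : TrG (S.Z p x) t w
  cm : ∀ g ∈ S.Q p y', g ∈ Cn (S.Z p x) → g * t * g⁻¹ * t⁻¹ ∈ zpowers w

theorem Crit.exists_Gd (hc : S.Crit p n) (hr : S.HR p) {x c x' y' : V} (h : S.Wp n x c x' y')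
    (hZ : ¬ S.Z p x ≤ S.K x') : ∃ t w, S.Gd p n x c x' y' t w := by
  have hxQ : S.Z p x ≤ S.Q p y' := hc.ZQ n le_rfl h.w2
  have hxA : S.Z p x' ≤ S.A x :=
    ((hc.ZQ n le_rfl (wk_symm h.w1)).trans (Q_le_B h.a1)).trans (B_le_left _ _)
  obtain ⟨s, hs, w, hsw⟩ : ∃ s ∈ S.Z p x, ∃ w, TrG (S.Z p x') s w := by
    by_contra hcon
    exact hZ (hc.genZ hr h.symm (fun t ht hw => absurd ⟨t, ht, hw⟩ hcon) fun g hg =>
      CZ hc.hD (S.symm h.a2) (Q_le_B (S.symm h.a2) (hxQ hg.1)) hg.2)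
  obtain ⟨R, hR⟩ := hr x'
  have H := hR.prG hc.hD (S.symm h.a2)
  obtain ⟨r, hr1, hr2⟩ := H.exists_r hsw (hxQ hs)
  have ht : r * w * r⁻¹ ∈ S.Z p x' := nz_conj (H.hRZ hr1) hsw.mem
  set t := r * w * r⁻¹ with htd
  have e1 : zpowers (s * t * s⁻¹ * t⁻¹) = zpowers w :=
    gen_of_prime hc.hD.1 (Z_pow hsw.mem) (hsw.app t ht) fun h0 => hr2 (by
      show s * t = t * s
      calc s * t = s * t * s⁻¹ * t⁻¹ * (t * s) := by group
        _ = t * s := by rw [h0, one_mul])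
  have cm : ∀ g ∈ S.Q p y', Commute g s → g * t * g⁻¹ * t⁻¹ ∈ zpowers w := by
    intro g hg hgs
    refine H.pelt hsw (hxQ hs) hg ?_ hr1
    obtain ⟨k, hk⟩ := pg_pow (Q_pgroup p y') hg
    refine commute_zpowers (comm_of_norm hc.hD.1 (w := s * t * s⁻¹ * t⁻¹) (Z_pow ((zpowers_le.2
      hsw.mem) (hsw.app t ht))) hk ?_) (e1 ▸ mem_zpowers w)
    rw [e1]
    have e2 : g * (s * t * s⁻¹ * t⁻¹) * g⁻¹ = s * (g * t * g⁻¹) * s⁻¹ * (g * t * g⁻¹)⁻¹ := by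
      calc g * (s * t * s⁻¹ * t⁻¹) * g⁻¹ = g * s * t * (g * s)⁻¹ * (g * t⁻¹ * g⁻¹) := by group
        _ = _ := by rw [hgs.eq]; group
    rw [e2]
    exact hsw.app _ (nz_conj (H.hPZ hg) ht)
  have hwx : w ∈ S.Z p x := by
    refine (zpowers_le.2 ?_ : zpowers (s * t * s⁻¹ * t⁻¹) ≤ S.Z p x) (e1 ▸ mem_zpowers w)
    have : s * t * s⁻¹ * t⁻¹ = s * (t * s⁻¹ * t⁻¹) := by group
    rw [this]
    exact mul_mem hs (nz_conj (A_le_nz_Z x (hxA ht)) (inv_mem hs))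
  refine ⟨t, w, h, ht, hsw.mem, ⟨hwx, hsw.ne, fun z hz => ?_, s, hs, fun h0 => hr2 h0.symm⟩,
    fun g hg hgc => cm g hg (mem_Cn.1 hgc s hs).symm⟩
  have := inv_mem (cm z (hxQ hz) (QZ_comm (Z_le_Q x hz) hs))
  convert this using 1
  group

variable {x c x' y' y : V} {t w μ : G}

theorem Gd.tQ (hc : S.Crit p n) (h : S.Gd p n x c x' y' t w) : t ∈ S.Q p c :=
  hc.ZQ n le_rfl (wk_symm h.wp.w1) h.ht

theorem Gd.tK (hc : S.Crit p n) (h : S.Gd p n x c x' y' t w) : t ∉ S.K x := fun h0 => by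
  obtain ⟨z, hz, h1⟩ := h.tr.ex
  exact h1 (QZ_comm (inf_le_Q (S.symm h.wp.a1) ⟨h.tQ hc, h0⟩) hz)

theorem Gd.cmZ (hc : S.Crit p n) (hn : 1 ≤ n) (h : S.Gd p n x c x' y' t w) (hy : S.adj x y)
    {u : G} (hu : u ∈ S.Z p y) (hu' : u ∈ S.Q p y') : u * t * u⁻¹ * t⁻¹ ∈ zpowers w :=
  h.cm u hu' (Q_le_Cn x (hc.ZQ 1 hn (Wk.one (S.symm hy)) hu))

theorem Gd.lemmaS (hc : S.Crit p n) (hn : 1 ≤ n) (h : S.Gd p n x c x' y' t w) (hy : S.adj x y)
    (hZ : S.Z p y ≤ S.K y') : t ∈ normalizer ((S.Z p x ⊔ S.Z p y : Subgroup G) : Set G) := by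
  have hQ := hc.ZQ' (Wk.cons (S.symm hy) h.wp.w2) hZ
  have htA : t ∈ S.A x := (Q_le_B h.wp.a1 (h.tQ hc)).1
  have key : cj t (S.Z p x ⊔ S.Z p y) ≤ S.Z p x ⊔ S.Z p y := by
    rw [cj_sup, mem_nz.1 (A_le_nz_Z x htA)]
    refine sup_le le_sup_left ?_
    rintro _ ⟨z, hz, rfl⟩
    have e : (MulAut.conj t).toMonoidHom z = (z * t * z⁻¹ * t⁻¹)⁻¹ * z := by
      simp [mul_assoc]
    rw [e]
    exact mul_mem (mem_sup_left (inv_mem ((zpowers_le.2 h.tr.mem) (h.cmZ hc hn hy hz (hQ hz)))))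
      (mem_sup_right hz)
  have hfin : Finite (S.Z p x ⊔ S.Z p y : Subgroup G) := fin_of_le (x := x)
    (sup_le ((Z_le_K x).trans (K_le_A x)) (((Z_le_K y).trans (K_le_B' hy)).trans (B_le_left _ _)))
  exact mem_normalizer_fintype fun k hk => key (conj_mem_cj hk)

variable (S) in
/-- centres of the transvections at an arc -/
def Lm (p n : ℕ) (y x : V) (μ : G) : Prop :=
  ∃ v a, Wk S.adj n x v ∧ a ∈ S.Z p v ∧ TrG (S.Z p y) a μ

theorem Lm.conj (h : S.Lm p n y x μ) (g : G) : S.Lm p n (g • y) (g • x) (g * μ * g⁻¹) := by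
  obtain ⟨v, a, h1, h2, h3⟩ := h
  exact ⟨g • v, g * a * g⁻¹, wk_smul g h1, cj_Z g v ▸ conj_mem_cj h2, cj_Z g y ▸ h3.conj g⟩

theorem Gd.cent (hc : S.Crit p n) (hr : S.HR p) (hn : 1 ≤ n) (h : S.Gd p n x c x' y' t w)
    (hy : S.adj x y) (hμ : S.Lm p n y x μ) : Commute t μ := by
  obtain ⟨v, a, h1, h2, h3⟩ := hμ
  have hp := hc.hD.1
  obtain ⟨R, hR⟩ := hr y
  have H := hR.prG hc.hD (S.symm hy)
  have haQ : a ∈ S.Q p x := hc.ZQ n le_rfl (wk_symm h1) h2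
  obtain ⟨y2, hw⟩ := exists_Wp (S.symm hy) h.wp.w2
  have hyQ : S.Z p y ≤ S.Q p y2 := hc.ZQ n le_rfl hw.w2
  have hyB : S.Z p y ≤ S.B y' y2 := hyQ.trans (Q_le_B (S.symm hw.a2))
  by_cases hA : ∃ a' ∈ S.Z p y', ∃ μ', TrG (S.Z p y) a' μ' ∧ μ' ∈ zpowers μ
  · obtain ⟨a', ha', μ', k1, k2⟩ := hA
    have k3 : μ' ∈ S.Z p y' := k1.centre_mem hp (Z_pow k1.mem) fun z hz => by
      have : a' * z * a'⁻¹ * z⁻¹ = a' * (z * a'⁻¹ * z⁻¹) := by group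
      rw [this]
      exact mul_mem ha' (nz_conj (A_le_nz_Z y' (hyB hz).1) (inv_mem ha'))
    have k4 := gen_of_prime hp (Z_pow h3.mem) k2 k1.ne
    exact commute_zpowers (QZ_comm (hc.ZQ 1 hn (Wk.one (S.symm h.wp.a2)) h.ht) k3)
      (k4 ▸ mem_zpowers μ)
  have hu : ∀ r ∈ R, r * μ * r⁻¹ * t * (r * μ * r⁻¹)⁻¹ * t⁻¹ ∈ zpowers w := by
    intro r hrR
    have k1 : r * μ * r⁻¹ ∈ S.Z p y := nz_conj (H.hRZ hrR) h3.mem
    have k2 : S.Z p y' ≤ centralizer {r * μ * r⁻¹} := by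
      refine hc.genZ hr hw (fun a' ha' ⟨μ', k3⟩ => ?_) fun g hg => ?_
      · rw [mem_centralizer_singleton_iff]
        exact (H.fix h3 haQ k3 (hc.ZQ n le_rfl (wk_symm h.wp.w2) ha')
          (fun k4 => hA ⟨a', ha', μ', k3, k4⟩) hrR).eq
      · rw [mem_centralizer_singleton_iff]
        exact (mem_Cn.1 hg.2 _ k1).symm
    refine h.cmZ hc hn hy k1 (inf_le_Q hw.a2 ⟨hyQ k1, CZ hc.hD (S.symm hw.a2) (hyB k1) ?_⟩)
    exact mem_Cn.2 fun k hk => mem_centralizer_singleton_iff.1 (k2 hk)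
  have hwZ : zpowers w ≤ S.Z p x := zpowers_le.2 h.tr.mem
  have htA : t ∈ S.A x := (Q_le_B h.wp.a1 (h.tQ hc)).1
  have hg : t * a * t⁻¹ ∈ S.Q p x := nz_conj (A_le_nz_Q p x htA) haQ
  have haμ : Commute a μ := comm_of_norm hp (Z_pow h3.mem) (k := 1) (by rw [pow_one, Z_pow h2])
    (by simpa using mul_mem (h3.app μ h3.mem) (mem_zpowers μ))
  have hgμ : Commute (t * a * t⁻¹) μ := by
    have k1 := (QZ_comm hg (hwZ (hu 1 R.one_mem))).mul_right (commute_conj t haμ)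
    have e : 1 * μ * 1⁻¹ * t * (1 * μ * 1⁻¹)⁻¹ * t⁻¹ * (t * μ * t⁻¹) = μ := by group
    rwa [e] at k1
  obtain ⟨r, hrR, hru⟩ := H.exists_r h3 haQ
  have k1 := H.pelt h3 haQ hg hgμ hrR
  have k2 := hwZ (hu r hrR)
  have hu1 : r * μ * r⁻¹ ∈ S.Z p y := nz_conj (H.hRZ hrR) h3.mem
  set u := r * μ * r⁻¹
  have e1 : zpowers (a * u * a⁻¹ * u⁻¹) = zpowers μ :=
    gen_of_prime hp (Z_pow h3.mem) (h3.app u hu1) fun h0 => hru (by
      show a * u = u * a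
      calc a * u = a * u * a⁻¹ * u⁻¹ * (u * a) := by group
        _ = u * a := by rw [h0, one_mul])
  refine commute_zpowers (comm_of_norm hp (w := a * u * a⁻¹ * u⁻¹)
    (Z_pow ((zpowers_le.2 h3.mem) (h3.app u hu1))) (k := 1) (by rw [pow_one, Z_pow h.ht]) ?_)
    (e1 ▸ mem_zpowers μ)
  rw [e1]
  set z := u * t * u⁻¹ * t⁻¹ with hz
  set g := t * a * t⁻¹ with hgd
  have c1 : Commute g z := QZ_comm hg k2
  have c2 : Commute z (g * u * g⁻¹ * u⁻¹) :=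
    QZ_comm (hc.ZQ 1 hn (Wk.one hy) k2) ((zpowers_le.2 h3.mem) k1)
  have e2 : t * (a * u * a⁻¹ * u⁻¹) * t⁻¹ = g * u * g⁻¹ * u⁻¹ := by
    calc t * (a * u * a⁻¹ * u⁻¹) * t⁻¹ = (z * g⁻¹)⁻¹ * u * g⁻¹ * u⁻¹ * z := by
          rw [hz, hgd]; group
      _ = z⁻¹ * ((g * u * g⁻¹ * u⁻¹) * z) := by rw [← c1.inv_left.eq]; group
      _ = g * u * g⁻¹ * u⁻¹ := by rw [← c2.eq]; group
  rw [e2]
  exact k1

theorem Crit.Lm_indep (hc : S.Crit p n) (hr : S.HR p) (hn : 1 ≤ n) {u : V} (hy : S.adj x y)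
    (hu : S.adj x u) (hμ : S.Lm p n y x μ) : S.Lm p n u x μ := by
  obtain ⟨x', w1, h1⟩ := hc.dir hy
  obtain ⟨y', hw⟩ := exists_Wp hy w1
  obtain ⟨t, w, h⟩ := hc.exists_Gd hr hw (hc.symm hy w1 h1)
  let L : Subgroup G := closure {μ | ∃ y, S.adj x y ∧ S.Lm p n y x μ}
  have hL : S.A x ≤ normalizer (L : Set G) := fun a ha => mem_nz.2 (cj_closure a _ _ fun k => by
    constructor
    · rintro ⟨z, hz, hk⟩
      have := hk.conj a⁻¹
      rw [inv_inv, mem_A.1 ((S.A x).inv_mem ha)] at this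
      exact ⟨_, adj_smul ((S.A x).inv_mem ha) hz, this⟩
    · rintro ⟨z, hz, hk⟩
      have := hk.conj a
      rw [mem_A.1 ha] at this
      exact ⟨_, adj_smul ha hz, by simpa [mul_assoc] using this⟩)
  have htL : t ∈ Cn L := by
    rw [mem_Cn]
    intro k hk
    have : L ≤ centralizer {t} := (closure_le _).2 fun m ⟨z, hz, hm⟩ =>
      mem_centralizer_singleton_iff.2 (h.cent hc hr hn hz hm).eq.symm
    exact mem_centralizer_singleton_iff.1 (this hk)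
  have htB := Q_le_B hy (h.tQ hc)
  obtain ⟨g, hg, hgy⟩ := S.sp x (S.A x ⊓ Cn L) inf_le_left
    (fun g hg => nz_inf (le_normalizer hg) (nz_Cn (hL hg))) t ⟨htB.1, htL⟩ y hy htB.2
    (fun h0 => h.tK hc ⟨htB.1, h0⟩) y u hy hu
  have h2 := hμ.conj g
  rwa [hgy, mem_A.1 hg.1, ← mem_Cn.1 hg.2 μ (subset_closure ⟨y, hy, hμ⟩), mul_inv_cancel_right]
    at h2

theorem Gd.shift (hc : S.Crit p n) (hr : S.HR p) (hn : 1 ≤ n) (h : S.Gd p n x c x' y' t w) :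
    ∃ y, S.adj x y ∧ ¬ S.Z p y ≤ S.K y' ∧
      ∀ μ, S.Lm p n x y μ → μ ∉ zpowers w ∧ (Commute t μ → S.Lm p n x c μ) := by
  have hp := hc.hD.1
  obtain ⟨R, hR⟩ := hr x
  have H := hR.prG hc.hD h.wp.a1
  have htQ := h.tQ hc
  have htB := Q_le_B h.wp.a1 htQ
  have hwp := Z_pow h.hw
  have htp : t ^ p ^ 1 = 1 := by rw [pow_one, Z_pow h.ht]
  have htw : Commute t w := QZ_comm (Z_le_Q x' h.ht) h.hw
  let E : Subgroup G := closure {d | ∃ r ∈ R, d = r * t * r⁻¹}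
  have hEA : E ≤ S.A x := (closure_le _).2 (by
    rintro _ ⟨r, hr, rfl⟩
    exact (S.A x).mul_mem ((S.A x).mul_mem (hR.le hr) htB.1) ((S.A x).inv_mem (hR.le hr)))
  have htE : t ∈ E := subset_closure ⟨1, R.one_mem, by group⟩
  have hER : ∀ g ∈ E, t⁻¹ * (g * t * g⁻¹) ∈ R := by
    intro g hg
    induction hg using closure_induction with
    | mem d hd =>
      obtain ⟨r, hr, rfl⟩ := hd
      have k1 := conj_mem_R (H.hPR htQ) hr
      have : t⁻¹ * (r * t * r⁻¹ * t * (r * t * r⁻¹)⁻¹) =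
          t⁻¹ * (r * t * r⁻¹) * (t * (t⁻¹ * (r * t * r⁻¹))⁻¹ * t⁻¹) := by group
      rw [this]
      exact R.mul_mem k1 (nz_conj (H.hPR htQ) (R.inv_mem k1))
    | one => simp
    | mul a b ha hb iha ihb =>
      have : t⁻¹ * (a * b * t * (a * b)⁻¹) =
          t⁻¹ * (a * t * a⁻¹) * (a * (t⁻¹ * (b * t * b⁻¹)) * a⁻¹) := by group
      rw [this]
      exact R.mul_mem iha (nz_conj (hR.nz (hEA ha)) ihb)
    | inv a ha iha =>
      have : t⁻¹ * (a⁻¹ * t * a⁻¹⁻¹) = a⁻¹ * (t⁻¹ * (a * t * a⁻¹))⁻¹ * a := by group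
      rw [this]
      exact nz_conj' (hR.nz (hEA ha)) (R.inv_mem iha)
  have hline : ∀ g ∈ E, Commute t (g * w * g⁻¹) → g * w * g⁻¹ ∈ zpowers w := fun g hg hcm =>
    H.conj h.tr htQ (A_le_nz_Z x (hEA hg)) (hER g hg) hcm
  have hpel : ∀ g : G, g⁻¹ * t * g * w * (g⁻¹ * t * g)⁻¹ ∈ zpowers w →
      Commute t (g * w * g⁻¹) := fun g hg => by
    have k1 := comm_of_norm hp hwp (k := 1) (g := g⁻¹ * t * g) (by
      have := conj_pow (a := g⁻¹) (b := t) (i := p ^ 1)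
      rw [inv_inv] at this
      rw [this, htp]; group) hg
    simpa [mul_assoc] using commute_conj g k1
  obtain ⟨g, hg, hg1, hg2⟩ : ∃ g ∈ E, ¬ Commute t (g * w * g⁻¹) ∧ ¬ S.Z p (g • c) ≤ S.K y' := by
    by_contra hcon
    set N := normalizer ((S.Z p x ⊔ S.Z p c : Subgroup G) : Set G) with hN
    have k1 : ∀ g ∈ E, ¬ Commute t (g * w * g⁻¹) → g⁻¹ * t * g ∈ N := by
      intro g hg hg1
      have k2 := h.lemmaS hc hn (adj_smul (hEA hg) h.wp.a1)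
        (by by_contra k3; exact hcon ⟨g, hg, hg1, k3⟩)
      rw [← mem_cj, hN, cj_nz, cj_sup, cj_Z, cj_Z, mem_A.1 (hEA hg)]
      exact k2
    obtain ⟨r, hr1, hr2⟩ := H.exists_r h.tr htQ
    have d1 : r⁻¹ * t * r ∈ E := subset_closure ⟨r⁻¹, R.inv_mem hr1, by rw [inv_inv]⟩
    set d := r⁻¹ * t * r with hd
    have d2 : ¬ Commute t (d * w * d⁻¹) := fun k2 => hr2 (hpel r (hline d d1 k2))
    have d3 : d⁻¹ * t * d ∈ E := E.mul_mem (E.mul_mem (E.inv_mem d1) htE) d1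
    have d4 := k1 d d1 d2
    have d5 : d⁻¹ * t * d * w * (d⁻¹ * t * d)⁻¹ ∉ zpowers w := fun k2 => d2 (hpel d k2)
    set e := d⁻¹ * t * d
    have k4 : ∀ g ∈ E, g⁻¹ * t * g ∈ N := by
      intro g hg
      by_cases hg1 : Commute t (g * w * g⁻¹)
      swap
      · exact k1 g hg hg1
      have k5 := gen_of_prime hp hwp (hline g hg hg1) (fun h0 => h.tr.ne (by simpa using h0))
      have k6 := k1 (g * e) (E.mul_mem hg d3) fun k7 => d5 (by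
        have k8 := hline _ (E.mul_mem hg d3) k7
        rw [← k5] at k8
        simpa [mul_assoc] using conj_mem_zpowers g⁻¹ k8)
      have : g⁻¹ * t * g = e * ((g * e)⁻¹ * t * (g * e)) * e⁻¹ := by group
      rw [this]
      exact N.mul_mem (N.mul_mem d4 k6) (N.inv_mem d4)
    refine not_nz_ZZ hc.hD h.wp.a1 (hR.sph h.wp.a1 htB (h.tK hc) h.wp.a1 (B_le_nz_ZZ x c)
      fun s hs => ?_)
    have u1 : s * t * s⁻¹ * t⁻¹ ∈ E := E.mul_mem (subset_closure ⟨s, hs, rfl⟩) (E.inv_mem htE)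
    have u2 : s * t * s⁻¹ * t⁻¹ ∈ R := by
      have := nz_conj (H.hPR htQ) (conj_mem_R (H.hPR htQ) hs)
      simpa [mul_assoc] using this
    set u := s * t * s⁻¹ * t⁻¹ with hu
    obtain ⟨m, hm, hum⟩ := hR.cp u u2
    have key : ∀ j : ℕ, (u * t) ^ j * (u ^ j)⁻¹ ∈ N := by
      intro j
      induction j with
      | zero => simp
      | succ j ih =>
        have : (u * t) ^ (j + 1) * (u ^ (j + 1))⁻¹ =
            (u * t) ^ j * (u ^ j)⁻¹ * ((u ^ (j + 1))⁻¹⁻¹ * t * (u ^ (j + 1))⁻¹) := by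
          rw [pow_succ (u * t)]; group
        rw [this]
        exact N.mul_mem ih (k4 _ (E.inv_mem (E.pow_mem u1 _)))
    have k9 : (u * t) ^ m ∈ N := by
      simpa using N.mul_mem (key m) (B_le_nz_ZZ x c (K_le_B h.wp.a1 (Q_le_K p x hum)))
    have e3 : u * t = s * t * s⁻¹ := by rw [hu]; group
    rw [e3] at k9
    have hcop : m.Coprime (orderOf (s * t * s⁻¹)) :=
      hm.coprime_dvd_right (orderOf_dvd_of_pow_eq_one (by rw [conj_pow, Z_pow h.ht]; group))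
    obtain ⟨l, hl⟩ := exists_pow_eq_self_of_coprime hcop
    rw [← hl]
    exact N.pow_mem k9 l
  refine ⟨g • c, adj_smul (hEA hg) h.wp.a1, hg2, fun μ hμ => ?_⟩
  have h0 := hμ.conj g⁻¹
  rw [inv_smul_smul, mem_A.1 ((S.A x).inv_mem (hEA hg)), inv_inv] at h0
  obtain ⟨v, a, k1, k2, k3⟩ := h0
  by_cases hm : w ∈ zpowers (g⁻¹ * μ * g)
  · have k4 : ¬ Commute t μ := fun k5 => hg1 (commute_zpowers k5 (by
      simpa [mul_assoc] using conj_mem_zpowers g hm))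
    exact ⟨fun k5 => k4 (commute_zpowers htw k5), fun k5 => absurd k5 k4⟩
  have k4 : E ≤ centralizer {g⁻¹ * μ * g} := (closure_le _).2 (by
    rintro _ ⟨r, hr, rfl⟩
    have k5 := H.fix k3 (hc.ZQ n le_rfl (wk_symm k1) k2) h.tr htQ hm (R.inv_mem hr)
    have k6 := commute_conj r k5
    rw [SetLike.mem_coe, mem_centralizer_singleton_iff]
    simpa [mul_assoc] using k6.eq)
  have k7 : g⁻¹ * μ * g = μ := by
    have := mem_centralizer_singleton_iff.1 (k4 hg)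
    calc g⁻¹ * μ * g = g * (g⁻¹ * μ * g) * g⁻¹ := by rw [this]; group
      _ = μ := by group
  rw [k7] at hm k3
  refine ⟨fun k8 => hm ?_, fun _ => ⟨v, a, k1, k2, k3⟩⟩
  rw [gen_of_prime hp hwp k8 k3.ne]
  exact mem_zpowers w

theorem Crit.chain (hc : S.Crit p n) (hr : S.HR p) (hn : 1 ≤ n) : ∀ a : ℕ, 2 * a ≤ n →
    ∀ {x c x' y' : V} {t w : G}, S.Gd p n x c x' y' t w → ∃ L : Finset (Subgroup G),
      L.card = a + 1 ∧ ∀ l ∈ L, ∃ μ, l = zpowers μ ∧ S.Lm p n x c μ ∧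
        ∃ j ≤ 2 * a, ∃ u, Wk S.adj j u x' ∧ μ ∈ S.Z p u := by
  classical
  intro a
  induction a with
  | zero =>
    intro _ x c x' y' t w h
    refine ⟨{zpowers w}, rfl, fun l hl => ⟨w, Finset.mem_singleton.1 hl,
      ⟨x', t, h.wp.w1, h.ht, h.tr⟩, 0, le_rfl, x', Wk.zero _, h.hw⟩⟩
  | succ a ih =>
    intro ha x c x' y' t w h
    obtain ⟨y, hy, hZ, hμ⟩ := h.shift hc hr hn
    obtain ⟨y2, w1⟩ := exists_Wp (S.symm hy) h.wp.w2
    obtain ⟨t1, v1, h1⟩ := hc.exists_Gd hr w1 hZ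
    obtain ⟨z, hz, hZ1, -⟩ := h1.shift hc hr hn
    obtain ⟨y3, w2⟩ := exists_Wp (S.symm hz) w1.w2
    obtain ⟨t2, v2, h2⟩ := hc.exists_Gd hr w2 hZ1
    obtain ⟨L, hL1, hL2⟩ := ih (by omega) h2
    have key : ∀ l ∈ L, ∃ μ, l = zpowers μ ∧ μ ∉ zpowers w ∧ S.Lm p n x c μ ∧
        ∃ j ≤ 2 * (a + 1), ∃ u, Wk S.adj j u x' ∧ μ ∈ S.Z p u := by
      intro l hl
      obtain ⟨μ, e, k1, j, hj, u, k2, k3⟩ := hL2 l hl
      have k4 := hμ μ (hc.Lm_indep hr hn hz (S.symm hy) k1)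
      have k5 : Wk S.adj (j + 2) u x' := (k2.succ w1.a2).succ h.wp.a2
      exact ⟨μ, e, k4.1, k4.2 (QZ_comm (hc.ZQ _ (by omega) (wk_symm k5) h.ht) k3), j + 2,
        by omega, u, k5, k3⟩
    refine ⟨insert (zpowers w) L, ?_, fun l hl => ?_⟩
    · rw [Finset.card_insert_of_notMem, hL1]
      intro hl
      obtain ⟨μ, e, k1, -⟩ := key _ hl
      exact k1 (e ▸ mem_zpowers μ)
    · rcases Finset.mem_insert.1 hl with rfl | hl
      · exact ⟨w, rfl, ⟨x', t, h.wp.w1, h.ht, h.tr⟩, 0, by omega, x', Wk.zero _, h.hw⟩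
      · obtain ⟨μ, e, -, k2⟩ := key l hl
        exact ⟨μ, e, k2⟩

theorem Crit.bound (hc : S.Crit p n) (hr : S.HR p) {ι : Type*} [Fintype ι] (h : S.adj x c)
    (f : G → ι) (hf : ∀ a ∈ S.A x, ∀ b ∈ S.A x, f a = f b → a⁻¹ * b ∈ S.K x) :
    n ≤ 2 * Fintype.card ι := by
  rcases Nat.eq_zero_or_pos n with h0 | hn
  · omega
  obtain ⟨x', w1, h1⟩ := hc.dir h
  obtain ⟨y', hw⟩ := exists_Wp h w1
  obtain ⟨t, w, hg⟩ := hc.exists_Gd hr hw (hc.symm h w1 h1)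
  obtain ⟨L, hL1, hL2⟩ := hc.chain hr hn (n / 2) (by omega) hg
  have key : ∀ l : L, ∃ a ∈ S.Q p c, ∃ μ, l.1 = zpowers μ ∧ TrG (S.Z p x) a μ := fun l => by
    obtain ⟨μ, e, ⟨v, a, k1, k2, k3⟩, -⟩ := hL2 l.1 l.2
    exact ⟨a, hc.ZQ n le_rfl (wk_symm k1) k2, μ, e, k3⟩
  choose a ha μ e hμ using key
  have hinj : Function.Injective fun l : L => f (a l) := by
    intro l l' hll
    have k1 := hf _ (Q_le_B h (ha l)).1 _ (Q_le_B h (ha l')).1 hll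
    have k2 : (a l)⁻¹ * a l' ∈ S.Q p x :=
      inf_le_Q (S.symm h) ⟨(S.Q p c).mul_mem ((S.Q p c).inv_mem (ha l)) (ha l'), k1⟩
    have k3 : μ l' ∈ zpowers (μ l) :=
      (hμ l').centre_mem hc.hD.1 (Z_pow (hμ l').mem) fun z hz => by
        have k4 := (QZ_comm k2 hz).eq
        have : a l' * z * (a l')⁻¹ * z⁻¹ = a l * z * (a l)⁻¹ * z⁻¹ := by
          calc a l' * z * (a l')⁻¹ * z⁻¹ = a l * ((a l)⁻¹ * a l' * z) * (a l')⁻¹ * z⁻¹ := by group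
            _ = _ := by rw [k4]; group
        rw [this]
        exact (hμ l).app z hz
    exact Subtype.ext (by
      rw [e l, e l', gen_of_prime hc.hD.1 (Z_pow (hμ l).mem) k3 (hμ l').ne])
  have := Fintype.card_le_of_injective _ hinj
  rw [Fintype.card_coe, hL1] at this
  omega

/-- the main bound -/
theorem ball_bot' {ι : Type*} [Fintype ι]
    (hr : ∀ p : ℕ, p.Prime → S.R1 p ∨ ∀ x, ∃ R, S.TN p x R (S.K x))
    (hf : ∀ x, ∃ f : G → ι, ∀ a ∈ S.A x, ∀ b ∈ S.A x, f a = f b → a⁻¹ * b ∈ S.K x) (x : V) :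
    S.Ball (2 * Fintype.card ι + 5) x = ⊥ := by
  by_cases hy : ∃ y, S.adj x y
  · obtain ⟨y, h⟩ := hy
    by_cases hD : S.K x ⊓ S.K y = ⊥
    · exact eq_bot_iff.2 ((Ball_le_D (Wk.zero x) h (by omega)).trans hD.le)
    · obtain ⟨p, hp⟩ := tw h hD
      obtain ⟨n, hc⟩ := exists_crit hp h
      refine eq_bot_iff.2 ((Ball_mono ?_ x).trans (hc.ball h).le)
      rcases hr p hp.1 with h1 | h1
      · have := hc.step3 h1 h
        omega
      · obtain ⟨f, hf⟩ := hf x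
        have := hc.bound (fun v => (h1 v).elim fun R hR => ⟨_, hR.refine hp⟩) h f hf
        omega
  · refine eq_bot_iff.2 fun g hg => ?_
    rw [Subgroup.mem_bot]
    refine S.faithful g fun v => ?_
    obtain ⟨n, w⟩ := S.conn x v
    cases n with
    | zero => exact hg 0 (by omega) v w
    | succ n =>
      obtain ⟨y, h, -⟩ := wk_first w
      exact absurd ⟨y, h⟩ hy

end Setup

end Pool.Agent.Lib.MP_607584_al
end

-- part Pool.Agent.Lib.MP_607584_al.Fam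
section

/-! The equivariant families of minimal subgroups. -/

namespace Pool.Agent.Lib.MP_607584_al

open Subgroup
open scoped commutatorElement

namespace Setup

variable {G V : Type*} [Group G] [MulAction G V] {S : Setup G V} {p n : ℕ}

variable (S) in
/-- normal in the vertex stabiliser and transitive on the neighbours -/
def NT (x : V) (R : Subgroup G) : Prop :=
  R ≤ S.A x ∧ S.A x ≤ normalizer (R : Set G) ∧
    ∀ y y', S.adj x y → S.adj x y' → ∃ r ∈ R, r • y = y'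

variable (S) in
/-- normal in the vertex stabiliser, inside `Z` and not centralised by `R` -/
def NU (p : ℕ) (x : V) (R U : Subgroup G) : Prop :=
  U ≤ S.Z p x ∧ S.A x ≤ normalizer (U : Set G) ∧ ¬ R ≤ Cn U

theorem NT.conj {x : V} {R : Subgroup G} (h : S.NT x R) (g : G) : S.NT (g • x) (cj g R) := by
  refine ⟨cj_A g x ▸ cj_mono g h.1, ?_, fun y y' hy hy' => ?_⟩
  · rw [← cj_nz, ← cj_A]; exact cj_mono g h.2.1
  · have k1 := S.inv g⁻¹ hy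
    have k2 := S.inv g⁻¹ hy'
    rw [inv_smul_smul] at k1 k2
    obtain ⟨r, hr, e⟩ := h.2.2 _ _ k1 k2
    exact ⟨_, conj_mem_cj hr, by rw [mul_smul, mul_smul, e, smul_inv_smul]⟩

theorem NU.conj {x : V} {R U : Subgroup G} (h : S.NU p x R U) (g : G) :
    S.NU p (g • x) (cj g R) (cj g U) := by
  refine ⟨cj_Z g x ▸ cj_mono g h.1, ?_, ?_⟩
  · rw [← cj_nz, ← cj_A]; exact cj_mono g h.2.1
  · rw [← cj_Cn, cj_le_iff]; exact h.2.2

theorem NT.decomp {x y : V} {R : Subgroup G} (hR : S.NT x R) (h : S.adj x y) {g : G}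
    (hg : g ∈ S.A x) : ∃ b ∈ S.B x y, ∃ r ∈ R, g = b * r :=
  TN.decomp (p := 2) (X := ⊤) ⟨hR.1, hR.2.1, hR.2.2, fun _ _ => ⟨1, by simp, trivial⟩⟩ h hg

theorem NT.le_of {x y : V} {R H : Subgroup G} (hR : S.NT x R) (h : S.adj x y) (h1 : R ≤ H)
    (h2 : S.B x y ≤ H) : S.A x ≤ H := fun g hg => by
  obtain ⟨b, hb, r, hr, rfl⟩ := hR.decomp h hg
  exact H.mul_mem (h2 hb) (h1 hr)

theorem NT.of_one {x c : V} {R : Subgroup G} (h1 : R ≤ S.A x)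
    (h2 : S.A x ≤ normalizer (R : Set G)) (h3 : ∀ y, S.adj x y → ∃ r ∈ R, r • c = y) :
    S.NT x R := by
  refine ⟨h1, h2, fun y y' hy hy' => ?_⟩
  obtain ⟨r, hr, e⟩ := h3 y hy
  obtain ⟨r', hr', e'⟩ := h3 y' hy'
  exact ⟨r' * r⁻¹, R.mul_mem hr' (R.inv_mem hr), by rw [mul_smul, ← e, inv_smul_smul, e']⟩

variable (S) in
/-- the equivariant families -/
structure Fam (p : ℕ) where
  R : V → Subgroup G
  U : V → Subgroup G
  cjR : ∀ g x, cj g (R x) = R (g • x)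
  cjU : ∀ g x, cj g (U x) = U (g • x)
  minR : ∀ x, Minimal (S.NT x) (R x)
  minU : ∀ x, Minimal (S.NU p x (R x)) (U x)
  hD : S.HD p

theorem exists_Fam (hD : S.HD p) {x y : V} (h : S.adj x y) : Nonempty (S.Fam p) := by
  have hfin : Finite (S.A x) := S.fin x
  obtain ⟨R, hR⟩ := ((finite_subgroups (S.A x)).subset (t := {R | S.NT x R})
    fun _ hN => hN.1).exists_minimal ⟨S.A x, le_rfl, le_normalizer, fun y y' hy hy' => by
      obtain ⟨g, h1, h2⟩ := S.arc hy hy'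
      exact ⟨g, h1, h2⟩⟩
  obtain ⟨U, hU⟩ := ((finite_subgroups (S.A x)).subset (t := {U | S.NU p x R U})
    fun _ hN => hN.1.trans ((Z_le_K x).trans (K_le_A x))).exists_minimal
    ⟨S.Z p x, le_rfl, A_le_nz_Z x, fun hc => by
      refine ZZ_ne hD h (lemmaN2 h (inf_le_left.trans ((Z_le_K x).trans (K_le_B h))) ?_ ?_)
      · exact NT.le_of hR.prop h (hc.trans (Cn_le_nz inf_le_left))
          fun g hg => nz_inf (A_le_nz_Z x hg.1) (A_le_nz_Z y hg.2)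
      · intro g h1 h2
        rw [cj_inf, cj_Z, cj_Z, h1, h2, inf_comm]⟩
  have tr : ∀ v, ∃ g : G, g • x = v := fun v => by
    obtain ⟨w, hw⟩ := exists_adj h v
    obtain ⟨g, h1, -⟩ := S.arc h hw
    exact ⟨g, h1⟩
  choose γ hγ using tr
  have eqv : ∀ X : Subgroup G, S.A x ≤ normalizer (X : Set G) → ∀ g v,
      cj g (cj (γ v) X) = cj (γ (g • v)) X := by
    intro X hX g v
    have h1 : (γ (g • v))⁻¹ * (g * γ v) ∈ S.A x := by
      rw [mem_A, mul_smul, mul_smul, hγ, inv_smul_eq_iff, hγ]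
    have h2 := congrArg (cj (γ (g • v))) (mem_nz.1 (hX h1))
    rwa [cj_cj, mul_inv_cancel_left, ← cj_cj] at h2
  refine ⟨⟨fun v => cj (γ v) R, fun v => cj (γ v) U, eqv R hR.prop.2.1, eqv U hU.prop.2.1,
    fun v => ?_, fun v => ?_, hD⟩⟩
  · refine minimal_cj (γ v) (fun X hX => ?_) (fun X hX => ?_) hR
    · have := NT.conj hX (γ v)
      rwa [hγ] at this
    · have := NT.conj hX (γ v)⁻¹
      rwa [inv_smul_eq_iff.2 (hγ v).symm] at this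
  · refine minimal_cj (γ v) (fun X hX => ?_) (fun X hX => ?_) hU
    · have := NU.conj hX (γ v)
      rwa [hγ] at this
    · have := NU.conj hX (γ v)⁻¹
      rwa [inv_smul_eq_iff.2 (hγ v).symm, cj_inv_cj] at this

variable (S) in
/-- the series hypothesis -/
def PS (p : ℕ) (x : V) : Prop := ∃ (m : ℕ) (s : ℕ → Subgroup G), s 0 ≤ S.K x ∧ S.NT x (s m) ∧
  (∀ i, S.A x ≤ normalizer (s i : Set G)) ∧ ∀ i < m,
    (∀ g ∈ s (i + 1), ∃ k, g ^ p ^ k ∈ s i) ∨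
    (∀ g ∈ s (i + 1), ∃ k : ℕ, k.Coprime p ∧ g ^ k ∈ s i) ∨
    ∀ g ∈ s (i + 1), ∀ h ∈ s (i + 1), g * h * g⁻¹ * h⁻¹ ∈ s i

/-- normal closure of an element in the vertex stabiliser -/
theorem ncl_spec {x : V} {t : G} (ht : t ∈ S.A x) :
    closure {k | ∃ g ∈ S.A x, k = g * t * g⁻¹} ≤ S.A x ∧
      S.A x ≤ normalizer (closure {k | ∃ g ∈ S.A x, k = g * t * g⁻¹} : Set G) := by
  refine ⟨(closure_le _).2 ?_, fun a ha => mem_nz.2 (cj_closure a _ _ fun k => ?_)⟩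
  · rintro _ ⟨g, hg, rfl⟩
    exact (S.A x).mul_mem ((S.A x).mul_mem hg ht) ((S.A x).inv_mem hg)
  · constructor
    · rintro ⟨g, hg, rfl⟩
      exact ⟨a⁻¹ * g, (S.A x).mul_mem ((S.A x).inv_mem ha) hg, by group⟩
    · rintro ⟨g, hg, h1⟩
      refine ⟨a * g, (S.A x).mul_mem ha hg, ?_⟩
      calc k = a * (a⁻¹ * k * a) * a⁻¹ := by group
        _ = _ := by rw [h1]; group

namespace Fam

variable (F : S.Fam p)

/-- the fixed points of `R` in `U` -/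
def Y (x : V) : Subgroup G := F.U x ⊓ Cn (F.R x)

theorem cjY (g : G) (x : V) : cj g (F.Y x) = F.Y (g • x) := by
  unfold Y; rw [cj_inf, cj_Cn, F.cjU, F.cjR]

theorem nt (x : V) : S.NT x (F.R x) := (F.minR x).prop

theorem U_le_Z (x : V) : F.U x ≤ S.Z p x := (F.minU x).prop.1

theorem nzU (x : V) : S.A x ≤ normalizer (F.U x : Set G) := (F.minU x).prop.2.1

theorem nzY (x : V) : S.A x ≤ normalizer (F.Y x : Set G) := fun _ hg =>
  nz_inf (F.nzU x hg) (nz_Cn ((F.nt x).2.1 hg))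

theorem Q_le_Cn (x : V) : S.Q p x ≤ Cn (F.U x) := fun _ hg =>
  mem_Cn.2 fun k hk => mem_Cn.1 (Setup.Q_le_Cn x hg) k (F.U_le_Z x hk)

theorem U_le_Q (x : V) : F.U x ≤ S.Q p x := (F.U_le_Z x).trans (Z_le_Q x)

theorem ab (x : V) : F.U x ≤ Cn (F.U x) := (F.U_le_Q x).trans (F.Q_le_Cn x)

theorem pow {x : V} {u : G} (hu : u ∈ F.U x) : u ^ p = 1 := Z_pow (F.U_le_Z x hu)

theorem U_le_A (x : V) : F.U x ≤ S.A x := ((F.U_le_Q x).trans (Q_le_K p x)).trans (K_le_A x)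

instance fin (x : V) : Finite (F.U x) := fin_of_le (F.U_le_A x)

theorem not_le (x : V) : ¬ F.U x ≤ F.Y x := fun h => (F.minU x).prop.2.2 fun r hr =>
  mem_Cn.2 fun _ hu => (mem_Cn.1 (h hu).2 r hr).symm

theorem U_min {x : V} {W : Subgroup G} (h1 : W ≤ F.U x) (h2 : S.A x ≤ normalizer (W : Set G))
    {w : G} (hw : w ∈ W) (hw' : w ∉ F.Y x) : F.U x ≤ W :=
  (F.minU x).le_of_le ⟨h1.trans (F.U_le_Z x), h2, fun h => hw' ⟨h1 hw,
    mem_Cn.2 fun _ hr => (mem_Cn.1 (h hr) w hw).symm⟩⟩ h1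

variable {x c : V}

theorem comm_tr (hc : S.adj x c) {M : Subgroup G} (h1 : M ≤ S.B x c)
    (h2 : S.B x c ≤ normalizer (M : Set G)) {t : G} (ht : t ∈ M) (htK : t ∉ S.K x) :
    F.R x ≤ ⁅F.R x, M⁆ := by
  have hR := F.nt x
  have hMA : M ≤ S.A x := h1.trans (B_le_left x c)
  have a1 : ⁅F.R x, M⁆ ≤ F.R x := comm_le_left (hMA.trans hR.2.1)
  have a2 : S.A x ≤ normalizer ((⁅F.R x, M⁆ : Subgroup G) : Set G) :=
    hR.le_of hc (normalizer_commutator_ge_left _ _) fun g hg => nz_comm (hR.2.1 hg.1) (h2 hg)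
  have a3 : S.A x ≤ normalizer ((⁅F.R x, M⁆ ⊔ M : Subgroup G) : Set G) := by
    refine hR.le_of hc (le_nz fun r hr k hk => ?_) fun g hg => nz_sup (a2 hg.1) (h2 hg)
    have : cj r (⁅F.R x, M⁆ ⊔ M) ≤ ⁅F.R x, M⁆ ⊔ M := by
      rw [cj_sup, mem_nz.1 (a2 (hR.1 hr))]
      refine sup_le le_sup_left ?_
      rintro _ ⟨m, hm, rfl⟩
      have e : (MulAut.conj r).toMonoidHom m = r * m * r⁻¹ * m⁻¹ * m := by simp
      rw [e]
      exact mul_mem (mem_sup_left (commutator_mem_commutator hr hm)) (mem_sup_right hm)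
    exact this (conj_mem_cj hk)
  refine (F.minR x).le_of_le (NT.of_one (c := c) (a1.trans hR.1) a2 fun y hy => ?_) a1
  obtain ⟨g, hg, e⟩ := S.sp x _ (sup_le (a1.trans hR.1) hMA) a3 t (mem_sup_right ht) c hc
    (h1 ht).2 (fun h0 => htK ⟨(h1 ht).1, h0⟩) c y hc hy
  have hg' : g ∈ ((⁅F.R x, M⁆ ⊔ M : Subgroup G) : Set G) := hg
  rw [Subgroup.coe_mul_of_right_le_normalizer_left _ M (hMA.trans a2)] at hg'
  obtain ⟨r, hr, m, hm, rfl⟩ := hg'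
  refine ⟨r, hr, ?_⟩
  rw [← e]
  show r • c = (r * m) • c
  rw [mul_smul, (h1 hm).2]

theorem key (hc : S.adj x c) {N : Subgroup G} (h2 : S.A x ≤ normalizer (N : Set G)) {t : G}
    (ht : t ∈ N) (htB : t ∈ S.B x c) (htK : t ∉ S.K x) : F.R x ≤ N := by
  refine (F.comm_tr hc (M := N ⊓ S.B x c) inf_le_right
    (fun g hg => nz_inf (h2 hg.1) (le_normalizer hg)) ⟨ht, htB⟩ htK).trans ?_
  rw [commutator_comm]
  exact (commutator_mono inf_le_left le_rfl).trans (comm_le_left ((F.nt x).1.trans h2))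

include F in
theorem exists_q (hc : S.adj x c) : ∃ q ∈ S.Q p c, q ∉ S.K x :=
  SetLike.not_le_iff_exists.1 (Q_not_le (S.symm hc) fun h0 => ZZ_ne F.hD hc
    (eq_bot_iff.2 ((inf_le_right.trans (Z_le_Q c)).trans h0.le)))

theorem nzCs (x : V) : S.A x ≤ normalizer (Cs (F.U x) (F.Y x) : Set G) :=
  le_nz fun _ hg _ hk => nz_Cs (F.nzU x hg) (F.nzY x hg) hk

theorem notCs (hc : S.adj x c) : ¬ F.R x ≤ Cs (F.U x) (F.Y x) := fun h => by
  obtain ⟨q, hq, hqK⟩ := F.exists_q hc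
  exact (F.minU x).prop.2.2 (comm_sec F.hD.1 (F.ab x) (fun _ => F.pow) (F.nzU x) (F.nt x).1
    ((Q_le_B hc).trans (B_le_left x c)) (F.nt x).2.1 (Q_pgroup p c)
    (F.comm_tr hc (Q_le_B hc) (fun g hg => A_le_nz_Q p c hg.2) hq hqK) h)

theorem CZs (hc : S.adj x c) {g : G} (hg : g ∈ S.B x c) (h : g ∈ Cs (F.U x) (F.Y x)) :
    g ∈ S.K x := by
  by_contra hK
  exact F.notCs hc (F.key hc (F.nzCs x) h hg hK)

theorem CZ (hc : S.adj x c) {g : G} (hg : g ∈ S.B x c) (h : g ∈ Cn (F.U x)) : g ∈ S.K x :=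
  F.CZs hc hg (Cn_le_Cs inf_le_left h)

theorem irr {T : Subgroup G} (h1 : T ≤ S.A x) (h2 : S.A x ≤ normalizer (T : Set G))
    (h3 : ∀ s ∈ T, ∃ k, s ^ p ^ k ∈ Cs (F.U x) (F.Y x)) : T ≤ Cs (F.U x) (F.Y x) := by
  obtain ⟨u, hu, huY, h4⟩ := fixed_sec F.hD.1 (F.ab x) (fun _ => F.pow) inf_le_left (F.nzU x)
    (F.nzY x) (F.not_le x) h3 h1
  let W : Subgroup G := F.U x ⊓ Cs T (F.Y x)
  have hW : ∀ u ∈ F.U x, u ∈ W ↔ ∀ s ∈ T, s * u * s⁻¹ * u⁻¹ ∈ F.Y x := by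
    intro u hu
    have e : ∀ s : G, u * s * u⁻¹ * s⁻¹ = (s * u * s⁻¹ * u⁻¹)⁻¹ := fun s => by group
    refine ⟨fun h s hs => ?_, fun h => ⟨hu, F.nzY x (F.U_le_A x hu), fun s hs => ?_⟩⟩
    · have := h.2.2 s hs
      rwa [e, inv_mem_iff] at this
    · rw [e]; exact inv_mem (h s hs)
  have h5 := F.U_min (W := W) inf_le_left (fun g hg => nz_inf (F.nzU x hg)
    (le_nz (H := S.A x) (fun g hg _ hk => nz_Cs (h2 hg) (F.nzY x hg) hk) hg)) ((hW u hu).2 h4) huY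
  exact fun s hs => ⟨F.nzY x (h1 hs), fun u hu => (hW u hu).1 (h5 hu) s hs⟩

theorem R_le_CK (hc : S.adj x c) : F.R x ≤ S.CK p x := by
  obtain ⟨q, hq, hqK⟩ := F.exists_q hc
  exact F.key hc (A_le_nz_CK x) (Q_le_CK hc hq) (Q_le_B hc hq) hqK

theorem prS (hP : S.PS p x) (hc : S.adj x c) :
    ∃ D, PrS p (F.U x) (F.Y x) (S.A x) (F.R x) D (S.Q p c) := by
  have hp := F.hD.1
  have hR := F.nt x
  have hfin : Finite (S.A x) := S.fin x
  set C := Cs (F.U x) (F.Y x) with hCd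
  have hQA : S.Q p c ≤ S.A x := (Q_le_B hc).trans (B_le_left x c)
  obtain ⟨D, hD⟩ := ((finite_subgroups (S.A x)).subset (t := {X | X ≤ F.R x ∧
    S.A x ≤ normalizer (X : Set G) ∧ ∀ r ∈ X, ∃ m : ℕ, m.Coprime p ∧ r ^ m ∈ C})
    fun _ hN => hN.1.trans hR.1).exists_maximal ⟨⊥, bot_le, le_nz (by simp), fun r hr =>
      ⟨1, by simp, by rw [mem_bot.1 hr, one_pow]; exact C.one_mem⟩⟩
  obtain ⟨d1, d2, d3⟩ := hD.prop
  have absorb : ∀ X : Subgroup G, X ≤ F.R x → S.A x ≤ normalizer (X : Set G) →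
      (∀ s ∈ X, ∃ m : ℕ, m.Coprime p ∧ (s ^ m ∈ D ∨ s ^ m ∈ C)) → X ≤ D := by
    intro X x1 x2 x3
    refine le_sup_right.trans (hD.le_of_ge ⟨sup_le d1 x1, fun g hg => nz_sup (d2 hg) (x2 hg),
      fun r hr => ?_⟩ le_sup_left)
    have hr' : r ∈ ((D ⊔ X : Subgroup G) : Set G) := hr
    rw [Subgroup.coe_mul_of_right_le_normalizer_left D X ((x1.trans hR.1).trans d2)] at hr'
    obtain ⟨d, hd, s, hs, rfl⟩ := hr'
    obtain ⟨m, hm, h1⟩ := x3 s hs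
    have h2 := pow_mul_mem hd (d2 (hR.1 (x1 hs))) m
    show ∃ m : ℕ, m.Coprime p ∧ (d * s) ^ m ∈ C
    rcases h1 with h1 | h1
    · obtain ⟨m', hm', h3⟩ := d3 _ (D.mul_mem h2 h1)
      exact ⟨m * m', Nat.Coprime.mul_left hm hm', by simpa [pow_mul] using h3⟩
    · set d' := (d * s) ^ m * (s ^ m)⁻¹ with hd'
      obtain ⟨m', hm', h3⟩ := d3 _ h2
      have h4 := F.nzCs x (hR.1 (d1 h2))
      have h5 := C.mul_mem (pow_mul_mem (nz_conj h4 h1) h4 m') h3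
      refine ⟨m * m', Nat.Coprime.mul_left hm hm', ?_⟩
      have e : d' * s ^ m * d'⁻¹ * d' = (d * s) ^ m := by rw [hd']; group
      rw [e] at h5
      simpa [pow_mul] using h5
  refine ⟨D, hp, F.fin x, F.ab x, fun _ => F.pow, inf_le_left, F.nzU x, F.nzY x, hQA, hR.1, d1, d2,
    Q_pgroup p c, d3, fun a ha haC => ?_, fun g hg => F.Q_le_Cn x (inf_le_Q (S.symm hc)
      ⟨hg.1, F.CZs hc (Q_le_B hc hg.1) hg.2⟩), fun t ht htC => ?_⟩
  swap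
  · exact F.key hc (ncl_spec (hQA ht)).2 (subset_closure ⟨1, one_mem _, by group⟩) (Q_le_B hc ht)
      fun h0 => htC (Cn_le_Cs inf_le_left (F.Q_le_Cn x (inf_le_Q (S.symm hc) ⟨ht, h0⟩)))
  by_contra hcon
  push Not at hcon
  have haK : a ∉ S.K x :=
    fun h0 => haC (Cn_le_Cs inf_le_left (F.Q_le_Cn x (inf_le_Q (S.symm hc) ⟨ha, h0⟩)))
  have nzCD : S.A x ≤ normalizer (Cs D C : Set G) :=
    le_nz fun g hg _ hk => nz_Cs (d2 hg) (F.nzCs x hg) hk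
  have haCD : a ∈ Cs D C := ⟨F.nzCs x (hQA ha), hcon⟩
  have hRCD : F.R x ≤ Cs D C := F.key hc nzCD haCD (Q_le_B hc ha) haK
  have cDR : ∀ d ∈ D, ∀ b ∈ F.R x, d * b * d⁻¹ * b⁻¹ ∈ C := fun d hd b hb => by
    have e : d * b * d⁻¹ * b⁻¹ = (b * d * b⁻¹ * d⁻¹)⁻¹ := by group
    rw [e]; exact C.inv_mem ((hRCD hb).2 d hd)
  have step : ∀ X : Subgroup G, X ≤ F.R x → S.A x ≤ normalizer (X : Set G) →
      ((∀ g ∈ X, ∃ k, g ^ p ^ k ∈ D) ∨ ∀ g ∈ X, ∀ h ∈ X, g * h * g⁻¹ * h⁻¹ ∈ D) → X ≤ D := by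
    intro X x1 x2 x3
    let T : Subgroup G :=
      { carrier := {g | g ∈ X ∧ ∃ k, g ^ p ^ k ∈ C}
        one_mem' := ⟨X.one_mem, 0, by simp⟩
        mul_mem' := by
          rintro a b ⟨ha, k, hk⟩ ⟨hb, l, hl⟩
          refine ⟨X.mul_mem ha hb, pel_sec hp (F.ab x) (fun _ => F.pow) inf_le_left (F.nzU x)
            (F.nzY x) (x1.trans hR.1) (x3.imp (fun h a ha => ?_) fun h a ha b hb c hc => ?_)
            ha hb hk hl⟩
          · exact (h a ha).imp fun k hk b hb => cDR _ hk b (x1 hb)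
          · exact cDR _ (h a ha b hb) c (x1 hc)
        inv_mem' := by
          rintro a ⟨ha, k, hk⟩
          exact ⟨X.inv_mem ha, k, by rw [inv_pow]; exact C.inv_mem hk⟩ }
    have hT : T ≤ C := F.irr (fun g hg => hR.1 (x1 hg.1)) (le_nz fun g hg s hs => by
      obtain ⟨k, hk⟩ := hs.2
      exact ⟨nz_conj (x2 hg) hs.1, k, by rw [conj_pow]; exact nz_conj (F.nzCs x hg) hk⟩)
      fun s hs => hs.2
    refine absorb X x1 x2 fun s hs => ?_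
    have hfo : IsOfFinOrder s :=
      (S.A x).subtype.isOfFinOrder (isOfFinOrder_of_finite (⟨s, hR.1 (x1 hs)⟩ : S.A x))
    obtain ⟨k, m, hm, hkm⟩ := Nat.exists_eq_pow_mul_and_not_dvd hfo.orderOf_pos.ne' p hp.ne_one
    refine ⟨m, ((Nat.Prime.coprime_iff_not_dvd hp).2 hm).symm, Or.inr (hT ⟨X.pow_mem hs m, k, ?_⟩)⟩
    rw [← pow_mul, mul_comm, ← hkm, pow_orderOf_eq_one]
    exact C.one_mem
  obtain ⟨m, s, s0, sm, sn, sk⟩ := hP
  have nzs : ∀ i, S.A x ≤ normalizer ((s i ⊓ F.R x : Subgroup G) : Set G) :=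
    fun i g hg => nz_inf (sn i hg) (hR.2.1 hg)
  have ser : ∀ i ≤ m, s i ⊓ F.R x ≤ D := by
    intro i
    induction i with
    | zero =>
      refine fun _ => absorb _ inf_le_right (nzs 0) fun g hg => ?_
      obtain ⟨k, hk, h1⟩ := CK_pow hp (s0 hg.1) (F.R_le_CK hc hg.2)
      exact ⟨k, hk, Or.inr (Cn_le_Cs inf_le_left (F.Q_le_Cn x h1))⟩
    | succ i ih =>
      intro hi
      have ih' := ih (by omega)
      rcases sk i (by omega) with h | h | h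
      · exact step _ inf_le_right (nzs _) (Or.inl fun g hg =>
          (h g hg.1).imp fun k hk => ih' ⟨hk, pow_mem hg.2 _⟩)
      · exact absorb _ inf_le_right (nzs _) fun g hg =>
          (h g hg.1).imp fun k hk => ⟨hk.1, Or.inl (ih' ⟨hk.2, pow_mem hg.2 _⟩)⟩
      · exact step _ inf_le_right (nzs _) (Or.inr fun g hg k hk => ih' ⟨h g hg.1 k hk.1,
          (F.R x).mul_mem ((F.R x).mul_mem ((F.R x).mul_mem hg.2 hk.2) ((F.R x).inv_mem hg.2))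
            ((F.R x).inv_mem hk.2)⟩)
  have hRs : F.R x ≤ s m ⊔ S.Q p c := F.key hc
    (sm.le_of hc (le_sup_left.trans le_normalizer) fun g hg =>
      nz_sup (sn m hg.1) (A_le_nz_Q p c hg.2)) (mem_sup_right ha) (Q_le_B hc ha) haK
  have hRD : F.R x ≤ D := by
    refine step _ le_rfl hR.2.1 (Or.inl fun g hg => ?_)
    have hg' : g ∈ ((s m ⊔ S.Q p c : Subgroup G) : Set G) := hRs hg
    rw [Subgroup.coe_mul_of_right_le_normalizer_left _ _ (hQA.trans (sn m))] at hg'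
    obtain ⟨d, hd, q, hq, rfl⟩ := hg'
    obtain ⟨k, hk⟩ := pg_pow (Q_pgroup p c) hq
    have h1 := pow_mul_mem hd (sn m (hQA hq)) (p ^ k)
    rw [hk, inv_one, mul_one] at h1
    exact ⟨k, ser m le_rfl ⟨h1, pow_mem hg _⟩⟩
  refine F.notCs hc ((F.comm_tr hc (M := S.Q p c ⊓ Cs D C) (inf_le_left.trans (Q_le_B hc))
    (fun g hg => nz_inf (A_le_nz_Q p c hg.2) (nzCD hg.1)) ⟨ha, haCD⟩ haK).trans ?_)
  rw [commutator_le]
  intro r hr q hq
  have e : ⁅r, q⁆ = (q * r * q⁻¹ * r⁻¹)⁻¹ := by rw [commutatorElement_def]; group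
  rw [e]
  exact C.inv_mem (hq.2.2 r (hRD hr))

end Fam

end Setup

end Pool.Agent.Lib.MP_607584_al
end

-- part Pool.Agent.Lib.MP_607584_al.Final2
section

/-! Translation of the two local hypotheses. -/

namespace Pool.Agent.Lib.MP_607584_al

open Subgroup

variable {V : Type} {T : SimpleGraph V} {d : ℕ}

/-- the preimage of a permutation group on the neighbours -/
def pre {v : V} (e : T.neighborSet v ≃ Fin d) (H : Subgroup (T ≃g T))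
    (R : Subgroup (Equiv.Perm (Fin d))) : Subgroup H where
  carrier := {g | ∃ σ ∈ R, Loc v e (g : T ≃g T) σ}
  one_mem' := ⟨1, R.one_mem, Loc.one⟩
  mul_mem' := by
    rintro a b ⟨g, hg, h1⟩ ⟨h, hh, h2⟩
    exact ⟨g * h, R.mul_mem hg hh, h1.mul h2⟩
  inv_mem' := by
    rintro a ⟨g, hg, h1⟩
    exact ⟨g⁻¹, R.inv_mem hg, h1.inv⟩

theorem good_of2 (F : Subgroup (Equiv.Perm (Fin d))) (hF1 : ∀ a b : Fin d, ∃ f ∈ F, f a = b)
    (hF2 : ∀ N : Subgroup (Equiv.Perm (Fin d)), N ≤ F →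
      (∀ n ∈ N, ∀ f ∈ F, f * n * f⁻¹ ∈ N) →
      ((∀ a b : Fin d, ∃ n ∈ N, n a = b) ∨ (∀ n ∈ N, ∀ a : Fin d, n a = a → n = 1)))
    (hF3 : ∀ p : ℕ, p.Prime → (∀ (a : Fin d) (N : Subgroup (Equiv.Perm (Fin d))),
      (∀ n ∈ N, n ∈ F ∧ n a = a) → (∀ n ∈ N, ∀ f ∈ F, f a = a → f * n * f⁻¹ ∈ N) →
      IsPGroup p N → ∀ g ∈ N, ∀ h ∈ N, orderOf g = p → orderOf h = p → h ∈ Subgroup.zpowers g) ∨
      ∃ R : Subgroup (Equiv.Perm (Fin d)), R ≤ F ∧ (∀ r ∈ R, ∀ f ∈ F, f * r * f⁻¹ ∈ R) ∧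
        (∀ a b : Fin d, ∃ r ∈ R, r a = b) ∧ ¬ p ∣ Nat.card R)
    (hT : T.Connected) (H : Subgroup (T ≃g T))
    (h1 : ∀ v : V, Set.Finite {g : T ≃g T | g ∈ H ∧ g v = v})
    (h2 : ∀ u v : V, ∃ g ∈ H, g u = v)
    (h3 : ∀ v : V, ∃ e : T.neighborSet v ≃ Fin d, ∀ σ : Equiv.Perm (Fin d),
      σ ∈ F ↔ ∃ g ∈ H, Loc v e g σ) (x : V) :
    Good (2 * Fintype.card (Equiv.Perm (Fin d)) + 5) x H := by
  let _inst := act H
  have hs : ∀ (g : H) (v : V), g • v = (g : T ≃g T) v := fun _ _ => rfl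
  let S : Setup H V :=
    { adj := T.Adj
      symm := fun h => h.symm
      inv := fun g _ _ h => (g : T ≃g T).map_adj_iff.2 h
      conn := fun x y => (hT x y).elim fun w => ⟨_, wk_of_walk w⟩
      faithful := fun g hg => Subtype.ext (RelIso.ext hg)
      fin := fun x => by
        have := (h1 x).to_subtype
        exact Finite.of_injective (fun g : MulAction.stabilizer H x =>
          (⟨g.1.1, g.1.2, g.2⟩ : {g : T ≃g T | g ∈ H ∧ g x = x}))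
          fun a b hab => Subtype.ext (Subtype.ext (by simpa using hab))
      arc := fun {x y x' y'} ha hb => by
        obtain ⟨g, hg, rfl⟩ := h2 x x'
        obtain ⟨e, he⟩ := h3 (g x)
        obtain ⟨f, hf, hf'⟩ := hF1 (e ⟨g y, g.map_adj_iff.2 ha⟩) (e ⟨y', hb⟩)
        obtain ⟨k, hk, hl⟩ := (he f).1 hf
        exact ⟨⟨k * g, H.mul_mem hk hg⟩, hl.1,
          (hl.apply_iff ⟨g y, g.map_adj_iff.2 ha⟩ ⟨y', hb⟩).1 hf'⟩
      sp := fun x N hN hn g hg c hc hgc hK y y' hy hy' => by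
        obtain ⟨e, he⟩ := h3 x
        have a1 : img e N ≤ F := by
          rintro σ ⟨k, -, hl⟩
          exact (he σ).2 ⟨k, k.2, hl⟩
        have a2 : ∀ n ∈ img e N, ∀ f ∈ F, f * n * f⁻¹ ∈ img e N := by
          rintro σ ⟨k, hk, hl⟩ f hf
          obtain ⟨a, ha, hl'⟩ := (he f).1 hf
          have a3 : (⟨a, ha⟩ : H) ∈ MulAction.stabilizer H x := hl'.1
          exact ⟨⟨a, ha⟩ * k * ⟨a, ha⟩⁻¹, nz_conj (hn a3) hk, (hl'.mul hl).mul hl'.inv⟩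
        rcases hF2 (img e N) a1 a2 with h | h
        · obtain ⟨σ, ⟨k, hk, hl⟩, hσ⟩ := h (e ⟨y, hy⟩) (e ⟨y', hy'⟩)
          exact ⟨k, hk, (hl.apply_iff ⟨y, hy⟩ ⟨y', hy'⟩).1 hσ⟩
        · have a4 : (g : T ≃g T) x = x := hN hg
          obtain ⟨σ, hl⟩ := exists_Loc e a4
          exact absurd (hl.eq_one_iff.1 (h σ ⟨g, hg, hl⟩ (e ⟨c, hc⟩)
            ((hl.apply_iff ⟨c, hc⟩ ⟨c, hc⟩).2 hgc))) hK }
  have hB : ∀ (x c : V) (g : H), g ∈ S.B x c ↔ (g : T ≃g T) x = x ∧ (g : T ≃g T) c = c :=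
    fun _ _ _ => Iff.rfl
  have hK : ∀ (x : V) (g : H), g ∈ S.K x ↔
      (g : T ≃g T) x = x ∧ ∀ y, T.Adj x y → (g : T ≃g T) y = y := fun _ _ => Iff.rfl
  have hr : ∀ p : ℕ, p.Prime → S.R1 p ∨ ∀ x, ∃ R, S.TN p x R (S.K x) := by
    intro p hp
    refine (hF3 p hp).imp (fun hF3 => ?_) ?_
    swap
    · rintro ⟨R, r1, r2, r3, r4⟩ x
      obtain ⟨e, he⟩ := h3 x
      refine ⟨pre e H R, ?_, le_nz ?_, fun y y' hy hy' => ?_, ?_⟩
      · rintro g ⟨σ, -, hl⟩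
        exact hl.1
      · rintro a ha g ⟨σ, hσ, hl⟩
        obtain ⟨τ, hτ⟩ := exists_Loc e (show (a : T ≃g T) x = x from ha)
        exact ⟨_, r2 σ hσ τ ((he τ).2 ⟨a, a.2, hτ⟩), (hτ.mul hl).mul hτ.inv⟩
      · obtain ⟨σ, hσ, h4⟩ := r3 (e ⟨y, hy⟩) (e ⟨y', hy'⟩)
        obtain ⟨g, hg, hl⟩ := (he σ).1 (r1 hσ)
        exact ⟨⟨g, hg⟩, ⟨σ, hσ, hl⟩, (hl.apply_iff ⟨y, hy⟩ ⟨y', hy'⟩).1 h4⟩
      · rintro g ⟨σ, hσ, hl⟩
        refine ⟨Nat.card R, ((Nat.Prime.coprime_iff_not_dvd hp).2 r4).symm, (hK _ _).2 ?_⟩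
        have h4 : σ ^ Nat.card R = 1 :=
          congrArg Subtype.val (pow_card_eq_one' (x := (⟨σ, hσ⟩ : R)))
        exact ⟨(hl.pow _).1, (hl.pow _).eq_one_iff.1 h4⟩
    intro x c hc0 N hN hn hP g hg h hh hgp hhp hgK
    have hc : T.Adj x c := hc0
    have := Fact.mk hp
    rw [hK] at hgp hhp hgK
    obtain ⟨e, he⟩ := h3 x
    obtain ⟨σ, hσ⟩ := exists_Loc e ((hB _ _ _).1 (hN hg)).1
    obtain ⟨τ, hτ⟩ := exists_Loc e ((hB _ _ _).1 (hN hh)).1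
    by_cases hτ1 : τ = 1
    · refine ⟨0, ?_⟩
      rw [hK, zpow_zero, inv_one, one_mul]
      exact ⟨hτ.1, hτ.eq_one_iff.1 hτ1⟩
    have hσ1 : σ ≠ 1 := fun h0 => hgK ⟨hσ.1, hσ.eq_one_iff.1 h0⟩
    have b1 : ∀ n ∈ img e N, n ∈ F ∧ n (e ⟨c, hc⟩) = e ⟨c, hc⟩ := by
      rintro σ ⟨k, hk, hl⟩
      exact ⟨(he σ).2 ⟨k, k.2, hl⟩,
        (hl.apply_iff ⟨c, hc⟩ ⟨c, hc⟩).2 ((hB _ _ _).1 (hN hk)).2⟩
    have b2 : ∀ n ∈ img e N, ∀ f ∈ F, f (e ⟨c, hc⟩) = e ⟨c, hc⟩ → f * n * f⁻¹ ∈ img e N := by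
      rintro σ ⟨k, hk, hl⟩ f hf hfa
      obtain ⟨a, ha, hl'⟩ := (he f).1 hf
      have a3 : (⟨a, ha⟩ : H) ∈ S.B x c :=
        (hB _ _ _).2 ⟨hl'.1, (hl'.apply_iff ⟨c, hc⟩ ⟨c, hc⟩).1 hfa⟩
      exact ⟨⟨a, ha⟩ * k * ⟨a, ha⟩⁻¹, nz_conj (hn a3) hk, (hl'.mul hl).mul hl'.inv⟩
    have b3 : IsPGroup p (img e N) := by
      rintro ⟨σ, k, hk, hl⟩
      obtain ⟨n, hn⟩ := hP ⟨k, hk⟩
      have hn' : (k : T ≃g T) ^ p ^ n = 1 := by
        simpa using congrArg (fun z : N => ((z : H) : T ≃g T)) hn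
      refine ⟨n, Subtype.ext ?_⟩
      have := (hl.pow (p ^ n)).eq_one_iff.2 (fun y _ => by rw [hn']; rfl)
      simpa using this
    have b4 : σ ^ p = 1 := (hσ.pow p).eq_one_iff.2 (by simpa using hgp.2)
    have b5 : τ ^ p = 1 := (hτ.pow p).eq_one_iff.2 (by simpa using hhp.2)
    have hmem := hF3 (e ⟨c, hc⟩) (img e N) b1 b2 b3 σ ⟨g, hg, hσ⟩ τ ⟨h, hh, hτ⟩
      (orderOf_eq_prime b4 hσ1) (orderOf_eq_prime b5 hτ1)
    obtain ⟨i, hi⟩ := Subgroup.mem_zpowers_iff.1 hmem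
    have hl := (hσ.zpow i).inv.mul hτ
    refine ⟨i, (hK _ _).2 ?_⟩
    have hc1 : (((g ^ i)⁻¹ * h : H) : T ≃g T) = ((g : T ≃g T) ^ i)⁻¹ * h := by simp
    rw [hc1]
    exact ⟨hl.1, hl.eq_one_iff.1 (by rw [hi, inv_mul_cancel])⟩
  have hf : ∀ x, ∃ f : H → Equiv.Perm (Fin d),
      ∀ a ∈ S.A x, ∀ b ∈ S.A x, f a = f b → a⁻¹ * b ∈ S.K x := by
    intro x
    obtain ⟨e, -⟩ := h3 x
    have h4 : ∀ a : H, ∃ σ, a ∈ S.A x → Loc x e (a : T ≃g T) σ := fun a => by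
      by_cases ha : a ∈ S.A x
      · exact (exists_Loc e (show (a : T ≃g T) x = x from ha)).imp fun σ h _ => h
      · exact ⟨1, fun h => absurd h ha⟩
    choose f hf using h4
    refine ⟨f, fun a ha b hb hab => (hK _ _).2 ?_⟩
    have hl := (hf a ha).inv.mul (hf b hb)
    exact ⟨hl.1, hl.eq_one_iff.1 (by rw [hab, inv_mul_cancel])⟩
  refine ⟨fun g hg hfix => ?_, h2 x⟩
  have : (⟨g, hg⟩ : H) ∈ S.Ball (2 * Fintype.card (Equiv.Perm (Fin d)) + 5) x :=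
    fun m hm v w => hfix v ⟨m, hm, w⟩
  rw [Setup.ball_bot' hr hf x, Subgroup.mem_bot] at this
  exact congrArg Subtype.val this

end Pool.Agent.Lib.MP_607584_al
end
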