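import Pool.Agent.Lib.MP_607584_al.Blk
import Pool.Agent.Lib.MP_607584_al.Final2

-- part Pool.Agent.Lib.MP_607584_al.Color2
section

/-! The amalgam method when the local action has a transitive normal `p`-soluble subgroup. -/

namespace Pool.Agent.Lib.MP_607584_al

open Subgroup

namespace Setup

variable {G V : Type*} [Group G] [MulAction G V] {S : Setup G V} {p n : ℕ}

namespace Fam

variable (F : S.Fam p)

/-- `n + 1` is the critical distance -/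
structure Cr (n : ℕ) : Prop where
  ps : ∀ x, S.PS p x
  ex : ∃ u v, Wk S.adj (n + 1) u v ∧ ¬ F.U u ≤ S.K v
  lt : ∀ m ≤ n, ∀ u v, Wk S.adj m u v → F.U u ≤ S.K v

theorem U_le_K (x : V) : F.U x ≤ S.K x := (F.U_le_Q x).trans (Q_le_K p x)

theorem U_ne (x : V) : F.U x ≠ ⊥ := fun h => F.not_le x (h ▸ bot_le)

theorem exists_Cr (ps : ∀ x, S.PS p x) (x : V) : ∃ n, F.Cr n := by
  classical
  have hex : ∃ n u v, Wk S.adj n u v ∧ ¬ F.U u ≤ S.K v := by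
    by_contra hcon
    push Not at hcon
    refine F.U_ne x (eq_bot_iff.2 fun g hg => ?_)
    rw [Subgroup.mem_bot]
    refine S.faithful g fun v => ?_
    obtain ⟨n, w⟩ := S.conn x v
    exact (hcon n x v w hg).1
  have h0 : Nat.find hex ≠ 0 := by
    intro h0
    obtain ⟨u, v, w, h1⟩ := Nat.find_spec hex
    rw [h0] at w
    exact h1 (w.eq_of_zero ▸ F.U_le_K u)
  obtain ⟨n, hn⟩ := Nat.exists_eq_succ_of_ne_zero h0
  refine ⟨n, ps, ?_, fun m hm u v w => ?_⟩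
  · have := Nat.find_spec hex
    rwa [hn] at this
  · by_contra h1
    exact Nat.find_min hex (by omega : m < Nat.find hex) ⟨u, v, w, h1⟩

theorem B_le_nz_UU (x y : V) :
    S.B x y ≤ normalizer ((F.U x ⊔ F.U y : Subgroup G) : Set G) :=
  fun _ hg => nz_sup (F.nzU x hg.1) (F.nzU y hg.2)

theorem not_nz_UU {x y : V} (h : S.adj x y) :
    ¬ S.A x ≤ normalizer ((F.U x ⊔ F.U y : Subgroup G) : Set G) := by
  intro hA
  have := lemmaN2 h (sup_le ((F.U_le_K x).trans (K_le_B h)) ((F.U_le_K y).trans (K_le_B' h))) hA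
    (fun g h1 h2 => by rw [cj_sup, F.cjU, F.cjU, h1, h2, sup_comm])
  exact F.U_ne x (eq_bot_iff.2 (le_sup_left.trans this.le))

theorem QU_comm {x : V} {q z : G} (hq : q ∈ S.Q p x) (hz : z ∈ F.U x) : Commute q z :=
  (mem_Cn.1 (F.Q_le_Cn x hq) z hz).symm

variable {F}

theorem Cr.UQ (hc : F.Cr n) : ∀ m ≤ n, ∀ {u v}, Wk S.adj m u v → F.U u ≤ S.Q p v := by
  intro m
  induction m with
  | zero => intro _ u v w; rw [w.eq_of_zero]; exact F.U_le_Q v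
  | succ m ih =>
    intro hm u v w
    obtain ⟨y, w', hy⟩ := w.last
    exact (le_inf (ih (by omega) w') (hc.lt _ hm u v w)).trans (inf_le_Q hy)

theorem Cr.dir (hc : F.Cr n) {x c : V} (h : S.adj x c) :
    ∃ x', Wk S.adj n c x' ∧ ¬ F.U x' ≤ S.K x := by
  obtain ⟨u, v, w, h1⟩ := hc.ex
  obtain ⟨c', h2, w'⟩ := wk_first (wk_symm w)
  obtain ⟨g, h3, h4⟩ := S.arc h2 h
  refine ⟨g • u, h4 ▸ wk_smul g w', ?_⟩
  rw [← h3, ← F.cjU, ← cj_K, cj_le_iff]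
  exact h1

theorem Cr.ball (hc : F.Cr n) {x y : V} (h : S.adj x y) : S.Ball (n + 4) x = ⊥ := by
  have key : ∀ u v, S.adj u v → (∀ x', Wk S.adj (n + 1) u x' → ∃ m ≤ n + 2, Wk S.adj m x x') →
      ∀ v', S.adj u v' → ∃ g ∈ normalizer (S.Ball (n + 4) x : Set G), g • u = u ∧ g • v = v' := by
    intro u v huv hw v' hv'
    obtain ⟨x', w, h1⟩ := hc.dir huv
    obtain ⟨t, ht, htK⟩ := SetLike.not_le_iff_exists.1 h1
    have htB := Q_le_B huv (hc.UQ n le_rfl (wk_symm w) ht)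
    obtain ⟨a1, a2⟩ := ncl_spec htB.1
    obtain ⟨g, hg, hgv⟩ := S.sp u _ a1 a2 t (subset_closure ⟨1, one_mem _, by group⟩) v huv htB.2
      (fun h0 => htK ⟨htB.1, h0⟩) v v' huv hv'
    refine ⟨g, (closure_le _).2 ?_ hg, a1 hg, hgv⟩
    rintro _ ⟨a, ha, rfl⟩
    have w2 := wk_smul a (Wk.cons huv w)
    rw [mem_A.1 ha] at w2
    obtain ⟨m, hm, w'⟩ := hw _ w2
    obtain ⟨z, hz⟩ := exists_adj h (a • x')
    refine nz_of_comm fun k hk => ?_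
    exact mem_Cn.1 (F.Q_le_Cn _ (D_le_Q F.hD hz (Ball_le_D w' hz (by omega) hk))) _
      (F.cjU a x' ▸ conj_mem_cj ht)
  refine lemmaN h (fun g hg => ⟨hg 0 (by omega) x (Wk.zero x), hg 1 (by omega) y (Wk.one h)⟩)
    (key x y h fun x' w => ⟨n + 1, by omega, w⟩)
    (key y x (S.symm h) fun x' w => ⟨n + 2, le_rfl, Wk.cons h w⟩)

variable {x c x' y' y : V} {t w : G} {M : Subgroup G}

theorem Cr.ineq (hc : F.Cr n) (h : S.adj x c) {X : Subgroup G} (h1 : X ≤ S.Q p c) (h2 : X ≤ Cn X)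
    (h3 : ∀ a ∈ X, a ^ p = 1) : (Cn (F.U x)).relIndex X ≤ (Cn X).relIndex (F.U x) := by
  obtain ⟨D, H⟩ := F.prS (hc.ps x) h
  exact H.ineq h1 h2 h3

theorem Cr.exU (hc : F.Cr n) (h : S.Wp n x c x' y') : Ex p (F.U x) (S.Q p c) (F.U x') :=
  ⟨hc.UQ n le_rfl (wk_symm h.w1), F.ab x', fun _ => F.pow,
    hc.ineq (S.symm h.a2) (hc.UQ n le_rfl h.w2) (F.ab x) fun _ => F.pow⟩

theorem Cr.UA (hc : F.Cr n) (h : S.Wp n x c x' y') : F.U x' ≤ S.B x c :=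
  (hc.exU h).le.trans (Q_le_B h.a1)

theorem Cr.capQ (hc : F.Cr n) (h : S.Wp n x c x' y') : F.U x' ⊓ Cn (F.U x) ≤ S.Q p x :=
  fun _ hg => inf_le_Q (S.symm h.a1) ⟨(hc.exU h).le hg.1, F.CZ h.a1 (hc.UA h hg.1) hg.2⟩

theorem Cr.blk (hc : F.Cr n) (h : S.adj x c) :
    ∃ D, Blk p (F.U x) (F.Y x) (S.A x) (F.R x) D (S.Q p c) (S.B x c) := by
  obtain ⟨D, H⟩ := F.prS (hc.ps x) h
  obtain ⟨x', w, h1⟩ := hc.dir h
  obtain ⟨y', hw⟩ := exists_Wp h w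
  exact ⟨D, H, S.fin x, B_le_left x c, fun g hg => A_le_nz_Q p c hg.2, (F.nt x).2.1,
    fun g hg => (F.nt x).decomp h hg, fun W h1 h2 w h3 h4 => F.U_min h1 h2 h3 h4, inf_le_right,
    F.U x', hc.exU hw, fun h2 => h1 fun g hg => F.CZ h (hc.UA hw hg) (h2 hg)⟩

theorem Cn_sup (X Z : Subgroup G) : Cn (X ⊔ Z) = Cn X ⊓ Cn Z := by
  refine le_antisymm (le_inf (fun g hg => mem_Cn.2 fun k hk => mem_Cn.1 hg k (mem_sup_left hk))
    (fun g hg => mem_Cn.2 fun k hk => mem_Cn.1 hg k (mem_sup_right hk)))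
    fun g hg => mem_Cn.2 fun k hk => ?_
  have : X ⊔ Z ≤ centralizer {g} := sup_le
    (fun k hk => mem_centralizer_singleton_iff.2 (mem_Cn.1 hg.1 k hk))
    fun k hk => mem_centralizer_singleton_iff.2 (mem_Cn.1 hg.2 k hk)
  exact mem_centralizer_singleton_iff.1 (this hk)

theorem le_Cn_comm {X Z : Subgroup G} (h : X ≤ Cn Z) : Z ≤ Cn X :=
  fun z hz => mem_Cn.2 fun _ hk => (mem_Cn.1 (h hk) z hz).symm

theorem sup_pow {X Z : Subgroup G} (h : X ≤ Cn Z) (h1 : ∀ a ∈ X, a ^ p = 1)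
    (h2 : ∀ a ∈ Z, a ^ p = 1) : ∀ a ∈ X ⊔ Z, a ^ p = 1 := by
  intro a ha
  have ha' : a ∈ ((X ⊔ Z : Subgroup G) : Set G) := ha
  rw [Subgroup.coe_mul_of_left_le_normalizer_right X Z (h.trans (Cn_le_nz le_rfl))] at ha'
  obtain ⟨u, hu, v, hv, rfl⟩ := ha'
  have : Commute u v := (mem_Cn.1 (h hu) v hv).symm
  show (u * v) ^ p = 1
  rw [this.mul_pow, h1 u hu, h2 v hv, one_mul]

theorem Cr.half (hc : F.Cr n) (hn : 1 ≤ n) {y2 : V} (h : S.Wp n x c x' y')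
    (h' : S.Wp n y x y' y2) :
    (F.U x ⊔ (F.U y ⊓ Cn (F.U y')) ≤ S.Q p y' ∧
      F.U x ⊔ (F.U y ⊓ Cn (F.U y')) ≤ Cn (F.U x ⊔ (F.U y ⊓ Cn (F.U y'))) ∧
      ∀ a ∈ F.U x ⊔ (F.U y ⊓ Cn (F.U y')), a ^ p = 1) ∧
    (Cn (F.U x' ⊓ Cn (F.U x))).relIndex (F.U y ⊓ Cn (F.U y')) * (Cn (F.U x')).relIndex (F.U x) ≤
      (Cn (F.U x')).relIndex (F.U x ⊔ (F.U y ⊓ Cn (F.U y'))) ∧
    (Cn (F.U x ⊔ (F.U y ⊓ Cn (F.U y')))).relIndex (F.U x') =
      (Cn (F.U y ⊓ Cn (F.U y'))).relIndex (F.U x' ⊓ Cn (F.U x)) *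
        (Cn (F.U x)).relIndex (F.U x') := by
  have c1 : F.U x ≤ Cn (F.U y ⊓ Cn (F.U y')) := le_Cn_comm (inf_le_left.trans
    ((hc.UQ 1 hn (Wk.one h'.a1)).trans (F.Q_le_Cn x)))
  have c2 : F.U y ⊓ Cn (F.U y') ≤ Cn (F.U y ⊓ Cn (F.U y')) :=
    le_Cn_comm (inf_le_left.trans (le_Cn_comm (inf_le_left.trans (F.ab y))))
  have hQ : F.U x ⊔ (F.U y ⊓ Cn (F.U y')) ≤ S.Q p y' :=
    sup_le (hc.UQ n le_rfl h.w2) (hc.capQ h'.symm)
  have hfin : Finite (F.U x ⊔ (F.U y ⊓ Cn (F.U y')) : Subgroup G) :=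
    fin_of_le ((hQ.trans (Q_le_K p y')).trans (K_le_A y'))
  refine ⟨⟨hQ, ?_, sup_pow c1 (fun _ => F.pow) fun a ha => F.pow ha.1⟩,
    idx_le le_sup_left le_sup_right (centralizer_le inf_le_left) (le_Cn_comm inf_le_right), ?_⟩
  · rw [Cn_sup]
    exact sup_le (le_inf (F.ab x) c1) (le_inf (le_Cn_comm c1) c2)
  · rw [Cn_sup, inf_comm (Cn (F.U x)), ← relIndex_inf_mul_relIndex, inf_comm (Cn (F.U x))]

theorem Cr.exB (hc : F.Cr n) (hn : 1 ≤ n) (h : S.Wp n x c x' y') (hy : S.adj x y) :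
    Ex p (F.U x') (S.Q p y') (F.U x ⊔ (F.U y ⊓ Cn (F.U y'))) := by
  obtain ⟨y2, h'⟩ := exists_Wp (S.symm hy) h.w2
  obtain ⟨⟨a1, a2, a3⟩, a4, a5⟩ := hc.half hn h h'
  obtain ⟨⟨b1, b2, b3⟩, b4, b5⟩ := hc.half hn h'.symm h.symm
  refine ⟨a1, a2, a3, le_trans ?_ a4⟩
  rw [a5]
  have k1 := (b4.trans (hc.ineq (S.symm hy) b1 b2 b3)).trans b5.le
  have k2 : (Cn (F.U y')).relIndex (F.U y) ≤ (Cn (F.U y)).relIndex (F.U y') := (hc.exU h').eq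
  have k3 : 0 < (Cn (F.U y)).relIndex (F.U y') := Nat.pos_of_ne_zero index_ne_zero_of_finite
  exact Nat.mul_le_mul (Nat.le_of_mul_le_mul_right (k1.trans (Nat.mul_le_mul_left _ k2)) k3)
    (hc.exU h.symm).eq

variable (F) in
/-- the colours at an arc -/
def Lm (y x : V) (M : Subgroup G) : Prop :=
  ∃ a ∈ S.Q p x, (∃ w, TrS (F.U y) (F.Y y) a w) ∧ M = Mc (F.U y) (F.Y y) (F.R y) (S.Q p x) a

theorem Lm.conj (h : F.Lm y x M) (g : G) : F.Lm (g • y) (g • x) (cj g M) := by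
  obtain ⟨a, h1, ⟨w, h2⟩, rfl⟩ := h
  have h3 := h2.conj g
  rw [F.cjU, F.cjY] at h3
  exact ⟨g * a * g⁻¹, cj_Q p g x ▸ conj_mem_cj h1, ⟨_, h3⟩, by
    rw [cj_Mc, F.cjU, F.cjY, F.cjR, cj_Q]⟩

variable (F) in
/-- good configurations -/
structure Gd (n : ℕ) (x c x' y' : V) (t w : G) : Prop where
  wp : S.Wp n x c x' y'
  ht : t ∈ F.U x'
  tr : TrS (F.U x) (F.Y x) t w
  hw : ∃ z ∈ F.U x, w = t * z * t⁻¹ * z⁻¹
  cm : ∀ y, S.adj x y → ∀ u ∈ F.U y ⊓ Cn (F.U y'), u * t * u⁻¹ * t⁻¹ ∈ F.U x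

theorem Cr.exists_Gd (hc : F.Cr n) (hn : 1 ≤ n) (h : S.Wp n x c x' y')
    (hZ : ¬ F.U x ≤ S.K x') : ∃ t w, F.Gd n x c x' y' t w := by
  obtain ⟨D, H⟩ := hc.blk h.a1
  obtain ⟨D', H'⟩ := hc.blk (S.symm h.a2)
  have e1 := hc.exU h
  have e2 := hc.exU h.symm
  have n2 : ¬ F.U x ≤ Cn (F.U x') := fun h2 =>
    hZ fun g hg => F.CZ (S.symm h.a2) (hc.UA h.symm hg) (h2 hg)
  obtain ⟨t0, ht0, w0, h0⟩ := H.exists_tv e1 fun h2 => n2 (le_Cn_comm h2)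
  obtain ⟨s0, hs0, v0, k0⟩ := H'.exists_tv e2 n2
  let T : Subgroup G := closure {k | ∃ s ∈ F.U x, ∃ v, TrS (F.U x') (F.Y x') s v ∧
    ∃ r ∈ F.R x', k = r * v * r⁻¹}
  have hT : T ≤ F.U x' := (closure_le _).2 (by
    rintro _ ⟨s, -, v, k1, r, hr, rfl⟩
    exact nz_conj (H'.hU (H'.hRA hr)) k1.mem)
  have hU : F.U x' ≤ T ⊔ (F.U x' ⊓ Cn (F.U x)) := by
    refine H'.gen_w k0.mem k0.ne fun b hb r hr => ?_
    have k1 := H'.trB k0 (H'.hBA hb)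
    by_cases hm : Md (F.U x') (F.U x) (b * s0 * b⁻¹)
    · obtain ⟨ξ, hξ, k2⟩ := hm
      exact mem_sup_left (subset_closure ⟨ξ, hξ, _, k1.congr k2, r, hr, rfl⟩)
    · exact mem_sup_right ⟨nz_conj (H'.hU (H'.hRA hr)) k1.mem,
        H'.fwd0 e2 k1 (nz_conj (H'.hBP hb) (e2.le hs0)) hm hr⟩
  have h1 : t0 ∈ ((T ⊔ (F.U x' ⊓ Cn (F.U x)) : Subgroup G) : Set G) := hU ht0
  rw [Subgroup.coe_mul_of_left_le_normalizer_right T _
    ((hT.trans (F.ab x')).trans (Cn_le_nz inf_le_left))] at h1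
  obtain ⟨t, ht, ξ, hξ, rfl⟩ := h1
  have h2 : TrS (F.U x) (F.Y x) t w0 := h0.congr (by simpa using hξ.2)
  obtain ⟨z, hz, h3⟩ := h2.ex
  have htA : t ∈ S.A x := (hc.UA h (hT ht)).1
  refine ⟨t, _, h, hT ht, H.recentre h2 (h2.app z hz) h3, ⟨z, hz, rfl⟩, fun y hy u hu => ?_⟩
  have e3 := hc.exB hn h hy
  have hN : F.U x ⊔ (F.U y ⊓ Cn (F.U y')) ≤ normalizer (F.U x : Set G) :=
    sup_le le_normalizer (fun g hg => F.nzU x (K_le_B' hy (F.U_le_K y hg.1)).1)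
  refine (H'.genX e3 (L := C1 t (F.U x)) ?_ ?_ (mem_sup_right hu)).2
  · rintro a ha ⟨v, k1⟩
    refine ⟨hN ha, ?_⟩
    by_cases hm : Md (F.U x') (F.U x) a
    · obtain ⟨s, hs, k2⟩ := hm
      have : s * t * s⁻¹ * t⁻¹ = s * (t * s⁻¹ * t⁻¹) := by group
      rw [comm_congr k2 (hT ht), this]
      exact mul_mem hs (nz_conj (F.nzU x htA) (inv_mem hs))
    · have : T ≤ centralizer {a} := (closure_le _).2 (by
        rintro _ ⟨s, hs, v', k2, r, hr, rfl⟩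
        rw [SetLike.mem_coe, mem_centralizer_singleton_iff]
        by_contra k3
        exact hm (H'.fwd e2 ⟨s, hs, by simp⟩ (H'.ar_symm
          ⟨e3.le ha, ⟨v, k1⟩, e2.le hs, v', k2, r, hr, fun k4 => k3 k4.eq.symm⟩)))
      rw [comm_one (mem_centralizer_singleton_iff.1 (this ht)).symm]
      exact one_mem _
  · intro g hg
    refine ⟨hN hg.1, ?_⟩
    rw [comm_one (mem_Cn.1 hg.2 t (hT ht)).symm]
    exact one_mem _

theorem Gd.tQ (hc : F.Cr n) (h : F.Gd n x c x' y' t w) : t ∈ S.Q p c := (hc.exU h.wp).le h.ht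

theorem Gd.tK (hc : F.Cr n) (h : F.Gd n x c x' y' t w) : t ∉ S.K x := fun h0 => by
  obtain ⟨z, hz, h1⟩ := h.tr.ex
  rw [comm_one (F.QU_comm (inf_le_Q (S.symm h.wp.a1) ⟨h.tQ hc, h0⟩) hz)] at h1
  exact h1 (one_mem _)

theorem Gd.lemmaS (hc : F.Cr n) (h : F.Gd n x c x' y' t w) (hy : S.adj x y)
    (hZ : F.U y ≤ S.K y') : t ∈ normalizer ((F.U x ⊔ F.U y : Subgroup G) : Set G) := by
  obtain ⟨y2, h'⟩ := exists_Wp (S.symm hy) h.wp.w2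
  have hQ : F.U y ≤ Cn (F.U y') :=
    ((le_inf (hc.UQ n le_rfl h'.w2) hZ).trans (inf_le_Q h'.a2)).trans (F.Q_le_Cn y')
  have htA : t ∈ S.A x := (Q_le_B h.wp.a1 (h.tQ hc)).1
  have key : cj t (F.U x ⊔ F.U y) ≤ F.U x ⊔ F.U y := by
    rw [cj_sup, mem_nz.1 (F.nzU x htA)]
    refine sup_le le_sup_left ?_
    rintro _ ⟨z, hz, rfl⟩
    have e : (MulAut.conj t).toMonoidHom z = (z * t * z⁻¹ * t⁻¹)⁻¹ * z := by
      simp [mul_assoc]
    rw [e]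
    exact mul_mem (mem_sup_left (inv_mem (h.cm y hy z ⟨hz, hQ hz⟩))) (mem_sup_right hz)
  have hfin : Finite (F.U x ⊔ F.U y : Subgroup G) := fin_of_le (x := x)
    (sup_le (F.U_le_A x) (((F.U_le_K y).trans (K_le_B' hy)).trans (B_le_left _ _)))
  exact mem_normalizer_fintype fun k hk => key (conj_mem_cj hk)

theorem Cr.rep (hc : F.Cr n) (h : S.adj y x) {a v : G} (ha : a ∈ S.Q p x)
    (h1 : TrS (F.U y) (F.Y y) a v) :
    ∃ u, Wk S.adj n x u ∧ ∃ a' ∈ F.U u, a'⁻¹ * a ∈ Cn (F.U y) := by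
  obtain ⟨D, H⟩ := hc.blk h
  obtain ⟨u, w1, h2⟩ := hc.dir h
  obtain ⟨y2, hw⟩ := exists_Wp h w1
  obtain ⟨a0, h3, v0, h4⟩ := H.exists_tv (hc.exU hw)
    fun h3 => h2 fun g hg => F.CZ h (hc.UA hw hg) (h3 hg)
  obtain ⟨b, hb, -, j, hj⟩ := H.trans h4 ((hc.exU hw).le h3) h1 ha
  have w2 := wk_smul b w1
  rw [hb.2] at w2
  exact ⟨b • u, w2, _, pow_mem (F.cjU b u ▸ conj_mem_cj h3) j, hj⟩

theorem Gd.norm (hc : F.Cr n) (hn : 1 ≤ n) (h : F.Gd n x c x' y' t w)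
    (hy : S.adj x y) (hM : F.Lm y x M) : t ∈ normalizer (M : Set G) := by
  obtain ⟨a0, ha0, hw0, rfl⟩ := hM
  obtain ⟨D, H⟩ := hc.blk (S.symm hy)
  obtain ⟨y2, h'⟩ := exists_Wp (S.symm hy) h.wp.w2
  have e1 := hc.exU h'
  set M := Mc (F.U y) (F.Y y) (F.R y) (S.Q p x) a0 with hMd
  by_cases hm : Md (F.U y) (F.U y') a0
  · have k1 : M ≤ F.U y' := H.Mc_le_X e1 (fun g hg => F.nzU y' (hc.UA h'.symm hg).1) hm
    exact Cn_le_nz k1 (F.Q_le_Cn y' (hc.UQ 1 hn (Wk.one (S.symm h.wp.a2)) h.ht))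
  have hfin : Finite M := Finite.of_injective _ (inclusion_injective (H.Mc_le ha0 hw0))
  have htA : t ∈ S.A x := (Q_le_B h.wp.a1 (h.tQ hc)).1
  have key : M ≤ cj t⁻¹ M := by
    refine (closure_le _).2 ?_
    rintro _ ⟨a, z, k1, hz, rfl⟩
    obtain ⟨haQ, v, k2⟩ := k1.tv ha0 hw0
    obtain ⟨u, w1, a2, ha2, k3⟩ := hc.rep (S.symm hy) haQ k2
    refine (H.gen_w k2.mem k2.ne (L := C2 H.ab (H.hU (H.hPA haQ)) (cj t⁻¹ M))
      (fun b hb r hr => ?_) hz).2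
    have k4 := H.trB k2 (H.hBA hb)
    have k5 := nz_conj (H.hBP hb) haQ
    have hz' := nz_conj (H.hU (H.hRA hr)) k4.mem
    refine ⟨hz', ?_⟩
    by_cases k6 : Commute a (r * (b * v * b⁻¹) * r⁻¹)
    · rw [comm_one k6]; exact one_mem _
    have k7 : Rc (F.U y) (F.Y y) (F.R y) (S.Q p x) a0 (b * a * b⁻¹) :=
      Relation.ReflTransGen.tail k1 ⟨haQ, ⟨v, k2⟩, k5, _, k4, r, hr, k6⟩
    have k8 := h.cm y hy _ ⟨hz', H.fwd0 e1 k4 k5 (fun k9 => hm (H.fwd e1 k9 (H.rc_symm k7))) hr⟩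
    have w2 := wk_smul t w1
    rw [mem_A.1 htA] at w2
    obtain ⟨y3, h3⟩ := exists_Wp (S.symm hy) w2
    have e2 := hc.exU h3
    have hg : t * a2 * t⁻¹ ∈ F.U (t • u) := F.cjU t u ▸ conj_mem_cj ha2
    have k10 : F.U (t • u) ≤ C2 (F.ab (t • u)) (F.nzU _ (hc.UA h3.symm hz').1) M := by
      refine H.genX e2 ?_ fun g hg => ⟨hg.1, ?_⟩
      · rintro g hg ⟨v', k11⟩
        refine ⟨hg, ?_⟩
        by_cases k12 : Commute g (r * (b * v * b⁻¹) * r⁻¹)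
        · rw [comm_one k12.symm]; exact one_mem _
        have k13 : g * (r * (b * v * b⁻¹) * r⁻¹) * g⁻¹ * (r * (b * v * b⁻¹) * r⁻¹)⁻¹ ∈ M :=
          subset_closure ⟨g, _, Relation.ReflTransGen.trans k7 (H.ar_symm
            ⟨e2.le hg, ⟨v', k11⟩, k5, _, k4, r, hr, k12⟩), hz', rfl⟩
        convert inv_mem k13 using 1
        group
      · rw [comm_one (mem_Cn.1 hg.2 _ hz')]; exact one_mem _
    have k14 := inv_mem (k10 hg).2
    rw [mem_cj, inv_inv, comm_congr k3 hz']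
    set z := r * (b * v * b⁻¹) * r⁻¹
    set ζ := z * t * z⁻¹ * t⁻¹ with hζ
    set g := t * a2 * t⁻¹ with hgd
    have c1 : Commute g ζ := F.QU_comm (e2.le hg) k8
    have c2 : Commute ζ (z * g * z⁻¹ * g⁻¹)⁻¹ :=
      F.QU_comm (hc.UQ 1 hn (Wk.one hy) k8) (H.Mc_le ha0 hw0 k14)
    have e3 : t * (a2 * z * a2⁻¹ * z⁻¹) * t⁻¹ = (z * g * z⁻¹ * g⁻¹)⁻¹ := by
      calc t * (a2 * z * a2⁻¹ * z⁻¹) * t⁻¹ = (ζ * g⁻¹)⁻¹ * z * g⁻¹ * z⁻¹ * ζ := by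
            rw [hζ, hgd]; group
        _ = ζ⁻¹ * ((z * g * z⁻¹ * g⁻¹)⁻¹ * ζ) := by rw [← c1.inv_left.eq]; group
        _ = _ := by rw [← c2.eq]; group
    rw [e3]
    exact k14
  refine mem_normalizer_fintype fun k hk => ?_
  have := key hk
  rwa [mem_cj, inv_inv] at this

theorem Cr.symm (hc : F.Cr n) (h : S.Wp n x c x' y') (hZ : ¬ F.U x' ≤ S.K x) :
    ¬ F.U x ≤ S.K x' := fun hle => hZ fun _ hg => F.CZ h.a1 (hc.UA h hg) (le_Cn_comm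
      (((le_inf (hc.UQ n le_rfl h.w2) hle).trans (inf_le_Q h.a2)).trans (F.Q_le_Cn x')) hg)

theorem Cr.Lm_indep (hc : F.Cr n) (hn : 1 ≤ n) {u : V} (hy : S.adj x y)
    (hu : S.adj x u) (hM : F.Lm y x M) : F.Lm u x M := by
  obtain ⟨x', w1, h1⟩ := hc.dir hy
  obtain ⟨y', hw⟩ := exists_Wp hy w1
  obtain ⟨t, w, h⟩ := hc.exists_Gd hn hw (hc.symm hw h1)
  let N : Subgroup G := S.A x ⊓
    ⨅ M : {M // ∃ y, S.adj x y ∧ F.Lm y x M}, normalizer (M.1 : Set G)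
  have hN : S.A x ≤ normalizer (N : Set G) := by
    refine le_nz fun g hg m hm => ⟨(S.A x).mul_mem ((S.A x).mul_mem hg hm.1) ((S.A x).inv_mem hg),
      ?_⟩
    refine mem_iInf.2 fun ⟨M, z, hz, hM⟩ => ?_
    have h2 := hM.conj g⁻¹
    rw [mem_A.1 ((S.A x).inv_mem hg)] at h2
    have h4 := conj_mem_cj (g := g)
      (mem_iInf.1 hm.2 ⟨_, _, adj_smul ((S.A x).inv_mem hg) hz, h2⟩)
    rwa [cj_nz, cj_cj_inv] at h4
  have htB := Q_le_B hy (h.tQ hc)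
  obtain ⟨g, hg, hgy⟩ := S.sp x N inf_le_left hN t
    ⟨htB.1, mem_iInf.2 fun ⟨M, z, hz, hM⟩ => h.norm hc hn hz hM⟩ y hy htB.2
    (fun h0 => h.tK hc ⟨htB.1, h0⟩) y u hy hu
  have h2 := hM.conj g
  rwa [hgy, mem_A.1 hg.1, mem_nz.1 (mem_iInf.1 hg.2 ⟨M, y, hy, hM⟩)] at h2

theorem Gd.shift (hc : F.Cr n) (h : F.Gd n x c x' y' t w) :
    ∃ y, S.adj x y ∧ ¬ F.U y ≤ S.K y' ∧ ∀ M, F.Lm x y M → M ≤ centralizer {t} →
      F.Lm x c M ∧ M ≠ Mc (F.U x) (F.Y x) (F.R x) (S.Q p c) t := by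
  have hp := F.hD.1
  obtain ⟨D, H⟩ := hc.blk h.wp.a1
  have htQ := h.tQ hc
  have htB := Q_le_B h.wp.a1 htQ
  have htp : t ^ p ^ 1 = 1 := by rw [pow_one, F.pow h.ht]
  have htY := H.centY h.tr htQ
  let E : Subgroup G := closure {d | ∃ r ∈ F.R x, d = r * t * r⁻¹}
  have hER : E ≤ F.R x ⊔ zpowers t := (closure_le _).2 (by
    rintro _ ⟨r, hr, rfl⟩
    exact mul_mem (mul_mem (mem_sup_left hr) (mem_sup_right (mem_zpowers t)))
      (inv_mem (mem_sup_left hr)))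
  have hEA : E ≤ S.A x := hER.trans (sup_le H.hRA (zpowers_le.2 htB.1))
  have htE : t ∈ E := subset_closure ⟨1, one_mem _, by group⟩
  obtain ⟨W, hwW, hW1, hW2⟩ := H.plane h.tr htQ
  let Mv : G → Prop := fun u => t * u * t⁻¹ * u⁻¹ ∈ F.Y x
  have hline : ∀ g ∈ E, Mv (g * w * g⁻¹) → g * w * g⁻¹ ∈ zpowers w ⊔ F.Y x := fun g hg hcm =>
    hW2 _ (nz_conj (hW1 (hER hg)) hwW) hcm
  have hpel : ∀ g ∈ S.A x, g⁻¹ * t * g * w * (g⁻¹ * t * g)⁻¹ ∈ zpowers w ⊔ F.Y x →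
      Mv (g * w * g⁻¹) := fun g hgA hg => by
    have k1 := H.scalar h.tr.mem (k := 1) (g := g⁻¹ * t * g)
      ((S.A x).mul_mem ((S.A x).mul_mem ((S.A x).inv_mem hgA) htB.1) hgA) (by
      have := conj_pow (a := g⁻¹) (b := t) (i := p ^ 1)
      rw [inv_inv] at this
      rw [this, htp]; group) hg
    have k2 := nz_conj (H.hY hgA) k1
    show _ ∈ F.Y x
    convert k2 using 1
    group
  have lconj : ∀ g ∈ S.A x, ∀ u v : G, u ∈ zpowers v ⊔ F.Y x →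
      g * u * g⁻¹ ∈ zpowers (g * v * g⁻¹) ⊔ F.Y x := fun g hg u v hu => by
    have := conj_mem_cj (g := g) hu
    rwa [cj_sup, cj_zpowers, mem_nz.1 (H.hY hg)] at this
  obtain ⟨g, hg, hg1, hg2⟩ : ∃ g ∈ E, ¬ Mv (g * w * g⁻¹) ∧ ¬ F.U (g • c) ≤ S.K y' := by
    by_contra hcon
    set N := normalizer ((F.U x ⊔ F.U c : Subgroup G) : Set G) with hN
    have k1 : ∀ g ∈ E, ¬ Mv (g * w * g⁻¹) → g⁻¹ * t * g ∈ N := by
      intro g hg hg1
      have k2 := h.lemmaS hc (adj_smul (hEA hg) h.wp.a1)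
        (by by_contra k3; exact hcon ⟨g, hg, hg1, k3⟩)
      rw [← mem_cj, hN, cj_nz, cj_sup, F.cjU, F.cjU, mem_A.1 (hEA hg)]
      exact k2
    obtain ⟨r, hr1, hr2⟩ := H.exists_r h.tr htQ
    have d1 : r⁻¹ * t * r ∈ E := subset_closure ⟨r⁻¹, inv_mem hr1, by rw [inv_inv]⟩
    set d := r⁻¹ * t * r with hd
    have d2 : ¬ Mv (d * w * d⁻¹) := fun k2 => hr2 (hpel r (H.hRA hr1) (hline d d1 k2))
    have d3 : d⁻¹ * t * d ∈ E := E.mul_mem (E.mul_mem (E.inv_mem d1) htE) d1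
    have d4 := k1 d d1 d2
    have d5 : d⁻¹ * t * d * w * (d⁻¹ * t * d)⁻¹ ∉ zpowers w ⊔ F.Y x :=
      fun k2 => d2 (hpel d (hEA d1) k2)
    set e := d⁻¹ * t * d
    have k4 : ∀ g ∈ E, g⁻¹ * t * g ∈ N := by
      intro g hg
      by_cases hg1 : Mv (g * w * g⁻¹)
      swap
      · exact k1 g hg hg1
      have k5 := H.line_symm h.tr.mem (hline g hg hg1) (H.trB h.tr (hEA hg)).ne
      have k6 := k1 (g * e) (E.mul_mem hg d3) fun k7 => d5 (by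
        have k8 := (sup_le (zpowers_le.2 k5) le_sup_right : _ ≤ zpowers (g * w * g⁻¹) ⊔ F.Y x)
          (hline _ (E.mul_mem hg d3) k7)
        simpa [mul_assoc] using lconj g⁻¹ ((S.A x).inv_mem (hEA hg)) _ _ k8)
      have : g⁻¹ * t * g = e * ((g * e)⁻¹ * t * (g * e)) * e⁻¹ := by group
      rw [this]
      exact N.mul_mem (N.mul_mem d4 k6) (N.inv_mem d4)
    let S0 : Subgroup G := closure {k | ∃ g ∈ E, k = g⁻¹ * t * g}
    let J : Subgroup G := closure {k | ∃ b ∈ S.B x c, k = b * t * b⁻¹}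
    have hQA : S.Q p x ≤ S.A x := (Q_le_K p x).trans (K_le_A x)
    have s1 : S0 ≤ E := (closure_le _).2 (by
      rintro _ ⟨g, hg, rfl⟩
      exact E.mul_mem (E.mul_mem (E.inv_mem hg) htE) hg)
    have s2 : E ≤ normalizer (S0 : Set G) := fun a ha => mem_nz.2 (cj_closure a _ _ fun k => by
      constructor
      · rintro ⟨g, hg, rfl⟩
        exact ⟨g * a, E.mul_mem hg ha, by group⟩
      · rintro ⟨g, hg, h1⟩
        refine ⟨g * a⁻¹, E.mul_mem hg (E.inv_mem ha), ?_⟩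
        calc k = a * (a⁻¹ * k * a) * a⁻¹ := by group
          _ = _ := by rw [h1]; group)
    have j1 : J ≤ S.Q p c := (closure_le _).2 (by
      rintro _ ⟨b, hb, rfl⟩
      exact nz_conj (H.hBP hb) htQ)
    have j2 : S.B x c ≤ normalizer (J : Set G) := fun a ha => mem_nz.2 (cj_closure a _ _ fun k => by
      constructor
      · rintro ⟨g, hg, rfl⟩
        exact ⟨a⁻¹ * g, (S.B x c).mul_mem ((S.B x c).inv_mem ha) hg, by group⟩
      · rintro ⟨g, hg, h1⟩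
        refine ⟨a * g, (S.B x c).mul_mem ha hg, ?_⟩
        calc k = a * (a⁻¹ * k * a) * a⁻¹ := by group
          _ = _ := by rw [h1]; group)
    have htJ : t ∈ J := subset_closure ⟨1, one_mem _, by group⟩
    have hfinA : Finite (S.A x) := S.fin x
    have hfin : Finite (E ⊔ S.Q p x : Subgroup G) := fin_of_le (sup_le hEA hQA)
    have gen : ∀ a ∈ S.A x, (∀ r ∈ F.R x, a * (r * t * r⁻¹) * a⁻¹ ∈ E ⊔ S.Q p x) →
        a ∈ normalizer ((E ⊔ S.Q p x : Subgroup G) : Set G) := by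
      intro a ha h1
      have : E ⊔ S.Q p x ≤ cj a⁻¹ (E ⊔ S.Q p x) := by
        refine sup_le ((closure_le _).2 ?_) fun q hq => ?_
        · rintro _ ⟨r, hr, rfl⟩
          rw [SetLike.mem_coe, mem_cj, inv_inv]
          exact h1 r hr
        · rw [mem_cj, inv_inv]
          exact mem_sup_right (nz_conj (A_le_nz_Q p x ha) hq)
      refine mem_normalizer_fintype fun k hk => ?_
      have := this hk
      rwa [mem_cj, inv_inv] at this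
    have s3 : (F.R x ⊔ J) ⊔ S.Q p x ≤ normalizer ((E ⊔ S.Q p x : Subgroup G) : Set G) := by
      refine sup_le (sup_le (fun a ha => gen a (H.hRA ha) fun r hr => ?_) ((closure_le _).2 ?_))
        (le_sup_right.trans le_normalizer)
      · exact mem_sup_left (subset_closure ⟨a * r, mul_mem ha hr, by group⟩)
      · rintro _ ⟨b, hb, rfl⟩
        have m1 := nz_conj (H.hBP hb) htQ
        refine gen _ (H.hPA m1) fun r hr => ?_
        have m2 := H.commute (H.trB h.tr hb.1) m1 h.tr htQ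
        set a := b * t * b⁻¹
        have m3 : a * t * a⁻¹ * t⁻¹ ∈ S.Q p c := mul_mem (nz_conj (le_normalizer m1) htQ) (inv_mem htQ)
        have m4 : a * t * a⁻¹ * t⁻¹ ∈ S.Q p x :=
          inf_le_Q (S.symm h.wp.a1) ⟨m3, F.CZs h.wp.a1 (Q_le_B h.wp.a1 m3) m2⟩
        have m5 := nz_conj (H.hAR (H.hPA m1)) hr
        have : a * (r * t * r⁻¹) * a⁻¹ = (a * r * a⁻¹) * (a * t * a⁻¹ * t⁻¹) * (a * r * a⁻¹)⁻¹ *
            ((a * r * a⁻¹) * t * (a * r * a⁻¹)⁻¹) := by group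
        rw [this]
        exact mul_mem (mem_sup_right (nz_conj (A_le_nz_Q p x (H.hRA m5)) m4))
          (mem_sup_left (subset_closure ⟨_, m5, rfl⟩))
    have s4 : SubN (S0 ⊔ S.Q p x) (S.A x) := by
      refine SubN.step (SubN.step ((SubN.step SubN.refl s1 s2).sup (hEA.trans (A_le_nz_Q p x)))
        (sup_le_sup_right (hER.trans (sup_le_sup_left (zpowers_le.2 htJ) _)) _) s3)
        (sup_le (sup_le H.hRA (j1.trans H.hPA)) hQA) ?_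
      exact (F.nt x).le_of h.wp.a1 ((le_sup_left.trans le_sup_left).trans le_normalizer)
        fun g hg => nz_sup (nz_sup (H.hAR hg.1) (j2 hg)) (A_le_nz_Q p x hg.1)
    obtain ⟨N', n1, n2, n3⟩ := s4.closure_le (N := N ⊓ S.A x) (sup_le (le_inf ((closure_le _).2 (by
      rintro _ ⟨g, hg, rfl⟩
      exact k4 g hg)) (s1.trans hEA)) (le_inf (((Q_le_K p x).trans (K_le_B h.wp.a1)).trans
        (F.B_le_nz_UU x c)) hQA)) inf_le_right
      fun k5 => F.not_nz_UU h.wp.a1 (k5.trans inf_le_left)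
    obtain ⟨a1, a2⟩ := ncl_spec htB.1
    refine n2 (sph a1 a2 (subset_closure ⟨1, one_mem _, by group⟩) h.wp.a1 htB.2 (h.tK hc) h.wp.a1
      ((closure_le _).2 ?_) ((le_inf (F.B_le_nz_UU x c) (B_le_left x c)).trans n1))
    rintro _ ⟨g, hg, rfl⟩
    exact n3 g hg t (mem_sup_left (subset_closure ⟨1, one_mem _, by group⟩))
  refine ⟨g • c, adj_smul (hEA hg) h.wp.a1, hg2, fun M hM hMt => ?_⟩
  have h0 := hM.conj g⁻¹
  rw [inv_smul_smul, mem_A.1 ((S.A x).inv_mem (hEA hg))] at h0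
  have hwM : w ∈ Mc (F.U x) (F.Y x) (F.R x) (S.Q p c) t := by
    obtain ⟨z, hz, e⟩ := h.hw
    exact subset_closure ⟨t, z, Relation.ReflTransGen.refl, hz, e⟩
  have nw : cj g⁻¹ M ≠ Mc (F.U x) (F.Y x) (F.R x) (S.Q p c) t := fun e => hg1 (by
    rw [← e, mem_cj, inv_inv] at hwM
    show _ ∈ F.Y x
    rw [comm_one (mem_centralizer_singleton_iff.1 (hMt hwM)).symm]
    exact one_mem _)
  obtain ⟨a, k1, k2, k3⟩ := id h0
  have k4 : ¬ Rc (F.U x) (F.Y x) (F.R x) (S.Q p c) t a := fun k5 => nw (k3.trans (H.Mc_eq k5).symm)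
  have k6 : E ≤ Cn (cj g⁻¹ M) := (closure_le _).2 (by
    rintro _ ⟨r, hr, rfl⟩
    rw [SetLike.mem_coe, mem_Cn, k3]
    exact fun k hk => mem_centralizer_singleton_iff.1 (H.Mc_cent h.tr htQ k1 k2 k4 hr hk))
  have k7 : cj g⁻¹ M = M := by
    have := mem_nz.1 (Cn_le_nz le_rfl (k6 hg))
    rw [cj_cj_inv] at this
    exact this.symm
  rw [k7] at h0 nw
  exact ⟨h0, nw⟩

theorem Cr.chain (hc : F.Cr n) (hn : 1 ≤ n) : ∀ a : ℕ, 2 * a ≤ n →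
    ∀ {x c x' y' : V} {t w : G}, F.Gd n x c x' y' t w → ∃ L : Finset (Subgroup G),
      L.card = a + 1 ∧ ∀ M ∈ L, F.Lm x c M ∧ ∃ j ≤ 2 * a, ∃ u, Wk S.adj j u x' ∧ M ≤ F.U u := by
  classical
  have base : ∀ {x c x' y' : V} {t w : G}, F.Gd n x c x' y' t w →
      F.Lm x c (Mc (F.U x) (F.Y x) (F.R x) (S.Q p c) t) ∧
        Mc (F.U x) (F.Y x) (F.R x) (S.Q p c) t ≤ F.U x' := by
    intro x c x' y' t w h
    obtain ⟨D, H⟩ := hc.blk h.wp.a1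
    exact ⟨⟨t, h.tQ hc, ⟨w, h.tr⟩, rfl⟩, H.Mc_le_X (hc.exU h.wp)
      (fun g hg => F.nzU x' (hc.UA h.wp.symm hg).1) ⟨t, h.ht, by simp⟩⟩
  intro a
  induction a with
  | zero =>
    intro _ x c x' y' t w h
    refine ⟨{Mc (F.U x) (F.Y x) (F.R x) (S.Q p c) t}, rfl, fun l hl => ?_⟩
    rw [Finset.mem_singleton.1 hl]
    exact ⟨(base h).1, 0, le_rfl, x', Wk.zero _, (base h).2⟩
  | succ a ih =>
    intro ha x c x' y' t w h
    obtain ⟨y, hy, hZ, hμ⟩ := h.shift hc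
    obtain ⟨y2, w1⟩ := exists_Wp (S.symm hy) h.wp.w2
    obtain ⟨t1, v1, h1⟩ := hc.exists_Gd hn w1 hZ
    obtain ⟨z, hz, hZ1, -⟩ := h1.shift hc
    obtain ⟨y3, w2⟩ := exists_Wp (S.symm hz) w1.w2
    obtain ⟨t2, v2, h2⟩ := hc.exists_Gd hn w2 hZ1
    obtain ⟨L, hL1, hL2⟩ := ih (by omega) h2
    have key : ∀ M ∈ L, M ≠ Mc (F.U x) (F.Y x) (F.R x) (S.Q p c) t ∧ F.Lm x c M ∧
        ∃ j ≤ 2 * (a + 1), ∃ u, Wk S.adj j u x' ∧ M ≤ F.U u := by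
      intro M hM
      obtain ⟨k1, j, hj, u, k2, k3⟩ := hL2 M hM
      have k5 : Wk S.adj (j + 2) u x' := (k2.succ w1.a2).succ h.wp.a2
      have k4 := hμ M (hc.Lm_indep hn hz (S.symm hy) k1) fun k hk =>
        mem_centralizer_singleton_iff.2
          (F.QU_comm (hc.UQ _ (by omega) (wk_symm k5) h.ht) (k3 hk)).eq.symm
      exact ⟨k4.2, k4.1, j + 2, by omega, u, k5, k3⟩
    refine ⟨insert (Mc (F.U x) (F.Y x) (F.R x) (S.Q p c) t) L, ?_, fun l hl => ?_⟩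
    · rw [Finset.card_insert_of_notMem, hL1]
      exact fun hl => (key _ hl).1 rfl
    · rcases Finset.mem_insert.1 hl with rfl | hl
      · exact ⟨(base h).1, 0, by omega, x', Wk.zero _, (base h).2⟩
      · exact (key l hl).2

theorem Cr.bound (hc : F.Cr n) {ι : Type*} [Fintype ι] (h : S.adj x c)
    (f : G → ι) (hf : ∀ a ∈ S.A x, ∀ b ∈ S.A x, f a = f b → a⁻¹ * b ∈ S.K x) :
    n ≤ 2 * Fintype.card ι := by
  rcases Nat.eq_zero_or_pos n with h0 | hn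
  · omega
  obtain ⟨D, H⟩ := hc.blk h
  obtain ⟨x', w1, h1⟩ := hc.dir h
  obtain ⟨y', hw⟩ := exists_Wp h w1
  obtain ⟨t, w, hg⟩ := hc.exists_Gd hn hw (hc.symm hw h1)
  obtain ⟨L, hL1, hL2⟩ := hc.chain hn (n / 2) (by omega) hg
  choose a ha hw e using fun l : L => (hL2 l.1 l.2).1
  have hinj : Function.Injective fun l : L => f (a l) := by
    intro l l' hll
    have k1 := hf _ (Q_le_B h (ha l)).1 _ (Q_le_B h (ha l')).1 hll
    have k2 : (a l)⁻¹ * a l' ∈ S.Q p x :=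
      inf_le_Q (S.symm h) ⟨(S.Q p c).mul_mem ((S.Q p c).inv_mem (ha l)) (ha l'), k1⟩
    obtain ⟨v, hv⟩ := hw l'
    exact Subtype.ext (by
      rw [e l, e l', H.Mc_eq (Relation.ReflTransGen.single (H.ar_of_line
        (hv.congr (F.Q_le_Cn x k2)) (ha l) hv (ha l') (mem_sup_left (mem_zpowers v))))])
  have := Fintype.card_le_of_injective _ hinj
  rw [Fintype.card_coe, hL1] at this
  omega

end Fam

/-- the main bound -/
theorem ball_bot2 {ι : Type*} [Fintype ι]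
    (hr : ∀ p : ℕ, p.Prime → S.R1 p ∨ ∀ x, S.PS p x)
    (hf : ∀ x, ∃ f : G → ι, ∀ a ∈ S.A x, ∀ b ∈ S.A x, f a = f b → a⁻¹ * b ∈ S.K x) (x : V) :
    S.Ball (2 * Fintype.card ι + 5) x = ⊥ := by
  by_cases hy : ∃ y, S.adj x y
  · obtain ⟨y, h⟩ := hy
    by_cases hD : S.K x ⊓ S.K y = ⊥
    · exact eq_bot_iff.2 ((Ball_le_D (Wk.zero x) h (by omega)).trans hD.le)
    · obtain ⟨p, hp⟩ := tw h hD
      rcases hr p hp.1 with h1 | h1
      · obtain ⟨n, hc⟩ := exists_crit hp h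
        have := hc.step3 h1 h
        exact eq_bot_iff.2 ((Ball_mono (by omega) x).trans (hc.ball h).le)
      · obtain ⟨F⟩ := exists_Fam hp h
        obtain ⟨n, hc⟩ := F.exists_Cr h1 x
        obtain ⟨f, hf⟩ := hf x
        have := hc.bound h f hf
        exact eq_bot_iff.2 ((Ball_mono (by omega) x).trans (hc.ball h).le)
  · refine eq_bot_iff.2 fun g hg => ?_
    rw [Subgroup.mem_bot]
    refine S.faithful g fun v => ?_
    obtain ⟨n, w⟩ := S.conn x v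
    cases n with
    | zero => exact hg 0 (by omega) v w
    | succ n =>
      obtain ⟨y, h, -⟩ := wk_first w
      exact absurd ⟨y, h⟩ hy

end Setup

end Pool.Agent.Lib.MP_607584_al
end

-- part Pool.Agent.Lib.MP_607584_al.Final3
section

/-! Translation of the local hypotheses. -/

namespace Pool.Agent.Lib.MP_607584_al

open Subgroup

variable {V : Type} {T : SimpleGraph V} {d : ℕ}

theorem pow_rel_mem {G : Type*} [Group G] {X Z : Subgroup G} (h : ∀ z ∈ Z, ∀ x ∈ X, z * x * z⁻¹ ∈ X)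
    {g : G} (hg : g ∈ Z) : g ^ X.relIndex Z ∈ X := by
  have : (X.subgroupOf Z).Normal := ⟨fun x hx z => h z z.2 x hx⟩
  exact (X.subgroupOf Z).pow_index_mem ⟨g, hg⟩

theorem good_of3 (F : Subgroup (Equiv.Perm (Fin d))) (hF1 : ∀ a b : Fin d, ∃ f ∈ F, f a = b)
    (hF2 : ∀ N : Subgroup (Equiv.Perm (Fin d)), N ≤ F →
      (∀ n ∈ N, ∀ f ∈ F, f * n * f⁻¹ ∈ N) →
      ((∀ a b : Fin d, ∃ n ∈ N, n a = b) ∨ (∀ n ∈ N, ∀ a : Fin d, n a = a → n = 1)))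
    (hF3 : ∀ p : ℕ, p.Prime → (∀ (a : Fin d) (N : Subgroup (Equiv.Perm (Fin d))),
      (∀ n ∈ N, n ∈ F ∧ n a = a) → (∀ n ∈ N, ∀ f ∈ F, f a = a → f * n * f⁻¹ ∈ N) →
      IsPGroup p N → ∀ g ∈ N, ∀ h ∈ N, orderOf g = p → orderOf h = p → h ∈ Subgroup.zpowers g) ∨
      ∃ (m : ℕ) (s : ℕ → Subgroup (Equiv.Perm (Fin d))), s 0 = ⊥ ∧
        (∀ a b : Fin d, ∃ r ∈ s m, r a = b) ∧
        (∀ i, s i ≤ F ∧ ∀ r ∈ s i, ∀ f ∈ F, f * r * f⁻¹ ∈ s i) ∧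
        ∀ i < m, s i ≤ s (i + 1) ∧ ((∃ k, (s i).relIndex (s (i + 1)) = p ^ k) ∨
          ¬ p ∣ (s i).relIndex (s (i + 1)) ∨ ⁅s (i + 1), s (i + 1)⁆ ≤ s i))
    (hT : T.Connected) (H : Subgroup (T ≃g T))
    (h1 : ∀ v : V, Set.Finite {g : T ≃g T | g ∈ H ∧ g v = v})
    (h2 : ∀ u v : V, ∃ g ∈ H, g u = v)
    (h3 : ∀ v : V, ∃ e : T.neighborSet v ≃ Fin d, ∀ σ : Equiv.Perm (Fin d),
      σ ∈ F ↔ ∃ g ∈ H, Loc v e g σ) (x : V) :
    Good (2 * Fintype.card (Equiv.Perm (Fin d)) + 5) x H := by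
  let _inst := act H
  have hs : ∀ (g : H) (v : V), g • v = (g : T ≃g T) v := fun _ _ => rfl
  let S : Setup H V :=
    { adj := T.Adj
      symm := fun h => h.symm
      inv := fun g _ _ h => (g : T ≃g T).map_adj_iff.2 h
      conn := fun x y => (hT x y).elim fun w => ⟨_, wk_of_walk w⟩
      faithful := fun g hg => Subtype.ext (RelIso.ext hg)
      fin := fun x => by
        have := (h1 x).to_subtype
        exact Finite.of_injective (fun g : MulAction.stabilizer H x =>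
          (⟨g.1.1, g.1.2, g.2⟩ : {g : T ≃g T | g ∈ H ∧ g x = x}))
          fun a b hab => Subtype.ext (Subtype.ext (by simpa using hab))
      arc := fun {x y x' y'} ha hb => by
        obtain ⟨g, hg, rfl⟩ := h2 x x'
        obtain ⟨e, he⟩ := h3 (g x)
        obtain ⟨f, hf, hf'⟩ := hF1 (e ⟨g y, g.map_adj_iff.2 ha⟩) (e ⟨y', hb⟩)
        obtain ⟨k, hk, hl⟩ := (he f).1 hf
        exact ⟨⟨k * g, H.mul_mem hk hg⟩, hl.1,
          (hl.apply_iff ⟨g y, g.map_adj_iff.2 ha⟩ ⟨y', hb⟩).1 hf'⟩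
      sp := fun x N hN hn g hg c hc hgc hK y y' hy hy' => by
        obtain ⟨e, he⟩ := h3 x
        have a1 : img e N ≤ F := by
          rintro σ ⟨k, -, hl⟩
          exact (he σ).2 ⟨k, k.2, hl⟩
        have a2 : ∀ n ∈ img e N, ∀ f ∈ F, f * n * f⁻¹ ∈ img e N := by
          rintro σ ⟨k, hk, hl⟩ f hf
          obtain ⟨a, ha, hl'⟩ := (he f).1 hf
          have a3 : (⟨a, ha⟩ : H) ∈ MulAction.stabilizer H x := hl'.1
          exact ⟨⟨a, ha⟩ * k * ⟨a, ha⟩⁻¹, nz_conj (hn a3) hk, (hl'.mul hl).mul hl'.inv⟩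
        rcases hF2 (img e N) a1 a2 with h | h
        · obtain ⟨σ, ⟨k, hk, hl⟩, hσ⟩ := h (e ⟨y, hy⟩) (e ⟨y', hy'⟩)
          exact ⟨k, hk, (hl.apply_iff ⟨y, hy⟩ ⟨y', hy'⟩).1 hσ⟩
        · have a4 : (g : T ≃g T) x = x := hN hg
          obtain ⟨σ, hl⟩ := exists_Loc e a4
          exact absurd (hl.eq_one_iff.1 (h σ ⟨g, hg, hl⟩ (e ⟨c, hc⟩)
            ((hl.apply_iff ⟨c, hc⟩ ⟨c, hc⟩).2 hgc))) hK }
  have hB : ∀ (x c : V) (g : H), g ∈ S.B x c ↔ (g : T ≃g T) x = x ∧ (g : T ≃g T) c = c :=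
    fun _ _ _ => Iff.rfl
  have hK : ∀ (x : V) (g : H), g ∈ S.K x ↔
      (g : T ≃g T) x = x ∧ ∀ y, T.Adj x y → (g : T ≃g T) y = y := fun _ _ => Iff.rfl
  have hr : ∀ p : ℕ, p.Prime → S.R1 p ∨ ∀ x, S.PS p x := by
    intro p hp
    refine (hF3 p hp).imp (fun hF3 => ?_) ?_
    swap
    · rintro ⟨m, s, r0, r3, r1, r4⟩ x
      obtain ⟨e, he⟩ := h3 x
      have nz : ∀ i, S.A x ≤ normalizer (pre e H (s i) : Set H) := fun i => le_nz (by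
        rintro a ha g ⟨σ, hσ, hl⟩
        obtain ⟨τ, hτ⟩ := exists_Loc e (show (a : T ≃g T) x = x from ha)
        exact ⟨_, (r1 i).2 σ hσ τ ((he τ).2 ⟨a, a.2, hτ⟩), (hτ.mul hl).mul hτ.inv⟩)
      have pw : ∀ i, ∀ g ∈ pre e H (s (i + 1)),
          g ^ (s i).relIndex (s (i + 1)) ∈ pre e H (s i) := by
        rintro i g ⟨σ, hσ, hl⟩
        exact ⟨_, pow_rel_mem (fun z hz y hy => (r1 i).2 y hy z ((r1 _).1 hz)) hσ, hl.pow _⟩
      refine ⟨m, fun i => pre e H (s i), ?_, ⟨?_, nz m, fun y y' hy hy' => ?_⟩, nz, fun i hi => ?_⟩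
      · rintro g ⟨σ, hσ, hl⟩
        rw [r0, Subgroup.mem_bot] at hσ
        exact (hK _ _).2 ⟨hl.1, hl.eq_one_iff.1 hσ⟩
      · rintro g ⟨σ, -, hl⟩
        exact hl.1
      · obtain ⟨σ, hσ, h4⟩ := r3 (e ⟨y, hy⟩) (e ⟨y', hy'⟩)
        obtain ⟨g, hg, hl⟩ := (he σ).1 ((r1 m).1 hσ)
        exact ⟨⟨g, hg⟩, ⟨σ, hσ, hl⟩, (hl.apply_iff ⟨y, hy⟩ ⟨y', hy'⟩).1 h4⟩
      · rcases (r4 i hi).2 with ⟨k, hk⟩ | hk | hk
        · exact Or.inl fun g hg => ⟨k, hk ▸ pw i g hg⟩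
        · exact Or.inr (Or.inl fun g hg =>
            ⟨_, ((Nat.Prime.coprime_iff_not_dvd hp).2 hk).symm, pw i g hg⟩)
        · refine Or.inr (Or.inr ?_)
          rintro g ⟨σ, hσ, hl⟩ g' ⟨σ', hσ', hl'⟩
          exact ⟨_, hk (commutator_mem_commutator hσ hσ'),
            ((hl.mul hl').mul hl.inv).mul hl'.inv⟩
    intro x c hc0 N hN hn hP g hg h hh hgp hhp hgK
    have hc : T.Adj x c := hc0
    have := Fact.mk hp
    rw [hK] at hgp hhp hgK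
    obtain ⟨e, he⟩ := h3 x
    obtain ⟨σ, hσ⟩ := exists_Loc e ((hB _ _ _).1 (hN hg)).1
    obtain ⟨τ, hτ⟩ := exists_Loc e ((hB _ _ _).1 (hN hh)).1
    by_cases hτ1 : τ = 1
    · refine ⟨0, ?_⟩
      rw [hK, zpow_zero, inv_one, one_mul]
      exact ⟨hτ.1, hτ.eq_one_iff.1 hτ1⟩
    have hσ1 : σ ≠ 1 := fun h0 => hgK ⟨hσ.1, hσ.eq_one_iff.1 h0⟩
    have b1 : ∀ n ∈ img e N, n ∈ F ∧ n (e ⟨c, hc⟩) = e ⟨c, hc⟩ := by
      rintro σ ⟨k, hk, hl⟩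
      exact ⟨(he σ).2 ⟨k, k.2, hl⟩,
        (hl.apply_iff ⟨c, hc⟩ ⟨c, hc⟩).2 ((hB _ _ _).1 (hN hk)).2⟩
    have b2 : ∀ n ∈ img e N, ∀ f ∈ F, f (e ⟨c, hc⟩) = e ⟨c, hc⟩ → f * n * f⁻¹ ∈ img e N := by
      rintro σ ⟨k, hk, hl⟩ f hf hfa
      obtain ⟨a, ha, hl'⟩ := (he f).1 hf
      have a3 : (⟨a, ha⟩ : H) ∈ S.B x c :=
        (hB _ _ _).2 ⟨hl'.1, (hl'.apply_iff ⟨c, hc⟩ ⟨c, hc⟩).1 hfa⟩
      exact ⟨⟨a, ha⟩ * k * ⟨a, ha⟩⁻¹, nz_conj (hn a3) hk, (hl'.mul hl).mul hl'.inv⟩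
    have b3 : IsPGroup p (img e N) := by
      rintro ⟨σ, k, hk, hl⟩
      obtain ⟨n, hn⟩ := hP ⟨k, hk⟩
      have hn' : (k : T ≃g T) ^ p ^ n = 1 := by
        simpa using congrArg (fun z : N => ((z : H) : T ≃g T)) hn
      refine ⟨n, Subtype.ext ?_⟩
      have := (hl.pow (p ^ n)).eq_one_iff.2 (fun y _ => by rw [hn']; rfl)
      simpa using this
    have b4 : σ ^ p = 1 := (hσ.pow p).eq_one_iff.2 (by simpa using hgp.2)
    have b5 : τ ^ p = 1 := (hτ.pow p).eq_one_iff.2 (by simpa using hhp.2)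
    have hmem := hF3 (e ⟨c, hc⟩) (img e N) b1 b2 b3 σ ⟨g, hg, hσ⟩ τ ⟨h, hh, hτ⟩
      (orderOf_eq_prime b4 hσ1) (orderOf_eq_prime b5 hτ1)
    obtain ⟨i, hi⟩ := Subgroup.mem_zpowers_iff.1 hmem
    have hl := (hσ.zpow i).inv.mul hτ
    refine ⟨i, (hK _ _).2 ?_⟩
    have hc1 : (((g ^ i)⁻¹ * h : H) : T ≃g T) = ((g : T ≃g T) ^ i)⁻¹ * h := by simp
    rw [hc1]
    exact ⟨hl.1, hl.eq_one_iff.1 (by rw [hi, inv_mul_cancel])⟩
  have hf : ∀ x, ∃ f : H → Equiv.Perm (Fin d),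
      ∀ a ∈ S.A x, ∀ b ∈ S.A x, f a = f b → a⁻¹ * b ∈ S.K x := by
    intro x
    obtain ⟨e, -⟩ := h3 x
    have h4 : ∀ a : H, ∃ σ, a ∈ S.A x → Loc x e (a : T ≃g T) σ := fun a => by
      by_cases ha : a ∈ S.A x
      · exact (exists_Loc e (show (a : T ≃g T) x = x from ha)).imp fun σ h _ => h
      · exact ⟨1, fun h => absurd h ha⟩
    choose f hf using h4
    refine ⟨f, fun a ha b hb hab => (hK _ _).2 ?_⟩
    have hl := (hf a ha).inv.mul (hf b hb)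
    exact ⟨hl.1, hl.eq_one_iff.1 (by rw [hab, inv_mul_cancel])⟩
  refine ⟨fun g hg hfix => ?_, h2 x⟩
  have : (⟨g, hg⟩ : H) ∈ S.Ball (2 * Fintype.card (Equiv.Perm (Fin d)) + 5) x :=
    fun m hm v w => hfix v ⟨m, hm, w⟩
  rw [Setup.ball_bot2 hr hf x, Subgroup.mem_bot] at this
  exact congrArg Subtype.val this

end Pool.Agent.Lib.MP_607584_al
end
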