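import Pool.Agent.Lib.MP_607584_al.Final

namespace Pool.Agent.Lib.MP_607584_al.RankOne

open Pool.Agent.Lib.MP_607584_al

/-- The conjecture for every semiprimitive group in which, for each prime `p`, every normal
`p`-subgroup of a point stabiliser has at most one subgroup of order `p`. -/
theorem result :
  ∀ (d : ℕ) (F : Subgroup (Equiv.Perm (Fin d))),
    (∀ a b : Fin d, ∃ f ∈ F, f a = b) →
    (∀ N : Subgroup (Equiv.Perm (Fin d)), N ≤ F →
      (∀ n ∈ N, ∀ f ∈ F, f * n * f⁻¹ ∈ N) →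
      ((∀ a b : Fin d, ∃ n ∈ N, n a = b) ∨
        (∀ n ∈ N, ∀ a : Fin d, n a = a → n = 1))) →
    (∀ p : ℕ, p.Prime → ∀ (a : Fin d) (N : Subgroup (Equiv.Perm (Fin d))),
      (∀ n ∈ N, n ∈ F ∧ n a = a) → (∀ n ∈ N, ∀ f ∈ F, f a = a → f * n * f⁻¹ ∈ N) →
      IsPGroup p N →
      ∀ g ∈ N, ∀ h ∈ N, orderOf g = p → orderOf h = p → h ∈ Subgroup.zpowers g) →
    ∀ (V : Type) (T : SimpleGraph V), T.IsTree →
    ∃ S : Set (Subgroup (T ≃g T)), S.Finite ∧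
      ∀ H : Subgroup (T ≃g T),
        (∀ v : V, Set.Finite {g : T ≃g T | g ∈ H ∧ g v = v}) →
        (∀ u v : V, ∃ g ∈ H, g u = v) →
        (∀ v : V, ∃ e : T.neighborSet v ≃ Fin d, ∀ σ : Equiv.Perm (Fin d),
            σ ∈ F ↔ ∃ g ∈ H, g v = v ∧
              ∀ w : T.neighborSet v,
                g (w : V) = ((e.symm (σ (e w)) : T.neighborSet v) : V)) →
        ∃ K ∈ S, ∃ τ : T ≃g T, ∀ g : T ≃g T, g ∈ H ↔ τ⁻¹ * g * τ ∈ K := by
  intro d F hF1 hF2 hF3 V T hT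
  obtain ⟨x⟩ := hT.connected.nonempty
  by_cases hfin : ∀ v, (T.neighborSet v).Finite
  · obtain ⟨S, hS, h⟩ := finite_classes hT hfin 5 x
    exact ⟨S, hS, fun H h1 h2 h3 => h H (good_of F hF1 hF2 hF3 hT.connected H h1 h2 h3 x)⟩
  · refine ⟨∅, Set.finite_empty, fun H _ _ h3 => absurd (fun v => ?_) hfin⟩
    obtain ⟨e, -⟩ := h3 v
    exact Set.finite_coe_iff.1 (Finite.of_equiv _ e.symm)

end Pool.Agent.Lib.MP_607584_al.RankOne
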