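import Mathlib

/-! A soluble transitive group satisfies the chain hypothesis for every prime. -/

namespace Pool.Agent.Lib.MP_607584_al

theorem chain_of_solvable {d : ℕ} (F : Subgroup (Equiv.Perm (Fin d))) [h : Group.IsSolvable F]
    (hF : ∀ a b : Fin d, ∃ f ∈ F, f a = b) (p : ℕ) :
    ∃ (m : ℕ) (s : ℕ → Subgroup (Equiv.Perm (Fin d))), s 0 = ⊥ ∧
      (∀ a b : Fin d, ∃ r ∈ s m, r a = b) ∧
      (∀ i, s i ≤ F ∧ ∀ r ∈ s i, ∀ f ∈ F, f * r * f⁻¹ ∈ s i) ∧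
      ∀ i < m, s i ≤ s (i + 1) ∧ ((∃ k, (s i).relIndex (s (i + 1)) = p ^ k) ∨
        ¬ p ∣ (s i).relIndex (s (i + 1)) ∨ ⁅s (i + 1), s (i + 1)⁆ ≤ s i) := by
  obtain ⟨m, hm⟩ := h
  refine ⟨m, fun i => (derivedSeries F (m - i)).map F.subtype, by simp [hm], fun a b => ?_,
    fun i => ⟨Subgroup.map_subtype_le _, ?_⟩, fun i hi => ⟨?_, Or.inr (Or.inr ?_)⟩⟩
  · obtain ⟨f, hf, e⟩ := hF a b
    exact ⟨f, ⟨⟨f, hf⟩, by simp, rfl⟩, e⟩
  · rintro _ ⟨r, hr, rfl⟩ f hf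
    exact ⟨_, (derivedSeries_normal F (m - i)).conj_mem r hr ⟨f, hf⟩, rfl⟩
  · exact Subgroup.map_mono (derivedSeries_antitone F (by omega))
  · show ⁅(derivedSeries F (m - (i + 1))).map F.subtype, (derivedSeries F (m - (i + 1))).map
      F.subtype⁆ ≤ (derivedSeries F (m - i)).map F.subtype
    rw [← Subgroup.map_commutator, show m - i = m - (i + 1) + 1 by omega, derivedSeries_succ]

end Pool.Agent.Lib.MP_607584_al
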