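import Mathlib

-- part Pool.Agent.Lib.MP_607584_al.Core
section

/-! Group-theoretic tools: conjugation of subgroups, the largest normal p-subgroup,
the elementary abelian centre, minimal normal subgroups. -/

namespace Pool.Agent.Lib.MP_607584_al

open Subgroup

variable {G : Type*} [Group G]

/-- conjugate subgroup -/
def cj (g : G) (X : Subgroup G) : Subgroup G := X.map (MulAut.conj g).toMonoidHom

theorem mem_cj {g h : G} {X : Subgroup G} : h ∈ cj g X ↔ g⁻¹ * h * g ∈ X := by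
  constructor
  · rintro ⟨k, hk, rfl⟩
    simpa [mul_assoc] using hk
  · intro hh
    exact ⟨_, hh, by simp [mul_assoc]⟩

theorem conj_mem_cj {g h : G} {X : Subgroup G} (hh : h ∈ X) : g * h * g⁻¹ ∈ cj g X := by
  rw [mem_cj]; simpa [mul_assoc] using hh

theorem cj_cj (g h : G) (X : Subgroup G) : cj g (cj h X) = cj (g * h) X := by
  ext k; simp [mem_cj, mul_assoc]

theorem cj_one (X : Subgroup G) : cj 1 X = X := by
  ext k; simp [mem_cj]

theorem cj_mono (g : G) {X Y : Subgroup G} (h : X ≤ Y) : cj g X ≤ cj g Y :=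
  Subgroup.map_mono h

theorem cj_le_iff (g : G) {X Y : Subgroup G} : cj g X ≤ cj g Y ↔ X ≤ Y := by
  refine ⟨fun h => ?_, cj_mono g⟩
  have := cj_mono g⁻¹ h
  rwa [cj_cj, cj_cj, inv_mul_cancel, cj_one, cj_one] at this

theorem cj_inf (g : G) (X Y : Subgroup G) : cj g (X ⊓ Y) = cj g X ⊓ cj g Y := by
  ext k; simp [mem_cj]

theorem cj_sup (g : G) (X Y : Subgroup G) : cj g (X ⊔ Y) = cj g X ⊔ cj g Y :=
  Subgroup.map_sup _ _ _

theorem cj_comm (g : G) (X Y : Subgroup G) : cj g ⁅X, Y⁆ = ⁅cj g X, cj g Y⁆ :=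
  Subgroup.map_commutator _ _ _

theorem cj_bot (g : G) : cj g (⊥ : Subgroup G) = ⊥ := Subgroup.map_bot _

theorem cj_eq_bot {g : G} {X : Subgroup G} : cj g X = ⊥ ↔ X = ⊥ := by
  refine ⟨fun h => ?_, fun h => h ▸ cj_bot g⟩
  have := congrArg (cj g⁻¹) h
  rwa [cj_cj, inv_mul_cancel, cj_one, cj_bot] at this

theorem mem_nz {g : G} {X : Subgroup G} : g ∈ normalizer (X : Set G) ↔ cj g X = X := by
  rw [Subgroup.mem_normalizer_iff'']
  constructor
  · intro h; ext k; rw [mem_cj]; exact (h k).symm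
  · intro h k; rw [← mem_cj, h]

theorem nz_conj {g h : G} {X : Subgroup G} (hg : g ∈ normalizer (X : Set G)) (hh : h ∈ X) :
    g * h * g⁻¹ ∈ X := (Subgroup.mem_normalizer_iff.1 hg h).1 hh

theorem nz_conj' {g h : G} {X : Subgroup G} (hg : g ∈ normalizer (X : Set G)) (hh : h ∈ X) :
    g⁻¹ * h * g ∈ X := (Subgroup.mem_normalizer_iff''.1 hg h).1 hh

theorem le_nz {H X : Subgroup G} (h : ∀ g ∈ H, ∀ k ∈ X, g * k * g⁻¹ ∈ X) :
    H ≤ normalizer (X : Set G) := Subgroup.le_normalizer_iff.2 h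

theorem cj_nz (g : G) (X : Subgroup G) :
    cj g (normalizer (X : Set G)) = normalizer ((cj g X : Subgroup G) : Set G) := by
  ext k
  rw [mem_cj, mem_nz, mem_nz, cj_cj]
  constructor
  · intro h
    have := congrArg (cj g) h
    rw [cj_cj] at this
    rw [show k * g = g * (g⁻¹ * k * g) by group, this]
  · intro h
    have := congrArg (cj g⁻¹) h
    rw [cj_cj, cj_cj, inv_mul_cancel, cj_one] at this
    rw [mul_assoc, this]

theorem cj_eq_of_le {F : Subgroup G → Subgroup G} (hF : ∀ g H, cj g (F H) ≤ F (cj g H))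
    (g : G) (H : Subgroup G) : cj g (F H) = F (cj g H) := by
  refine le_antisymm (hF g H) ?_
  have := cj_mono g (hF g⁻¹ (cj g H))
  rwa [cj_cj, cj_cj, mul_inv_cancel, inv_mul_cancel, cj_one, cj_one] at this

theorem nz_inf {g : G} {X Y : Subgroup G} (hX : g ∈ normalizer (X : Set G))
    (hY : g ∈ normalizer (Y : Set G)) : g ∈ normalizer ((X ⊓ Y : Subgroup G) : Set G) := by
  rw [mem_nz] at *; rw [cj_inf, hX, hY]

theorem nz_sup {g : G} {X Y : Subgroup G} (hX : g ∈ normalizer (X : Set G))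
    (hY : g ∈ normalizer (Y : Set G)) : g ∈ normalizer ((X ⊔ Y : Subgroup G) : Set G) := by
  rw [mem_nz] at *; rw [cj_sup, hX, hY]

theorem nz_comm {g : G} {X Y : Subgroup G} (hX : g ∈ normalizer (X : Set G))
    (hY : g ∈ normalizer (Y : Set G)) : g ∈ normalizer ((⁅X, Y⁆ : Subgroup G) : Set G) := by
  rw [mem_nz] at *; rw [cj_comm, hX, hY]

theorem nz_of_comm {g : G} {X : Subgroup G} (h : ∀ k ∈ X, g * k = k * g) :
    g ∈ normalizer (X : Set G) := by
  rw [Subgroup.mem_normalizer_iff]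
  intro k
  constructor
  · intro hk; rw [h k hk]; simpa using hk
  · intro hk
    have h1 := h _ hk
    have : g * k * g⁻¹ = k := by
      have h2 : g * (g * k * g⁻¹) = g * k := by rw [h1]; group
      exact mul_left_cancel h2
    rwa [this] at hk

theorem isPGroup_cj {p : ℕ} {g : G} {X : Subgroup G} (h : IsPGroup p X) : IsPGroup p (cj g X) :=
  h.map _

/-- centraliser of a subgroup -/
def Cn (X : Subgroup G) : Subgroup G := centralizer (X : Set G)

theorem mem_Cn {g : G} {X : Subgroup G} : g ∈ Cn X ↔ ∀ k ∈ X, k * g = g * k :=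
  Subgroup.mem_centralizer_iff

theorem cj_Cn (g : G) (X : Subgroup G) : cj g (Cn X) = Cn (cj g X) := by
  refine cj_eq_of_le (F := Cn) (fun g H => ?_) g X
  intro k hk
  rw [mem_cj, mem_Cn] at hk
  rw [mem_Cn]
  intro l hl
  rw [mem_cj] at hl
  have := hk _ hl
  have h2 : g * (g⁻¹ * l * g * (g⁻¹ * k * g)) * g⁻¹ = g * (g⁻¹ * k * g * (g⁻¹ * l * g)) * g⁻¹ := by
    rw [this]
  simpa [mul_assoc] using h2

theorem nz_Cn {g : G} {X : Subgroup G} (hX : g ∈ normalizer (X : Set G)) :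
    g ∈ normalizer ((Cn X : Subgroup G) : Set G) := by
  rw [mem_nz] at *; rw [cj_Cn, hX]

theorem Cn_le_nz {X Y : Subgroup G} (h : Y ≤ X) : Cn X ≤ normalizer (Y : Set G) :=
  fun _ hg => nz_of_comm fun k hk => (mem_Cn.1 hg k (h hk)).symm

/-- the largest normal `p`-subgroup -/
def Op (p : ℕ) (H : Subgroup G) : Subgroup G :=
  sSup {N | N ≤ H ∧ H ≤ normalizer (N : Set G) ∧ IsPGroup p N}

theorem Op_le (p : ℕ) (H : Subgroup G) : Op p H ≤ H := sSup_le fun _ h => h.1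

theorem le_Op {p : ℕ} {H N : Subgroup G} (h1 : N ≤ H) (h2 : H ≤ normalizer (N : Set G))
    (h3 : IsPGroup p N) : N ≤ Op p H := le_sSup ⟨h1, h2, h3⟩

theorem finite_subgroups (H : Subgroup G) [Finite H] : {N : Subgroup G | N ≤ H}.Finite := by
  have hH : (H : Set G).Finite := Set.toFinite _
  refine Set.Finite.of_finite_image (f := fun N : Subgroup G => (N : Set G))
    (hH.finite_subsets.subset ?_) (fun a _ b _ hab => SetLike.coe_injective hab)
  rintro _ ⟨N, hN, rfl⟩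
  exact hN

theorem Op_spec (p : ℕ) (H : Subgroup G) [Finite H] :
    H ≤ normalizer (Op p H : Set G) ∧ IsPGroup p (Op p H) := by
  have hfin : {N : Subgroup G | N ≤ H ∧ H ≤ normalizer (N : Set G) ∧ IsPGroup p N}.Finite :=
    (finite_subgroups H).subset fun N hN => hN.1
  have hne : {N : Subgroup G | N ≤ H ∧ H ≤ normalizer (N : Set G) ∧ IsPGroup p N}.Nonempty :=
    ⟨⊥, bot_le, le_nz (by simp), IsPGroup.of_bot⟩
  obtain ⟨M, hM⟩ := hfin.exists_maximal hne
  have : Op p H = M := by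
    refine le_antisymm (sSup_le fun N hN => ?_) (le_sSup hM.prop)
    have h1 : M ⊔ N ∈ {N : Subgroup G | N ≤ H ∧ H ≤ normalizer (N : Set G) ∧ IsPGroup p N} :=
      ⟨sup_le hM.prop.1 hN.1, fun g hg => nz_sup (hM.prop.2.1 hg) (hN.2.1 hg),
        hM.prop.2.2.to_sup_of_normal_right' hN.2.2 (hM.prop.1.trans hN.2.1)⟩
    exact le_sup_right.trans (hM.le_of_ge h1 le_sup_left)
  rw [this]; exact hM.prop.2

theorem cj_Op (p : ℕ) (g : G) (H : Subgroup G) : cj g (Op p H) = Op p (cj g H) := by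
  refine cj_eq_of_le (F := Op p) (fun g H => ?_) g H
  rw [← cj_le_iff g⁻¹, cj_cj, inv_mul_cancel, cj_one]
  refine sSup_le fun N hN => ?_
  rw [← cj_le_iff g, cj_cj, mul_inv_cancel, cj_one]
  refine le_Op (cj_mono g hN.1) ?_ (isPGroup_cj hN.2.2)
  rw [← cj_nz]; exact cj_mono g hN.2.1

/-- elements of order dividing `p` in the centre -/
def OZ (p : ℕ) (H : Subgroup G) : Subgroup G where
  carrier := {g | g ∈ H ∧ g ∈ Cn H ∧ g ^ p = 1}
  one_mem' := ⟨H.one_mem, (Cn H).one_mem, one_pow p⟩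
  mul_mem' := by
    rintro a b ⟨ha, ha1, ha2⟩ ⟨hb, hb1, hb2⟩
    refine ⟨H.mul_mem ha hb, (Cn H).mul_mem ha1 hb1, ?_⟩
    have : Commute a b := mem_Cn.1 hb1 a ha
    rw [this.mul_pow, ha2, hb2, one_mul]
  inv_mem' := by
    rintro a ⟨ha, ha1, ha2⟩
    exact ⟨H.inv_mem ha, (Cn H).inv_mem ha1, by rw [inv_pow, ha2, inv_one]⟩

theorem mem_OZ {p : ℕ} {H : Subgroup G} {g : G} :
    g ∈ OZ p H ↔ g ∈ H ∧ g ∈ Cn H ∧ g ^ p = 1 := Iff.rfl

theorem cj_OZ (p : ℕ) (g : G) (H : Subgroup G) : cj g (OZ p H) = OZ p (cj g H) := by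
  ext k
  rw [mem_cj, mem_OZ, mem_OZ, ← cj_Cn, mem_cj, mem_cj]
  have : (g⁻¹ * k * g) ^ p = g⁻¹ * k ^ p * g := by
    simpa using conj_pow (a := g⁻¹) (b := k) (i := p)
  rw [this]
  have h2 : g⁻¹ * k ^ p * g = 1 ↔ k ^ p = 1 := by
    constructor
    · intro h
      have : g * (g⁻¹ * k ^ p * g) * g⁻¹ = 1 := by rw [h]; simp
      simpa [mul_assoc] using this
    · intro h; rw [h]; simp
  rw [h2]

theorem cj_closure (g : G) (s t : Set G) (h : ∀ k, k ∈ t ↔ g⁻¹ * k * g ∈ s) :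
    cj g (closure s) = closure t := by
  unfold cj
  rw [MonoidHom.map_closure]
  congr 1
  ext k
  rw [h]
  constructor
  · rintro ⟨l, hl, rfl⟩
    simpa [mul_assoc] using hl
  · intro hk
    exact ⟨_, hk, by simp [mul_assoc]⟩

/-- generated by the elements of `H` whose `p`-th power lies in `N` -/
def Om (p : ℕ) (H N : Subgroup G) : Subgroup G := closure {g | g ∈ H ∧ g ^ p ∈ N}

theorem Om_le (p : ℕ) (H N : Subgroup G) : Om p H N ≤ H :=
  (closure_le _).2 fun _ h => h.1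

theorem cj_Om (p : ℕ) (g : G) (H N : Subgroup G) :
    cj g (Om p H N) = Om p (cj g H) (cj g N) := by
  refine cj_closure g _ _ fun k => ?_
  have : (g⁻¹ * k * g) ^ p = g⁻¹ * k ^ p * g := by
    simpa using conj_pow (a := g⁻¹) (b := k) (i := p)
  simp only [Set.mem_ofPred_eq, mem_cj, this]

/-- generated by the elements of order prime to `p` -/
def PP (p : ℕ) (H : Subgroup G) : Subgroup G := closure {g | g ∈ H ∧ Nat.Coprime (orderOf g) p}

theorem PP_le (p : ℕ) (H : Subgroup G) : PP p H ≤ H :=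
  (closure_le _).2 fun _ h => h.1

theorem orderOf_conj' (g k : G) : orderOf (g⁻¹ * k * g) = orderOf k := by
  have := (MulAut.conj g⁻¹).orderOf_eq k
  simpa using this

theorem cj_PP (p : ℕ) (g : G) (H : Subgroup G) : cj g (PP p H) = PP p (cj g H) := by
  refine cj_closure g _ _ fun k => ?_
  simp only [Set.mem_ofPred_eq, mem_cj, orderOf_conj']

theorem isPGroup_of_PP {p : ℕ} (hp : p.Prime) (H : Subgroup G) [Finite H] (h : PP p H = ⊥) :
    IsPGroup p H := by
  rintro ⟨g, hg⟩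
  have hfin : IsOfFinOrder g := by
    have : IsOfFinOrder (⟨g, hg⟩ : H) := isOfFinOrder_of_finite _
    exact H.subtype.isOfFinOrder this
  have hpos : orderOf g ≠ 0 := hfin.orderOf_pos.ne'
  obtain ⟨k, m, hm, hkm⟩ := Nat.exists_eq_pow_mul_and_not_dvd hpos p hp.ne_one
  refine ⟨k, Subtype.ext ?_⟩
  have h1 : g ^ p ^ k ∈ PP p H := by
    refine subset_closure ⟨H.pow_mem hg _, ?_⟩
    have : orderOf (g ^ p ^ k) ∣ m := by
      rw [orderOf_dvd_iff_pow_eq_one, ← pow_mul, ← hkm, pow_orderOf_eq_one]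
    exact Nat.Coprime.coprime_dvd_left this ((Nat.Prime.coprime_iff_not_dvd hp).2 hm).symm
  rw [h] at h1
  simpa using h1

theorem PP_sup {p : ℕ} {D Q : Subgroup G} (hQ : IsPGroup p Q) (hn : Q ≤ normalizer (D : Set G))
    [Finite (D ⊔ Q : Subgroup G)] : PP p (D ⊔ Q) = PP p D := by
  unfold PP
  congr 1
  ext y
  refine ⟨fun ⟨hy, hc⟩ => ⟨?_, hc⟩, fun ⟨hy, hc⟩ => ⟨mem_sup_left hy, hc⟩⟩
  have hy' : y ∈ ((D ⊔ Q : Subgroup G) : Set G) := hy
  rw [Subgroup.coe_mul_of_right_le_normalizer_left D Q hn] at hy'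
  obtain ⟨d, hd, q, hq, rfl⟩ := hy'
  have key : ∀ n : ℕ, (d * q) ^ n * (q ^ n)⁻¹ ∈ D := by
    intro n
    induction n with
    | zero => simp
    | succ n ih =>
      have : (d * q) ^ (n + 1) * (q ^ (n + 1))⁻¹ =
          d * (q * ((d * q) ^ n * (q ^ n)⁻¹) * q⁻¹) := by
        rw [pow_succ', pow_succ']; group
      rw [this]
      exact D.mul_mem hd (nz_conj (hn hq) ih)
  obtain ⟨k, hk⟩ := hQ ⟨q, hq⟩
  have hk' : q ^ p ^ k = 1 := by simpa using congrArg Subtype.val hk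
  have h1 : (d * q) ^ p ^ k ∈ D := by simpa [hk'] using key (p ^ k)
  have hc' : (p ^ k).Coprime (orderOf (d * q)) := (Nat.Coprime.pow_right k hc).symm
  obtain ⟨m, hm⟩ := exists_pow_eq_self_of_coprime hc'
  show d * q ∈ D
  rw [← hm]
  exact D.pow_mem h1 m

/-- minimal normal subgroup of `H` -/
def MinN (H M : Subgroup G) : Prop :=
  M ≤ H ∧ H ≤ normalizer (M : Set G) ∧ M ≠ ⊥ ∧
    ∀ N : Subgroup G, N ≤ M → H ≤ normalizer (N : Set G) → N ≠ ⊥ → M ≤ N

theorem exists_MinN (H N : Subgroup G) [Finite H] (h1 : N ≤ H) (h2 : H ≤ normalizer (N : Set G))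
    (h3 : N ≠ ⊥) : ∃ M, MinN H M ∧ M ≤ N := by
  have hfin : {M : Subgroup G | M ≤ N ∧ H ≤ normalizer (M : Set G) ∧ M ≠ ⊥}.Finite :=
    (finite_subgroups H).subset fun M hM => hM.1.trans h1
  obtain ⟨M, hM⟩ := hfin.exists_minimal ⟨N, le_rfl, h2, h3⟩
  exact ⟨M, ⟨hM.prop.1.trans h1, hM.prop.2.1, hM.prop.2.2, fun N' a b c =>
    hM.le_of_le ⟨a.trans hM.prop.1, b, c⟩ a⟩, hM.prop.1⟩

theorem comm_of_inf_bot {X Y : Subgroup G} (h1 : X ≤ normalizer (Y : Set G))
    (h2 : Y ≤ normalizer (X : Set G)) (h : X ⊓ Y = ⊥) : X ≤ Cn Y := by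
  intro x hx
  rw [mem_Cn]
  intro y hy
  have hm : y * x * y⁻¹ * x⁻¹ ∈ X ⊓ Y := by
    refine ⟨X.mul_mem (nz_conj (h2 hy) hx) (X.inv_mem hx), ?_⟩
    have : y * x * y⁻¹ * x⁻¹ = y * (x * y⁻¹ * x⁻¹) := by group
    rw [this]
    exact Y.mul_mem hy (nz_conj (h1 hx) (Y.inv_mem hy))
  rw [h, Subgroup.mem_bot] at hm
  calc y * x = y * x * y⁻¹ * x⁻¹ * (x * y) := by group
    _ = x * y := by rw [hm, one_mul]

theorem MinN.le_or_comm {H M N : Subgroup G} (hM : MinN H M) (h1 : N ≤ H)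
    (h2 : H ≤ normalizer (N : Set G)) : M ≤ N ∨ M ≤ Cn N := by
  by_cases h : M ⊓ N = ⊥
  · exact Or.inr (comm_of_inf_bot (hM.1.trans h2) (h1.trans hM.2.1) h)
  · exact Or.inl ((hM.2.2.2 _ inf_le_left (fun g hg => nz_inf (hM.2.1 hg) (h2 hg)) h).trans
      inf_le_right)

/-- the socle -/
def Soc (H : Subgroup G) : Subgroup G := sSup {M | MinN H M}

theorem Soc_le (H : Subgroup G) : Soc H ≤ H := sSup_le fun _ h => h.1

theorem MinN.cj {H M : Subgroup G} (hM : MinN H M) (g : G) : MinN (cj g H) (cj g M) := by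
  refine ⟨cj_mono g hM.1, ?_, fun h => hM.2.2.1 (cj_eq_bot.1 h), fun N a b c => ?_⟩
  · rw [← cj_nz]; exact cj_mono g hM.2.1
  · have e : ∀ X : Subgroup G, MP_607584_al.cj g⁻¹ (MP_607584_al.cj g X) = X := fun X => by
      rw [cj_cj, inv_mul_cancel, cj_one]
    rw [← cj_le_iff g⁻¹, e]
    refine hM.2.2.2 _ ?_ ?_ (fun h => c (cj_eq_bot.1 h))
    · rw [← e M]; exact cj_mono _ a
    · rw [← cj_nz, ← e H]; exact cj_mono _ b

theorem cj_Soc (g : G) (H : Subgroup G) : cj g (Soc H) = Soc (cj g H) := by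
  refine cj_eq_of_le (F := Soc) (fun g H => ?_) g H
  rw [← cj_le_iff g⁻¹, cj_cj, inv_mul_cancel, cj_one]
  refine sSup_le fun N hN => ?_
  rw [← cj_le_iff g, cj_cj, mul_inv_cancel, cj_one]
  exact le_sSup (MinN.cj hN g)

theorem exists_prime_pow_eq_one {H : Subgroup G} [Finite H] (h : H ≠ ⊥) :
    ∃ p : ℕ, p.Prime ∧ ∃ g ∈ H, g ≠ 1 ∧ g ^ p = 1 := by
  have : Nontrivial H := (Subgroup.nontrivial_iff_ne_bot H).2 h
  have h1 : Nat.card H ≠ 1 := (Finite.one_lt_card (α := H)).ne'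
  obtain ⟨p, hp, hd⟩ := Nat.exists_prime_and_dvd h1
  have := Fact.mk hp
  obtain ⟨x, hx⟩ := exists_prime_orderOf_dvd_card' p hd
  refine ⟨p, hp, x, x.2, ?_, ?_⟩
  · intro h0
    have : x = 1 := Subtype.ext h0
    rw [this, orderOf_one] at hx
    exact hp.ne_one hx.symm
  · have := pow_orderOf_eq_one x
    rw [hx] at this
    simpa using congrArg Subtype.val this

theorem isPGroup_OZ (p : ℕ) (H : Subgroup G) : IsPGroup p (OZ p H) := by
  rintro ⟨g, hg⟩
  exact ⟨1, Subtype.ext (by simpa using hg.2.2)⟩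

theorem nz_OZ {p : ℕ} {g : G} {X : Subgroup G} (hX : g ∈ normalizer (X : Set G)) :
    g ∈ normalizer ((OZ p X : Subgroup G) : Set G) := by
  rw [mem_nz] at *; rw [cj_OZ, hX]

theorem abelian_normal_eq_bot {H N : Subgroup G} [Finite H] (hO : ∀ p : ℕ, p.Prime → Op p H = ⊥)
    (h1 : N ≤ H) (h2 : H ≤ normalizer (N : Set G)) (h3 : N ≤ Cn N) : N = ⊥ := by
  by_contra hN
  have : Finite N := Finite.of_injective _ (Subgroup.inclusion_injective h1)
  obtain ⟨p, hp, g, hg, hg1, hgp⟩ := exists_prime_pow_eq_one hN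
  have h4 : OZ p N ≤ Op p H :=
    le_Op (fun k hk => h1 hk.1) (fun k hk => nz_OZ (h2 hk)) (isPGroup_OZ p N)
  have h5 : g ∈ OZ p N := ⟨hg, h3 hg, hgp⟩
  have := h4 h5
  rw [hO p hp, Subgroup.mem_bot] at this
  exact hg1 this

/-- a nontrivial normal subgroup of a finite `p`-group meets the centre in an element of
order `p` -/
theorem exists_central {p : ℕ} (hp : p.Prime) {E D : Subgroup G} [Finite E] (hE : IsPGroup p E)
    (h1 : D ≤ E) (h2 : E ≤ normalizer (D : Set G)) (h3 : D ≠ ⊥) :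
    ∃ g ∈ D, g ≠ 1 ∧ g ∈ Cn E ∧ g ^ p = 1 := by
  have := Fact.mk hp
  have : Finite D := Finite.of_injective _ (Subgroup.inclusion_injective h1)
  let _inst : MulAction E D :=
    { smul := fun e d => ⟨e * d * (e : G)⁻¹, nz_conj (h2 e.2) d.2⟩
      one_smul := fun d => Subtype.ext (by
        show ((1 : E) : G) * d * ((1 : E) : G)⁻¹ = d
        simp)
      mul_smul := fun a b d => Subtype.ext (by
        show ((a * b : E) : G) * d * ((a * b : E) : G)⁻¹ = a * (b * d * (b : G)⁻¹) * (a : G)⁻¹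
        simp [mul_assoc]) }
  have hsm : ∀ (e : E) (d : D), ((e • d : D) : G) = e * d * (e : G)⁻¹ := fun _ _ => rfl
  have hD : IsPGroup p D := hE.to_le h1
  have : Nontrivial D := (Subgroup.nontrivial_iff_ne_bot D).2 h3
  have hdvd : p ∣ Nat.card D := by
    obtain ⟨n, hn0, hn⟩ := hD.nontrivial_iff_card.1 this
    rw [hn]; exact dvd_pow_self p hn0.ne'
  have h0 : (1 : D) ∈ MulAction.fixedPoints E D := fun e => Subtype.ext (by rw [hsm]; simp)
  obtain ⟨d, hd, hd1⟩ := hE.exists_fixed_point_of_prime_dvd_card_of_fixed_point D hdvd h0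
  have hc : (d : G) ∈ Cn E := by
    rw [mem_Cn]
    intro k hk
    have := congrArg Subtype.val (hd ⟨k, hk⟩)
    rw [hsm] at this
    calc k * d = k * d * k⁻¹ * k := by group
      _ = d * k := by rw [this]
  have hne : (D ⊓ Cn E) ≠ ⊥ := by
    intro h
    have : (d : G) ∈ D ⊓ Cn E := ⟨d.2, hc⟩
    rw [h, Subgroup.mem_bot] at this
    exact hd1 (Subtype.ext this.symm)
  have : Finite (D ⊓ Cn E : Subgroup G) :=
    Finite.of_injective _ (Subgroup.inclusion_injective inf_le_left)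
  obtain ⟨q, hq, g, hg, hg1, hgq⟩ := exists_prime_pow_eq_one hne
  refine ⟨g, hg.1, hg1, hg.2, ?_⟩
  obtain ⟨k, hk⟩ := hD ⟨g, hg.1⟩
  have hk' : g ^ p ^ k = 1 := by simpa using congrArg Subtype.val hk
  have := Fact.mk hq
  have ho : orderOf g = q := orderOf_eq_prime hgq hg1
  have : q ∣ p ^ k := ho ▸ orderOf_dvd_of_pow_eq_one hk'
  have : q = p := (Nat.prime_dvd_prime_iff_eq hq hp).1 (hq.dvd_of_dvd_pow this)
  rw [← this]; exact hgq

end Pool.Agent.Lib.MP_607584_al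
end

-- part Pool.Agent.Lib.MP_607584_al.Cop
section

/-! Coprime action of an elementary abelian group. -/

namespace Pool.Agent.Lib.MP_607584_al

open Subgroup

section abelian

variable {M : Type*} [CommGroup M] {p : ℕ}

theorem norm_fixed (γ : MulAut M) (hγ : γ ^ p = 1) (m : M) :
    γ (∏ j ∈ Finset.range p, (γ ^ j) m) = ∏ j ∈ Finset.range p, (γ ^ j) m := by
  rw [map_prod]
  have h1 := Finset.prod_range_succ (fun j => (γ ^ j) m) p
  have h2 := Finset.prod_range_succ' (fun j => (γ ^ j) m) p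
  have h3 : ∀ j, γ ((γ ^ j) m) = (γ ^ (j + 1)) m := fun j => by rw [pow_succ']; rfl
  simp only [h3]
  rw [h1, hγ, pow_zero] at h2
  exact (mul_right_cancel h2).symm

theorem fixed_pow (γ : MulAut M) {m : M} (h : γ m = m) (n : ℕ) : (γ ^ n) m = m := by
  induction n with
  | zero => rfl
  | succ n ih => rw [pow_succ]; show (γ ^ n) (γ m) = m; rw [h, ih]

theorem ab_core (hp : p.Prime) (α β : MulAut M) (hc : Commute α β) (hα : α ^ p = 1)
    (hβ : β ^ p = 1) (h : ∀ i : ℕ, ∀ m, (α ^ i * β) m = m → α m = m) (m : M) :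
    α (m ^ p) = m ^ p := by
  let F : Subgroup M := MonoidHom.eqLocus α.toMonoidHom (MonoidHom.id M)
  have hF : ∀ x, x ∈ F ↔ α x = x := fun _ => Iff.rfl
  have h1 : ∏ i ∈ Finset.range p, ∏ j ∈ Finset.range p, ((α ^ i * β) ^ j) m ∈ F := by
    refine prod_mem fun i _ => (hF _).2 (h i _ (norm_fixed _ ?_ m))
    rw [(hc.pow_left i).mul_pow, ← pow_mul, mul_comm i p, pow_mul, hα, hβ, one_pow, one_mul]
  rw [Finset.prod_comm] at h1
  obtain ⟨n, rfl⟩ : ∃ n, p = n + 1 := ⟨p - 1, by have := hp.pos; omega⟩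
  rw [Finset.prod_range_succ'] at h1
  have h2 : ∏ j ∈ Finset.range n, ∏ i ∈ Finset.range (n + 1), ((α ^ i * β) ^ (j + 1)) m ∈ F := by
    refine prod_mem fun j hj => (hF _).2 ?_
    have e : ∀ i, ((α ^ i * β) ^ (j + 1)) m = ((α ^ (j + 1)) ^ i) ((β ^ (j + 1)) m) := fun i => by
      rw [(hc.pow_left i).mul_pow, ← pow_mul, ← pow_mul, mul_comm i]; rfl
    simp only [e]
    have h3 := norm_fixed (p := n + 1) (α ^ (j + 1))
      (by rw [← pow_mul, mul_comm, pow_mul, hα, one_pow]) ((β ^ (j + 1)) m)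
    have hcop : (j + 1).Coprime (orderOf α) := by
      refine Nat.Coprime.coprime_dvd_right (orderOf_dvd_of_pow_eq_one hα) ?_
      have := Finset.mem_range.1 hj
      exact (Nat.coprime_of_lt_prime (by omega) (by omega) hp).symm
    obtain ⟨k, hk⟩ := exists_pow_eq_self_of_coprime hcop
    have := fixed_pow _ h3 k
    rwa [hk] at this
  have h4 := F.mul_mem (F.inv_mem h2) h1
  simpa [hF] using h4

end abelian

variable {G : Type*} [Group G] {p : ℕ}

theorem lift_fixed (hp : p.Prime) {D : Subgroup G} [Finite D] (hD : ¬ p ∣ Nat.card D) {γ t : G}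
    (hn : γ ∈ normalizer (D : Set G)) (hγ : γ ^ p = 1) (ht : t⁻¹ * (γ * t * γ⁻¹) ∈ D) :
    ∃ z ∈ D, Commute γ (t * z) := by
  classical
  have := Fact.mk hp
  have := Fintype.ofFinite D
  let f : D → D := fun z => ⟨t⁻¹ * (γ * t * γ⁻¹) * (γ * z * γ⁻¹), D.mul_mem ht (nz_conj hn z.2)⟩
  have hf : Function.Injective f := fun a b hab => by
    have := congrArg Subtype.val hab
    simpa [f] using this
  let σ : Equiv.Perm D := Equiv.ofBijective f (Finite.injective_iff_bijective.1 hf)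
  have hσ : ∀ (n : ℕ) (z : D), (((σ ^ n) z : D) : G) = t⁻¹ * (γ ^ n * (t * z) * (γ ^ n)⁻¹) := by
    intro n
    induction n with
    | zero => intro z; simp
    | succ n ih =>
      intro z
      rw [pow_succ', Equiv.Perm.mul_apply]
      show t⁻¹ * (γ * t * γ⁻¹) * (γ * ((σ ^ n) z : D) * γ⁻¹) = _
      rw [ih, pow_succ']; group
  obtain ⟨z, hz⟩ := Equiv.Perm.exists_fixed_point_of_prime (p := p) (n := 1) (σ := σ)
    (by rwa [← Nat.card_eq_fintype_card]) (by
      ext z; rw [pow_one, hσ, hγ]; simp)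
  refine ⟨z, z.2, ?_⟩
  have h1 := hσ 1 z
  rw [pow_one, pow_one, hz] at h1
  show γ * (t * z) = t * z * γ
  calc γ * (t * z) = t * (t⁻¹ * (γ * (t * z) * γ⁻¹)) * γ := by group
    _ = t * z * γ := by rw [← h1]

/-- action on the abelianisation -/
def abHom (T : Type*) [Group T] : MulAut T →* MulAut (Abelianization T) where
  toFun e := e.abelianizationCongr
  map_one' := abelianizationCongr_refl
  map_mul' a b := (abelianizationCongr_trans b a).symm

theorem comm_lt {q : ℕ} (hq : q.Prime) (H : Subgroup G) [Finite H] (hH : IsPGroup q H)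
    (h : H ≠ ⊥) : ⁅H, H⁆ < H := by
  have := Fact.mk hq
  have := hH.isNilpotent
  rw [← nontrivial_iff_ne_bot] at h
  rw [← H.map_subtype_commutator]
  conv_rhs => rw [← H.range_subtype, MonoidHom.range_eq_map]
  rw [map_subtype_lt_map_subtype]
  exact Group.IsSolvable.commutator_lt_top_of_nontrivial H

theorem q_core (hp : p.Prime) {q : ℕ} (hq : q.Prime) (hpq : p ≠ q) {a b : G} (hc : Commute a b)
    (ha : a ^ p = 1) (hb : b ^ p = 1) : ∀ (n : ℕ) (T : Subgroup G) [Finite T], Nat.card T = n →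
      IsPGroup q T → a ∈ normalizer (T : Set G) → b ∈ normalizer (T : Set G) →
      (∀ i : ℕ, ∀ t ∈ T, Commute (a ^ i * b) t → Commute a t) → ∀ t ∈ T, Commute a t := by
  intro n
  induction n using Nat.strong_induction_on with
  | _ n ih =>
  intro T _ hn hT haT hbT h t ht
  by_cases h0 : T = ⊥
  · rw [h0, mem_bot] at ht; rw [ht]; exact Commute.one_right a
  have hlt := comm_lt hq T hT h0
  have := Fact.mk hq
  have hfin : Finite (⁅T, T⁆ : Subgroup G) :=
    Finite.of_injective _ (Subgroup.inclusion_injective hlt.le)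
  have hcard : Nat.card (⁅T, T⁆ : Subgroup G) < n := by
    rw [← hn]
    exact Set.ncard_lt_ncard (s := ((⁅T, T⁆ : Subgroup G) : Set G)) (t := (T : Set G)) hlt
      (Set.toFinite _)
  have hD := ih _ hcard ⁅T, T⁆ rfl (hT.to_le hlt.le) (nz_comm haT haT) (nz_comm hbT hbT)
    fun i t ht => h i t (hlt.le ht)
  have hnd : ¬ p ∣ Nat.card (⁅T, T⁆ : Subgroup G) := by
    obtain ⟨k, hk⟩ := IsPGroup.iff_card.1 (hT.to_le hlt.le)
    rw [hk]
    exact fun hd => hpq ((Nat.prime_dvd_prime_iff_eq hp hq).1 (hp.dvd_of_dvd_pow hd))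
  let ψ : normalizer (T : Set G) →* MulAut (Abelianization T) :=
    (abHom T).comp T.normalizerMonoidHom
  have hψ : ∀ (g : normalizer (T : Set G)) (t : T), ψ g (Abelianization.of t) =
      Abelianization.of ⟨g * t * (g : G)⁻¹, nz_conj g.2 t.2⟩ := fun _ _ => rfl
  have hker : ∀ s t : T, Abelianization.of s = Abelianization.of t →
      (s : G)⁻¹ * t ∈ (⁅T, T⁆ : Subgroup G) := fun s t hst => by
    have h1 : s⁻¹ * t ∈ commutator T := by
      rw [← Abelianization.ker_of, MonoidHom.mem_ker, map_mul, map_inv, hst, inv_mul_cancel]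
    rw [← T.map_subtype_commutator]
    exact ⟨_, h1, rfl⟩
  have hker' : ∀ (s : T) (z : G) (hz : z ∈ (⁅T, T⁆ : Subgroup G)),
      Abelianization.of (⟨s * z, T.mul_mem s.2 (hlt.le hz)⟩ : T) = Abelianization.of s := by
    intro s z hz
    have h1 : (⟨z, hlt.le hz⟩ : T) ∈ commutator T := by
      rw [← T.map_subtype_commutator] at hz
      obtain ⟨y, hy, rfl⟩ := hz
      exact hy
    rw [← Abelianization.ker_of, MonoidHom.mem_ker] at h1
    have : (⟨s * z, T.mul_mem s.2 (hlt.le hz)⟩ : T) = s * ⟨z, hlt.le hz⟩ := rfl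
    rw [this, map_mul, h1, mul_one]
  have lift : ∀ (g : normalizer (T : Set G)), (g : G) ^ p = 1 → ∀ s : T,
      ψ g (Abelianization.of s) = Abelianization.of s →
      ∃ z ∈ (⁅T, T⁆ : Subgroup G), Commute (g : G) (s * z) := fun g hg s hs =>
    lift_fixed hp hnd (nz_comm g.2 g.2) hg (hker s _ (hs.symm.trans (hψ g s)))
  have hfix : ∀ s : T, Commute a s → ψ ⟨a, haT⟩ (Abelianization.of s) = Abelianization.of s := by
    intro s hs
    rw [hψ]; congr 1; ext; simp [hs.eq]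
  have key := ab_core hp (ψ ⟨a, haT⟩) (ψ ⟨b, hbT⟩)
    (Commute.map (Subtype.ext hc.eq : Commute (⟨a, haT⟩ : normalizer (T : Set G)) ⟨b, hbT⟩) ψ)
    (by rw [← map_pow, ← ψ.map_one]; congr 1; exact Subtype.ext ha)
    (by rw [← map_pow, ← ψ.map_one]; congr 1; exact Subtype.ext hb) (by
      intro i m hm
      obtain ⟨s, rfl⟩ : ∃ s : T, Abelianization.of s = m := Quot.exists_rep m
      rw [← map_pow, ← map_mul] at hm
      obtain ⟨z, hz, hcz⟩ := lift _ (by
        show (a ^ i * b) ^ p = 1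
        rw [(hc.pow_left i).mul_pow, ← pow_mul, mul_comm i p, pow_mul, ha, hb, one_pow,
          one_mul]) s hm
      have h1 := hfix ⟨s * z, T.mul_mem s.2 (hlt.le hz)⟩ (h i _ (T.mul_mem s.2 (hlt.le hz)) hcz)
      rwa [hker' s z hz] at h1)
  obtain ⟨k, hk⟩ := hT ⟨t, ht⟩
  have hcop : p.Coprime (orderOf (⟨t, ht⟩ : T)) :=
    Nat.Coprime.coprime_dvd_right (orderOf_dvd_of_pow_eq_one hk)
      (Nat.Coprime.pow_right k ((Nat.coprime_primes hp hq).2 hpq))
  obtain ⟨m, hm⟩ := exists_pow_eq_self_of_coprime hcop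
  have h2 := key (Abelianization.of (⟨t, ht⟩ ^ m))
  rw [← map_pow, ← pow_mul, mul_comm m p, pow_mul, hm] at h2
  obtain ⟨z, hz, hcz⟩ := lift ⟨a, haT⟩ ha _ h2
  have h3 := hcz.mul_right (hD z hz).inv_right
  simpa using h3

theorem not_dvd_card (hp : p.Prime) {R : Subgroup G} [Finite R]
    (hR : ∀ r ∈ R, ∃ m : ℕ, m.Coprime p ∧ r ^ m = 1) : ¬ p ∣ Nat.card R := by
  intro hd
  have := Fact.mk hp
  obtain ⟨x, hx⟩ := exists_prime_orderOf_dvd_card' p hd
  obtain ⟨m, hm, h1⟩ := hR x x.2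
  have h2 : orderOf x ∣ m := orderOf_dvd_of_pow_eq_one (Subtype.ext h1)
  rw [hx] at h2
  exact hp.one_lt.ne' (Nat.Coprime.eq_one_of_dvd hm.symm h2)

open scoped Pointwise in
theorem cop_core (hp : p.Prime) {R : Subgroup G} [Finite R] (hR : ¬ p ∣ Nat.card R) {a b : G}
    (hc : Commute a b) (ha : a ^ p = 1) (hb : b ^ p = 1) (haR : a ∈ normalizer (R : Set G))
    (hbR : b ∈ normalizer (R : Set G))
    (h : ∀ i : ℕ, ∀ t ∈ R, Commute (a ^ i * b) t → Commute a t) : ∀ t ∈ R, Commute a t := by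
  have := Fact.mk hp
  let C : Subgroup R := (centralizer {a}).subgroupOf R
  have hC : C = ⊤ := by
    rw [← Subgroup.index_eq_one]
    by_contra hne
    obtain ⟨q, hq, hd⟩ := Nat.exists_prime_and_dvd hne
    have := Fact.mk hq
    have hpq : p ≠ q := fun e => hR (e ▸ hd.trans C.index_dvd_card)
    let a' : normalizer (R : Set G) := ⟨a, haR⟩
    let b' : normalizer (R : Set G) := ⟨b, hbR⟩
    have hE : IsPGroup p (zpowers a' ⊔ zpowers b' : Subgroup (normalizer (R : Set G))) := by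
      have z : ∀ c : normalizer (R : Set G), c ^ p = 1 → IsPGroup p (zpowers c) := by
        rintro c hc ⟨_, i, rfl⟩
        refine ⟨1, Subtype.ext ?_⟩
        show (c ^ i) ^ p ^ 1 = 1
        rw [pow_one, ← zpow_natCast, ← zpow_mul, mul_comm, zpow_mul, zpow_natCast, hc, one_zpow]
      refine (z a' (Subtype.ext ha)).to_sup_of_normal_right' (z b' (Subtype.ext hb)) ?_
      rw [zpowers_le]
      refine nz_of_comm ?_
      rintro _ ⟨i, rfl⟩
      exact (Commute.zpow_right (Subtype.ext hc.eq : Commute a' b') i).eq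
    obtain ⟨P0⟩ : Nonempty (Sylow q R) := inferInstance
    obtain ⟨P, hP⟩ := hE.nonempty_fixed_point_of_prime_not_dvd_card (Sylow q R)
      fun hd => hR ((hd.trans P0.card_dvd_index).trans P0.toSubgroup.index_dvd_card)
    let T : Subgroup G := P.toSubgroup.map R.subtype
    have hTR : T ≤ R := map_subtype_le _
    have hfin : Finite T := Finite.of_injective _ (Subgroup.inclusion_injective hTR)
    have hn : ∀ c : normalizer (R : Set G), c ∈ zpowers a' ⊔ zpowers b' →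
        (c : G) ∈ normalizer (T : Set G) := by
      have k1 : ∀ c : normalizer (R : Set G), c ∈ zpowers a' ⊔ zpowers b' →
          ∀ t ∈ T, (c : G) * t * (c : G)⁻¹ ∈ T := by
        rintro c hc _ ⟨s, hs, rfl⟩
        have h1 : c • P = P := hP ⟨c, hc⟩
        have h2 : c • s ∈ (c • P : Sylow q R).toSubgroup := smul_mem_pointwise_smul s c _ hs
        rw [h1] at h2
        exact ⟨_, h2, rfl⟩
      intro c hc
      rw [Subgroup.mem_normalizer_iff]
      refine fun t => ⟨k1 c hc t, fun ht => ?_⟩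
      have := k1 c⁻¹ (inv_mem hc) _ ht
      simpa [mul_assoc] using this
    have h3 := q_core hp hq hpq hc ha hb _ T rfl (P.isPGroup'.map _)
      (hn a' (mem_sup_left (mem_zpowers _))) (hn b' (mem_sup_right (mem_zpowers _)))
      fun i t ht => h i t (hTR ht)
    have h4 : P.toSubgroup ≤ C := fun s hs => by
      rw [mem_subgroupOf, mem_centralizer_singleton_iff]
      exact (h3 _ ⟨s, hs, rfl⟩).eq.symm
    exact P.not_dvd_index (hd.trans (index_dvd_of_le h4))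
  intro t ht
  have : (⟨t, ht⟩ : R) ∈ C := hC ▸ mem_top _
  rw [mem_subgroupOf, mem_centralizer_singleton_iff] at this
  exact this.symm

theorem cop2 (hp : p.Prime) {R A : Subgroup G} [Finite R] [Finite A]
    (hR : ∀ r ∈ R, ∃ m : ℕ, m.Coprime p ∧ r ^ m = 1) (hA : A ≤ normalizer (R : Set G))
    (hAc : ∀ a ∈ A, ∀ b ∈ A, Commute a b) (hAp : ∀ a ∈ A, a ^ p = 1) {a : G} (ha : a ∈ A)
    (hr : ∃ r ∈ R, ¬ Commute a r) :
    ∃ B ≤ A, (∀ x ∈ A, ∃ i < p, ∃ b ∈ B, x = a ^ i * b) ∧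
      ∃ r ∈ R, (∀ b ∈ B, Commute b r) ∧ ¬ Commute a r := by
  have hfin : {B : Subgroup G | B ≤ A ∧ ∃ r ∈ R, (∀ b ∈ B, Commute b r) ∧ ¬ Commute a r}.Finite :=
    (finite_subgroups A).subset fun N hN => hN.1
  obtain ⟨B, hB⟩ := hfin.exists_maximal ⟨⊥, bot_le, by
    obtain ⟨r, hr, h⟩ := hr
    exact ⟨r, hr, fun b hb => by rw [mem_bot.1 hb]; exact Commute.one_left r, h⟩⟩
  refine ⟨B, hB.prop.1, fun x hx => ?_, hB.prop.2⟩
  by_contra hcon
  obtain ⟨hBA, r, hrR, hr1, hr2⟩ := hB.prop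
  have hfin1 : Finite (R ⊓ Cn B : Subgroup G) :=
    Finite.of_injective _ (Subgroup.inclusion_injective inf_le_left)
  have hn : ∀ c ∈ A, c ∈ normalizer ((R ⊓ Cn B : Subgroup G) : Set G) := fun c hc =>
    nz_inf (hA hc) (nz_Cn (nz_of_comm fun k hk => (hAc c hc k (hBA hk)).eq))
  refine hr2 (cop_core hp (R := R ⊓ Cn B) (not_dvd_card hp fun r hr => hR r hr.1) (hAc a ha x hx)
    (hAp a ha) (hAp x hx) (hn a ha) (hn x hx) (fun i t ht hct => ?_) r
    ⟨hrR, mem_Cn.2 fun k hk => (hr1 k hk).eq⟩)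
  by_contra hat
  have hy : a ^ i * x ∈ A := A.mul_mem (A.pow_mem ha i) hx
  have h1 : B ⊔ zpowers (a ^ i * x) ≤ B := by
    refine hB.le_of_ge ⟨sup_le hBA (zpowers_le.2 hy), t, ht.1, fun b hb => ?_, hat⟩ le_sup_left
    have : B ⊔ zpowers (a ^ i * x) ≤ centralizer {t} := by
      refine sup_le (fun k hk => ?_) (zpowers_le.2 ?_)
      · rw [mem_centralizer_singleton_iff]; exact mem_Cn.1 ht.2 k hk
      · rw [mem_centralizer_singleton_iff]; exact hct.eq
    exact mem_centralizer_singleton_iff.1 (this hb)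
  refine hcon ⟨((p - 1) * i) % p, Nat.mod_lt _ hp.pos, a ^ i * x,
    h1 (mem_sup_right (mem_zpowers _)), ?_⟩
  rw [← pow_eq_pow_mod _ (hAp a ha), ← mul_assoc, ← pow_add]
  have : (p - 1) * i + i = p * i := by
    have := hp.pos
    obtain ⟨n, rfl⟩ : ∃ n, p = n + 1 := ⟨p - 1, by omega⟩
    simp; ring
  rw [this, pow_mul, hAp a ha, one_pow, one_mul]

end Pool.Agent.Lib.MP_607584_al
end

-- part Pool.Agent.Lib.MP_607584_al.Tv
section

/-! Transvections normalising a group of order prime to the characteristic. -/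

namespace Pool.Agent.Lib.MP_607584_al

open Subgroup

variable {p : ℕ} [hp : Fact p.Prime] {V : Type*} [AddCommGroup V] [Module (ZMod p) V]

theorem lin_fix {u : V ≃ₗ[ZMod p] V} {m : ℕ} (hm : m.Coprime p) (hu : u ^ m = 1) {v : V}
    (h : u (u v - v) = u v - v) : u v = v := by
  have key : ∀ n : ℕ, (u ^ n) v = v + (n : ZMod p) • (u v - v) := by
    intro n
    induction n with
    | zero => simp
    | succ n ih =>
      rw [pow_succ', LinearEquiv.mul_apply, ih, map_add, map_smul, h]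
      push_cast
      rw [add_smul, one_smul]; abel
  have h1 := key m
  rw [hu, LinearEquiv.coe_one, id, left_eq_add, smul_eq_zero] at h1
  rcases h1 with h1 | h1
  · rw [ZMod.natCast_eq_zero_iff] at h1
    exact absurd (Nat.Coprime.eq_one_of_dvd hm.symm h1) hp.out.ne_one
  · exact sub_eq_zero.1 h1

theorem lin_scalar {g : V ≃ₗ[ZMod p] V} {k : ℕ} (hg : g ^ p ^ k = 1) {w : V} {c : ZMod p}
    (h : g w = c • w) : g w = w := by
  have key : ∀ n : ℕ, (g ^ n) w = c ^ n • w := by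
    intro n
    induction n with
    | zero => simp
    | succ n ih => rw [pow_succ', LinearEquiv.mul_apply, ih, map_smul, h, smul_smul, pow_succ]
  have h1 := key (p ^ k)
  rw [hg, ZMod.pow_card_pow, LinearEquiv.coe_one, id] at h1
  rw [h, ← h1]

theorem fixed_vec [Finite V] {P : Subgroup (V ≃ₗ[ZMod p] V)} (hP : IsPGroup p P)
    (U : Submodule (ZMod p) V) (hU : ∀ g ∈ P, ∀ v ∈ U, g v ∈ U) {x : V} (hx : x ∈ U)
    (hx0 : x ≠ 0) : ∃ v ∈ U, v ≠ 0 ∧ ∀ g ∈ P, g v = v := by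
  let _inst : MulAction P U :=
    { smul := fun g v => ⟨g.1 v, hU g g.2 v v.2⟩
      one_smul := fun v => rfl
      mul_smul := fun a b v => rfl }
  have hsm : ∀ (g : P) (v : U), ((g • v : U) : V) = g.1 v := fun _ _ => rfl
  have hdvd : p ∣ Nat.card U := by
    have h1 : addOrderOf (⟨x, hx⟩ : U) = p := by
      refine addOrderOf_eq_prime ?_ (fun h => hx0 (congrArg Subtype.val h))
      rw [← Nat.cast_smul_eq_nsmul (ZMod p), ZMod.natCast_self, zero_smul]
    have h2 := addOrderOf_dvd_natCard (⟨x, hx⟩ : U)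
    rwa [h1] at h2
  have h0 : (0 : U) ∈ MulAction.fixedPoints P U := fun g => Subtype.ext (by rw [hsm]; simp)
  obtain ⟨d, hd, hd1⟩ := hP.exists_fixed_point_of_prime_dvd_card_of_fixed_point U hdvd h0
  exact ⟨d, d.2, fun h => hd1 (Subtype.ext h.symm),
    fun g hg => congrArg Subtype.val (hd ⟨g, hg⟩)⟩

/-- `t` is a transvection with functional `φ` and centre `w` -/
structure TvF (t : V ≃ₗ[ZMod p] V) (φ : V →ₗ[ZMod p] ZMod p) (w : V) : Prop where
  ne : w ≠ 0
  app : ∀ v, t v = v + φ v • w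
  zero : φ w = 0
  ex : ∃ v, φ v ≠ 0

theorem exists_TvF {t : V ≃ₗ[ZMod p] V} {k : ℕ} (ht : t ^ p ^ k = 1) {w : V} (hw : w ≠ 0)
    (h : ∀ v, ∃ c : ZMod p, t v = v + c • w) (hv : ∃ v, t v ≠ v) : ∃ φ, TvF t φ w := by
  choose c hc using h
  have inj : ∀ a b : ZMod p, a • w = b • w → a = b := fun a b hab => smul_left_injective _ hw hab
  let φ : V →ₗ[ZMod p] ZMod p :=
    { toFun := c
      map_add' := fun u v => inj _ _ (by
        have h1 := hc (u + v)
        rw [map_add, hc u, hc v] at h1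
        rw [add_smul]
        exact add_left_cancel (a := u + v) (by rw [← h1]; abel))
      map_smul' := fun a v => inj _ _ (by
        have h1 := hc (a • v)
        rw [map_smul, hc v, smul_add, smul_smul] at h1
        exact (add_left_cancel h1).symm) }
  refine ⟨φ, hw, hc, ?_, ?_⟩
  · have h1 : t w = (1 + c w) • w := by rw [hc, add_smul, one_smul]
    have h2 := lin_scalar ht h1
    rw [hc, add_eq_left] at h2
    exact inj _ _ (by rw [zero_smul]; exact h2)
  · obtain ⟨v, hv⟩ := hv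
    refine ⟨v, fun h0 => hv ?_⟩
    have : c v = 0 := h0
    rw [hc, this, zero_smul, add_zero]

variable {t t1 t2 g r : V ≃ₗ[ZMod p] V} {φ φ1 φ2 : V →ₗ[ZMod p] ZMod p} {w w1 w2 : V}
  {R P : Subgroup (V ≃ₗ[ZMod p] V)}

theorem inv_app (g : V ≃ₗ[ZMod p] V) (v : V) : g⁻¹ (g v) = v := g.symm_apply_apply v

theorem app_inv (g : V ≃ₗ[ZMod p] V) (v : V) : g (g⁻¹ v) = v := g.apply_symm_apply v

theorem TvF.inv_apply (h : TvF t φ w) (v : V) : t⁻¹ v = v - φ v • w := by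
  apply t.injective
  rw [app_inv, h.app, map_sub, map_smul, h.zero]; simp

theorem TvF.pow_apply (h : TvF t φ w) (j : ℕ) (v : V) :
    (t ^ j) v = v + ((j : ZMod p) * φ v) • w := by
  induction j with
  | zero => simp
  | succ j ih =>
    rw [pow_succ', LinearEquiv.mul_apply, ih, h.app, map_add, map_smul, h.zero]
    push_cast
    module

theorem TvF.conj (h : TvF t φ w) (g : V ≃ₗ[ZMod p] V) :
    TvF (g * t * g⁻¹) (φ ∘ₗ (g⁻¹ : V ≃ₗ[ZMod p] V).toLinearMap) (g w) where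
  ne := fun h0 => h.ne (g.map_eq_zero_iff.1 h0)
  app := fun v => by
    rw [LinearEquiv.mul_apply, LinearEquiv.mul_apply, h.app, map_add, map_smul, app_inv]; rfl
  zero := by
    show φ (g⁻¹ (g w)) = 0
    rw [inv_app, h.zero]
  ex := by
    obtain ⟨v, hv⟩ := h.ex
    refine ⟨g v, ?_⟩
    show φ (g⁻¹ (g v)) ≠ 0
    rwa [inv_app]

theorem TvF.centre (h1 : TvF t φ1 w1) (h2 : TvF t φ2 w2) : ∃ c : ZMod p, w2 = c • w1 := by
  obtain ⟨v, hv⟩ := h2.ex
  have h3 : φ2 v • w2 = φ1 v • w1 := add_left_cancel ((h2.app v).symm.trans (h1.app v))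
  refine ⟨(φ2 v)⁻¹ * φ1 v, ?_⟩
  rw [mul_smul, ← h3, smul_smul, inv_mul_cancel₀ hv, one_smul]

/-- the hypothesis that every element has order prime to `p` -/
def Cp (p : ℕ) {G : Type*} [Group G] (R : Subgroup G) : Prop :=
  ∀ r ∈ R, ∃ m : ℕ, m.Coprime p ∧ r ^ m = 1

theorem TvF.eq_of (hR : Cp p R) (h1 : TvF t1 φ1 w1) (h2 : TvF t2 φ2 w2) (hm : t1⁻¹ * t2 ∈ R)
    (h0 : φ1 w2 = 0) : t1 = t2 := by
  obtain ⟨m, hm1, hm2⟩ := hR _ hm
  have e : ∀ v, (t1⁻¹ * t2) v = v + φ2 v • w2 - φ1 v • w1 := fun v => by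
    rw [LinearEquiv.mul_apply, h1.inv_apply, h2.app, map_add, map_smul, h0]; simp
  have : t1⁻¹ * t2 = 1 := by
    ext v
    refine lin_fix hm1 hm2 (lin_fix hm1 hm2 ?_)
    simp only [e, map_add, map_sub, map_smul, h0, h1.zero, h2.zero, smul_eq_mul]
    module
  exact inv_mul_eq_one.1 this

theorem TvF.conj_eq (hR : Cp p R) (h : TvF t φ w) (hm : t⁻¹ * (g * t * g⁻¹) ∈ R)
    (h0 : φ (g w) = 0) : t = g * t * g⁻¹ ∧ ∃ c : ZMod p, g w = c • w := by
  have h1 := TvF.eq_of hR h (h.conj g) hm h0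
  have h2 := h.conj g
  rw [← h1] at h2
  exact ⟨h1, h.centre h2⟩

theorem conj_mem_R {G : Type*} [Group G] {R : Subgroup G} {t r : G}
    (ht : t ∈ normalizer (R : Set G)) (hr : r ∈ R) : t⁻¹ * (r * t * r⁻¹) ∈ R := by
  have : t⁻¹ * (r * t * r⁻¹) = t⁻¹ * r * t * r⁻¹ := by group
  rw [this]
  exact R.mul_mem (nz_conj' ht hr) (R.inv_mem hr)

theorem TvF.exists_r (hR : Cp p R) (h : TvF t φ w) (ht : t ∈ normalizer (R : Set _))
    (hF : ∃ r ∈ R, ¬ Commute t r) : ∃ r ∈ R, φ (r w) ≠ 0 := by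
  obtain ⟨r, hr, hc⟩ := hF
  refine ⟨r, hr, fun h0 => hc ?_⟩
  have := (h.conj_eq hR (conj_mem_R ht hr) h0).1
  show t * r = r * t
  calc t * r = r * t * r⁻¹ * r := by rw [← this]
    _ = r * t := by group

theorem TvF.span2 (hR : Cp p R) (h : TvF t φ w) (ht : t ∈ normalizer (R : Set _)) (hr : r ∈ R)
    (h0 : φ (r w) ≠ 0) {s : V ≃ₗ[ZMod p] V} (hs : s ∈ R) :
    ∃ α β : ZMod p, s w = α • w + β • r w := by
  have h3 := h.conj s
  set φ3 := φ ∘ₗ (s⁻¹ : V ≃ₗ[ZMod p] V).toLinearMap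
  by_cases h1 : φ3 w = 0
  · have h4 := TvF.eq_of hR h3 h (by simpa using R.inv_mem (conj_mem_R ht hs)) h1
    obtain ⟨c, hc⟩ := h.centre (h4 ▸ h3)
    exact ⟨c, 0, by rw [hc]; simp⟩
  obtain ⟨j, hj⟩ := ZMod.natCast_zmod_surjective (-φ3 (r w) / (φ (r w) * φ3 w))
  have h5 := h.conj (t ^ j * r)
  have h6 : (t ^ j * r) w = r w + ((j : ZMod p) * φ (r w)) • w := by
    rw [LinearEquiv.mul_apply, h.pow_apply]
  have h4 := TvF.eq_of hR h3 h5 (by
    have e : (s * t * s⁻¹)⁻¹ * (t ^ j * r * t * (t ^ j * r)⁻¹) = (t⁻¹ * (s * t * s⁻¹))⁻¹ *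
      (t ^ j * (t⁻¹ * (r * t * r⁻¹)) * (t ^ j)⁻¹) := by group
    rw [e]
    exact R.mul_mem (R.inv_mem (conj_mem_R ht hs))
      (nz_conj (pow_mem ht j) (conj_mem_R ht hr))) (by
    rw [h6, map_add, map_smul, hj, smul_eq_mul]
    field_simp
    ring)
  obtain ⟨c, hc⟩ := h5.centre (h4 ▸ h3)
  exact ⟨c * (j * φ (r w)), c, by rw [hc, h6]; module⟩

theorem TvF.pelt (hR : Cp p R) (h : TvF t φ w) (ht : t ∈ normalizer (R : Set _))
    (hg : g ∈ normalizer (R : Set _)) {k : ℕ} (hk : g ^ p ^ k = 1) (hw : g w = w) (hr : r ∈ R) :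
    ∃ c : ZMod p, g (r w) = r w + c • w := by
  by_cases h0 : φ (r w) = 0
  · obtain ⟨c, hc⟩ := (h.conj_eq hR (conj_mem_R ht hr) h0).2
    exact ⟨0, by rw [hc, map_smul, hw]; simp⟩
  obtain ⟨α, β, h1⟩ := h.span2 hR ht hr h0 (nz_conj hg hr)
  have hw' : g⁻¹ w = w := by
    apply g.injective; rw [app_inv, hw]
  rw [LinearEquiv.mul_apply, LinearEquiv.mul_apply, hw'] at h1
  have key : ∀ n : ℕ, ∃ a : ZMod p, (g ^ n) (r w) = a • w + β ^ n • r w := by
    intro n
    induction n with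
    | zero => exact ⟨0, by simp⟩
    | succ n ih =>
      obtain ⟨a, ha⟩ := ih
      refine ⟨a + β ^ n * α, ?_⟩
      rw [pow_succ', LinearEquiv.mul_apply, ha, map_add, map_smul, map_smul, hw, h1]
      module
  obtain ⟨a, ha⟩ := key (p ^ k)
  rw [hk, ZMod.pow_card_pow, LinearEquiv.coe_one, id] at ha
  have h2 := congrArg φ ha
  rw [map_add, map_smul, map_smul, h.zero, smul_zero, zero_add, smul_eq_mul] at h2
  have h3 : β = 1 := (mul_eq_right₀ h0).1 h2.symm
  exact ⟨α, by rw [h1, h3, one_smul, add_comm]⟩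

omit hp in
theorem pg_pow {G : Type*} [Group G] {P : Subgroup G} (hP : IsPGroup p P) {g : G} (hg : g ∈ P) :
    ∃ k, g ^ p ^ k = 1 := by
  obtain ⟨k, hk⟩ := hP ⟨g, hg⟩
  exact ⟨k, by simpa using congrArg Subtype.val hk⟩

/-- the standing hypotheses on the pair of linear groups -/
structure Pr (R P : Subgroup (V ≃ₗ[ZMod p] V)) : Prop where
  hR : Cp p R
  hP : IsPGroup p P
  hn : P ≤ normalizer (R : Set _)
  hF : ∀ a ∈ P, a ≠ 1 → ∃ r ∈ R, ¬ Commute a r

theorem TvF.ne_one (h : TvF t φ w) : t ≠ 1 := by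
  obtain ⟨v, hv⟩ := h.ex
  intro h1
  have := h.app v
  rw [h1, LinearEquiv.coe_one, id, left_eq_add, smul_eq_zero] at this
  exact this.elim hv h.ne

theorem Pr.one_zero (H : Pr R P) (h1 : TvF t1 φ1 w1) (h2 : TvF t2 φ2 w2) (m1 : t1 ∈ P)
    (m2 : t2 ∈ P) (h0 : φ1 w2 = 0) : φ2 w1 = 0 := by
  by_contra hne
  have m3 : t1⁻¹ * (t2 * t1 * t2⁻¹) ∈ P :=
    P.mul_mem (P.inv_mem m1) (P.mul_mem (P.mul_mem m2 m1) (P.inv_mem m2))
  have e : ∀ v, (t1⁻¹ * (t2 * t1 * t2⁻¹)) v = v + (φ1 v * φ2 w1) • w2 := fun v => by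
    simp only [LinearEquiv.mul_apply, h1.inv_apply, h2.inv_apply, h1.app, h2.app, map_add,
      map_sub, map_smul, h0, h1.zero, h2.zero, smul_eq_mul]
    module
  obtain ⟨r, hr, hr0⟩ := h1.exists_r H.hR (H.hn m1) (H.hF _ m1 h1.ne_one)
  obtain ⟨k, hk⟩ := pg_pow H.hP m3
  obtain ⟨c, hc⟩ := h1.pelt H.hR (H.hn m1) (H.hn m3) hk (by rw [e, h1.zero]; simp) hr
  rw [e, add_right_inj] at hc
  have h4 := congrArg φ2 hc
  rw [map_smul, map_smul, h2.zero, smul_zero, smul_eq_mul] at h4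
  have h5 : c = 0 := (mul_eq_zero.1 h4.symm).resolve_right hne
  rw [h5, zero_smul, smul_eq_zero] at hc
  exact hc.elim (mul_ne_zero hr0 hne) h2.ne

theorem Pr.zero [Finite V] (H : Pr R P) (h1 : TvF t1 φ1 w1) (h2 : TvF t2 φ2 w2) (m1 : t1 ∈ P)
    (m2 : t2 ∈ P) : φ2 w1 = 0 := by
  by_contra hne
  have hne' : φ1 w2 ≠ 0 := fun h0 => hne (H.one_zero h1 h2 m1 m2 h0)
  let U : Submodule (ZMod p) V := Submodule.span (ZMod p) {w1, w2}
  have u1 : w1 ∈ U := Submodule.subset_span (by simp)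
  have u2 : w2 ∈ U := Submodule.subset_span (by simp)
  have hle : closure {t1, t2} ≤ P := by
    rw [closure_le]; rintro x (rfl | rfl); exacts [m1, m2]
  obtain ⟨v, hv, hv0, hfix⟩ := fixed_vec (H.hP.to_le hle) U (by
    intro g hg
    induction hg using closure_induction_left with
    | one => exact fun v hv => hv
    | mul_left x hx y _ ih =>
      intro v hv
      rw [LinearEquiv.mul_apply]
      rcases hx with rfl | rfl
      · rw [h1.app]; exact U.add_mem (ih v hv) (U.smul_mem _ u1)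
      · rw [h2.app]; exact U.add_mem (ih v hv) (U.smul_mem _ u2)
    | inv_mul_cancel x hx y _ ih =>
      intro v hv
      rw [LinearEquiv.mul_apply]
      rcases hx with rfl | rfl
      · rw [h1.inv_apply]; exact U.sub_mem (ih v hv) (U.smul_mem _ u1)
      · rw [h2.inv_apply]; exact U.sub_mem (ih v hv) (U.smul_mem _ u2)) u1 h1.ne
  obtain ⟨a, b, rfl⟩ := Submodule.mem_span_pair.1 hv
  have e1 := hfix t1 (subset_closure (by simp))
  have e2 := hfix t2 (subset_closure (by simp))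
  rw [h1.app, add_eq_left, smul_eq_zero, map_add, map_smul, map_smul, h1.zero] at e1
  rw [h2.app, add_eq_left, smul_eq_zero, map_add, map_smul, map_smul, h2.zero] at e2
  have hb : b = 0 := by simpa [hne'] using e1.resolve_right h1.ne
  have ha : a = 0 := by simpa [hne] using e2.resolve_right h2.ne
  exact hv0 (by rw [ha, hb]; simp)

theorem Pr.fix [Finite V] (H : Pr R P) (h1 : TvF t1 φ1 w1) (h2 : TvF t2 φ2 w2) (m1 : t1 ∈ P)
    (m2 : t2 ∈ P) (hw : ¬ ∃ c : ZMod p, w2 = c • w1) (hr : r ∈ R) : t2 (r w1) = r w1 := by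
  obtain ⟨k, hk⟩ := pg_pow H.hP m2
  obtain ⟨c, hc⟩ := h1.pelt H.hR (H.hn m1) (H.hn m2) hk
    (by rw [h2.app, H.zero h1 h2 m1 m2]; simp) hr
  rw [h2.app, add_right_inj] at hc
  by_cases h0 : φ2 (r w1) = 0
  · rw [h2.app, h0]; simp
  · exact absurd ⟨(φ2 (r w1))⁻¹ * c, by
      rw [mul_smul, ← hc, smul_smul, inv_mul_cancel₀ h0, one_smul]⟩ hw

/-- fixed vectors -/
def Fx (A : Subgroup (V ≃ₗ[ZMod p] V)) : Submodule (ZMod p) V where
  carrier := {v | ∀ a ∈ A, a v = v}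
  zero_mem' := fun a _ => map_zero a
  add_mem' := fun h1 h2 a ha => by rw [map_add, h1 a ha, h2 a ha]
  smul_mem' := fun c v h a ha => by rw [map_smul, h a ha]

theorem line_inj (U : Submodule (ZMod p) V) {x : V} (hx : x ∉ U) :
    Function.Injective fun z : ZMod p × U => z.1 • x + (z.2 : V) := by
  rintro ⟨a, u⟩ ⟨b, v⟩ h
  have h1 : (a - b) • x = v - u := by
    have h2 : a • x + u = b • x + v := h
    rw [sub_smul, sub_eq_sub_iff_add_eq_add, h2, add_comm]
  have h3 : a = b := by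
    by_contra hne
    have := U.smul_mem (a - b)⁻¹ (h1 ▸ U.sub_mem v.2 u.2)
    rw [smul_smul, inv_mul_cancel₀ (sub_ne_zero.2 hne), one_smul] at this
    exact hx this
  subst h3
  exact Prod.ext rfl (Subtype.ext (add_left_cancel h))

theorem card_line (U : Submodule (ZMod p) V) : Nat.card (ZMod p × U) = p * Nat.card U := by
  rw [Nat.card_prod, Nat.card_zmod]

theorem finite_GL [Finite V] : Finite (V ≃ₗ[ZMod p] V) :=
  Finite.of_injective (fun g => (g : V → V)) DFunLike.coe_injective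

theorem Pr.step [Finite V] (H : Pr R P) {A : Subgroup (V ≃ₗ[ZMod p] V)} (hA : A ≤ P)
    (hAc : ∀ a ∈ A, ∀ b ∈ A, Commute a b) (hAp : ∀ a ∈ A, a ^ p = 1) {a : V ≃ₗ[ZMod p] V}
    (ha : a ∈ A) (ha1 : a ≠ 1) : ∃ B ≤ A, (∀ x ∈ A, ∃ i < p, ∃ b ∈ B, x = a ^ i * b) ∧
      Nat.card B < Nat.card A ∧ Nat.card A ≤ p * Nat.card B ∧
      p * Nat.card (Fx A) ≤ Nat.card (Fx B) := by
  have := finite_GL (p := p) (V := V)
  obtain ⟨B, hB, h1, r, hr, h2, h3⟩ := cop2 hp.out H.hR (hA.trans H.hn) hAc hAp ha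
    (H.hF a (hA ha) ha1)
  refine ⟨B, hB, h1, ?_, ?_, ?_⟩
  · have hlt : B < A := lt_of_le_of_ne hB fun h => h3 (h2 a (h ▸ ha))
    exact Set.ncard_lt_ncard (s := (B : Set (V ≃ₗ[ZMod p] V))) (t := (A : Set (V ≃ₗ[ZMod p] V)))
      hlt (Set.toFinite _)
  · have hs : Function.Surjective fun z : Fin p × B =>
        (⟨a ^ (z.1 : ℕ) * z.2, A.mul_mem (A.pow_mem ha _) (hB z.2.2)⟩ : A) := by
      rintro ⟨x, hx⟩
      obtain ⟨i, hi, b, hb, rfl⟩ := h1 x hx
      exact ⟨(⟨i, hi⟩, ⟨b, hb⟩), rfl⟩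
    simpa using Nat.card_le_card_of_surjective _ hs
  · have hle : Fx A ≤ Fx B := fun v hv b hb => hv b (hB hb)
    have hne : ¬ Fx B ≤ Fx A := by
      intro hle'
      have hu : a * r * a⁻¹ * r⁻¹ ∈ R := R.mul_mem (nz_conj (H.hn (hA ha)) hr) (R.inv_mem hr)
      set u := a * r * a⁻¹ * r⁻¹ with hud
      obtain ⟨m, hm, hum⟩ := H.hR u hu
      have hu1 : ∃ x, u x ≠ x := by
        by_contra hcon
        push Not at hcon
        have : u = 1 := LinearEquiv.ext hcon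
        refine h3 ?_
        show a * r = r * a
        calc a * r = u * (r * a) := by rw [hud]; group
          _ = r * a := by rw [this, one_mul]
      obtain ⟨x, hx⟩ := hu1
      have hcu : ∀ b ∈ B, Commute b u := fun b hb =>
        (((hAc b (hB hb) a ha).mul_right (h2 b hb)).mul_right
          (hAc b (hB hb) a ha).inv_right).mul_right (h2 b hb).inv_right
      obtain ⟨v, ⟨y, rfl⟩, hv0, hv⟩ := fixed_vec (H.hP.to_le (hB.trans hA))
        (LinearMap.range (u.toLinearMap - LinearMap.id)) (by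
          rintro b hb _ ⟨y, rfl⟩
          refine ⟨b y, ?_⟩
          have := LinearEquiv.congr_fun (hcu b hb).eq y
          simp only [LinearEquiv.mul_apply] at this
          simp [this]) ⟨x, rfl⟩ (sub_ne_zero.2 hx)
      have e : (u.toLinearMap - LinearMap.id : V →ₗ[ZMod p] V) y = u y - y := rfl
      rw [e] at hv0 hv
      refine hv0 (sub_eq_zero.2 (lin_fix hm hum ?_))
      set v := u y - y
      have h4 : r⁻¹ v ∈ Fx B := fun b hb => by
        have := LinearEquiv.congr_fun (h2 b hb).inv_right.eq v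
        simp only [LinearEquiv.mul_apply] at this
        rw [this, hv b hb]
      rw [hud, LinearEquiv.mul_apply, LinearEquiv.mul_apply, LinearEquiv.mul_apply,
        hle' h4 _ (A.inv_mem ha), app_inv, hle' hv a ha]
    obtain ⟨x, hx, hxA⟩ := SetLike.not_le_iff_exists.1 hne
    rw [← card_line]
    refine Nat.card_le_card_of_injective (fun z : ZMod p × Fx A =>
      (⟨z.1 • x + (z.2 : V), (Fx B).add_mem ((Fx B).smul_mem _ hx) (hle z.2.2)⟩ : Fx B)) ?_
    exact fun z z' h => line_inj _ hxA (congrArg Subtype.val h)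

theorem Pr.ineq [Finite V] (H : Pr R P) : ∀ (n : ℕ) (A : Subgroup (V ≃ₗ[ZMod p] V)),
    Nat.card A = n → A ≤ P → (∀ a ∈ A, ∀ b ∈ A, Commute a b) → (∀ a ∈ A, a ^ p = 1) →
    Nat.card A * Nat.card (Fx A) ≤ Nat.card V := by
  intro n
  induction n using Nat.strong_induction_on with
  | _ n ih =>
  intro A hn hA hAc hAp
  by_cases h0 : A = ⊥
  · rw [h0, card_bot, one_mul]
    exact Nat.card_le_card_of_injective _ Subtype.val_injective
  obtain ⟨⟨a, ha⟩, ha1⟩ := ne_bot_iff_exists_ne_one.1 h0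
  obtain ⟨B, hB, -, h2, h3, h4⟩ := H.step hA hAc hAp ha (fun h => ha1 (Subtype.ext h))
  have h5 := ih _ (hn ▸ h2) B rfl (hB.trans hA) (fun a ha b hb => hAc a (hB ha) b (hB hb))
    fun a ha => hAp a (hB ha)
  calc Nat.card A * Nat.card (Fx A) ≤ p * Nat.card B * Nat.card (Fx A) :=
        Nat.mul_le_mul_right _ h3
    _ = Nat.card B * (p * Nat.card (Fx A)) := by ring
    _ ≤ Nat.card B * Nat.card (Fx B) := Nat.mul_le_mul_left _ h4
    _ ≤ _ := h5

theorem Pr.gen [Finite V] (H : Pr R P) (L : Subgroup (V ≃ₗ[ZMod p] V)) :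
    ∀ (n : ℕ) (A : Subgroup (V ≃ₗ[ZMod p] V)),
    Nat.card A = n → A ≤ P → (∀ a ∈ A, ∀ b ∈ A, Commute a b) → (∀ a ∈ A, a ^ p = 1) →
    Nat.card V ≤ Nat.card A * Nat.card (Fx A) → (∀ t ∈ A, (∃ φ w, TvF t φ w) → t ∈ L) →
    A ≤ L := by
  intro n
  induction n using Nat.strong_induction_on with
  | _ n ih =>
  intro A hn hA hAc hAp hV hL a ha
  have sub : ∀ B ≤ A, Nat.card B < Nat.card A → Nat.card A ≤ p * Nat.card B →
      p * Nat.card (Fx A) ≤ Nat.card (Fx B) → B ≤ L := fun B hB h2 h3 h4 =>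
    ih _ (hn ▸ h2) B rfl (hB.trans hA) (fun a ha b hb => hAc a (hB ha) b (hB hb))
      (fun a ha => hAp a (hB ha)) (by
        calc Nat.card V ≤ Nat.card A * Nat.card (Fx A) := hV
          _ ≤ p * Nat.card B * Nat.card (Fx A) := Nat.mul_le_mul_right _ h3
          _ = Nat.card B * (p * Nat.card (Fx A)) := by ring
          _ ≤ Nat.card B * Nat.card (Fx B) := Nat.mul_le_mul_left _ h4)
      fun t ht => hL t (hB ht)
  by_cases ha1 : a = 1
  · rw [ha1]; exact L.one_mem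
  obtain ⟨B, hB, -, h2, h3, h4⟩ := H.step hA hAc hAp ha ha1
  by_cases h0 : B = ⊥
  · rw [h0, card_bot, mul_one] at h3
    obtain ⟨x, hx⟩ : ∃ x, a x ≠ x := by
      by_contra hcon
      push Not at hcon
      exact ha1 (LinearEquiv.ext hcon)
    have hxA : x ∉ Fx A := fun h => hx (h a ha)
    have hs := (line_inj _ hxA).bijective_of_nat_card_le (by
      rw [card_line]; exact hV.trans (Nat.mul_le_mul_right _ h3))
    obtain ⟨φ, hφ⟩ := exists_TvF (k := 1) (t := a) (by rw [pow_one, hAp a ha])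
      (sub_ne_zero.2 hx) (fun v => by
        obtain ⟨⟨c, u⟩, rfl⟩ := hs.2 v
        refine ⟨c, ?_⟩
        show a (c • x + u) = c • x + u + c • (a x - x)
        rw [map_add, map_smul, u.2 a ha]; module) ⟨x, hx⟩
    exact hL a ha ⟨φ, _, hφ⟩
  obtain ⟨⟨b, hb⟩, hb1⟩ := ne_bot_iff_exists_ne_one.1 h0
  obtain ⟨B', hB', k1, k2, k3, k4⟩ := H.step hA hAc hAp (hB hb) (fun h => hb1 (Subtype.ext h))
  obtain ⟨i, -, c, hc, rfl⟩ := k1 a ha
  exact L.mul_mem (L.pow_mem (sub B hB h2 h3 h4 hb) i) (sub B' hB' k2 k3 k4 hc)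

end Pool.Agent.Lib.MP_607584_al
end

-- part Pool.Agent.Lib.MP_607584_al.Tv2
section

/-! The planes attached to transvections. -/

namespace Pool.Agent.Lib.MP_607584_al

open Subgroup

theorem zmod_two : ∀ a b : ZMod 2, a ≠ 0 → b ≠ 0 → a = b := by decide

variable {p : ℕ} [hp : Fact p.Prime] {V : Type*} [AddCommGroup V] [Module (ZMod p) V]
variable {t t1 t2 g r : V ≃ₗ[ZMod p] V} {φ φ1 φ2 : V →ₗ[ZMod p] ZMod p} {w w1 w2 : V}
  {R P : Subgroup (V ≃ₗ[ZMod p] V)}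

/-- the span of an orbit -/
def Wsp (R : Subgroup (V ≃ₗ[ZMod p] V)) (w : V) : Submodule (ZMod p) V :=
  Submodule.span (ZMod p) {v | ∃ r ∈ R, r w = v}

theorem mem_Wsp (hr : r ∈ R) (w : V) : r w ∈ Wsp R w := Submodule.subset_span ⟨r, hr, rfl⟩

theorem self_mem_Wsp (w : V) : w ∈ Wsp R w := mem_Wsp R.one_mem w

theorem Wsp_map (hg : g ∈ normalizer (R : Set _)) {v : V} (hv : v ∈ Wsp R w) :
    g v ∈ Wsp R (g w) := by
  induction hv using Submodule.span_induction with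
  | mem x hx =>
    obtain ⟨r, hr, rfl⟩ := hx
    have := mem_Wsp (nz_conj hg hr) (g w)
    rwa [LinearEquiv.mul_apply, LinearEquiv.mul_apply, inv_app] at this
  | zero => rw [map_zero]; exact zero_mem _
  | add x y _ _ hx hy => rw [map_add]; exact add_mem hx hy
  | smul c x _ hx => rw [map_smul]; exact Submodule.smul_mem _ c hx

theorem Wsp_le {u : V} (hu : u ∈ Wsp R w) : Wsp R u ≤ Wsp R w := by
  refine Submodule.span_le.2 ?_
  rintro _ ⟨r, hr, rfl⟩
  have h1 := Wsp_map (le_normalizer hr) hu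
  have h2 : Wsp R (r w) ≤ Wsp R w := Submodule.span_le.2 (by
    rintro _ ⟨s, hs, rfl⟩
    exact mem_Wsp (R.mul_mem hs hr) w)
  exact h2 h1

theorem TvF.plane (hR : Cp p R) (h : TvF t φ w) (ht : t ∈ normalizer (R : Set _)) (hr : r ∈ R)
    (h0 : φ (r w) ≠ 0) {v : V} (hv : v ∈ Wsp R w) : ∃ α β : ZMod p, v = α • w + β • r w := by
  have : Wsp R w ≤ Submodule.span (ZMod p) {w, r w} := Submodule.span_le.2 (by
    rintro _ ⟨s, hs, rfl⟩
    obtain ⟨α, β, e⟩ := h.span2 hR ht hr h0 hs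
    exact Submodule.mem_span_pair.2 ⟨α, β, e.symm⟩)
  obtain ⟨α, β, e⟩ := Submodule.mem_span_pair.1 (this hv)
  exact ⟨α, β, e.symm⟩

theorem TvF.line_of (hR : Cp p R) (h : TvF t φ w) (ht : t ∈ normalizer (R : Set _))
    (hF : ∃ r ∈ R, ¬ Commute t r) {v : V} (hv : v ∈ Wsp R w) (h1 : t v = v) :
    ∃ c : ZMod p, v = c • w := by
  obtain ⟨r, hr, h0⟩ := h.exists_r hR ht hF
  obtain ⟨α, β, rfl⟩ := h.plane hR ht hr h0 hv
  rw [h.app, add_eq_left, smul_eq_zero, map_add, map_smul, map_smul, h.zero] at h1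
  have : β = 0 := by simpa [h0] using h1.resolve_right h.ne
  exact ⟨α, by rw [this]; simp⟩

theorem TvF.irred (hR : Cp p R) (h : TvF t φ w) (ht : t ∈ normalizer (R : Set _))
    (hF : ∃ r ∈ R, ¬ Commute t r) {u : V} (hu : u ∈ Wsp R w) (hu0 : u ≠ 0) : w ∈ Wsp R u := by
  obtain ⟨r, hr, h0⟩ := h.exists_r hR ht hF
  by_cases h1 : φ u = 0
  · obtain ⟨c, rfl⟩ := h.line_of hR ht hF hu (by rw [h.app, h1]; simp)
    have hc : c ≠ 0 := fun h2 => hu0 (by rw [h2, zero_smul])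
    have := (Wsp R (c • w)).smul_mem c⁻¹ (self_mem_Wsp _)
    rwa [smul_smul, inv_mul_cancel₀ hc, one_smul] at this
  by_contra hw
  have co : ∀ v ∈ Wsp R w, ∃ a : ZMod p, v = a • w + (φ v / φ u) • u := by
    intro v hv
    obtain ⟨a, ha⟩ := h.line_of hR ht hF ((Wsp R w).sub_mem hv ((Wsp R w).smul_mem (φ v / φ u) hu))
      (by rw [h.app, map_sub, map_smul, smul_eq_mul, div_mul_cancel₀ _ h1, sub_self]; simp)
    exact ⟨a, by rw [← ha]; abel⟩
  have eig : ∀ s ∈ R, s u = (φ (s u) / φ u) • u := by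
    intro s hs
    obtain ⟨a, ha⟩ := co (s u) (Wsp_le hu (mem_Wsp hs u))
    by_cases ha0 : a = 0
    · rw [ha0, zero_smul, zero_add] at ha; exact ha
    · refine absurd ?_ hw
      have h2 := (Wsp R u).smul_mem a⁻¹ ((Wsp R u).sub_mem (mem_Wsp hs u)
        ((Wsp R u).smul_mem (φ (s u) / φ u) (self_mem_Wsp u)))
      have e : s u - (φ (s u) / φ u) • u = a • w := by rw [sub_eq_iff_eq_add]; exact ha
      rwa [e, smul_smul, inv_mul_cancel₀ ha0, one_smul] at h2
  have ev : ∀ j : ℕ, ∃ χ : ZMod p, χ ≠ 0 ∧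
      φ (r u) + (j : ZMod p) * φ u * φ (r w) = χ * φ u ∧
      r u + ((j : ZMod p) * φ u) • r w = χ • (u + ((j : ZMod p) * φ u) • w) := by
    intro j
    have hs : (t ^ j)⁻¹ * r * t ^ j ∈ R := nz_conj' (pow_mem ht j) hr
    have h2 := eig _ hs
    set χ := φ (((t ^ j)⁻¹ * r * t ^ j) u) / φ u
    have h3 : r ((t ^ j) u) = χ • (t ^ j) u := by
      rw [← map_smul, ← h2, LinearEquiv.mul_apply, LinearEquiv.mul_apply, app_inv]
    rw [h.pow_apply, map_add, map_smul] at h3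
    refine ⟨χ, fun h4 => hu0 ?_, ?_, h3⟩
    · rw [h4, zero_smul] at h2
      exact (LinearEquiv.map_eq_zero_iff _).1 h2
    · have := congrArg φ h3
      simpa [h.zero] using this
  obtain ⟨χ0, n0, a0, b0⟩ := ev 0
  obtain ⟨χ1, n1, a1, b1⟩ := ev 1
  obtain ⟨χ2, n2, a2, b2⟩ := ev 2
  simp only [Nat.cast_zero, Nat.cast_one, Nat.cast_ofNat, zero_mul, one_mul, add_zero,
    zero_smul] at a0 a1 a2 b0 b1 b2
  have hne : χ1 ≠ χ0 := fun e => h0 (by
    have : φ u * φ (r w) = 0 := by rw [e] at a1; linear_combination a1 - a0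
    exact (mul_eq_zero.1 this).resolve_left h1)
  have e2 : χ2 = 2 * χ1 - χ0 := mul_right_cancel₀ h1 (by linear_combination 2 * a1 - a2 - a0)
  have e3 : (2 * φ u * (χ1 - χ0)) • w = 0 := by
    have : (2 * φ u * (χ1 - χ0)) • w = (r u + (2 * φ u) • r w) - (2 : ZMod p) • (r u + φ u • r w)
        + r u - (χ2 - 2 * χ1 + χ0) • u := by
      rw [b2, b1, b0, e2]; module
    rw [this, e2]; module
  have e4 : (2 : ZMod p) = 0 := by
    have := (smul_eq_zero.1 e3).resolve_right h.ne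
    simpa [h1, sub_ne_zero.2 hne] using this
  have e5 : p = 2 := by
    have : ((2 : ℕ) : ZMod p) = 0 := by exact_mod_cast e4
    rw [ZMod.natCast_eq_zero_iff] at this
    exact (Nat.prime_dvd_prime_iff_eq hp.out Nat.prime_two).1 this
  subst e5
  exact hne (zmod_two _ _ (fun h => n1 h) (fun h => n0 h))

theorem TvF.keeps (hR : Cp p R) (h1 : TvF t1 φ1 w1) (m1 : t1 ∈ normalizer (R : Set _))
    (hF : ∃ r ∈ R, ¬ Commute t1 r) (h2 : TvF t2 φ2 w2) (m2 : t2 ∈ normalizer (R : Set _)) {v : V}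
    (hv : v ∈ Wsp R w1) : t2 v ∈ Wsp R w1 := by
  obtain ⟨r, hr, h0⟩ := h1.exists_r hR m1 hF
  obtain ⟨u, hu, hu0, hfix⟩ : ∃ u ∈ Wsp R w1, u ≠ 0 ∧ t2 u = u := by
    by_cases h3 : φ2 w1 = 0
    · exact ⟨w1, self_mem_Wsp _, h1.ne, by rw [h2.app, h3]; simp⟩
    · refine ⟨φ2 (r w1) • w1 - φ2 w1 • r w1, sub_mem (Submodule.smul_mem _ _ (self_mem_Wsp _))
        (Submodule.smul_mem _ _ (mem_Wsp hr _)), fun h4 => ?_, ?_⟩
      · have := congrArg φ1 h4
        simp [h1.zero, h3, h0] at this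
      · rw [h2.app, map_sub, map_smul, map_smul, smul_eq_mul, smul_eq_mul, mul_comm, sub_self]
        simp
  have h5 := Wsp_map m2 (Wsp_le (h1.irred hR m1 hF hu hu0) hv)
  rw [hfix] at h5
  exact Wsp_le hu h5

theorem Pr.commute [Finite V] (H : Pr R P) (h1 : TvF t1 φ1 w1) (h2 : TvF t2 φ2 w2) (m1 : t1 ∈ P)
    (m2 : t2 ∈ P) : Commute t1 t2 := by
  have a := H.zero h1 h2 m1 m2
  have b := H.zero h2 h1 m2 m1
  ext v
  simp only [LinearEquiv.mul_apply, h1.app, h2.app, map_add, map_smul, a, b, smul_eq_mul]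
  module

theorem Pr.same (H : Pr R P) (h1 : TvF t1 φ1 w1) (h2 : TvF t2 φ2 w2) (m1 : t1 ∈ P)
    (m2 : t2 ∈ P) {c : ZMod p} (hw : w2 = c • w1) : ∃ j : ℕ, t1 ^ j = t2 := by
  obtain ⟨r, hr, h0⟩ := h1.exists_r H.hR (H.hn m1) (H.hF _ m1 h1.ne_one)
  obtain ⟨j, hj⟩ := ZMod.natCast_zmod_surjective (c * φ2 (r w1) / φ1 (r w1))
  refine ⟨j, ?_⟩
  by_contra hne
  have m3 : (t1 ^ j)⁻¹ * t2 ∈ P := P.mul_mem (P.inv_mem (P.pow_mem m1 j)) m2
  have e : ∀ v, ((t1 ^ j)⁻¹ * t2) v = v + (c * φ2 v - j * φ1 v) • w1 := fun v => by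
    apply (t1 ^ j).injective
    rw [LinearEquiv.mul_apply, app_inv, h1.pow_apply, h2.app, hw, map_add, map_smul, h1.zero]
    module
  have hc : c ≠ 0 := fun h => h2.ne (by rw [hw, h, zero_smul])
  have z : φ2 w1 = 0 := by
    have := h2.zero
    rw [hw, map_smul, smul_eq_mul] at this
    exact (mul_eq_zero.1 this).resolve_left hc
  obtain ⟨k, hk⟩ := pg_pow H.hP m3
  obtain ⟨ψ, h3⟩ := exists_TvF hk h1.ne (fun v => ⟨_, e v⟩) (by
    by_contra hcon
    push Not at hcon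
    exact hne (inv_mul_eq_one.1 (LinearEquiv.ext hcon)))
  obtain ⟨s, hs, h4⟩ := h3.exists_r H.hR (H.hn m3) (H.hF _ m3 h3.ne_one)
  obtain ⟨α, β, e2⟩ := h1.span2 H.hR (H.hn m1) hr h0 hs
  have h5 : ((t1 ^ j)⁻¹ * t2) (s w1) = s w1 := by
    rw [e2, map_add, map_smul, map_smul, e, e, hj, z, h1.zero, div_mul_cancel₀ _ h0]
    simp
  rw [h3.app, add_eq_left, smul_eq_zero] at h5
  exact h5.elim h4 h1.ne

theorem fix_Wsp (h : ∀ r ∈ R, g (r w) = r w) {v : V} (hv : v ∈ Wsp R w) : g v = v := by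
  induction hv using Submodule.span_induction with
  | mem x hx => obtain ⟨r, hr, rfl⟩ := hx; exact h r hr
  | zero => exact map_zero _
  | add x y _ _ hx hy => rw [map_add, hx, hy]
  | smul c x _ hx => rw [map_smul, hx]

end Pool.Agent.Lib.MP_607584_al
end
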